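import Pool.Agent.Helper470.ZA.Defs
set_option autoImplicit false
open Finset
open scoped Classical

namespace ZA
namespace JB1


theorem cnt_union_aux {ι : Type} (s u : Finset ι) (h : Disjoint s u) (y : ι → ℝ) (t : ℝ) :
    cnt (s ∪ u) y t = ∑ B ∈ u.powerset, cnt s y (t - ∑ i ∈ B, y i) := by
  unfold cnt
  rw [Finset.card_eq_sum_card_fiberwise (f := fun C => C ∩ u) (t := u.powerset)]
  · apply Finset.sum_congr rfl
    intro B hB
    rw [Finset.mem_powerset] at hB
    apply Finset.card_bij' (i := fun C _ => C \ u) (j := fun A _ => A ∪ B)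
    · intro C hC
      simp only [Finset.mem_filter, Finset.mem_powerset] at hC ⊢
      obtain ⟨⟨h1, h2⟩, h3⟩ := hC
      refine ⟨?_, ?_⟩
      · intro x hx
        rw [Finset.mem_sdiff] at hx
        rcases Finset.mem_union.1 (h1 hx.1) with h4 | h4
        · exact h4
        · exact absurd h4 hx.2
      · have := Finset.sum_inter_add_sum_sdiff C u y
        rw [h3, h2] at this
        linarith
    · intro A hA
      simp only [Finset.mem_filter, Finset.mem_powerset] at hA ⊢
      obtain ⟨h1, h2⟩ := hA
      have hAB : Disjoint A B := Finset.disjoint_of_subset_left h1 (Finset.disjoint_of_subset_right hB h)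
      refine ⟨⟨Finset.union_subset_union h1 hB, ?_⟩, ?_⟩
      · rw [Finset.sum_union hAB, h2]
        ring
      · ext x
        simp only [Finset.mem_inter, Finset.mem_union]
        constructor
        · rintro ⟨h4 | h4, h5⟩
          · exact absurd h5 (Finset.disjoint_left.1 h (h1 h4))
          · exact h4
        · intro h4
          exact ⟨Or.inr h4, hB h4⟩
    · intro C hC
      simp only [Finset.mem_filter, Finset.mem_powerset] at hC
      obtain ⟨⟨h1, h2⟩, h3⟩ := hC
      rw [← h3]
      exact Finset.sdiff_union_inter C u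
    · intro A hA
      simp only [Finset.mem_filter, Finset.mem_powerset] at hA
      obtain ⟨h1, h2⟩ := hA
      ext x
      simp only [Finset.mem_sdiff, Finset.mem_union]
      constructor
      · rintro ⟨h4 | h4, h5⟩
        · exact h4
        · exact absurd (hB h4) h5
      · intro h4
        exact ⟨Or.inl h4, fun h5 => Finset.disjoint_left.1 h (h1 h4) h5⟩
  · intro C _
    simp only [Finset.coe_powerset, Set.mem_preimage, Set.mem_powerset_iff, Finset.coe_subset]
    exact Finset.inter_subset_right


-- TARGET (prove this)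
theorem pr_union {ι : Type} (s u : Finset ι) (h : Disjoint s u) (y : ι → ℝ) (t : ℝ) :
    pr (s ∪ u) y t = (∑ B ∈ u.powerset, pr s y (t - ∑ i ∈ B, y i)) / 2 ^ u.card := by
  unfold pr
  rw [cnt_union_aux s u h y t, Finset.card_union_of_disjoint h, pow_add, Finset.sum_div]
  push_cast
  rw [Finset.sum_div]
  apply Finset.sum_congr rfl
  intro B _
  rw [div_div]

-- TARGET (prove this)
theorem pr_nonneg {ι : Type} (s : Finset ι) (y : ι → ℝ) (t : ℝ) : 0 ≤ pr s y t := by
  unfold pr
  positivity

-- TARGET (prove this)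
theorem pr_le_of_subset {ι : Type} (s w : Finset ι) (h : s ⊆ w) (y : ι → ℝ) (M : ℝ)
    (hM : ∀ τ : ℝ, pr s y τ ≤ M) (t : ℝ) : pr w y t ≤ M := by
  rw [← Finset.union_sdiff_of_subset h, pr_union s (w \ s) Finset.disjoint_sdiff y t,
    div_le_iff₀ (by positivity)]
  have h1 := Finset.sum_le_card_nsmul (w \ s).powerset (fun B => pr s y (t - ∑ i ∈ B, y i)) M
    (fun B _ => hM _)
  rw [Finset.card_powerset, nsmul_eq_mul] at h1
  push_cast at h1
  linarith

-- TARGET (prove this)
theorem pr_zeros {ι : Type} (s w : Finset ι) (h : s ⊆ w) (y : ι → ℝ) (h0 : ∀ i ∈ w, i ∉ s → y i = 0) (t : ℝ) :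
    pr w y t = pr s y t := by
  have h1 : ∀ B ∈ (w \ s).powerset, pr s y (t - ∑ i ∈ B, y i) = pr s y t := by
    intro B hB
    rw [Finset.mem_powerset] at hB
    have h2 : ∑ i ∈ B, y i = 0 := by
      apply Finset.sum_eq_zero
      intro i hi
      have := Finset.mem_sdiff.1 (hB hi)
      exact h0 i this.1 this.2
    rw [h2, sub_zero]
  have h3 : pr w y t = pr (s ∪ (w \ s)) y t := by rw [Finset.union_sdiff_of_subset h]
  rw [h3, pr_union s (w \ s) Finset.disjoint_sdiff y t, Finset.sum_congr rfl h1, Finset.sum_const,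
    Finset.card_powerset, nsmul_eq_mul]
  push_cast
  field_simp

-- TARGET (prove this)
theorem pr_scale {ι : Type} (s : Finset ι) (y : ι → ℝ) (c : ℝ) (hc : c ≠ 0) (t : ℝ) :
    pr s (fun i => c * y i) (c * t) = pr s y t := by
  unfold pr cnt
  congr 3
  apply Finset.filter_congr
  intro B _
  rw [← Finset.mul_sum]
  exact mul_right_inj' hc

-- TARGET (prove this)
theorem pr_congr {ι : Type} (s : Finset ι) (y y' : ι → ℝ) (h : ∀ i ∈ s, y i = y' i) (t : ℝ) :
    pr s y t = pr s y' t := by
  unfold pr cnt
  congr 3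
  apply Finset.filter_congr
  intro B hB
  rw [Finset.mem_powerset] at hB
  rw [Finset.sum_congr rfl (fun i hi => h i (hB hi))]


end JB1
export JB1 (pr_union pr_nonneg pr_le_of_subset pr_zeros pr_scale pr_congr)
end ZA
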