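import Pool.Agent.Helper470.ZA.Defs
set_option autoImplicit false
open Finset
open scoped Classical

namespace ZA
namespace JB2


theorem window_cb (m : ℕ) : (2 * m + 1) * (Nat.centralBinom m) ^ 2 ≤ 16 ^ m := by
  induction m with
  | zero => simp
  | succ m ih =>
    have h := Nat.succ_mul_centralBinom_succ m
    have h2 : (m + 1) ^ 2 * ((2 * (m + 1) + 1) * (Nat.centralBinom (m + 1)) ^ 2) ≤
        (m + 1) ^ 2 * 16 ^ (m + 1) := by
      calc (m + 1) ^ 2 * ((2 * (m + 1) + 1) * (Nat.centralBinom (m + 1)) ^ 2)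
          = (2 * m + 3) * ((m + 1) * Nat.centralBinom (m + 1)) ^ 2 := by ring
        _ = (2 * m + 3) * (2 * (2 * m + 1) * Nat.centralBinom m) ^ 2 := by rw [h]
        _ = 4 * ((2 * m + 3) * (2 * m + 1)) * ((2 * m + 1) * Nat.centralBinom m ^ 2) := by ring
        _ ≤ 4 * (4 * (m + 1) ^ 2) * 16 ^ m := by
            refine Nat.mul_le_mul (Nat.mul_le_mul le_rfl ?_) ih
            nlinarith
        _ = (m + 1) ^ 2 * 16 ^ (m + 1) := by ring
    exact Nat.le_of_mul_le_mul_left h2 (by positivity)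

theorem window_ch (N : ℕ) : N * (N.choose (N / 2)) ^ 2 ≤ 4 ^ N := by
  rcases Nat.even_or_odd' N with ⟨m, rfl | rfl⟩
  · have h := window_cb m
    have e : (2 * m) / 2 = m := by omega
    rw [e]
    have e2 : (2 * m).choose m = Nat.centralBinom m := rfl
    rw [e2, show (4 : ℕ) ^ (2 * m) = 16 ^ m by rw [pow_mul]; norm_num]
    nlinarith
  · have h := window_cb (m + 1)
    have e : (2 * m + 1) / 2 = m := by omega
    rw [e]
    have e2 : Nat.centralBinom (m + 1) = 2 * (2 * m + 1).choose m := by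
      rw [Nat.centralBinom_eq_two_mul_choose, show 2 * (m + 1) = (2 * m + 1) + 1 by ring,
        Nat.choose_succ_succ, Nat.choose_symm_half]
      ring
    rw [e2] at h
    have e3 : (4 : ℕ) ^ (2 * m + 1) = 4 * 16 ^ m := by
      rw [pow_succ, pow_mul]; norm_num; ring
    rw [e3]
    have e4 : (16 : ℕ) ^ (m + 1) = 16 * 16 ^ m := by ring
    rw [e4] at h
    nlinarith [sq_nonneg ((2 * m + 1).choose m)]

theorem window_real (N : ℕ) (hN : 0 < N) : ((N.choose (N / 2) : ℕ) : ℝ) / 2 ^ N ≤ 1 / √(N : ℝ) := by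
  have hN' : (0 : ℝ) < N := by exact_mod_cast hN
  rw [div_le_div_iff₀ (by positivity) (Real.sqrt_pos.2 hN'), one_mul]
  refine le_of_sq_le_sq ?_ (by positivity)
  rw [mul_pow, Real.sq_sqrt hN'.le]
  have := window_ch N
  have h2 : ((N.choose (N / 2) : ℕ) : ℝ) ^ 2 * N ≤ 4 ^ N := by
    rw [mul_comm]; exact_mod_cast this
  calc ((N.choose (N / 2) : ℕ) : ℝ) ^ 2 * N ≤ 4 ^ N := h2
    _ = (2 ^ N) ^ 2 := by rw [← pow_mul, mul_comm, pow_mul]; norm_num

theorem window_fin {α : Type} [Fintype α] (y : α → ℝ) (a : ℝ) (ha : 0 < a)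
    (hy : ∀ i, a ≤ |y i|) (u : ℝ) :
    ((univ : Finset (Finset α)).filter
      (fun B => u ≤ ∑ i ∈ B, y i ∧ ∑ i ∈ B, y i < u + a)).card ≤
      (Fintype.card α).choose (Fintype.card α / 2) := by
  set Ng : Finset α := univ.filter (fun i => y i < 0) with hNg
  have hmem : ∀ i, i ∈ Ng ↔ y i < 0 := fun i => by simp [hNg]
  have hsum : ∀ (C : Finset α) (f : α → ℝ), ∑ i ∈ C, f i = ∑ i, if i ∈ C then f i else 0 := by
    intro C f
    rw [Finset.sum_ite_mem, Finset.univ_inter]
  have key : ∀ C : Finset α, ∑ i ∈ C, y i = ∑ i ∈ symmDiff C Ng, |y i| + ∑ i ∈ Ng, y i := by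
    intro C
    rw [hsum C, hsum (symmDiff C Ng), hsum Ng, ← Finset.sum_add_distrib]
    refine Finset.sum_congr rfl fun i _ => ?_
    by_cases h1 : i ∈ C <;> by_cases h2 : y i < 0
    · simp [Finset.mem_symmDiff, hmem, h1, h2]
    · simp [Finset.mem_symmDiff, hmem, h1, h2, abs_of_nonneg (not_lt.1 h2)]
    · simp [Finset.mem_symmDiff, hmem, h1, h2, abs_of_neg h2]
    · simp [Finset.mem_symmDiff, hmem, h1, h2]
  set F := (univ : Finset (Finset α)).filter
      (fun B => u ≤ ∑ i ∈ B, y i ∧ ∑ i ∈ B, y i < u + a) with hF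
  have hinj : Function.Injective (fun C : Finset α => symmDiff C Ng) := symmDiff_left_injective Ng
  have hcard : (F.image (fun C : Finset α => symmDiff C Ng)).card = F.card :=
    Finset.card_image_of_injective _ hinj
  rw [← hcard]
  refine IsAntichain.sperner ?_
  intro C' hC' D' hD' hne hsub
  rw [Finset.mem_coe, Finset.mem_image] at hC' hD'
  obtain ⟨C, hC, rfl⟩ := hC'
  obtain ⟨D, hD, rfl⟩ := hD'
  rw [hF, Finset.mem_filter] at hC hD
  have hss : symmDiff C Ng ⊆ symmDiff D Ng := hsub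
  obtain ⟨i, hi, hi'⟩ : ∃ i ∈ symmDiff D Ng, i ∉ symmDiff C Ng := by
    by_contra hcon
    push Not at hcon
    exact hne (Finset.Subset.antisymm hss hcon)
  have h1 : ∑ i ∈ symmDiff C Ng, |y i| + a ≤ ∑ i ∈ symmDiff D Ng, |y i| := by
    calc ∑ i ∈ symmDiff C Ng, |y i| + a ≤ ∑ i ∈ symmDiff C Ng, |y i| + |y i| := by
          linarith [hy i]
      _ = ∑ j ∈ insert i (symmDiff C Ng), |y j| := by
          rw [Finset.sum_insert hi', add_comm]
      _ ≤ ∑ i ∈ symmDiff D Ng, |y i| := by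
          refine Finset.sum_le_sum_of_subset_of_nonneg ?_ fun _ _ _ => abs_nonneg _
          exact Finset.insert_subset hi hss
  have h2 := key C
  have h3 := key D
  linarith [hC.2.1, hD.2.2]

-- TARGET (prove this)
theorem window {ι : Type} (s : Finset ι) (hs : s.Nonempty) (y : ι → ℝ) (a : ℝ) (ha : 0 < a)
    (hy : ∀ i ∈ s, a ≤ |y i|) (u : ℝ) :
    ((s.powerset.filter (fun B => u ≤ ∑ i ∈ B, y i ∧ ∑ i ∈ B, y i < u + a)).card : ℝ) / 2 ^ s.card
      ≤ 1 / √(s.card : ℝ) := by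
  have h1 := window_fin (α := {i // i ∈ s}) (fun i => y i.1) a ha (fun i => hy i.1 i.2) u
  rw [Fintype.card_coe] at h1
  have h2 : (s.powerset.filter (fun B => u ≤ ∑ i ∈ B, y i ∧ ∑ i ∈ B, y i < u + a)).card ≤
      ((univ : Finset (Finset {i // i ∈ s})).filter
      (fun B => u ≤ ∑ i ∈ B, y i.1 ∧ ∑ i ∈ B, y i.1 < u + a)).card := by
    refine Finset.card_le_card_of_injOn (fun B => B.subtype (· ∈ s)) ?_ ?_
    · intro B hB
      rw [Finset.mem_coe, Finset.mem_filter, Finset.mem_powerset] at hB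
      rw [Finset.mem_coe, Finset.mem_filter]
      refine ⟨Finset.mem_univ _, ?_⟩
      have e : ∑ i ∈ B.subtype (· ∈ s), y i.1 = ∑ i ∈ B, y i := by
        rw [Finset.sum_subtype_eq_sum_filter]
        refine Finset.sum_congr ?_ fun _ _ => rfl
        exact Finset.filter_true_of_mem fun i hi => hB.1 hi
      rw [e]
      exact hB.2
    · intro B hB C hC hBC
      rw [Finset.mem_coe, Finset.mem_filter, Finset.mem_powerset] at hB hC
      have hBC' : B.subtype (· ∈ s) = C.subtype (· ∈ s) := hBC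
      ext i
      constructor
      · intro hi
        have : (⟨i, hB.1 hi⟩ : {i // i ∈ s}) ∈ B.subtype (· ∈ s) := Finset.mem_subtype.2 hi
        rw [hBC'] at this
        exact Finset.mem_subtype.1 this
      · intro hi
        have : (⟨i, hC.1 hi⟩ : {i // i ∈ s}) ∈ C.subtype (· ∈ s) := Finset.mem_subtype.2 hi
        rw [← hBC'] at this
        exact Finset.mem_subtype.1 this
  refine le_trans ?_ (window_real s.card (Finset.card_pos.2 hs))
  gcongr
  exact h2.trans h1

-- TARGET (prove this)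
theorem pr_le_LO {ι : Type} (s : Finset ι) (hs : s.Nonempty) (y : ι → ℝ)
    (hy : ∀ i ∈ s, y i ≠ 0) (t : ℝ) : pr s y t ≤ 1 / √(s.card : ℝ) := by
  obtain ⟨j, hj, hmin⟩ := Finset.exists_min_image s (fun i => |y i|) hs
  have ha : 0 < |y j| := abs_pos.2 (hy j hj)
  refine le_trans ?_ (window s hs y |y j| ha hmin t)
  unfold pr cnt
  have h1 : (s.powerset.filter (fun B => ∑ i ∈ B, y i = t)).card ≤
      (s.powerset.filter (fun B => t ≤ ∑ i ∈ B, y i ∧ ∑ i ∈ B, y i < t + |y j|)).card := by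
    refine Finset.card_le_card fun B hB => ?_
    rw [Finset.mem_filter] at hB ⊢
    exact ⟨hB.1, hB.2.ge, by linarith [hB.2]⟩
  gcongr


end JB2
export JB2 (window pr_le_LO)
end ZA
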