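import Pool.Agent.Helper470.ZA.Defs
set_option autoImplicit false
open Finset
open scoped Classical

namespace ZA
namespace JC1


theorem block_max_cb (k : ℕ) : (2 * k + 1) * (Nat.centralBinom k) ^ 2 ≤ 16 ^ k := by
  induction k with
  | zero => simp
  | succ k ih =>
    have h := Nat.succ_mul_centralBinom_succ k
    have h2 : (k + 1) ^ 2 * ((2 * (k + 1) + 1) * (Nat.centralBinom (k + 1)) ^ 2) =
        4 * (2 * k + 1) * (2 * k + 3) * ((2 * k + 1) * (Nat.centralBinom k) ^ 2) := by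
      have : (k + 1) ^ 2 * ((2 * (k + 1) + 1) * (Nat.centralBinom (k + 1)) ^ 2) =
        (2 * k + 3) * ((k + 1) * Nat.centralBinom (k + 1)) ^ 2 := by ring
      rw [this, h]
      ring
    have h3 : 4 * (2 * k + 1) * (2 * k + 3) * ((2 * k + 1) * (Nat.centralBinom k) ^ 2) ≤
        4 * (2 * k + 1) * (2 * k + 3) * 16 ^ k := Nat.mul_le_mul_left _ ih
    have h4 : 4 * (2 * k + 1) * (2 * k + 3) * 16 ^ k ≤ (k + 1) ^ 2 * 16 ^ (k + 1) := by
      have : (k + 1) ^ 2 * 16 ^ (k + 1) = (16 * (k + 1) ^ 2) * 16 ^ k := by ring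
      rw [this]
      apply Nat.mul_le_mul_right
      nlinarith
    have h5 : (k + 1) ^ 2 * ((2 * (k + 1) + 1) * (Nat.centralBinom (k + 1)) ^ 2) ≤
        (k + 1) ^ 2 * 16 ^ (k + 1) := by
      rw [h2]
      exact h3.trans h4
    exact Nat.le_of_mul_le_mul_left h5 (by positivity)

theorem block_max_mid (m : ℕ) : m * (m.choose (m / 2)) ^ 2 ≤ 4 ^ m := by
  obtain ⟨k, hk | hk⟩ := Nat.even_or_odd' m
  · have e : m / 2 = k := by omega
    rw [e, hk]
    have h1 := block_max_cb k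
    rw [Nat.centralBinom_eq_two_mul_choose] at h1
    have h2 : (4 : ℕ) ^ (2 * k) = 16 ^ k := by
      rw [pow_mul]
      norm_num
    rw [h2]
    refine le_trans ?_ h1
    exact Nat.mul_le_mul_right _ (by omega)
  · have e : m / 2 = k := by omega
    rw [e, hk]
    have h1 := block_max_cb (k + 1)
    rw [Nat.centralBinom_eq_two_mul_choose] at h1
    have h3 : (2 * (k + 1)).choose (k + 1) = 2 * (2 * k + 1).choose k := by
      have e2 : 2 * (k + 1) = (2 * k + 1) + 1 := by ring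
      rw [e2, Nat.choose_succ_succ]
      have h4 : (2 * k + 1).choose (k + 1) = (2 * k + 1).choose k := by
        apply Nat.choose_symm_of_eq_add
        ring
      rw [h4]
      ring
    rw [h3] at h1
    have h2 : (4 : ℕ) ^ (2 * k + 1) * 4 = 16 ^ (k + 1) := by
      have : (4 : ℕ) ^ (2 * k + 1) * 4 = 4 ^ (2 * (k + 1)) := by ring
      rw [this, pow_mul]
      norm_num
    have h5 : (2 * k + 1) * (2 * k + 1).choose k ^ 2 * 4 ≤ 4 ^ (2 * k + 1) * 4 := by
      rw [h2]
      refine le_trans ?_ h1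
      have : (2 * (k + 1) + 1) * (2 * (2 * k + 1).choose k) ^ 2 =
        (2 * k + 3) * (2 * k + 1).choose k ^ 2 * 4 := by ring
      rw [this]
      apply Nat.mul_le_mul_right
      apply Nat.mul_le_mul_right
      omega
    omega

theorem block_max_pt (m j : ℕ) (hm : 1 ≤ m) :
    ((m.choose j : ℕ) : ℝ) / 2 ^ m ≤ 1 / √(m : ℝ) := by
  have hm0 : (0 : ℝ) < m := by exact_mod_cast hm
  have hs : 0 < √(m : ℝ) := Real.sqrt_pos.2 hm0
  rw [div_le_div_iff₀ (by positivity) hs, one_mul]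
  have h1 : (m.choose j : ℝ) ≤ (m.choose (m / 2) : ℝ) := by
    exact_mod_cast Nat.choose_le_middle j m
  have h2 : (m : ℝ) * (m.choose (m / 2) : ℝ) ^ 2 ≤ 4 ^ m := by
    exact_mod_cast block_max_mid m
  have h3 : ((m.choose (m / 2) : ℝ) * √(m : ℝ)) ^ 2 ≤ (2 ^ m) ^ 2 := by
    rw [mul_pow, Real.sq_sqrt hm0.le, ← pow_mul, mul_comm m 2, pow_mul]
    norm_num
    linarith
  have h4 : (m.choose (m / 2) : ℝ) * √(m : ℝ) ≤ 2 ^ m :=
    abs_le_of_sq_le_sq' h3 (by positivity) |>.2
  calc (m.choose j : ℝ) * √(m : ℝ) ≤ (m.choose (m / 2) : ℝ) * √(m : ℝ) :=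
        mul_le_mul_of_nonneg_right h1 hs.le
    _ ≤ _ := h4

theorem block_max_inc (m i j : ℕ) (hij : i ≤ j) (hj : j ≤ m / 2) : m.choose i ≤ m.choose j := by
  induction j, hij using Nat.le_induction with
  | base => exact le_rfl
  | succ j hij ih =>
    exact (ih (by omega)).trans (Nat.choose_le_succ_of_lt_half_left (by omega))

theorem block_max_dec (m i j : ℕ) (hij : i ≤ j) (hi : m / 2 ≤ i) : m.choose j ≤ m.choose i := by
  induction j, hij using Nat.le_induction with
  | base => exact le_rfl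
  | succ j hij ih =>
    refine le_trans ?_ ih
    have h := Nat.choose_succ_right_eq m j
    have h1 : m - j ≤ j + 1 := by omega
    have h2 : m.choose (j + 1) * (j + 1) ≤ m.choose j * (j + 1) := by
      rw [h]
      exact Nat.mul_le_mul_left _ h1
    exact Nat.le_of_mul_le_mul_right h2 (by omega)

theorem block_max_blocks (f : ℕ → ℝ) (Q n : ℕ) :
    ∑ c ∈ range n, ∑ i ∈ Ico (c * Q) ((c + 1) * Q), f i = ∑ i ∈ range (n * Q), f i := by
  induction n with
  | zero => simp
  | succ n ih =>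
    rw [sum_range_succ, ih]
    rw [range_eq_Ico, range_eq_Ico]
    exact sum_Ico_consecutive f (Nat.zero_le _) (Nat.mul_le_mul_right _ (by omega))

-- TARGET (prove this)
theorem block_max (m Q : ℕ) (hm : 1 ≤ m) (hQ : 1 ≤ Q) (σ : ℕ → ℕ)
    (hσ : ∀ b, b * Q ≤ σ b ∧ σ b < (b + 1) * Q) :
    ∑ b ∈ range (m + 1), ((m.choose (σ b) : ℕ) : ℝ) / 2 ^ m ≤ 3 / √(m : ℝ) + 1 / Q := by
  have hm0 : (0 : ℝ) < m := by exact_mod_cast hm
  have hQ0 : (0 : ℝ) < Q := by exact_mod_cast hQ
  set p : ℕ → ℝ := fun j => ((m.choose j : ℕ) : ℝ) / 2 ^ m with hp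
  have hp0 : ∀ j, 0 ≤ p j := fun j => by positivity
  set S : ℕ → ℝ := fun c => ∑ i ∈ Ico (c * Q) ((c + 1) * Q), p i with hS
  have hS0 : ∀ c, 0 ≤ S c := fun c => sum_nonneg fun i _ => hp0 i
  set b0 : ℕ := (m / 2) / Q with hb0
  have hb1 : b0 * Q ≤ m / 2 := Nat.div_mul_le_self _ _
  have hb2 : m / 2 < (b0 + 1) * Q := by
    have := Nat.lt_div_mul_add (a := m / 2) (b := Q) (by omega)
    rw [add_mul, one_mul]
    exact this
  clear_value b0
  clear hb0
  set τ : ℕ → ℕ := fun b => if b + 2 ≤ b0 then b + 1 else b - 1 with hτ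
  -- far blocks
  have hfar : ∀ b, (b + 2 ≤ b0 ∨ b0 + 2 ≤ b) → p (σ b) ≤ (1 / Q) * S (τ b) := by
    intro b hb
    have hcard : ∀ c, ∑ i ∈ Ico (c * Q) ((c + 1) * Q), p (σ b) = Q * p (σ b) := by
      intro c
      rw [sum_const, Nat.card_Ico, nsmul_eq_mul]
      congr 2
      rw [add_mul, one_mul]
      omega
    have key : ∀ i ∈ Ico (τ b * Q) ((τ b + 1) * Q), p (σ b) ≤ p i := by
      intro i hi
      rw [mem_Ico] at hi
      obtain ⟨s1, s2⟩ := hσ b
      have hle : m.choose (σ b) ≤ m.choose i := by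
        by_cases h : b + 2 ≤ b0
        · have e : τ b = b + 1 := if_pos h
          rw [e] at hi
          have h1 : (b + 1 + 1) * Q ≤ b0 * Q := Nat.mul_le_mul_right _ h
          exact block_max_inc m _ _ (by omega) (by omega)
        · have h' : b0 + 2 ≤ b := by tauto
          have e : τ b = b - 1 := if_neg h
          rw [e] at hi
          have h1 : (b0 + 1) * Q ≤ (b - 1) * Q := Nat.mul_le_mul_right _ (by omega)
          have e2 : b - 1 + 1 = b := by omega
          rw [e2] at hi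
          exact block_max_dec m _ _ (by omega) (by omega)
      simp only [hp]
      have hle' : ((m.choose (σ b) : ℕ) : ℝ) ≤ ((m.choose i : ℕ) : ℝ) := by exact_mod_cast hle
      gcongr
    have h1 : (Q : ℝ) * p (σ b) ≤ S (τ b) := by
      rw [← hcard (τ b)]
      exact sum_le_sum key
    rw [one_div, inv_mul_eq_div, le_div_iff₀ hQ0, mul_comm]
    exact h1
  rw [← sum_filter_add_sum_filter_not (range (m + 1)) (fun b => b + 2 ≤ b0 ∨ b0 + 2 ≤ b)]
  have hA : ∑ b ∈ (range (m + 1)).filter (fun b => b + 2 ≤ b0 ∨ b0 + 2 ≤ b), p (σ b) ≤ 1 / Q := by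
    have h1 : ∑ b ∈ (range (m + 1)).filter (fun b => b + 2 ≤ b0 ∨ b0 + 2 ≤ b), p (σ b) ≤
        ∑ b ∈ (range (m + 1)).filter (fun b => b + 2 ≤ b0 ∨ b0 + 2 ≤ b), (1 / Q) * S (τ b) := by
      apply sum_le_sum
      intro b hb
      exact hfar b (mem_filter.1 hb).2
    rw [← mul_sum] at h1
    have hinj : Set.InjOn τ ((range (m + 1)).filter (fun b => b + 2 ≤ b0 ∨ b0 + 2 ≤ b) : Set ℕ) := by
      intro x hx y hy hxy
      have hx' := (mem_filter.1 (mem_coe.1 hx)).2
      have hy' := (mem_filter.1 (mem_coe.1 hy)).2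
      simp only [hτ] at hxy
      split_ifs at hxy <;> omega
    have h2 : ∑ b ∈ (range (m + 1)).filter (fun b => b + 2 ≤ b0 ∨ b0 + 2 ≤ b), S (τ b) =
        ∑ c ∈ ((range (m + 1)).filter (fun b => b + 2 ≤ b0 ∨ b0 + 2 ≤ b)).image τ, S c := by
      rw [sum_image hinj]
    have h3 : ∑ c ∈ ((range (m + 1)).filter (fun b => b + 2 ≤ b0 ∨ b0 + 2 ≤ b)).image τ, S c ≤
        ∑ c ∈ range (m + 2), S c := by
      apply sum_le_sum_of_subset_of_nonneg
      · intro c hc
        obtain ⟨b, hb, rfl⟩ := mem_image.1 hc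
        have hb' := mem_range.1 (mem_filter.1 hb).1
        rw [mem_range]
        simp only [hτ]
        split_ifs <;> omega
      · intro c _ _
        exact hS0 c
    have h4 : ∑ c ∈ range (m + 2), S c = 1 := by
      simp only [hS]
      rw [block_max_blocks]
      have h5 : range (m + 1) ⊆ range ((m + 2) * Q) := by
        apply range_subset_range.2
        nlinarith
      rw [← sum_subset h5]
      · simp only [hp]
        rw [← sum_div]
        have h6 := Nat.sum_range_choose m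
        have h7 : ∑ i ∈ range (m + 1), ((m.choose i : ℕ) : ℝ) = 2 ^ m := by
          exact_mod_cast h6
        rw [h7]
        exact div_self (by positivity)
      · intro i _ hi
        rw [mem_range, not_lt] at hi
        simp only [hp]
        rw [Nat.choose_eq_zero_of_lt (by omega)]
        simp
    rw [h2] at h1
    refine h1.trans ?_
    rw [h4] at h3
    calc (1 / Q : ℝ) * _ ≤ (1 / Q : ℝ) * 1 := mul_le_mul_of_nonneg_left h3 (by positivity)
      _ = 1 / Q := mul_one _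
  have hB : ∑ b ∈ (range (m + 1)).filter (fun b => ¬ (b + 2 ≤ b0 ∨ b0 + 2 ≤ b)), p (σ b) ≤
      3 / √(m : ℝ) := by
    have h1 : ∑ b ∈ (range (m + 1)).filter (fun b => ¬ (b + 2 ≤ b0 ∨ b0 + 2 ≤ b)), p (σ b) ≤
        ∑ b ∈ (range (m + 1)).filter (fun b => ¬ (b + 2 ≤ b0 ∨ b0 + 2 ≤ b)), 1 / √(m : ℝ) := by
      apply sum_le_sum
      intro b _
      exact block_max_pt m _ hm
    refine h1.trans ?_
    rw [sum_const, nsmul_eq_mul]
    have h2 : ((range (m + 1)).filter (fun b => ¬ (b + 2 ≤ b0 ∨ b0 + 2 ≤ b))).card ≤ 3 := by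
      have h3 : (range (m + 1)).filter (fun b => ¬ (b + 2 ≤ b0 ∨ b0 + 2 ≤ b)) ⊆
          Icc (b0 - 1) (b0 + 1) := by
        intro b hb
        have := (mem_filter.1 hb).2
        rw [mem_Icc]
        omega
      refine (card_le_card h3).trans ?_
      rw [Nat.card_Icc]
      omega
    have h4 : (((range (m + 1)).filter (fun b => ¬ (b + 2 ≤ b0 ∨ b0 + 2 ≤ b))).card : ℝ) ≤ 3 := by
      exact_mod_cast h2
    calc _ ≤ 3 * (1 / √(m : ℝ)) := mul_le_mul_of_nonneg_right h4 (by positivity)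
      _ = 3 / √(m : ℝ) := by ring
  linarith


end JC1
export JC1 (block_max)
end ZA
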