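import Pool.Agent.Helper470.ZA.Defs
import Pool.Agent.Helper470.ZA.B1
import Pool.Agent.Helper470.ZA.B2
import Pool.Agent.Helper470.ZA.C1
set_option autoImplicit false
open Finset
open scoped Classical

namespace ZA
namespace JC2








theorem pr_W_aux {ι : Type} (u : Finset ι) (y : ι → ℝ) (c : ℝ) (hc : c ≠ 0)
    (hu0 : u.Nonempty) (a : ℝ) (ha : 0 < a)
    (hu : ∀ i ∈ u, a ≤ |y i|) (L : ℕ) (hL : 1 ≤ L) (hLa : (L : ℝ) * |c| ≤ a) (t : ℝ) (b : ℕ)
    (J : Finset ℕ) (hJ : ∀ j ∈ J, b * L ≤ j ∧ j < (b + 1) * L) :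
    ∑ j ∈ J, pr u y (t - j * c) ≤ 1 / √(u.card : ℝ) := by
  have hw : ∃ μ : ℝ, ∀ j ∈ J, μ ≤ t - j * c ∧ t - j * c < μ + a := by
    have hL0 : (1 : ℝ) ≤ L := by exact_mod_cast hL
    rcases lt_or_gt_of_ne hc with h | h
    · refine ⟨t - (b * L : ℕ) * c, fun j hj => ?_⟩
      obtain ⟨h1, h2⟩ := hJ j hj
      have h1' : ((b * L : ℕ) : ℝ) ≤ j := by exact_mod_cast h1
      have h2' : (j : ℝ) < (b * L : ℕ) + L := by
        have : j < b * L + L := by
          rw [add_mul, one_mul] at h2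
          exact h2
        exact_mod_cast this
      rw [abs_of_neg h] at hLa
      constructor
      · nlinarith
      · nlinarith
    · refine ⟨t - ((b * L : ℕ) + L - 1) * c, fun j hj => ?_⟩
      obtain ⟨h1, h2⟩ := hJ j hj
      have h1' : ((b * L : ℕ) : ℝ) ≤ j := by exact_mod_cast h1
      have h2' : (j : ℝ) + 1 ≤ (b * L : ℕ) + L := by
        have : j + 1 ≤ b * L + L := by
          rw [add_mul, one_mul] at h2
          exact h2
        exact_mod_cast this
      rw [abs_of_pos h] at hLa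
      constructor
      · nlinarith
      · nlinarith
  obtain ⟨μ, hμ⟩ := hw
  refine le_trans ?_ (window u hu0 y a ha hu μ)
  unfold pr
  rw [← Finset.sum_div]
  apply div_le_div_of_nonneg_right _ (by positivity)
  unfold cnt
  rw [← Nat.cast_sum]
  apply Nat.cast_le.2
  rw [← Finset.card_biUnion]
  · apply Finset.card_le_card
    intro B hB
    rw [Finset.mem_biUnion] at hB
    obtain ⟨j, hj, hB⟩ := hB
    rw [Finset.mem_filter] at hB ⊢
    refine ⟨hB.1, ?_⟩
    rw [hB.2]
    exact hμ j hj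
  · intro j _ j' _ hjj'
    show Disjoint _ _
    rw [Finset.disjoint_left]
    intro B hB hB'
    rw [Finset.mem_filter] at hB hB'
    apply hjj'
    have h1 : t - (j : ℝ) * c = t - (j' : ℝ) * c := by rw [← hB.2, ← hB'.2]
    have h2 : (j : ℝ) * c = j' * c := by linarith
    exact_mod_cast mul_right_cancel₀ hc h2

-- TARGET (prove this)
theorem pr_W {ι : Type} (s u : Finset ι) (h : Disjoint s u) (y : ι → ℝ) (c : ℝ) (hc : c ≠ 0)
    (hs : ∀ i ∈ s, y i = c) (hs0 : s.Nonempty) (hu0 : u.Nonempty) (a : ℝ) (ha : 0 < a)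
    (hu : ∀ i ∈ u, a ≤ |y i|) (L : ℕ) (hL : 1 ≤ L) (hLa : (L : ℝ) * |c| ≤ a) (t : ℝ) :
    pr (s ∪ u) y t ≤ (1 / √(u.card : ℝ)) * (3 / √(s.card : ℝ) + 1 / L) := by
  have hm : 1 ≤ s.card := Finset.card_pos.2 hs0
  rw [Finset.union_comm, pr_union u s h.symm]
  have h1 : ∀ B ∈ s.powerset, pr u y (t - ∑ i ∈ B, y i) = pr u y (t - (B.card : ℝ) * c) := by
    intro B hB
    rw [Finset.mem_powerset] at hB
    rw [Finset.sum_congr rfl fun i hi => hs i (hB hi), Finset.sum_const, nsmul_eq_mul]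
  rw [Finset.sum_congr rfl h1, Finset.sum_powerset_apply_card (fun j : ℕ => pr u y (t - j * c)),
    Finset.sum_div]
  -- maximisers
  have hσ : ∀ b : ℕ, ∃ k, (b * L ≤ k ∧ k < (b + 1) * L) ∧
      ∀ j, b * L ≤ j → j < (b + 1) * L → s.card.choose j ≤ s.card.choose k := by
    intro b
    have hne : (Finset.Ico (b * L) ((b + 1) * L)).Nonempty := by
      rw [Finset.nonempty_Ico, add_mul, one_mul]
      omega
    obtain ⟨k, hk, hkm⟩ := Finset.exists_max_image _ (fun j => s.card.choose j) hne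
    exact ⟨k, Finset.mem_Ico.1 hk, fun j h1 h2 => hkm j (Finset.mem_Ico.2 ⟨h1, h2⟩)⟩
  choose σ hσ1 hσ2 using hσ
  have hfib : ∑ b ∈ range (s.card + 1), ∑ j ∈ range (s.card + 1) with j / L = b,
      s.card.choose j • pr u y (t - j * c) / 2 ^ s.card =
      ∑ j ∈ range (s.card + 1), s.card.choose j • pr u y (t - j * c) / 2 ^ s.card := by
    apply Finset.sum_fiberwise_of_maps_to
    intro j hj
    rw [Finset.mem_range] at hj ⊢
    exact lt_of_le_of_lt (Nat.div_le_self _ _) hj
  rw [← hfib]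
  have hblk : ∀ b ∈ range (s.card + 1), ∑ j ∈ range (s.card + 1) with j / L = b,
      s.card.choose j • pr u y (t - j * c) / 2 ^ s.card ≤
      (1 / √(u.card : ℝ)) * (((s.card.choose (σ b) : ℕ) : ℝ) / 2 ^ s.card) := by
    intro b _
    have hJ : ∀ j ∈ (range (s.card + 1)).filter (fun j => j / L = b), b * L ≤ j ∧ j < (b + 1) * L := by
      intro j hj
      rw [Finset.mem_filter] at hj
      have h2 := Nat.div_add_mod j L
      have h3 := Nat.mod_lt j (show 0 < L by omega)
      rw [hj.2] at h2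
      constructor
      · rw [mul_comm]; omega
      · rw [add_mul, one_mul, mul_comm b L]; omega
    have h4 := pr_W_aux u y c hc hu0 a ha hu L hL hLa t b _ hJ
    have h5 : ∑ j ∈ range (s.card + 1) with j / L = b, s.card.choose j • pr u y (t - j * c) / 2 ^ s.card ≤
        ∑ j ∈ range (s.card + 1) with j / L = b,
          pr u y (t - j * c) * (((s.card.choose (σ b) : ℕ) : ℝ) / 2 ^ s.card) := by
      refine Finset.sum_le_sum fun j hj => ?_
      obtain ⟨h6, h7⟩ := hJ j hj
      have h8 : ((s.card.choose j : ℕ) : ℝ) ≤ ((s.card.choose (σ b) : ℕ) : ℝ) := by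
        exact_mod_cast hσ2 b j h6 h7
      have h9 : 0 ≤ pr u y (t - j * c) := by
        unfold pr
        positivity
      rw [nsmul_eq_mul, mul_div_assoc', mul_comm]
      exact div_le_div_of_nonneg_right (mul_le_mul_of_nonneg_left h8 h9) (by positivity)
    rw [← Finset.sum_mul] at h5
    exact h5.trans (mul_le_mul_of_nonneg_right h4 (by positivity))
  refine (Finset.sum_le_sum hblk).trans ?_
  rw [← Finset.mul_sum]
  exact mul_le_mul_of_nonneg_left (block_max s.card L hm hL σ hσ1) (by positivity)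


end JC2
export JC2 (pr_W)
end ZA
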