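import Pool.Agent.Helper470.ZA.Defs
import Pool.Agent.Helper470.ZA.B1
import Pool.Agent.Helper470.ZA.C1
set_option autoImplicit false
open Finset
open scoped Classical

namespace ZA
namespace JC3






theorem pr_S2_cb (n : ℕ) : (2 * n + 1) * n.centralBinom ^ 2 ≤ 16 ^ n := by
  induction n with
  | zero => simp
  | succ n ih =>
    have h1 := Nat.succ_mul_centralBinom_succ n
    have h2 : (n + 1) ^ 2 * ((2 * (n + 1) + 1) * (n + 1).centralBinom ^ 2) ≤
        (n + 1) ^ 2 * 16 ^ (n + 1) := by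
      calc (n + 1) ^ 2 * ((2 * (n + 1) + 1) * (n + 1).centralBinom ^ 2)
          = (2 * n + 3) * ((n + 1) * (n + 1).centralBinom) ^ 2 := by ring
        _ = (2 * n + 3) * (2 * (2 * n + 1) * n.centralBinom) ^ 2 := by rw [h1]
        _ = 4 * ((2 * n + 3) * (2 * n + 1)) * ((2 * n + 1) * n.centralBinom ^ 2) := by ring
        _ ≤ 4 * ((2 * n + 3) * (2 * n + 1)) * 16 ^ n := Nat.mul_le_mul_left _ ih
        _ ≤ 16 * (n + 1) ^ 2 * 16 ^ n := Nat.mul_le_mul_right _ (by nlinarith)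
        _ = (n + 1) ^ 2 * 16 ^ (n + 1) := by ring
    exact Nat.le_of_mul_le_mul_left h2 (by positivity)

theorem pr_S2_mid (m k : ℕ) : m * (m.choose k) ^ 2 ≤ 4 ^ m := by
  have hk : m.choose k ≤ m.choose (m / 2) := Nat.choose_le_middle k m
  have h : m * (m.choose (m / 2)) ^ 2 ≤ 4 ^ m := by
    rcases Nat.even_or_odd' m with ⟨n, rfl | rfl⟩
    · have h1 : 2 * n / 2 = n := by omega
      rw [h1, ← Nat.centralBinom_eq_two_mul_choose]
      have h2 := pr_S2_cb n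
      have h4 : (4 : ℕ) ^ (2 * n) = 16 ^ n := by rw [pow_mul]; norm_num
      rw [h4]
      nlinarith [Nat.zero_le (n.centralBinom ^ 2)]
    · have h1 : (2 * n + 1) / 2 = n := by omega
      rw [h1]
      have hc : 2 * (2 * n + 1).choose n = (n + 1).centralBinom := by
        rw [Nat.centralBinom_eq_two_mul_choose]
        have h3 : 2 * (n + 1) = (2 * n + 1) + 1 := by ring
        rw [h3, Nat.choose_succ_succ, Nat.choose_symm_half]
        ring
      have h2 := pr_S2_cb (n + 1)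
      rw [← hc] at h2
      have h4 : (4 : ℕ) ^ (2 * n + 1) = 4 * 16 ^ n := by rw [pow_succ, pow_mul]; norm_num; ring
      rw [h4]
      have h5 : (16 : ℕ) ^ (n + 1) = 16 * 16 ^ n := by ring
      rw [h5] at h2
      nlinarith [Nat.zero_le (((2 * n + 1).choose n) ^ 2)]
  calc m * (m.choose k) ^ 2 ≤ m * (m.choose (m / 2)) ^ 2 := by gcongr
    _ ≤ 4 ^ m := h

theorem pr_S2_w (m k : ℕ) (hm : 1 ≤ m) : ((m.choose k : ℕ) : ℝ) / 2 ^ m ≤ 1 / √(m : ℝ) := by
  have hm' : (0 : ℝ) < m := by exact_mod_cast hm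
  rw [div_le_div_iff₀ (by positivity) (Real.sqrt_pos.mpr hm'), one_mul]
  rw [← pow_le_pow_iff_left₀ (by positivity) (by positivity) (two_ne_zero), mul_pow,
    Real.sq_sqrt hm'.le]
  have h := pr_S2_mid m k
  have h1 : ((m * (m.choose k) ^ 2 : ℕ) : ℝ) ≤ ((4 ^ m : ℕ) : ℝ) := by exact_mod_cast h
  push_cast at h1
  have h2 : ((2 : ℝ) ^ m) ^ 2 = 4 ^ m := by rw [← pow_mul, mul_comm, pow_mul]; norm_num
  rw [h2]
  linarith

theorem pr_S2_bound {α : Type} (m1 m2 Q : ℕ) (h1 : 1 ≤ m1) (h2 : 1 ≤ m2) (hQ : 1 ≤ Q)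
    (Sol : Finset α) (F G : α → ℕ) (hS : ∀ x ∈ Sol, F x ≤ m1)
    (hd : ∀ x ∈ Sol, ∀ x' ∈ Sol, x ≠ x' → F x + Q ≤ F x' ∨ F x' + Q ≤ F x) :
    ∑ x ∈ Sol, (((m1.choose (F x) : ℕ) : ℝ) / 2 ^ m1) * (((m2.choose (G x) : ℕ) : ℝ) / 2 ^ m2) ≤
      (1 / √(m2 : ℝ)) * (3 / √(m1 : ℝ) + 1 / Q) := by
  have hm2 : (0 : ℝ) < m2 := by exact_mod_cast h2
  let σ : ℕ → ℕ := fun b => if h : ∃ x ∈ Sol, F x / Q = b then F h.choose else b * Q
  have hσ : ∀ b, b * Q ≤ σ b ∧ σ b < (b + 1) * Q := by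
    intro b
    by_cases h : ∃ x ∈ Sol, F x / Q = b
    · have h3 := h.choose_spec.2
      have h4 : σ b = F h.choose := by simp only [σ, dif_pos h]
      rw [h4]
      constructor
      · have := Nat.div_mul_le_self (F h.choose) Q
        rw [h3] at this
        exact this
      · have h7 := Nat.div_add_mod (F h.choose) Q
        have h8 := Nat.mod_lt (F h.choose) (show 0 < Q from hQ)
        rw [h3] at h7
        nlinarith
    · have h4 : σ b = b * Q := by simp only [σ, dif_neg h]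
      rw [h4]
      constructor
      · exact le_rfl
      · nlinarith
  have hdiv : ∀ x ∈ Sol, ∀ x' ∈ Sol, F x / Q = F x' / Q → x = x' := by
    intro x hx x' hx' hxx
    by_contra hne
    have hlt : ∀ a b : ℕ, a + Q ≤ b → a / Q < b / Q := by
      intro a b hab
      have h5 : (a + Q) / Q ≤ b / Q := Nat.div_le_div_right hab
      rw [Nat.add_div_right _ (by omega)] at h5
      omega
    rcases hd x hx x' hx' hne with h | h
    · have := hlt _ _ h; omega
    · have := hlt _ _ h; omega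
  have hσ2 : ∀ x ∈ Sol, σ (F x / Q) = F x := by
    intro x hx
    have h : ∃ x' ∈ Sol, F x' / Q = F x / Q := ⟨x, hx, rfl⟩
    have h4 : σ (F x / Q) = F h.choose := by simp only [σ, dif_pos h]
    rw [h4, hdiv _ h.choose_spec.1 x hx h.choose_spec.2]
  have hb := block_max m1 Q h1 hQ σ hσ
  have hsum : ∑ x ∈ Sol, ((m1.choose (F x) : ℕ) : ℝ) / 2 ^ m1 ≤
      ∑ b ∈ range (m1 + 1), ((m1.choose (σ b) : ℕ) : ℝ) / 2 ^ m1 := by
    calc ∑ x ∈ Sol, ((m1.choose (F x) : ℕ) : ℝ) / 2 ^ m1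
        = ∑ x ∈ Sol, ((m1.choose (σ (F x / Q)) : ℕ) : ℝ) / 2 ^ m1 :=
          Finset.sum_congr rfl fun x hx => by rw [hσ2 x hx]
      _ = ∑ b ∈ Sol.image (fun x => F x / Q), ((m1.choose (σ b) : ℕ) : ℝ) / 2 ^ m1 := by
          rw [Finset.sum_image]
          intro x hx x' hx' h
          exact hdiv x hx x' hx' h
      _ ≤ ∑ b ∈ range (m1 + 1), ((m1.choose (σ b) : ℕ) : ℝ) / 2 ^ m1 := by
          refine Finset.sum_le_sum_of_subset_of_nonneg ?_ fun b _ _ => by positivity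
          intro b hb
          rw [Finset.mem_image] at hb
          obtain ⟨x, hx, rfl⟩ := hb
          rw [Finset.mem_range]
          have := Nat.div_le_self (F x) Q
          have := hS x hx
          omega
  calc ∑ x ∈ Sol, (((m1.choose (F x) : ℕ) : ℝ) / 2 ^ m1) * (((m2.choose (G x) : ℕ) : ℝ) / 2 ^ m2)
      ≤ ∑ x ∈ Sol, (((m1.choose (F x) : ℕ) : ℝ) / 2 ^ m1) * (1 / √(m2 : ℝ)) :=
        Finset.sum_le_sum fun x _ => mul_le_mul_of_nonneg_left (pr_S2_w m2 (G x) h2) (by positivity)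
    _ = (1 / √(m2 : ℝ)) * ∑ x ∈ Sol, ((m1.choose (F x) : ℕ) : ℝ) / 2 ^ m1 := by
        rw [← Finset.sum_mul, mul_comm]
    _ ≤ (1 / √(m2 : ℝ)) * (3 / √(m1 : ℝ) + 1 / Q) :=
        mul_le_mul_of_nonneg_left (hsum.trans hb) (by positivity)

theorem pr_S2_claim (c e : ℝ) (hc : c ≠ 0) (he : e ≠ 0) (Q : ℕ)
    (hno : ¬ ∃ a b : ℕ, 1 ≤ a ∧ a < Q ∧ 1 ≤ b ∧ b < Q ∧ (a : ℝ) * |c| = b * |e|) :
    (∀ Δ Δ' : ℕ, 1 ≤ Δ → (Δ : ℝ) * |c| = Δ' * |e| → Q ≤ Δ) ∨
    (∀ Δ Δ' : ℕ, 1 ≤ Δ → (Δ : ℝ) * |c| = Δ' * |e| → Q ≤ Δ') := by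
  have hc' : 0 < |c| := abs_pos.mpr hc
  have he' : 0 < |e| := abs_pos.mpr he
  by_cases hR : ∃ a : ℕ, 1 ≤ a ∧ ∃ b : ℕ, (a : ℝ) * |c| = b * |e|
  · obtain ⟨ha1, b, hab⟩ := Nat.find_spec hR
    set a := Nat.find hR with ha
    have hmin : ∀ ρ : ℕ, ρ < a → ¬ (1 ≤ ρ ∧ ∃ b : ℕ, (ρ : ℝ) * |c| = b * |e|) := fun ρ hρ =>
      Nat.find_min hR hρ
    have key : ∀ Δ Δ' : ℕ, 1 ≤ Δ → (Δ : ℝ) * |c| = Δ' * |e| → a ≤ Δ ∧ b ≤ Δ' := by
      intro Δ Δ' hΔ hΔe
      have hdm := Nat.div_add_mod Δ a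
      set q := Δ / a with hq
      set ρ := Δ % a with hρ
      have hρa : ρ < a := Nat.mod_lt _ (by omega)
      have hdm' : (a : ℝ) * q + ρ = Δ := by exact_mod_cast hdm
      have h1 : (ρ : ℝ) * |c| = ((Δ' : ℝ) - q * b) * |e| := by
        have : (ρ : ℝ) = Δ - a * q := by linarith
        rw [this, sub_mul, sub_mul, hΔe, mul_comm (a : ℝ) (q : ℝ), mul_assoc, hab, mul_assoc]
      have h2 : 0 ≤ (Δ' : ℝ) - q * b := by
        by_contra hneg
        push Not at hneg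
        have : 0 ≤ (ρ : ℝ) * |c| := by positivity
        nlinarith
      have h3 : q * b ≤ Δ' := by
        have : ((q * b : ℕ) : ℝ) ≤ Δ' := by push_cast; linarith
        exact_mod_cast this
      have h4 : ρ = 0 := by
        by_contra hρ0
        apply hmin ρ hρa
        refine ⟨by omega, Δ' - q * b, ?_⟩
        rw [h1]
        push_cast [Nat.cast_sub h3]
        ring
      have h5 : 1 ≤ q := by
        rcases Nat.eq_zero_or_pos q with h0 | h0
        · rw [h0, h4] at hdm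
          omega
        · exact h0
      constructor
      · nlinarith
      · nlinarith
    by_cases haQ : a < Q
    · right
      intro Δ Δ' hΔ hΔe
      have hb : 1 ≤ b := by
        rcases Nat.eq_zero_or_pos b with h0 | h0
        · exfalso
          rw [h0] at hab
          have h6 : (0 : ℝ) < a := by exact_mod_cast ha1
          have : 0 < (a : ℝ) * |c| := by positivity
          rw [hab] at this
          simp at this
        · exact h0
      have hbQ : ¬ b < Q := fun hbQ => hno ⟨a, b, ha1, haQ, hb, hbQ, hab⟩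
      have := (key Δ Δ' hΔ hΔe).2
      omega
    · left
      intro Δ Δ' hΔ hΔe
      have := (key Δ Δ' hΔ hΔe).1
      omega
  · left
    intro Δ Δ' hΔ hΔe
    exact absurd ⟨Δ, hΔ, Δ', hΔe⟩ hR

theorem pr_S2_cnt {ι : Type} (s : Finset ι) (y : ι → ℝ) (c : ℝ) (hs : ∀ i ∈ s, y i = c) (τ : ℝ) :
    pr s y τ = ∑ j ∈ range (s.card + 1),
      (((s.card.choose j : ℕ) : ℝ) / 2 ^ s.card) * (if (j : ℝ) * c = τ then 1 else 0) := by
  have h1 : (cnt s y τ : ℝ) = ∑ j ∈ range (s.card + 1),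
      ((s.card.choose j : ℕ) : ℝ) * (if (j : ℝ) * c = τ then 1 else 0) := by
    unfold cnt
    rw [Finset.card_filter]
    push_cast
    have h2 := Finset.sum_powerset_apply_card (x := s) (fun j : ℕ => if (j : ℝ) * c = τ then (1 : ℝ) else 0)
    simp only [nsmul_eq_mul] at h2
    rw [← h2]
    refine Finset.sum_congr rfl fun A hA => ?_
    rw [Finset.mem_powerset] at hA
    have h3 : ∑ i ∈ A, y i = (A.card : ℝ) * c := by
      rw [Finset.sum_congr rfl fun i hi => hs i (hA hi), Finset.sum_const, nsmul_eq_mul]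
    rw [h3]
  unfold pr
  rw [h1, Finset.sum_div]
  refine Finset.sum_congr rfl fun j _ => ?_
  ring

theorem pr_S2_formula {ι : Type} (s u : Finset ι) (h : Disjoint s u) (y : ι → ℝ) (c e : ℝ)
    (hs : ∀ i ∈ s, y i = c) (hu : ∀ i ∈ u, y i = e) (t : ℝ) :
    pr (s ∪ u) y t = ∑ x ∈ (range (s.card + 1) ×ˢ range (u.card + 1)).filter
      (fun x : ℕ × ℕ => (x.1 : ℝ) * c + x.2 * e = t),
      (((s.card.choose x.1 : ℕ) : ℝ) / 2 ^ s.card) * (((u.card.choose x.2 : ℕ) : ℝ) / 2 ^ u.card) := by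
  rw [pr_union s u h]
  have h1 : ∑ B ∈ u.powerset, pr s y (t - ∑ i ∈ B, y i) =
      ∑ k ∈ range (u.card + 1), ((u.card.choose k : ℕ) : ℝ) * pr s y (t - k * e) := by
    have h2 := Finset.sum_powerset_apply_card (x := u) (fun k : ℕ => pr s y (t - k * e))
    simp only [nsmul_eq_mul] at h2
    rw [← h2]
    refine Finset.sum_congr rfl fun B hB => ?_
    rw [Finset.mem_powerset] at hB
    have h3 : ∑ i ∈ B, y i = (B.card : ℝ) * e := by
      rw [Finset.sum_congr rfl fun i hi => hu i (hB hi), Finset.sum_const, nsmul_eq_mul]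
    rw [h3]
  rw [h1, Finset.sum_filter, Finset.sum_product_right, Finset.sum_div]
  refine Finset.sum_congr rfl fun k _ => ?_
  rw [pr_S2_cnt s y c hs, Finset.mul_sum, Finset.sum_div]
  refine Finset.sum_congr rfl fun j _ => ?_
  by_cases hjk : (j : ℝ) * c + k * e = t
  · have : (j : ℝ) * c = t - k * e := by linarith
    rw [if_pos hjk, if_pos this]
    ring
  · have : ¬ (j : ℝ) * c = t - k * e := fun h' => hjk (by linarith)
    rw [if_neg hjk, if_neg this]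
    ring

-- TARGET (prove this)
theorem pr_S2 {ι : Type} (s u : Finset ι) (h : Disjoint s u) (y : ι → ℝ) (c e : ℝ) (hc : c ≠ 0) (he : e ≠ 0)
    (hs : ∀ i ∈ s, y i = c) (hu : ∀ i ∈ u, y i = e) (hs0 : s.Nonempty) (hu0 : u.Nonempty)
    (Q : ℕ) (hQ : 1 ≤ Q)
    (hno : ¬ ∃ a b : ℕ, 1 ≤ a ∧ a < Q ∧ 1 ≤ b ∧ b < Q ∧ (a : ℝ) * |c| = b * |e|) (t : ℝ) :
    pr (s ∪ u) y t ≤ (1 / √(u.card : ℝ)) * (3 / √(s.card : ℝ) + 1 / Q)
      + (1 / √(s.card : ℝ)) * (3 / √(u.card : ℝ) + 1 / Q) := by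
  rw [pr_S2_formula s u h y c e hs hu t]
  have hs1 : 1 ≤ s.card := hs0.card_pos
  have hu1 : 1 ≤ u.card := hu0.card_pos
  have hpos1 : 0 ≤ (1 / √(u.card : ℝ)) * (3 / √(s.card : ℝ) + 1 / Q) := by positivity
  have hpos2 : 0 ≤ (1 / √(s.card : ℝ)) * (3 / √(u.card : ℝ) + 1 / Q) := by positivity
  have hrel : ∀ x x' : ℕ × ℕ, (x.1 : ℝ) * c + x.2 * e = t → (x'.1 : ℝ) * c + x'.2 * e = t →
      ((((x.1 : ℤ) - x'.1).natAbs : ℕ) : ℝ) * |c| = ((((x.2 : ℤ) - x'.2).natAbs : ℕ) : ℝ) * |e| := by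
    intro x x' hx hx'
    rw [Nat.cast_natAbs, Nat.cast_natAbs]
    push_cast
    rw [← abs_mul, ← abs_mul]
    have : ((x.1 : ℝ) - x'.1) * c = -(((x.2 : ℝ) - x'.2) * e) := by linarith
    rw [this, abs_neg]
  have hne1 : ∀ x x' : ℕ × ℕ, (x.1 : ℝ) * c + x.2 * e = t → (x'.1 : ℝ) * c + x'.2 * e = t →
      x ≠ x' → 1 ≤ ((x.1 : ℤ) - x'.1).natAbs := by
    intro x x' hx hx' hne
    by_contra hlt
    have h1 : x.1 = x'.1 := by omega
    apply hne
    refine Prod.ext h1 ?_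
    have h2 : (x.2 : ℝ) * e = x'.2 * e := by rw [h1] at hx; linarith
    have h3 := mul_right_cancel₀ he h2
    exact_mod_cast h3
  rcases pr_S2_claim c e hc he Q hno with hA | hB
  · have := pr_S2_bound s.card u.card Q hs1 hu1 hQ
      ((range (s.card + 1) ×ˢ range (u.card + 1)).filter
      (fun x : ℕ × ℕ => (x.1 : ℝ) * c + x.2 * e = t)) (fun x => x.1) (fun x => x.2) (by
        intro x hx
        rw [Finset.mem_filter, Finset.mem_product, Finset.mem_range, Finset.mem_range] at hx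
        omega) (by
        intro x hx x' hx' hne
        rw [Finset.mem_filter] at hx hx'
        have h1 := hA _ _ (hne1 x x' hx.2 hx'.2 hne) (hrel x x' hx.2 hx'.2)
        show x.1 + Q ≤ x'.1 ∨ x'.1 + Q ≤ x.1
        omega)
    linarith
  · have := pr_S2_bound u.card s.card Q hu1 hs1 hQ
      ((range (s.card + 1) ×ˢ range (u.card + 1)).filter
      (fun x : ℕ × ℕ => (x.1 : ℝ) * c + x.2 * e = t)) (fun x => x.2) (fun x => x.1) (by
        intro x hx
        rw [Finset.mem_filter, Finset.mem_product, Finset.mem_range, Finset.mem_range] at hx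
        omega) (by
        intro x hx x' hx' hne
        rw [Finset.mem_filter] at hx hx'
        have h1 := hB _ _ (hne1 x x' hx.2 hx'.2 hne) (hrel x x' hx.2 hx'.2)
        show x.2 + Q ≤ x'.2 ∨ x'.2 + Q ≤ x.2
        omega)
    simp only [mul_comm (((u.card.choose _ : ℕ) : ℝ) / 2 ^ u.card)] at this
    linarith


end JC3
export JC3 (pr_S2)
end ZA
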