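import Pool.Agent.Helper470.ZA.Defs
set_option autoImplicit false
open Finset
open scoped Classical

namespace ZA
namespace JD1


theorem h396_char_sum {ι : Type} {p : ℕ} [NeZero p] (B : Finset ι) (z : ι → ZMod p) :
    (ZMod.stdAddChar (∑ i ∈ B, z i) : ℂ) = ∏ i ∈ B, (ZMod.stdAddChar (z i) : ℂ) := by
  induction B using Finset.induction_on with
  | empty => simp
  | insert a B ha ih =>
    rw [Finset.sum_insert ha, Finset.prod_insert ha, AddChar.map_add_eq_mul, ih]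

theorem h396_one_add (w : ℂ) (hw : ‖w‖ = 1) :
    ‖1 + w‖ ≤ 2 * Real.exp (-(1 - w.re) / 4) := by
  have h1 : ‖1 + w‖ ^ 2 = 2 + 2 * w.re := by
    rw [← Complex.normSq_eq_norm_sq, Complex.normSq_apply]
    have h2 : w.re * w.re + w.im * w.im = 1 := by
      rw [← Complex.normSq_apply, Complex.normSq_eq_norm_sq, hw]; norm_num
    simp only [Complex.add_re, Complex.one_re, Complex.add_im, Complex.one_im]
    linear_combination h2
  have h3 : (2 * Real.exp (-(1 - w.re) / 4)) ^ 2 = 4 * Real.exp (-(1 - w.re) / 2) := by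
    rw [mul_pow, ← Real.exp_nat_mul]
    have e : ((2 : ℕ) : ℝ) * (-(1 - w.re) / 4) = -(1 - w.re) / 2 := by push_cast; ring
    rw [e]
    norm_num
  have h4 : ‖1 + w‖ ^ 2 ≤ (2 * Real.exp (-(1 - w.re) / 4)) ^ 2 := by
    rw [h1, h3]
    have := Real.add_one_le_exp (-(1 - w.re) / 2)
    linarith
  exact (pow_le_pow_iff_left₀ (norm_nonneg _) (by positivity) (by norm_num)).1 h4

-- TARGET (prove this)
theorem hal_fourier {ι : Type} (p : ℕ) [NeZero p] (s : Finset ι) (z : ι → ZMod p) (t : ZMod p) :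
    ((s.powerset.filter (fun B => ∑ i ∈ B, z i = t)).card : ℝ) / 2 ^ s.card
      ≤ (1 / (p : ℝ)) * ∑ ξ : ZMod p, Real.exp (-(Dz p s z ξ) / 4) := by
  have hp : (0 : ℝ) < p := by exact_mod_cast Nat.pos_of_ne_zero (NeZero.ne p)
  obtain ⟨N, hN⟩ : ∃ N : ℕ, N = (s.powerset.filter (fun B => ∑ i ∈ B, z i = t)).card := ⟨_, rfl⟩
  rw [← hN]
  have e1 : (N : ℂ) * p = ∑ ξ : ZMod p, (ZMod.stdAddChar (ξ * (-t)) : ℂ) *
      ∏ i ∈ s, (1 + (ZMod.stdAddChar (ξ * z i) : ℂ)) := by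
    have e2 : (N : ℂ) * p = ∑ B ∈ s.powerset, (if ∑ i ∈ B, z i = t then (p : ℂ) else 0) := by
      rw [← Finset.sum_filter, Finset.sum_const, nsmul_eq_mul, hN]
    have e3 : ∀ B ∈ s.powerset, (if ∑ i ∈ B, z i = t then (p : ℂ) else 0) =
        ∑ ξ : ZMod p, (ZMod.stdAddChar (ξ * (-t)) : ℂ) *
          ∏ i ∈ B, (ZMod.stdAddChar (ξ * z i) : ℂ) := by
      intro B _
      have h1 := AddChar.sum_mulShift (R' := ℂ) ((∑ i ∈ B, z i) - t) (ZMod.isPrimitive_stdAddChar p)
      have h2 : (if ∑ i ∈ B, z i = t then (p : ℂ) else 0) =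
          ((if (∑ i ∈ B, z i) - t = 0 then Fintype.card (ZMod p) else 0 : ℕ) : ℂ) := by
        rw [ZMod.card]
        by_cases h : ∑ i ∈ B, z i = t
        · rw [if_pos h, if_pos (sub_eq_zero.2 h)]
        · rw [if_neg h, if_neg (fun h' => h (sub_eq_zero.1 h'))]
          simp
      rw [h2, ← h1]
      apply Finset.sum_congr rfl
      intro ξ _
      have h3 : ξ * ((∑ i ∈ B, z i) - t) = ξ * (-t) + ∑ i ∈ B, ξ * z i := by
        rw [← Finset.mul_sum]; ring
      rw [h3, AddChar.map_add_eq_mul, h396_char_sum]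
    rw [e2, Finset.sum_congr rfl e3, Finset.sum_comm]
    apply Finset.sum_congr rfl
    intro ξ _
    rw [Finset.prod_one_add, Finset.mul_sum]
  have e4 : (N : ℝ) * p ≤ ∑ ξ : ZMod p, 2 ^ s.card * Real.exp (-(Dz p s z ξ) / 4) := by
    have h1 : (N : ℝ) * p = ‖(N : ℂ) * p‖ := by
      rw [norm_mul]
      simp
    rw [h1, e1]
    refine (norm_sum_le _ _).trans (Finset.sum_le_sum fun ξ _ => ?_)
    rw [norm_mul, AddChar.norm_apply, one_mul, norm_prod]
    have h2 : ∏ i ∈ s, ‖1 + (ZMod.stdAddChar (ξ * z i) : ℂ)‖ ≤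
        ∏ i ∈ s, (2 * Real.exp (-(1 - (ZMod.stdAddChar (ξ * z i) : ℂ).re) / 4)) := by
      apply Finset.prod_le_prod
      · intro i _
        exact norm_nonneg _
      · intro i _
        exact h396_one_add _ (AddChar.norm_apply _ _)
    refine h2.trans (le_of_eq ?_)
    rw [Finset.prod_mul_distrib, Finset.prod_const, ← Real.exp_sum]
    congr 2
    unfold Dz
    rw [← Finset.sum_div, ← Finset.sum_neg_distrib]
  rw [← Finset.mul_sum] at e4
  rw [div_le_iff₀ (by positivity)]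
  have h5 : (N : ℝ) ≤ (2 ^ s.card * ∑ ξ : ZMod p, Real.exp (-(Dz p s z ξ) / 4)) / p := by
    rw [le_div_iff₀ hp]
    exact e4
  refine h5.trans (le_of_eq ?_)
  ring


end JD1
export JD1 (hal_fourier)
end ZA
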