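import Pool.Agent.Helper470.ZA.Defs
set_option autoImplicit false
open Finset
open scoped Classical

namespace ZA
namespace JD2


theorem hal_aux_sum (p : ℕ) [NeZero p] (c : ZMod p) :
    ∑ ξ : ZMod p, (ZMod.stdAddChar (ξ * c) : ℂ).re = if c = 0 then (p : ℝ) else 0 := by
  have h := AddChar.sum_mulShift (R := ZMod p) (R' := ℂ) c (ZMod.isPrimitive_stdAddChar p)
  have h2 := congrArg Complex.re h
  rw [Complex.re_sum] at h2
  rw [h2]
  by_cases hc : c = 0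
  · rw [if_pos hc, if_pos hc, ZMod.card]
    simp
  · rw [if_neg hc, if_neg hc]
    simp

theorem hal_aux_mul (p : ℕ) [NeZero p] (a b ξ : ZMod p) :
    (ZMod.stdAddChar (ξ * a) : ℂ).re * (ZMod.stdAddChar (ξ * b) : ℂ).re =
      ((ZMod.stdAddChar (ξ * (a + b)) : ℂ).re + (ZMod.stdAddChar (ξ * (a - b)) : ℂ).re) / 2 := by
  have h1 : (ZMod.stdAddChar (ξ * (a + b)) : ℂ) =
      ZMod.stdAddChar (ξ * a) * ZMod.stdAddChar (ξ * b) := by
    rw [mul_add, AddChar.map_add_eq_mul]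
  have h2 : (ZMod.stdAddChar (ξ * (a - b)) : ℂ) =
      ZMod.stdAddChar (ξ * a) * (starRingEnd ℂ) (ZMod.stdAddChar (ξ * b)) := by
    rw [mul_sub, sub_eq_add_neg, AddChar.map_add_eq_mul, AddChar.map_neg_eq_conj]
  rw [h1, h2, Complex.mul_re, Complex.mul_re, Complex.conj_re, Complex.conj_im]
  ring

-- TARGET (prove this)
theorem hal_second {ι : Type} (p : ℕ) [NeZero p] (s : Finset ι) (z : ι → ZMod p) :
    ((Tz p s z ((s.card : ℝ) / 2)).card : ℝ) * (s.card : ℝ) ^ 2 ≤ 4 * p * (Rz p s z : ℝ) := by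
  obtain ⟨C, hC⟩ : ∃ C : ZMod p → ℝ, ∀ ξ, C ξ = ∑ i ∈ s, (ZMod.stdAddChar (ξ * z i) : ℂ).re :=
    ⟨_, fun _ => rfl⟩
  have hT : ∀ ξ ∈ Tz p s z ((s.card : ℝ) / 2), (s.card : ℝ) ^ 2 ≤ 4 * (C ξ) ^ 2 := by
    intro ξ hξ
    have h1 := (Finset.mem_filter.1 hξ).2
    unfold Dz at h1
    rw [Finset.sum_sub_distrib, Finset.sum_const, nsmul_eq_mul, mul_one, ← hC] at h1
    have h2 : (s.card : ℝ) / 2 ≤ C ξ := by linarith
    have h3 : (0 : ℝ) ≤ (s.card : ℝ) / 2 := by positivity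
    have h4 := pow_le_pow_left₀ h3 h2 2
    linarith
  have h1 : ((Tz p s z ((s.card : ℝ) / 2)).card : ℝ) * (s.card : ℝ) ^ 2 ≤
      4 * ∑ ξ : ZMod p, (C ξ) ^ 2 := by
    calc ((Tz p s z ((s.card : ℝ) / 2)).card : ℝ) * (s.card : ℝ) ^ 2
        = ∑ _ξ ∈ Tz p s z ((s.card : ℝ) / 2), (s.card : ℝ) ^ 2 := by
          rw [Finset.sum_const, nsmul_eq_mul]
      _ ≤ ∑ ξ ∈ Tz p s z ((s.card : ℝ) / 2), 4 * (C ξ) ^ 2 := Finset.sum_le_sum hT
      _ ≤ ∑ ξ : ZMod p, 4 * (C ξ) ^ 2 := by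
          refine Finset.sum_le_sum_of_subset_of_nonneg (Finset.subset_univ _) (fun ξ _ _ => ?_)
          positivity
      _ = _ := by rw [Finset.mul_sum]
  refine h1.trans ?_
  have h2 : ∑ ξ : ZMod p, (C ξ) ^ 2 = ∑ q ∈ s ×ˢ s, (p : ℝ) *
      (((if z q.1 + z q.2 = 0 then (1 : ℝ) else 0) + (if z q.1 - z q.2 = 0 then (1 : ℝ) else 0)) /
        2) := by
    have h3 : ∀ ξ, (C ξ) ^ 2 = ∑ q ∈ s ×ˢ s, ((ZMod.stdAddChar (ξ * (z q.1 + z q.2)) : ℂ).re +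
        (ZMod.stdAddChar (ξ * (z q.1 - z q.2)) : ℂ).re) / 2 := by
      intro ξ
      rw [hC, sq, Finset.sum_mul_sum, ← Finset.sum_product']
      exact Finset.sum_congr rfl (fun q _ => hal_aux_mul p (z q.1) (z q.2) ξ)
    rw [Finset.sum_congr rfl (fun ξ _ => h3 ξ), Finset.sum_comm]
    refine Finset.sum_congr rfl (fun q _ => ?_)
    rw [← Finset.sum_div, Finset.sum_add_distrib, hal_aux_sum, hal_aux_sum]
    by_cases ha : z q.1 + z q.2 = 0
    · by_cases hb : z q.1 - z q.2 = 0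
      · rw [if_pos ha, if_pos ha, if_pos hb, if_pos hb]; ring
      · rw [if_pos ha, if_pos ha, if_neg hb, if_neg hb]; ring
    · by_cases hb : z q.1 - z q.2 = 0
      · rw [if_neg ha, if_neg ha, if_pos hb, if_pos hb]; ring
      · rw [if_neg ha, if_neg ha, if_neg hb, if_neg hb]; ring
  have h4 : (Rz p s z : ℝ) = ∑ q ∈ s ×ˢ s,
      (if z q.1 = z q.2 ∨ z q.1 = - z q.2 then (1 : ℝ) else 0) := by
    unfold Rz
    rw [Finset.card_filter]
    push_cast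
    rfl
  rw [h2, h4, mul_assoc]
  refine mul_le_mul_of_nonneg_left ?_ (by norm_num)
  rw [Finset.mul_sum]
  refine Finset.sum_le_sum (fun q _ => ?_)
  refine mul_le_mul_of_nonneg_left ?_ (Nat.cast_nonneg _)
  by_cases ha : z q.1 + z q.2 = 0
  · have ha' : z q.1 = z q.2 ∨ z q.1 = - z q.2 := Or.inr (eq_neg_of_add_eq_zero_left ha)
    rw [if_pos ha, if_pos ha']
    split_ifs <;> norm_num
  · by_cases hb : z q.1 - z q.2 = 0
    · have hb' : z q.1 = z q.2 ∨ z q.1 = - z q.2 := Or.inl (sub_eq_zero.1 hb)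
      rw [if_neg ha, if_pos hb, if_pos hb']
      norm_num
    · rw [if_neg ha, if_neg hb]
      split_ifs <;> norm_num


end JD2
export JD2 (hal_second)
end ZA
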