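import Pool.Agent.Helper470.ZA.Defs
set_option autoImplicit false
open Finset
open scoped Classical

namespace ZA
namespace JD3


theorem hal_growth_re (w : ℂ) (hw : ‖w‖ = 1) : 1 - w.re = ‖1 - w‖ ^ 2 / 2 := by
  have h1 : ‖1 - w‖ ^ 2 = (1 - w.re) * (1 - w.re) + w.im * w.im := by
    rw [← Complex.normSq_eq_norm_sq, Complex.normSq_apply]
    simp
  have h2 : w.re * w.re + w.im * w.im = 1 := by
    have : ‖w‖ ^ 2 = 1 := by rw [hw]; norm_num
    rw [← Complex.normSq_eq_norm_sq, Complex.normSq_apply] at this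
    exact this
  rw [h1]
  nlinarith

theorem hal_growth_term (p : ℕ) [NeZero p] (a b : ZMod p) (j : ℝ) (hj : 1 ≤ j) :
    1 - (ZMod.stdAddChar (a + b) : ℂ).re ≤
      (1 + j) * (1 - (ZMod.stdAddChar a : ℂ).re) + (1 + 1 / j) * (1 - (ZMod.stdAddChar b : ℂ).re) := by
  have ha : ‖(ZMod.stdAddChar a : ℂ)‖ = 1 := AddChar.norm_apply _ _
  have hb : ‖(ZMod.stdAddChar b : ℂ)‖ = 1 := AddChar.norm_apply _ _
  have hab : ‖(ZMod.stdAddChar (a + b) : ℂ)‖ = 1 := AddChar.norm_apply _ _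
  rw [hal_growth_re _ ha, hal_growth_re _ hb, hal_growth_re _ hab]
  set u : ℂ := ZMod.stdAddChar a with hu
  set v : ℂ := ZMod.stdAddChar b with hv
  have h1 : ‖1 - (ZMod.stdAddChar (a + b) : ℂ)‖ ≤ ‖1 - u‖ + ‖1 - v‖ := by
    rw [AddChar.map_add_eq_mul]
    have e : (1 : ℂ) - u * v = (1 - u) + u * (1 - v) := by ring
    rw [← hu, ← hv, e]
    refine (norm_add_le _ _).trans ?_
    rw [norm_mul, ha, one_mul]
  have h2 := norm_nonneg (1 - (ZMod.stdAddChar (a + b) : ℂ))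
  have h3 : ‖1 - (ZMod.stdAddChar (a + b) : ℂ)‖ ^ 2 ≤ (‖1 - u‖ + ‖1 - v‖) ^ 2 := by gcongr
  set x := ‖1 - u‖
  set y := ‖1 - v‖
  have hj0 : 0 < j := by linarith
  have h4 : 2 * x * y ≤ j * x ^ 2 + 1 / j * y ^ 2 := by
    have h5 : 0 ≤ (j * x - y) ^ 2 / j := by positivity
    have h6 : (j * x - y) ^ 2 / j = j * x ^ 2 + 1 / j * y ^ 2 - 2 * x * y := by
      field_simp
      ring
    linarith
  nlinarith

theorem hal_growth_D {ι : Type} (p : ℕ) [NeZero p] (s : Finset ι) (z : ι → ZMod p) (ξ η : ZMod p)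
    (j : ℝ) (hj : 1 ≤ j) :
    Dz p s z (ξ + η) ≤ (1 + j) * Dz p s z ξ + (1 + 1 / j) * Dz p s z η := by
  unfold Dz
  rw [Finset.mul_sum, Finset.mul_sum, ← Finset.sum_add_distrib]
  apply Finset.sum_le_sum
  intro i _
  rw [add_mul]
  exact hal_growth_term p _ _ j hj

theorem hal_growth_mono {ι : Type} (p : ℕ) [NeZero p] (s : Finset ι) (z : ι → ZMod p) (m m' : ℝ)
    (h : m ≤ m') : Tz p s z m ⊆ Tz p s z m' := by
  intro ξ hξ
  unfold Tz at *
  rw [Finset.mem_filter] at *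
  exact ⟨hξ.1, hξ.2.trans h⟩

theorem hal_growth_zero {ι : Type} (p : ℕ) [NeZero p] (s : Finset ι) (z : ι → ZMod p) (m : ℝ)
    (h : 0 ≤ m) : (0 : ZMod p) ∈ Tz p s z m := by
  unfold Tz Dz
  rw [Finset.mem_filter]
  refine ⟨Finset.mem_univ _, ?_⟩
  simpa using h

open scoped Pointwise in
theorem hal_growth_ind {ι : Type} (p : ℕ) [Fact p.Prime] (s : Finset ι) (z : ι → ZMod p) (m : ℝ)
    (hm : 0 ≤ m) (hT : (Tz p s z ((s.card : ℝ) / 2)).card < p) (k : ℕ) :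
    ∀ j : ℕ, 1 ≤ j → j ≤ k → (k : ℝ) ^ 2 * m ≤ (s.card : ℝ) / 2 →
    (j : ℝ) * (((Tz p s z m).card : ℝ) - 1) + 1 ≤ ((Tz p s z ((j : ℝ) ^ 2 * m)).card : ℝ) := by
  intro j hj
  induction j, hj using Nat.le_induction with
  | base =>
    intro _ _
    simp
  | succ j hj ih =>
    intro hjk hkm
    have ih' := ih (by omega) hkm
    have hj1 : (1 : ℝ) ≤ j := by exact_mod_cast hj
    have hsub : Tz p s z m + Tz p s z ((j : ℝ) ^ 2 * m) ⊆
        Tz p s z (((j + 1 : ℕ) : ℝ) ^ 2 * m) := by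
      intro ξ hξ
      rw [Finset.mem_add] at hξ
      obtain ⟨a, ha, b, hb, rfl⟩ := hξ
      unfold Tz at *
      rw [Finset.mem_filter] at *
      refine ⟨Finset.mem_univ _, ?_⟩
      have h1 := hal_growth_D p s z a b j hj1
      have hj0 : (0 : ℝ) < j := by linarith
      have h2 : (1 + (j : ℝ)) * Dz p s z a ≤ (1 + j) * m := by
        apply mul_le_mul_of_nonneg_left ha.2
        linarith
      have h3 : (1 + 1 / (j : ℝ)) * Dz p s z b ≤ (1 + 1 / j) * ((j : ℝ) ^ 2 * m) := by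
        apply mul_le_mul_of_nonneg_left hb.2
        positivity
      have h4 : (1 + (j : ℝ)) * m + (1 + 1 / j) * ((j : ℝ) ^ 2 * m) = ((j + 1 : ℕ) : ℝ) ^ 2 * m := by
        push_cast
        field_simp
        ring
      linarith
    have hcd := ZMod.cauchy_davenport (p := p) (Fact.out) (s := Tz p s z m)
      (t := Tz p s z ((j : ℝ) ^ 2 * m)) ⟨0, hal_growth_zero p s z m hm⟩
      ⟨0, hal_growth_zero p s z _ (by positivity)⟩
    have hc1 := Finset.card_le_card hsub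
    have hc2 : (Tz p s z (((j + 1 : ℕ) : ℝ) ^ 2 * m)).card ≤ (Tz p s z ((s.card : ℝ) / 2)).card := by
      apply Finset.card_le_card
      apply hal_growth_mono
      refine le_trans ?_ hkm
      have : ((j + 1 : ℕ) : ℝ) ≤ k := by exact_mod_cast hjk
      gcongr
    have hpos1 : 0 < (Tz p s z m).card := Finset.card_pos.2 ⟨0, hal_growth_zero p s z m hm⟩
    have hlt : (Tz p s z m).card + (Tz p s z ((j : ℝ) ^ 2 * m)).card - 1 ≤
        (Tz p s z (((j + 1 : ℕ) : ℝ) ^ 2 * m)).card := by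
      rcases min_le_iff.1 (hcd.trans hc1) with h | h
      · omega
      · exact h
    have hlt2 : (Tz p s z m).card + (Tz p s z ((j : ℝ) ^ 2 * m)).card ≤
        (Tz p s z (((j + 1 : ℕ) : ℝ) ^ 2 * m)).card + 1 := by omega
    have hlt3 : ((Tz p s z m).card : ℝ) + ((Tz p s z ((j : ℝ) ^ 2 * m)).card : ℝ) ≤
        ((Tz p s z (((j + 1 : ℕ) : ℝ) ^ 2 * m)).card : ℝ) + 1 := by exact_mod_cast hlt2
    push_cast at *
    linarith

-- TARGET (prove this)
theorem hal_growth {ι : Type} (p : ℕ) [Fact p.Prime] (s : Finset ι) (z : ι → ZMod p) (m : ℝ)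
    (hm : 0 ≤ m) (k : ℕ) (hk : 1 ≤ k) (hkm : (k : ℝ) ^ 2 * m ≤ (s.card : ℝ) / 2)
    (hT : (Tz p s z ((s.card : ℝ) / 2)).card < p) :
    (k : ℝ) * (((Tz p s z m).card : ℝ) - 1) ≤ ((Tz p s z ((s.card : ℝ) / 2)).card : ℝ) := by
  have h1 := hal_growth_ind p s z m hm hT k k hk le_rfl hkm
  have h2 : ((Tz p s z ((k : ℝ) ^ 2 * m)).card : ℝ) ≤ ((Tz p s z ((s.card : ℝ) / 2)).card : ℝ) := by
    exact_mod_cast Finset.card_le_card (hal_growth_mono p s z _ _ hkm)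
  linarith


end JD3
export JD3 (hal_growth)
end ZA
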