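import Pool.Agent.Helper470.ZA.Defs
import Pool.Agent.Helper470.ZA.D1
import Pool.Agent.Helper470.ZA.D2
import Pool.Agent.Helper470.ZA.D3
set_option autoImplicit false
open Finset
open scoped Classical

namespace ZA
namespace JD4








theorem hz_R {ι : Type} (p : ℕ) (s : Finset ι) (z : ι → ZMod p) :
    s.card ≤ Rz p s z := by
  unfold Rz
  calc s.card = (s.image (fun i => (i,i))).card := by
        rw [Finset.card_image_of_injective]
        intro a b h; exact (Prod.mk.inj h).1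
    _ ≤ _ := by
        apply Finset.card_le_card
        intro q hq
        obtain ⟨i, hi, rfl⟩ := Finset.mem_image.1 hq
        simp [hi]

theorem hz_Dnn {ι : Type} (p : ℕ) [NeZero p] (s : Finset ι) (z : ι → ZMod p) (ξ : ZMod p) :
    0 ≤ Dz p s z ξ := by
  unfold Dz
  apply Finset.sum_nonneg
  intro i _
  have h : ‖(ZMod.stdAddChar (ξ * z i) : ℂ)‖ = 1 := AddChar.norm_apply _ _
  have h2 := Complex.re_le_norm (ZMod.stdAddChar (ξ * z i) : ℂ)
  linarith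

theorem hz_pt (D : ℝ) (hD : 0 ≤ D) (M : ℕ) (hM : 1 ≤ M) :
    Real.exp (-D/4) ≤ Real.exp (-(M:ℝ)/4) + ∑ j ∈ range M,
      (Real.exp (-(1:ℝ)/4))^j * (if D ≤ ((j+1 : ℕ):ℝ) then (1:ℝ) else 0) := by
  have hnn : ∀ j ∈ range M,
      0 ≤ (Real.exp (-(1:ℝ)/4))^j * (if D ≤ ((j+1 : ℕ):ℝ) then (1:ℝ) else 0) := by
    intro j _
    apply mul_nonneg (by positivity)
    split_ifs <;> norm_num
  by_cases h : (M:ℝ) < D
  · have h1 : Real.exp (-D/4) ≤ Real.exp (-(M:ℝ)/4) := Real.exp_le_exp.2 (by linarith)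
    have h2 := Finset.sum_nonneg hnn
    linarith
  · push Not at h
    obtain ⟨j, hj, hj1, hj2⟩ : ∃ j < M, D ≤ ((j+1:ℕ):ℝ) ∧ (j:ℝ) ≤ D := by
      refine ⟨⌈D⌉₊ - 1, ?_, ?_, ?_⟩
      · have : ⌈D⌉₊ ≤ M := Nat.ceil_le.2 h
        omega
      · refine (Nat.le_ceil D).trans ?_
        exact_mod_cast (by omega : ⌈D⌉₊ ≤ ⌈D⌉₊ - 1 + 1)
      · rcases Nat.eq_zero_or_pos ⌈D⌉₊ with h0 | h0
        · rw [h0]; simpa using hD
        · have := Nat.ceil_lt_add_one hD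
          have h3 : ((⌈D⌉₊ - 1 : ℕ) : ℝ) = (⌈D⌉₊ : ℝ) - 1 := by
            rw [Nat.cast_sub (by omega)]; simp
          rw [h3]; linarith
    have h1 : Real.exp (-D/4) ≤ (Real.exp (-(1:ℝ)/4))^j := by
      rw [← Real.exp_nat_mul]
      apply Real.exp_le_exp.2
      linarith
    have h2 := Finset.single_le_sum hnn (Finset.mem_range.2 hj)
    rw [if_pos hj1, mul_one] at h2
    have h3 := Real.exp_pos (-(M:ℝ)/4)
    linarith

theorem hz_T {ι : Type} (p : ℕ) [Fact p.Prime] (s : Finset ι) (z : ι → ZMod p) (h8 : 8 ≤ s.card)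
    (hT : (Tz p s z ((s.card : ℝ) / 2)).card < p) (m : ℕ) (hm : 1 ≤ m) (hmM : m ≤ s.card / 2) :
    ((Tz p s z (m:ℝ)).card : ℝ) ≤ 1 + ((Tz p s z ((s.card : ℝ) / 2)).card : ℝ) *
      (4 * √(m:ℝ) / √(s.card:ℝ)) := by
  obtain ⟨N, hN⟩ : ∃ N, N = s.card := ⟨_, rfl⟩
  obtain ⟨M, hM⟩ : ∃ M, M = N / 2 := ⟨_, rfl⟩
  obtain ⟨q, hq⟩ : ∃ q, q = M / m := ⟨_, rfl⟩
  obtain ⟨k, hk⟩ : ∃ k, k = Nat.sqrt q := ⟨_, rfl⟩
  have hmM' : m ≤ M := by rw [hM, hN]; exact hmM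
  have hq1 : 1 ≤ q := by rw [hq]; exact (Nat.one_le_div_iff (by omega)).2 hmM'
  have hk1 : 1 ≤ k := by rw [hk]; exact Nat.sqrt_pos.2 hq1
  have hkq : k * k ≤ q := by rw [hk]; exact Nat.sqrt_le q
  have hqM : q * m ≤ M := by rw [hq]; exact Nat.div_mul_le_self _ _
  have hq2 : q < (k+1) * (k+1) := by rw [hk]; exact Nat.lt_succ_sqrt q
  have hM2 : M < (q + 1) * m := by
    have h1 := Nat.div_add_mod M m
    have h2 := Nat.mod_lt M (show m > 0 by omega)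
    rw [← hq] at h1
    nlinarith
  have hN2 : N ≤ 4 * M := by omega
  have hM3 : 2 * M ≤ N := by omega
  have hkm : (k : ℝ) ^ 2 * m ≤ (s.card : ℝ) / 2 := by
    rw [← hN]
    have : (k * k * m) * 2 ≤ N := by nlinarith
    have h' : ((k * k * m) * 2 : ℝ) ≤ N := by exact_mod_cast this
    nlinarith
  have hg := hal_growth p s z (m:ℝ) (by positivity) k hk1 hkm hT
  have hN16 : N ≤ 16 * m * (k * k) := by
    have h1 : (k+1)*(k+1) ≤ 4 * (k*k) := by nlinarith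
    have h2 : q + 1 ≤ 4 * (k * k) := by omega
    nlinarith
  have hN16' : (N:ℝ) ≤ (4 * √(m:ℝ) * k)^2 := by
    have h1 : (4 * √(m:ℝ) * k)^2 = 16 * m * (k * k) := by
      have := Real.sq_sqrt (show (0:ℝ) ≤ m by positivity)
      calc (4 * √(m:ℝ) * k)^2 = 16 * (√(m:ℝ))^2 * (k * k) := by ring
        _ = _ := by rw [this]
    rw [h1]; exact_mod_cast hN16
  have hsq : √(N:ℝ) ≤ 4 * √(m:ℝ) * k := by
    apply Real.sqrt_le_iff.2
    exact ⟨by positivity, hN16'⟩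
  have hNpos : (0:ℝ) < √(N:ℝ) := Real.sqrt_pos.2 (by
    have : 0 < N := by omega
    exact_mod_cast this)
  have hkpos : (0:ℝ) < k := by exact_mod_cast hk1
  rw [← hN] at hg ⊢
  set T := ((Tz p s z (m:ℝ)).card : ℝ)
  set U := ((Tz p s z ((N : ℝ) / 2)).card : ℝ)
  have hU : 0 ≤ U := by positivity
  have h5 : T - 1 ≤ U / k := by
    rw [le_div_iff₀ hkpos]; linarith
  have h6 : U / k ≤ U * (4 * √(m:ℝ) / √(N:ℝ)) := by
    rw [div_eq_mul_inv]
    apply mul_le_mul_of_nonneg_left _ hU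
    rw [inv_eq_one_div, div_le_div_iff₀ hkpos hNpos]
    linarith
  linarith

-- TARGET (prove this)
theorem hal_zmod : ∃ C : ℝ, 0 < C ∧ ∀ {ι : Type} (p : ℕ) [Fact p.Prime] (s : Finset ι) (z : ι → ZMod p)
    (t : ZMod p), s.Nonempty → 8 * Rz p s z ≤ s.card ^ 2 →
    ((s.powerset.filter (fun B => ∑ i ∈ B, z i = t)).card : ℝ) / 2 ^ s.card
      ≤ C * ((Rz p s z : ℝ) / ((s.card : ℝ) ^ 2 * √(s.card : ℝ)) + 1 / (p : ℝ)) := by
  classical
  set x : ℝ := Real.exp (-(1:ℝ)/4) with hx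
  have hx0 : 0 < x := Real.exp_pos _
  have hx1 : x < 1 := by rw [hx, ← Real.exp_zero]; exact Real.exp_lt_exp.2 (by norm_num)
  have hnx : ‖x‖ < 1 := by rw [Real.norm_eq_abs, abs_of_pos hx0]; exact hx1
  have hs1 : Summable (fun j : ℕ => x ^ j) := summable_geometric_of_lt_one hx0.le hx1
  have hs2 : Summable (fun j : ℕ => ((j:ℝ) + 1) * x ^ j) := by
    have h1 := summable_pow_mul_geometric_of_norm_lt_one 1 hnx
    have := h1.add hs1
    refine this.congr ?_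
    intro j
    ring
  set C1 : ℝ := ∑' j : ℕ, x ^ j with hC1
  set C2 : ℝ := ∑' j : ℕ, ((j:ℝ) + 1) * x ^ j with hC2
  have hC1p : 0 ≤ C1 := tsum_nonneg (fun j => by positivity)
  have hC2p : 0 ≤ C2 := tsum_nonneg (fun j => by positivity)
  refine ⟨512 + 16 * C2 + C1, by positivity, ?_⟩
  intro ι p hp s z t hs h8
  have hRN := hz_R p s z
  have hN1 : 1 ≤ s.card := hs.card_pos
  have hN8 : 8 ≤ s.card := by nlinarith
  obtain ⟨N, hN⟩ : ∃ N, N = s.card := ⟨_, rfl⟩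
  obtain ⟨R, hR⟩ : ∃ R, R = Rz p s z := ⟨_, rfl⟩
  have hp0 : (0:ℝ) < p := by exact_mod_cast hp.out.pos
  have hNr : (8:ℝ) ≤ N := by rw [hN]; exact_mod_cast hN8
  have hRNr : (N:ℝ) ≤ R := by rw [hN, hR]; exact_mod_cast hRN
  have h8r : 8 * (R:ℝ) ≤ (N:ℝ)^2 := by rw [hN, hR]; exact_mod_cast h8
  have hsec := hal_second p s z
  rw [← hN, ← hR] at hsec
  set U := ((Tz p s z ((N : ℝ) / 2)).card : ℝ) with hU
  have hTlt : (Tz p s z ((s.card : ℝ) / 2)).card < p := by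
    rw [← hN]
    have h1 : U * (N:ℝ)^2 ≤ (p / 2 : ℝ) * (N:ℝ)^2 := by nlinarith
    have h2 : U ≤ p / 2 := le_of_mul_le_mul_right h1 (by positivity)
    have h3 : U < p := by linarith
    rw [hU] at h3
    exact_mod_cast h3
  have hUle : U ≤ 4 * p * R / (N:ℝ)^2 := by
    rw [le_div_iff₀ (by positivity)]; exact hsec
  have hf := hal_fourier p s z t
  obtain ⟨M, hM⟩ : ∃ M, M = N / 2 := ⟨_, rfl⟩
  have hM1 : 1 ≤ M := by omega
  have hsqN : 0 < √(N:ℝ) := Real.sqrt_pos.2 (by linarith)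
  -- sum bound
  have hsum : ∑ ξ : ZMod p, Real.exp (-(Dz p s z ξ) / 4) ≤
      p * Real.exp (-(M:ℝ)/4) + ∑ j ∈ range M, x ^ j * ((Tz p s z ((j+1:ℕ):ℝ)).card : ℝ) := by
    calc ∑ ξ : ZMod p, Real.exp (-(Dz p s z ξ) / 4)
        ≤ ∑ ξ : ZMod p, (Real.exp (-(M:ℝ)/4) + ∑ j ∈ range M,
      x^j * (if Dz p s z ξ ≤ ((j+1 : ℕ):ℝ) then (1:ℝ) else 0)) := by
          apply Finset.sum_le_sum
          intro ξ _
          exact hz_pt _ (hz_Dnn p s z ξ) M hM1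
      _ = _ := by
          rw [Finset.sum_add_distrib, Finset.sum_comm]
          congr 1
          · simp [ZMod.card]
          · apply Finset.sum_congr rfl
            intro j _
            rw [← Finset.mul_sum]
            congr 1
            rw [Finset.sum_boole]
            unfold Tz
            rfl
  have hT : ∀ j ∈ range M, x ^ j * ((Tz p s z ((j+1:ℕ):ℝ)).card : ℝ) ≤
      x ^ j + (16 * p * R / ((N:ℝ)^2 * √(N:ℝ))) * (((j:ℝ) + 1) * x ^ j) := by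
    intro j hj
    have hj' := Finset.mem_range.1 hj
    have h1 := hz_T p s z hN8 hTlt (j+1) (by omega) (by rw [← hN, ← hM]; omega)
    rw [← hN] at h1
    have h2 : √((j+1:ℕ):ℝ) ≤ (j:ℝ) + 1 := by
      push_cast
      apply Real.sqrt_le_iff.2
      constructor
      · positivity
      · nlinarith [(Nat.cast_nonneg j : (0:ℝ) ≤ j)]
    have h3 : U * (4 * √((j+1:ℕ):ℝ) / √(N:ℝ)) ≤
        (4 * p * R / (N:ℝ)^2) * (4 * ((j:ℝ)+1) / √(N:ℝ)) := by
      apply mul_le_mul hUle _ (by positivity) (by positivity)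
      apply div_le_div_of_nonneg_right _ hsqN.le
      linarith
    have h4 : (4 * p * R / (N:ℝ)^2) * (4 * ((j:ℝ)+1) / √(N:ℝ)) =
        (16 * p * R / ((N:ℝ)^2 * √(N:ℝ))) * ((j:ℝ) + 1) := by
      field_simp
      ring
    have h5 : ((Tz p s z ((j+1:ℕ):ℝ)).card : ℝ) ≤
        1 + (16 * p * R / ((N:ℝ)^2 * √(N:ℝ))) * ((j:ℝ) + 1) := by
      rw [h4] at h3
      linarith
    have h6 := mul_le_mul_of_nonneg_left h5 (show 0 ≤ x ^ j by positivity)
    calc _ ≤ _ := h6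
      _ = _ := by ring
  have hsumT : ∑ j ∈ range M, x ^ j * ((Tz p s z ((j+1:ℕ):ℝ)).card : ℝ) ≤
      C1 + (16 * p * R / ((N:ℝ)^2 * √(N:ℝ))) * C2 := by
    refine (Finset.sum_le_sum hT).trans ?_
    rw [Finset.sum_add_distrib, ← Finset.mul_sum]
    have h1 : ∑ j ∈ range M, x ^ j ≤ C1 := hs1.sum_le_tsum _ (fun j _ => by positivity)
    have h2 : ∑ j ∈ range M, ((j:ℝ) + 1) * x ^ j ≤ C2 :=
      hs2.sum_le_tsum _ (fun j _ => by positivity)
    have h3 := mul_le_mul_of_nonneg_left h2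
      (show 0 ≤ (16 * p * R / ((N:ℝ)^2 * √(N:ℝ)) : ℝ) by positivity)
    linarith
  have hexp : Real.exp (-(M:ℝ)/4) ≤ 512 * ((R:ℝ) / ((N:ℝ)^2 * √(N:ℝ))) := by
    have hM4 : (N:ℝ) / 4 ≤ M := by
      have : N ≤ 4 * M := by omega
      have h : (N:ℝ) ≤ 4 * M := by exact_mod_cast this
      linarith
    have h1 : Real.exp (-(M:ℝ)/4) ≤ Real.exp (-((N:ℝ)/16)) := Real.exp_le_exp.2 (by linarith)
    have h2 := Real.quadratic_le_exp_of_nonneg (show (0:ℝ) ≤ (N:ℝ)/16 by positivity)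
    have h3 : (N:ℝ)^2 / 512 ≤ Real.exp ((N:ℝ)/16) := by
      have : ((N:ℝ)/16)^2/2 = (N:ℝ)^2/512 := by ring
      nlinarith
    have h4 : Real.exp (-((N:ℝ)/16)) ≤ 512 / (N:ℝ)^2 := by
      rw [Real.exp_neg, inv_eq_one_div, div_le_div_iff₀ (Real.exp_pos _) (by positivity)]
      linarith
    have h5 : (512:ℝ) / (N:ℝ)^2 ≤ 512 * ((R:ℝ) / ((N:ℝ)^2 * √(N:ℝ))) := by
      rw [mul_div_assoc', div_le_div_iff₀ (by positivity) (by positivity)]
      have h6 : √(N:ℝ) ≤ R := by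
        have : √(N:ℝ) ≤ N := by
          apply Real.sqrt_le_iff.2
          constructor
          · positivity
          · nlinarith
        linarith
      have h7 : 0 < (N:ℝ)^2 := by positivity
      nlinarith
    linarith
  rw [← hN] at hf ⊢
  rw [← hR]
  set Q := (R:ℝ) / ((N:ℝ)^2 * √(N:ℝ)) with hQ
  have hQ0 : 0 ≤ Q := by positivity
  refine hf.trans ?_
  have h7 : (16 * p * R / ((N:ℝ)^2 * √(N:ℝ)) : ℝ) = p * (16 * Q) := by rw [hQ]; ring
  rw [h7] at hsumT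
  have h8' : ∑ ξ : ZMod p, Real.exp (-(Dz p s z ξ) / 4) ≤
      p * (512 * Q) + C1 + p * (16 * Q) * C2 := by
    have := mul_le_mul_of_nonneg_left hexp hp0.le
    linarith
  have h9 := mul_le_mul_of_nonneg_left h8' (show (0:ℝ) ≤ 1 / p by positivity)
  refine h9.trans ?_
  have h10 : 1 / (p:ℝ) * (p * (512 * Q) + C1 + p * (16 * Q) * C2) =
      512 * Q + C1 * (1 / p) + 16 * C2 * Q := by
    field_simp
  rw [h10]
  have h11 : 0 ≤ C1 * Q := by positivity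
  have h12 : 0 ≤ (1 / (p:ℝ)) := by positivity
  nlinarith [mul_nonneg hC2p h12]


end JD4
export JD4 (hal_zmod)
end ZA
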