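import Pool.Agent.Helper470.ZA.Defs
set_option autoImplicit false
open Finset
open scoped Classical

namespace ZA
namespace JD5


-- TARGET (prove this)
theorem transfer {ι : Type} (s : Finset ι) (y : ι → ℝ) (t : ℝ) (P0 : ℕ) :
    ∃ p : ℕ, p.Prime ∧ P0 ≤ p ∧ ∃ (z : ι → ZMod p) (τ : ZMod p),
      (∀ B ⊆ s, ∑ i ∈ B, y i = t → ∑ i ∈ B, z i = τ) ∧
      (∀ i ∈ s, ∀ j ∈ s, (z i = z j ∨ z i = - z j) → |y i| = |y j|) := by
  set W : Finset ℝ := ((s ×ˢ s).image (fun q => y q.1 - y q.2) ∪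
    (s ×ˢ s).image (fun q => y q.1 + y q.2)).filter (· ≠ 0) with hW
  obtain ⟨φ, hφ⟩ := Module.exists_dual_forall_apply_ne_zero (K := ℚ) (M := ℝ)
    (fun w : W => (w : ℝ)) (fun w => (Finset.mem_filter.1 w.2).2)
  have hsub : ∀ i ∈ s, ∀ j ∈ s, y i - y j ≠ 0 → φ (y i) - φ (y j) ≠ 0 := by
    intro i hi j hj hne
    have := hφ ⟨y i - y j, Finset.mem_filter.2 ⟨Finset.mem_union_left _
      (Finset.mem_image.2 ⟨(i, j), Finset.mem_product.2 ⟨hi, hj⟩, rfl⟩), hne⟩⟩
    simpa [map_sub] using this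
  have hadd : ∀ i ∈ s, ∀ j ∈ s, y i + y j ≠ 0 → φ (y i) + φ (y j) ≠ 0 := by
    intro i hi j hj hne
    have := hφ ⟨y i + y j, Finset.mem_filter.2 ⟨Finset.mem_union_right _
      (Finset.mem_image.2 ⟨(i, j), Finset.mem_product.2 ⟨hi, hj⟩, rfl⟩), hne⟩⟩
    simpa [map_add] using this
  set D : ℕ := ∏ i ∈ s, (φ (y i)).den with hD
  have hD0 : (D : ℚ) ≠ 0 := by
    have : D ≠ 0 := Finset.prod_ne_zero_iff.2 fun i _ => (φ (y i)).den_nz
    exact_mod_cast this
  have hint : ∀ i ∈ s, ∃ a : ℤ, (a : ℚ) = D * φ (y i) := by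
    intro i hi
    obtain ⟨c, hc⟩ : (φ (y i)).den ∣ D := Finset.dvd_prod_of_mem _ hi
    refine ⟨c * (φ (y i)).num, ?_⟩
    rw [hc]
    push_cast
    have := Rat.mul_den_eq_num (φ (y i))
    rw [← this]
    ring
  choose! a ha using hint
  have hsum : ∀ B ⊆ s, ((∑ i ∈ B, a i : ℤ) : ℚ) = D * φ (∑ i ∈ B, y i) := by
    intro B hB
    rw [map_sum, Finset.mul_sum]
    push_cast
    exact Finset.sum_congr rfl fun i hi => ha i (hB hi)
  set M : ℕ := 2 * ∑ i ∈ s, (a i).natAbs with hM
  obtain ⟨p, hp1, hp2⟩ := Nat.exists_infinite_primes (max P0 (M + 1))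
  have hpP : P0 ≤ p := (le_max_left _ _).trans hp1
  have hpM : M < p := (le_max_right _ _).trans hp1
  have hbd : ∀ i ∈ s, |a i| ≤ ∑ i ∈ s, (a i).natAbs := by
    intro i hi
    rw [Int.abs_eq_natAbs]
    exact_mod_cast Finset.single_le_sum (f := fun i => (a i).natAbs) (fun _ _ => Nat.zero_le _) hi
  have hpM' : 2 * ((∑ i ∈ s, (a i).natAbs : ℕ) : ℤ) < p := by
    rw [hM] at hpM
    exact_mod_cast hpM
  refine ⟨p, hp2, hpP, fun i => (a i : ZMod p),
    if h : ∃ B ⊆ s, ∑ i ∈ B, y i = t then ∑ i ∈ h.choose, (a i : ZMod p) else 0, ?_, ?_⟩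
  · intro B hB hBt
    have h : ∃ B ⊆ s, ∑ i ∈ B, y i = t := ⟨B, hB, hBt⟩
    rw [dif_pos h]
    have h1 := hsum B hB
    have h2 := hsum h.choose h.choose_spec.1
    rw [hBt] at h1
    rw [h.choose_spec.2, ← h1] at h2
    have h3 : ∑ i ∈ h.choose, a i = ∑ i ∈ B, a i := by exact_mod_cast h2
    have h4 := congrArg (fun x : ℤ => (x : ZMod p)) h3
    simp only [Int.cast_sum] at h4
    exact h4.symm
  · intro i hi j hj hz
    have hi1 := hbd i hi
    have hj1 := hbd j hj
    rcases hz with hz | hz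
    · have h1 := (ZMod.intCast_eq_intCast_iff_dvd_sub _ _ _).1 hz
      have h2 : a j - a i = 0 := by
        apply Int.eq_zero_of_abs_lt_dvd h1
        have := abs_sub (a j) (a i)
        linarith
      by_contra hne
      have h3 : y i - y j ≠ 0 := by
        intro h0
        exact hne (by rw [sub_eq_zero.1 h0])
      apply hsub i hi j hj h3
      have h4 : (a i : ℚ) = a j := by
        have : a i = a j := by omega
        rw [this]
      rw [ha i hi, ha j hj] at h4
      rw [mul_left_cancel₀ hD0 h4, sub_self]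
    · have hz' : ((a i : ℤ) : ZMod p) = ((-a j : ℤ) : ZMod p) := by
        push_cast
        exact hz
      have h1 := (ZMod.intCast_eq_intCast_iff_dvd_sub _ _ _).1 hz'
      have h2 : -a j - a i = 0 := by
        apply Int.eq_zero_of_abs_lt_dvd h1
        have := abs_sub (-a j) (a i)
        rw [abs_neg] at this
        linarith
      by_contra hne
      have h3 : y i + y j ≠ 0 := by
        intro h0
        apply hne
        rw [eq_neg_of_add_eq_zero_left h0, abs_neg]
      apply hadd i hi j hj h3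
      have h4 : (a i : ℚ) = -a j := by
        have : a i = -a j := by omega
        rw [this]
        push_cast
        rfl
      rw [ha i hi, ha j hj] at h4
      have h5 : (D : ℚ) * (φ (y i) + φ (y j)) = 0 := by
        rw [mul_add, h4]
        ring
      rcases mul_eq_zero.1 h5 with h6 | h6
      · exact absurd h6 hD0
      · exact h6


end JD5
export JD5 (transfer)
end ZA
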