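import Pool.Agent.Helper470.ZA.Defs
import Pool.Agent.Helper470.ZA.D4
import Pool.Agent.Helper470.ZA.D5
set_option autoImplicit false
open Finset
open scoped Classical

namespace ZA
namespace JD6






-- TARGET (prove this)
theorem halasz : ∃ C : ℝ, 0 < C ∧ ∀ {ι : Type} (s : Finset ι) (y : ι → ℝ) (t : ℝ), s.Nonempty →
    8 * Rr s y ≤ s.card ^ 2 →
    pr s y t ≤ C * ((Rr s y : ℝ) / ((s.card : ℝ) ^ 2 * √(s.card : ℝ))) := by
  obtain ⟨C, hC, hh⟩ := hal_zmod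
  refine ⟨C, hC, ?_⟩
  intro ι s y t hs hR
  apply le_of_forall_pos_le_add
  intro ε hε
  obtain ⟨P0, hP0⟩ := exists_nat_ge (C / ε)
  obtain ⟨p, hp, hpP, z, τ, h1, h2⟩ := transfer s y t P0
  have : Fact p.Prime := ⟨hp⟩
  have hpr : (0 : ℝ) < p := by exact_mod_cast hp.pos
  have hRz : Rz p s z ≤ Rr s y := by
    unfold Rz Rr
    apply Finset.card_le_card
    intro q hq
    rw [mem_filter] at hq ⊢
    have h3 := mem_product.1 hq.1
    exact ⟨hq.1, h2 q.1 h3.1 q.2 h3.2 hq.2⟩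
  have h4 := hh p s z τ hs (by omega)
  have h5 : cnt s y t ≤ (s.powerset.filter (fun B => ∑ i ∈ B, z i = τ)).card := by
    unfold cnt
    apply Finset.card_le_card
    intro B hB
    rw [mem_filter] at hB ⊢
    exact ⟨hB.1, h1 B (mem_powerset.1 hB.1) hB.2⟩
  have h6 : pr s y t ≤ ((s.powerset.filter (fun B => ∑ i ∈ B, z i = τ)).card : ℝ) / 2 ^ s.card := by
    unfold pr
    apply div_le_div_of_nonneg_right _ (by positivity)
    exact_mod_cast h5
  have hN : (0 : ℝ) < s.card := by exact_mod_cast hs.card_pos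
  have h7 : (Rz p s z : ℝ) / ((s.card : ℝ) ^ 2 * √(s.card : ℝ)) ≤
      (Rr s y : ℝ) / ((s.card : ℝ) ^ 2 * √(s.card : ℝ)) := by
    apply div_le_div_of_nonneg_right _ (by positivity)
    exact_mod_cast hRz
  have h8 : C * (1 / (p : ℝ)) ≤ ε := by
    rw [mul_one_div, div_le_iff₀ hpr]
    rw [div_le_iff₀ hε] at hP0
    have h9 : (P0 : ℝ) ≤ p := by exact_mod_cast hpP
    nlinarith
  calc pr s y t ≤ _ := h6
    _ ≤ C * ((Rz p s z : ℝ) / ((s.card : ℝ) ^ 2 * √(s.card : ℝ)) + 1 / (p : ℝ)) := h4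
    _ = C * ((Rz p s z : ℝ) / ((s.card : ℝ) ^ 2 * √(s.card : ℝ))) + C * (1 / (p : ℝ)) := by ring
    _ ≤ _ := add_le_add (mul_le_mul_of_nonneg_left h7 hC.le) h8


end JD6
export JD6 (halasz)
end ZA
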