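import Mathlib
set_option autoImplicit false
open Finset
open scoped Classical

namespace ZA

/-- number of subsets `B` of `s` with `∑_{i∈B} y i = t` -/
noncomputable def cnt {ι : Type} (s : Finset ι) (y : ι → ℝ) (t : ℝ) : ℕ :=
  (s.powerset.filter (fun B => ∑ i ∈ B, y i = t)).card

/-- proportion of subsets `B` of `s` with `∑_{i∈B} y i = t` -/
noncomputable def pr {ι : Type} (s : Finset ι) (y : ι → ℝ) (t : ℝ) : ℝ :=
  (cnt s y t : ℝ) / 2 ^ s.card

/-- `D(ξ) = ∑_{i∈s} (1 - Re e(ξ z_i / p))` -/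
noncomputable def Dz {ι : Type} (p : ℕ) [NeZero p] (s : Finset ι) (z : ι → ZMod p) (ξ : ZMod p) : ℝ :=
  ∑ i ∈ s, (1 - (ZMod.stdAddChar (ξ * z i) : ℂ).re)

/-- level set of `D` -/
noncomputable def Tz {ι : Type} (p : ℕ) [NeZero p] (s : Finset ι) (z : ι → ZMod p) (m : ℝ) : Finset (ZMod p) :=
  univ.filter (fun ξ => Dz p s z ξ ≤ m)

/-- number of pairs `(i,j)` with `z_i = ± z_j` -/
noncomputable def Rz {ι : Type} (p : ℕ) (s : Finset ι) (z : ι → ZMod p) : ℕ :=
  ((s ×ˢ s).filter (fun q => z q.1 = z q.2 ∨ z q.1 = - z q.2)).card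

/-- number of pairs `(i,j)` with `|y_i| = |y_j|` -/
noncomputable def Rr {ι : Type} (s : Finset ι) (y : ι → ℝ) : ℕ :=
  ((s ×ˢ s).filter (fun q => |y q.1| = |y q.2|)).card

/-- multiplicity of `|y i|` in `s` -/
noncomputable def mult {ι : Type} (s : Finset ι) (y : ι → ℝ) (i : ι) : ℕ :=
  (s.filter (fun j => |y j| = |y i|)).card

end ZA
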