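import Pool.Agent.Helper470.ZA.Defs
set_option autoImplicit false
open Finset
open scoped Classical

namespace ZA

/-- the least positive integer that does not divide `r` (for `r ≥ 1`) -/
noncomputable def dd (r : ℕ) : ℕ := sInf {q : ℕ | 1 ≤ q ∧ ¬ q ∣ r}

/-- the effective size `max(n-r, 2 min(r, n-r))` -/
def Ns (n r : ℕ) : ℕ := max (n - r) (2 * min r (n - r))

/-- the effective variance `V(n,r) = min((d(r)-1) n, 4 N*(n,r))` -/
noncomputable def VV (n r : ℕ) : ℕ := min ((dd r - 1) * n) (4 * Ns n r)

/-- `x` is `r`-admissible: no sum of `r` entries with distinct indices vanishes. -/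
def Admissible {n : ℕ} (r : ℕ) (x : Fin n → ℝ) : Prop :=
  ∀ S : Finset (Fin n), S.card = r → ∑ i ∈ S, x i ≠ 0

/-- `Z x` is the number of index sets `B` with `∑_{i ∈ B} x i = 0` (the empty set is counted). -/
noncomputable def Z {n : ℕ} (x : Fin n → ℝ) : ℕ :=
  (univ.filter (fun B : Finset (Fin n) => ∑ i ∈ B, x i = 0)).card

end ZA
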