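import Pool.Agent.Helper470.ZA.DefsB
set_option autoImplicit false
open Finset
open scoped Classical

namespace ZA

/-- no zero-sum index set with at least `N - k` elements -/
def NoBig {N : ℕ} (k : ℕ) (y : Fin N → ℝ) : Prop :=
  ∀ B : Finset (Fin N), N ≤ B.card + k → ∑ i ∈ B, y i ≠ 0

end ZA
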