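import Pool.Agent.Helper470.ZA.Defs
set_option autoImplicit false
open Finset
open scoped Classical

namespace ZA
namespace JE1


-- TARGET (prove this)
theorem lattice (Q : ℕ) (hQ : 1 ≤ Q) : ∃ K : ℕ, 1 ≤ K ∧ ∀ {ι : Type} (P : Finset ι), P.Nonempty →
    ∀ w : ι → ℝ, (∀ i ∈ P, 0 < w i) →
    (∀ i ∈ P, ∀ j ∈ P, ∃ a b : ℕ, 1 ≤ a ∧ a < Q ∧ 1 ≤ b ∧ b < Q ∧ (a : ℝ) * w i = b * w j) →
    ∃ v : ℝ, 0 < v ∧ ∃ k : ι → ℕ, (∀ i ∈ P, 1 ≤ k i ∧ k i ≤ K ∧ w i = k i * v) ∧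
      (∀ d : ℕ, (∀ i ∈ P, d ∣ k i) → d = 1) := by
  refine ⟨Q * Q.factorial, Nat.mul_pos hQ Q.factorial_pos, ?_⟩
  intro ι P hP w hw hc
  obtain ⟨i0, hi0⟩ := hP
  have hQf : (0 : ℝ) < (Q.factorial : ℝ) := by exact_mod_cast Q.factorial_pos
  have h1 : ∀ i ∈ P, ∃ k' : ℕ, 1 ≤ k' ∧ k' ≤ Q * Q.factorial ∧
      w i = k' * (w i0 / Q.factorial) := by
    intro i hi
    obtain ⟨a, b, ha1, haQ, hb1, hbQ, hab⟩ := hc i hi i0 hi0
    have hd : a ∣ Q.factorial := Nat.dvd_factorial (by omega) haQ.le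
    have ha0 : (0 : ℝ) < a := by exact_mod_cast ha1
    refine ⟨b * (Q.factorial / a), ?_, ?_, ?_⟩
    · exact Nat.mul_pos hb1 (Nat.div_pos (Nat.le_of_dvd Q.factorial_pos hd) ha1)
    · exact Nat.mul_le_mul hbQ.le (Nat.div_le_self _ _)
    · rw [Nat.cast_mul, Nat.cast_div hd ha0.ne']
      field_simp
      linarith
  choose! k' hk1 hk2 hk3 using h1
  have hg : ∀ i ∈ P, P.gcd k' ∣ k' i := fun i hi => Finset.gcd_dvd hi
  have hg0 : 0 < P.gcd k' := Nat.pos_of_dvd_of_pos (hg i0 hi0) (hk1 i0 hi0)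
  have hw0 := hw i0 hi0
  have hgR : (0 : ℝ) < ((P.gcd k' : ℕ) : ℝ) := by exact_mod_cast hg0
  refine ⟨(P.gcd k' : ℕ) * (w i0 / Q.factorial), by positivity, fun i => k' i / P.gcd k', ?_, ?_⟩
  · intro i hi
    refine ⟨Nat.div_pos (Nat.le_of_dvd (hk1 i hi) (hg i hi)) hg0,
      (Nat.div_le_self _ _).trans (hk2 i hi), ?_⟩
    rw [Nat.cast_div (hg i hi) hgR.ne', hk3 i hi]
    field_simp
  · intro d hd
    have h2 : P.gcd k' * d ∣ P.gcd k' := by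
      apply Finset.dvd_gcd
      intro i hi
      obtain ⟨c, hc'⟩ := hg i hi
      have h3 : d ∣ k' i / P.gcd k' := hd i hi
      have h4 : k' i / P.gcd k' = c := by
        rw [hc', Nat.mul_div_cancel_left _ hg0]
      rw [h4] at h3
      rw [hc']
      exact Nat.mul_dvd_mul_left _ h3
    have h5 : P.gcd k' * d ∣ P.gcd k' * 1 := by rwa [mul_one]
    exact Nat.dvd_one.1 (Nat.dvd_of_mul_dvd_mul_left hg0 h5)


end JE1
export JE1 (lattice)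
end ZA
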