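import Pool.Agent.Helper470.ZA.Defs
import Pool.Agent.Helper470.ZA.B1
import Pool.Agent.Helper470.ZA.C3
set_option autoImplicit false
open Finset
open scoped Classical

namespace ZA
namespace JE10






theorem step1_split {ι : Type} (s : Finset ι) (y : ι → ℝ) (i : ι) (m : ℝ)
    (hm : 2 * m ≤ (mult s y i : ℝ)) :
    ∃ c : ℝ, |c| = |y i| ∧ ∃ S : Finset ι, S ⊆ s ∧ (∀ l ∈ S, y l = c) ∧ m ≤ (S.card : ℝ) := by
  have hsub : s.filter (fun l => |y l| = |y i|) ⊆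
      s.filter (fun l => y l = y i) ∪ s.filter (fun l => y l = - y i) := by
    intro l hl
    obtain ⟨h1, h2⟩ := Finset.mem_filter.1 hl
    rw [Finset.mem_union, Finset.mem_filter, Finset.mem_filter]
    rcases abs_eq_abs.1 h2 with h | h
    · exact Or.inl ⟨h1, h⟩
    · exact Or.inr ⟨h1, h⟩
  have h1 : (mult s y i : ℝ) ≤ ((s.filter (fun l => y l = y i)).card : ℝ) +
      ((s.filter (fun l => y l = - y i)).card : ℝ) := by
    have := (Finset.card_le_card hsub).trans (Finset.card_union_le _ _)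
    unfold mult
    exact_mod_cast this
  by_cases h : m ≤ ((s.filter (fun l => y l = y i)).card : ℝ)
  · exact ⟨y i, rfl, _, Finset.filter_subset _ _, fun l hl => (Finset.mem_filter.1 hl).2, h⟩
  · refine ⟨- y i, abs_neg _, s.filter (fun l => y l = - y i), Finset.filter_subset _ _,
      fun l hl => (Finset.mem_filter.1 hl).2, ?_⟩
    push Not at h
    linarith

-- TARGET (prove this)
theorem step1 (η δ : ℝ) (hη : 0 < η) (hδ : 0 < δ) : ∃ Q : ℕ, 2 ≤ Q ∧ ∃ N0 : ℕ,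
    ∀ {ι : Type} (s : Finset ι) (y : ι → ℝ) (t : ℝ), N0 ≤ s.card → (∀ i ∈ s, y i ≠ 0) →
    ∀ i ∈ s, ∀ j ∈ s, δ * s.card ≤ (mult s y i : ℝ) → δ * s.card ≤ (mult s y j : ℝ) →
    (¬ ∃ a b : ℕ, 1 ≤ a ∧ a < Q ∧ 1 ≤ b ∧ b < Q ∧ (a : ℝ) * |y i| = b * |y j|) →
    pr s y t ≤ η / √(s.card : ℝ) := by
  set w : ℝ := √(δ / 2) with hw
  have hw0 : 0 < w := Real.sqrt_pos.2 (by positivity)
  have hw2 : w * w = δ / 2 := Real.mul_self_sqrt (by positivity)
  obtain ⟨Q0, hQ0⟩ := exists_nat_ge (4 / (η * w))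
  obtain ⟨N1, hN1⟩ := exists_nat_ge ((24 / (η * δ)) ^ 2)
  refine ⟨Q0 + 2, by omega, N1 + 1, ?_⟩
  intro ι s y t hN hy i hi j hj hmi hmj hno
  have hNr : ((N1 + 1 : ℕ) : ℝ) ≤ (s.card : ℝ) := by exact_mod_cast hN
  push_cast at hNr
  have hNpos : 0 < (s.card : ℝ) := by
    have : (0 : ℝ) ≤ N1 := Nat.cast_nonneg _
    linarith
  set r : ℝ := √(s.card : ℝ) with hr
  have hr0 : 0 < r := Real.sqrt_pos.2 hNpos
  have hrr : 24 / (η * δ) ≤ r := by
    apply Real.le_sqrt_of_sq_le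
    linarith
  have hr24 : 24 ≤ η * δ * r := by
    rw [div_le_iff₀ (by positivity)] at hrr
    linarith
  have hQr : 4 ≤ η * w * ((Q0 + 2 : ℕ) : ℝ) := by
    rw [div_le_iff₀ (by positivity)] at hQ0
    push_cast
    nlinarith [mul_pos hη hw0]
  have hQpos : 0 < ((Q0 + 2 : ℕ) : ℝ) := by positivity
  obtain ⟨c, hc, S1, hS1, hS1c, hS1m⟩ := step1_split s y i (δ / 2 * s.card) (by linarith)
  obtain ⟨e, he, S2, hS2, hS2e, hS2m⟩ := step1_split s y j (δ / 2 * s.card) (by linarith)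
  have hmpos : 0 < δ / 2 * (s.card : ℝ) := by positivity
  have hwr : w * r = √(δ / 2 * (s.card : ℝ)) := by
    rw [hw, hr, ← Real.sqrt_mul (by positivity)]
  have hwr0 : 0 < w * r := by positivity
  have h1 : w * r ≤ √(S1.card : ℝ) := by
    rw [hwr]
    exact Real.sqrt_le_sqrt hS1m
  have h2 : w * r ≤ √(S2.card : ℝ) := by
    rw [hwr]
    exact Real.sqrt_le_sqrt hS2m
  have hc0 : c ≠ 0 := by
    intro h
    rw [h, abs_zero] at hc
    exact hy i hi (abs_eq_zero.1 hc.symm)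
  have he0 : e ≠ 0 := by
    intro h
    rw [h, abs_zero] at he
    exact hy j hj (abs_eq_zero.1 he.symm)
  have hno' : ¬ ∃ a b : ℕ, 1 ≤ a ∧ a < Q0 + 2 ∧ 1 ≤ b ∧ b < Q0 + 2 ∧
      (a : ℝ) * |c| = b * |e| := by
    rw [hc, he]
    exact hno
  have hne : |c| ≠ |e| := by
    intro h
    apply hno'
    exact ⟨1, 1, le_rfl, by omega, le_rfl, by omega, by rw [h]⟩
  have hdisj : Disjoint S1 S2 := by
    rw [Finset.disjoint_left]
    intro l hl1 hl2
    apply hne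
    rw [← hS1c l hl1, ← hS2e l hl2]
  have hS10 : S1.Nonempty := by
    rw [← Finset.card_pos]
    have : (0 : ℝ) < (S1.card : ℝ) := by linarith
    exact_mod_cast this
  have hS20 : S2.Nonempty := by
    rw [← Finset.card_pos]
    have : (0 : ℝ) < (S2.card : ℝ) := by linarith
    exact_mod_cast this
  refine pr_le_of_subset (S1 ∪ S2) s (Finset.union_subset hS1 hS2) y _ ?_ t
  intro τ
  refine (pr_S2 S1 S2 hdisj y c e hc0 he0 hS1c hS2e hS10 hS20 (Q0 + 2) (by omega) hno' τ).trans ?_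
  have b1 : 1 / √(S1.card : ℝ) ≤ 1 / (w * r) := one_div_le_one_div_of_le hwr0 h1
  have b2 : 1 / √(S2.card : ℝ) ≤ 1 / (w * r) := one_div_le_one_div_of_le hwr0 h2
  have b3 : 3 / √(S1.card : ℝ) ≤ 3 / (w * r) := div_le_div_of_nonneg_left (by norm_num) hwr0 h1
  have b4 : 3 / √(S2.card : ℝ) ≤ 3 / (w * r) := div_le_div_of_nonneg_left (by norm_num) hwr0 h2
  have p0 : 0 ≤ 1 / (w * r) := by positivity
  have t1 : (1 / √(S2.card : ℝ)) * (3 / √(S1.card : ℝ) + 1 / ((Q0 + 2 : ℕ) : ℝ))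
      ≤ (1 / (w * r)) * (3 / (w * r) + 1 / ((Q0 + 2 : ℕ) : ℝ)) := by
    apply mul_le_mul b2 (by linarith) (by positivity) p0
  have t2 : (1 / √(S1.card : ℝ)) * (3 / √(S2.card : ℝ) + 1 / ((Q0 + 2 : ℕ) : ℝ))
      ≤ (1 / (w * r)) * (3 / (w * r) + 1 / ((Q0 + 2 : ℕ) : ℝ)) := by
    apply mul_le_mul b1 (by linarith) (by positivity) p0
  have t3 : (1 / (w * r)) * (3 / (w * r)) ≤ η / (4 * r) := by
    rw [div_mul_div_comm, div_le_div_iff₀ (by positivity) (by positivity)]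
    have e1 : w * r * (w * r) = δ / 2 * (r * r) := by
      rw [← hw2]
      ring
    rw [e1]
    nlinarith
  have t4 : (1 / (w * r)) * (1 / ((Q0 + 2 : ℕ) : ℝ)) ≤ η / (4 * r) := by
    rw [div_mul_div_comm, div_le_div_iff₀ (by positivity) (by positivity)]
    nlinarith
  have t5 : η / r = 4 * (η / (4 * r)) := by
    field_simp
  rw [t5]
  have t6 : (1 / (w * r)) * (3 / (w * r) + 1 / ((Q0 + 2 : ℕ) : ℝ))
      = (1 / (w * r)) * (3 / (w * r)) + (1 / (w * r)) * (1 / ((Q0 + 2 : ℕ) : ℝ)) := by ring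
  rw [t6] at t1 t2
  linarith


end JE10
export JE10 (step1)
end ZA
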