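import Pool.Agent.Helper470.ZA.Defs
set_option autoImplicit false
open Finset
open scoped Classical

namespace ZA
namespace JE11


theorem step3_bal {ι : Type} (T : Finset ι) (k : ι → ℕ) (y : ι → ℝ) (c : ℕ → ℝ)
    (h : ∀ i ∈ T, y i = c (k i)) :
    ∑ i ∈ T, y i = ∑ w ∈ T.image k, ((T.filter (fun j => k j = w)).card : ℝ) * c w := by
  rw [← Finset.sum_fiberwise_of_maps_to (t := T.image k) (g := k)
    (fun i hi => Finset.mem_image_of_mem k hi)]
  apply Finset.sum_congr rfl
  intro w _
  rw [Finset.sum_congr rfl (g := fun _ => c w), Finset.sum_const, nsmul_eq_mul]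
  intro i hi
  rw [Finset.mem_filter] at hi
  rw [h i hi.1, hi.2]

-- TARGET (prove this)
theorem step3 {ι : Type} (s P : Finset ι) (hP : P ⊆ s) (y : ι → ℝ) (K : ℕ) (m : ℝ) (v : ℝ) (hv : 0 < v)
    (k : ι → ℕ) (hk : ∀ i ∈ P, 1 ≤ k i ∧ k i ≤ K ∧ |y i| = k i * v)
    (hgcd : ∀ d : ℕ, (∀ i ∈ P, d ∣ k i) → d = 1)
    (hm : ∀ i ∈ P, m ≤ ((P.filter (fun j => k j = k i)).card : ℝ))
    (r : ℕ) (hr : Even r) (hr1 : 1 ≤ r)
    (hadm : ∀ B ⊆ s, B.card = r → ∑ i ∈ B, y i ≠ 0) :
    ∃ (S : Finset ι) (z : ι → ℤ), S ⊆ P ∧ (∀ i ∈ S, y i = z i * v ∧ z i ≠ 0 ∧ |z i| ≤ (K : ℤ)) ∧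
      (∀ i ∈ S, m / 2 ≤ ((S.filter (fun j => z j = z i)).card : ℝ)) ∧
      (∀ i ∈ S, ∀ j ∈ S, z j ≠ - z i) ∧
      (∀ d : ℕ, (∀ i ∈ S, (d : ℤ) ∣ z i) → d = 1) ∧ 2 * (P \ S).card < r := by
  set plus : ℕ → Finset ι := fun w => P.filter (fun j => k j = w ∧ y j = k j * v) with hplus
  set minus : ℕ → Finset ι := fun w => P.filter (fun j => k j = w ∧ y j = -(k j * v)) with hminus
  obtain ⟨σ, hσ⟩ : ∃ σ : ℕ → ℤ, ∀ w, (σ w = 1 ∧ (minus w).card ≤ (plus w).card) ∨
      (σ w = -1 ∧ (plus w).card ≤ (minus w).card) := by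
    refine ⟨fun w => if (minus w).card ≤ (plus w).card then 1 else -1, fun w => ?_⟩
    by_cases h : (minus w).card ≤ (plus w).card
    · left; exact ⟨by simp [h], h⟩
    · right; exact ⟨by simp [h], by omega⟩
  have hσ' : ∀ w, σ w = 1 ∨ σ w = -1 := fun w => by
    rcases hσ w with h | h
    · exact Or.inl h.1
    · exact Or.inr h.1
  have hy : ∀ i ∈ P, y i = k i * v ∨ y i = -(k i * v) := by
    intro i hi
    have h1 := (hk i hi).2.2
    have h2 : (0 : ℝ) ≤ k i * v := by positivity
    exact (abs_eq h2).1 h1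
  set S := P.filter (fun i => y i = (σ (k i) : ℝ) * k i * v) with hS
  have hSP : S ⊆ P := Finset.filter_subset _ _
  have hSy : ∀ i ∈ S, y i = (σ (k i) : ℝ) * k i * v := fun i hi => (Finset.mem_filter.1 hi).2
  have hNy : ∀ i ∈ P \ S, y i = -((σ (k i) : ℝ) * k i * v) := by
    intro i hi
    rw [Finset.mem_sdiff] at hi
    have h1 : y i ≠ (σ (k i) : ℝ) * k i * v := by
      intro h
      exact hi.2 (Finset.mem_filter.2 ⟨hi.1, h⟩)
    rcases hy i hi.1 with h | h <;> rcases hσ' (k i) with h2 | h2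
    · exfalso; apply h1; rw [h, h2]; push_cast; ring
    · rw [h, h2]; push_cast; ring
    · rw [h, h2]; push_cast; ring
    · exfalso; apply h1; rw [h, h2]; push_cast; ring
  have hmaj : ∀ w, ((P \ S).filter (fun j => k j = w)).card ≤ (S.filter (fun j => k j = w)).card := by
    intro w
    rcases hσ w with ⟨h1, h2⟩ | ⟨h1, h2⟩
    · have hA : (P \ S).filter (fun j => k j = w) ⊆ minus w := by
        intro j hj
        rw [Finset.mem_filter] at hj
        refine Finset.mem_filter.2 ⟨(Finset.mem_sdiff.1 hj.1).1, hj.2, ?_⟩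
        rw [hNy j hj.1, hj.2, h1]; push_cast; ring
      have hB : plus w ⊆ S.filter (fun j => k j = w) := by
        intro j hj
        rw [hplus, Finset.mem_filter] at hj
        refine Finset.mem_filter.2 ⟨Finset.mem_filter.2 ⟨hj.1, ?_⟩, hj.2.1⟩
        rw [hj.2.2, hj.2.1, h1]; push_cast; ring
      exact le_trans (Finset.card_le_card hA) (le_trans h2 (Finset.card_le_card hB))
    · have hA : (P \ S).filter (fun j => k j = w) ⊆ plus w := by
        intro j hj
        rw [Finset.mem_filter] at hj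
        refine Finset.mem_filter.2 ⟨(Finset.mem_sdiff.1 hj.1).1, hj.2, ?_⟩
        rw [hNy j hj.1, hj.2, h1]; push_cast; ring
      have hB : minus w ⊆ S.filter (fun j => k j = w) := by
        intro j hj
        rw [hminus, Finset.mem_filter] at hj
        refine Finset.mem_filter.2 ⟨Finset.mem_filter.2 ⟨hj.1, ?_⟩, hj.2.1⟩
        rw [hj.2.2, hj.2.1, h1]; push_cast; ring
      exact le_trans (Finset.card_le_card hA) (le_trans h2 (Finset.card_le_card hB))
  have hPw : ∀ w, (P.filter (fun j => k j = w)).card ≤ 2 * (S.filter (fun j => k j = w)).card := by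
    intro w
    have h1 : P.filter (fun j => k j = w) ⊆
        (S.filter (fun j => k j = w)) ∪ ((P \ S).filter (fun j => k j = w)) := by
      intro j hj
      rw [Finset.mem_filter] at hj
      rw [Finset.mem_union]
      by_cases h : j ∈ S
      · exact Or.inl (Finset.mem_filter.2 ⟨h, hj.2⟩)
      · exact Or.inr (Finset.mem_filter.2 ⟨Finset.mem_sdiff.2 ⟨hj.1, h⟩, hj.2⟩)
    have h2 := Finset.card_le_card h1
    have h3 := Finset.card_union_le (S.filter (fun j => k j = w)) ((P \ S).filter (fun j => k j = w))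
    have h4 := hmaj w
    omega
  have hzabs : ∀ i, |σ (k i) * (k i : ℤ)| = k i := by
    intro i
    rcases hσ' (k i) with h | h <;> rw [h] <;> simp
  refine ⟨S, fun i => σ (k i) * k i, hSP, ?_, ?_, ?_, ?_, ?_⟩
  · intro i hi
    obtain ⟨h1, h2, _⟩ := hk i (hSP hi)
    refine ⟨?_, ?_, ?_⟩
    · rw [hSy i hi]; push_cast; ring
    · have h3 := hzabs i
      intro h4
      have h4' : σ (k i) * (k i : ℤ) = 0 := h4
      rw [h4', abs_zero] at h3
      omega
    · show |σ (k i) * (k i : ℤ)| ≤ K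
      rw [hzabs i]
      exact_mod_cast h2
  · intro i hi
    have h1 := hm i (hSP hi)
    have h2 := hPw (k i)
    have h3 : (S.filter (fun j => k j = k i)).card ≤
        (S.filter (fun j => σ (k j) * (k j : ℤ) = σ (k i) * (k i : ℤ))).card := by
      apply Finset.card_le_card
      intro j hj
      rw [Finset.mem_filter] at hj ⊢
      exact ⟨hj.1, by rw [hj.2]⟩
    have h4 : ((P.filter (fun j => k j = k i)).card : ℝ) ≤
        2 * ((S.filter (fun j => σ (k j) * (k j : ℤ) = σ (k i) * (k i : ℤ))).card : ℝ) := by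
      exact_mod_cast le_trans h2 (Nat.mul_le_mul_left 2 h3)
    show m / 2 ≤ ((S.filter (fun j => σ (k j) * (k j : ℤ) = σ (k i) * (k i : ℤ))).card : ℝ)
    linarith
  · intro i hi j hj h
    have h' : σ (k j) * (k j : ℤ) = -(σ (k i) * (k i : ℤ)) := h
    have h1 : k j = k i := by
      have h2 := hzabs j
      rw [h', abs_neg, hzabs i] at h2
      exact_mod_cast h2.symm
    rw [h1] at h'
    have h3 : σ (k i) * (k i : ℤ) = 0 := by omega
    have h4 := hzabs i
    rw [h3, abs_zero] at h4
    have := (hk i (hSP hi)).1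
    omega
  · intro d hd
    apply hgcd
    intro i hi
    have h1 : 0 < (P.filter (fun j => k j = k i)).card :=
      Finset.card_pos.2 ⟨i, Finset.mem_filter.2 ⟨hi, rfl⟩⟩
    have h2 := hPw (k i)
    have h3 : 0 < (S.filter (fun j => k j = k i)).card := by omega
    obtain ⟨j, hj⟩ := Finset.card_pos.1 h3
    rw [Finset.mem_filter] at hj
    have h4 : (d : ℤ) ∣ σ (k j) * (k j : ℤ) := hd j hj.1
    rw [← dvd_abs, hzabs j, hj.2] at h4
    exact_mod_cast h4
  · by_contra hcon
    push Not at hcon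
    obtain ⟨t, ht⟩ := hr
    have ht' : t ≤ (P \ S).card := by omega
    obtain ⟨T, hT, hTc⟩ := Finset.exists_subset_card_eq ht'
    have hch : ∀ w, ∃ T' ⊆ S.filter (fun j => k j = w), T'.card = (T.filter (fun j => k j = w)).card := by
      intro w
      apply Finset.exists_subset_card_eq
      refine le_trans (Finset.card_le_card ?_) (hmaj w)
      exact Finset.filter_subset_filter _ hT
    choose T' hT'S hT'c using hch
    set U := (T.image k).biUnion T' with hU
    have hUS : U ⊆ S := by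
      intro j hj
      rw [hU, Finset.mem_biUnion] at hj
      obtain ⟨w, _, hw⟩ := hj
      exact (Finset.mem_filter.1 (hT'S w hw)).1
    have hdisj : ∀ w ∈ T.image k, ∀ w' ∈ T.image k, w ≠ w' → Disjoint (T' w) (T' w') := by
      intro w _ w' _ hww
      rw [Finset.disjoint_left]
      intro j hj hj'
      apply hww
      rw [← (Finset.mem_filter.1 (hT'S w hj)).2, ← (Finset.mem_filter.1 (hT'S w' hj')).2]
    have hUc : U.card = t := by
      rw [hU, Finset.card_biUnion hdisj, ← hTc]
      rw [Finset.card_eq_sum_card_image k T]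
      exact Finset.sum_congr rfl (fun w _ => hT'c w)
    have hTU : Disjoint T U := by
      rw [Finset.disjoint_left]
      intro j hj hj'
      exact (Finset.mem_sdiff.1 (hT hj)).2 (hUS hj')
    have hBs : T ∪ U ⊆ s := by
      apply Finset.union_subset
      · exact fun j hj => hP (Finset.mem_sdiff.1 (hT hj)).1
      · exact fun j hj => hP (hSP (hUS hj))
    have hBc : (T ∪ U).card = r := by
      rw [Finset.card_union_of_disjoint hTU, hTc, hUc, ht]
    apply hadm (T ∪ U) hBs hBc
    rw [Finset.sum_union hTU]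
    have e1 := step3_bal T k y (fun w => -((σ w : ℝ) * w * v)) (fun i hi => hNy i (hT hi))
    have e2 : ∑ i ∈ U, y i = ∑ w ∈ T.image k,
        ((T.filter (fun j => k j = w)).card : ℝ) * ((σ w : ℝ) * w * v) := by
      rw [hU, Finset.sum_biUnion hdisj]
      apply Finset.sum_congr rfl
      intro w _
      rw [Finset.sum_congr rfl (g := fun _ => (σ w : ℝ) * w * v), Finset.sum_const, nsmul_eq_mul,
        hT'c w]
      intro j hj
      have h5 := Finset.mem_filter.1 (hT'S w hj)
      rw [hSy j h5.1, h5.2]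
    rw [e1, e2, ← Finset.sum_add_distrib]
    apply Finset.sum_eq_zero
    intro w _
    ring


end JE11
export JE11 (step3)
end ZA
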