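import Pool.Agent.Helper470.ZA.Defs
set_option autoImplicit false
open Finset
open scoped Classical

namespace ZA
namespace JE12


theorem core_alg_aux (D : ℕ) (hD : D = 3 ∨ D = 4 ∨ D = 5) {ι : Type} (S : Finset ι) (z : ι → ℤ)
    (r : ℕ) (hr : 1 ≤ r) (hz : ∀ i ∈ S, z i ≠ 0)
    (hcl : ∀ i ∈ S, r ≤ (S.filter (fun j => z j = z i)).card)
    (hopp : ∀ i ∈ S, ∀ j ∈ S, z j ≠ - z i)
    (hdvd : ∀ q : ℕ, 2 ≤ q → q < D → q ∣ r)
    (hadm : ∀ B ⊆ S, B.card = r → ∑ i ∈ B, z i ≠ 0)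
    (i1 : ι) (hi1 : i1 ∈ S) (e : ℤ) (he : e = 1 ∨ e = -1) (hze : z i1 = e) (j : ι) (hj : j ∈ S) :
    0 ≤ (z j) ^ 2 + ((D : ℤ) - 2) * (e * z j) - ((D : ℤ) - 1) := by
  have hee : e * e = 1 := by rcases he with rfl | rfl <;> norm_num
  set w := e * z j with hw
  have hzw : z j = e * w := by
    rw [hw, ← mul_assoc, hee, one_mul]
  have hsq : (z j) ^ 2 = w ^ 2 := by
    rw [hzw]
    calc (e * w) ^ 2 = (e * e) * w ^ 2 := by ring
      _ = w ^ 2 := by rw [hee, one_mul]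
  have hw0 : w ≠ 0 := by
    intro h
    apply hz j hj
    rw [hzw, h, mul_zero]
  have hw1 : w ≠ -1 := by
    intro h
    apply hopp i1 hi1 j hj
    rw [hzw, h, hze]
    ring
  have key : 1 ≤ w ∨ w ≤ -((D : ℤ) - 1) := by
    by_contra hcon
    push Not at hcon
    obtain ⟨h1, h2⟩ := hcon
    obtain ⟨l, hl⟩ : ∃ l : ℕ, w = -(l : ℤ) := ⟨(-w).toNat, by omega⟩
    have hl2 : 2 ≤ l := by omega
    have hlD : l + 1 < D := by omega
    obtain ⟨g, hg⟩ := hdvd (l + 1) (by omega) hlD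
    have hA : g ≤ (S.filter (fun i => z i = z j)).card := by
      refine le_trans ?_ (hcl j hj)
      rw [hg]
      exact Nat.le_mul_of_pos_left g (by omega)
    have hB : l * g ≤ (S.filter (fun i => z i = z i1)).card := by
      refine le_trans ?_ (hcl i1 hi1)
      rw [hg]
      exact Nat.mul_le_mul_right g (by omega)
    obtain ⟨A, hAs, hAc⟩ := Finset.exists_subset_card_eq hA
    obtain ⟨B, hBs, hBc⟩ := Finset.exists_subset_card_eq hB
    have hzA : ∀ i ∈ A, z i = z j := fun i hi => (Finset.mem_filter.1 (hAs hi)).2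
    have hzB : ∀ i ∈ B, z i = e := fun i hi => ((Finset.mem_filter.1 (hBs hi)).2).trans hze
    have hne : z j ≠ e := by
      intro h
      rw [h] at hw
      rw [hw, hee] at hl
      omega
    have hdis : Disjoint A B := by
      rw [Finset.disjoint_left]
      intro i hi hi'
      exact hne ((hzA i hi).symm.trans (hzB i hi'))
    apply hadm (A ∪ B)
    · intro i hi
      rcases Finset.mem_union.1 hi with h | h
      · exact (Finset.mem_filter.1 (hAs h)).1
      · exact (Finset.mem_filter.1 (hBs h)).1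
    · rw [Finset.card_union_of_disjoint hdis, hAc, hBc, hg]
      ring
    · rw [Finset.sum_union hdis, Finset.sum_congr rfl hzA, Finset.sum_congr rfl hzB,
        Finset.sum_const, Finset.sum_const, hAc, hBc, nsmul_eq_mul, nsmul_eq_mul, hzw, hl]
      push_cast
      ring
  rw [hsq]
  have h3 : 0 ≤ (w - 1) * (w + ((D : ℤ) - 1)) := by
    rcases key with h | h
    · have hD1 : (3 : ℤ) ≤ D := by
        rcases hD with rfl | rfl | rfl <;> norm_num
      exact mul_nonneg (by linarith) (by linarith)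
    · have hD1 : (3 : ℤ) ≤ D := by
        rcases hD with rfl | rfl | rfl <;> norm_num
      exact mul_nonneg_of_nonpos_of_nonpos (by linarith) (by linarith)
  linarith [h3]

-- TARGET (prove this)
theorem core_alg (D : ℕ) (hD : D = 3 ∨ D = 4 ∨ D = 5) {ι : Type} (S : Finset ι) (z : ι → ℤ) (r : ℕ)
    (hr : 1 ≤ r) (hz : ∀ i ∈ S, z i ≠ 0)
    (hcl : ∀ i ∈ S, r ≤ (S.filter (fun j => z j = z i)).card)
    (hopp : ∀ i ∈ S, ∀ j ∈ S, z j ≠ - z i)
    (hdvd : ∀ q : ℕ, 2 ≤ q → q < D → q ∣ r)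
    (hadm : ∀ B ⊆ S, B.card = r → ∑ i ∈ B, z i ≠ 0) :
    ((D : ℤ) - 1) * S.card - ((D : ℤ) - 2) * |∑ i ∈ S, z i| ≤ ∑ i ∈ S, (z i) ^ 2 := by
  have hD3 : (3 : ℤ) ≤ D := by
    rcases hD with rfl | rfl | rfl <;> norm_num
  have hD5 : (D : ℤ) ≤ 5 := by
    rcases hD with rfl | rfl | rfl <;> norm_num
  have habs : 0 ≤ |∑ i ∈ S, z i| := abs_nonneg _
  by_cases hex : ∃ i1 ∈ S, z i1 = 1 ∨ z i1 = -1
  · obtain ⟨i1, hi1, he⟩ := hex
    have h1 : 0 ≤ ∑ j ∈ S, ((z j) ^ 2 + ((D : ℤ) - 2) * (z i1 * z j) - ((D : ℤ) - 1)) :=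
      Finset.sum_nonneg fun j hj =>
        core_alg_aux D hD S z r hr hz hcl hopp hdvd hadm i1 hi1 (z i1) he rfl j hj
    rw [Finset.sum_sub_distrib, Finset.sum_add_distrib, ← Finset.mul_sum, ← Finset.mul_sum,
      Finset.sum_const, nsmul_eq_mul] at h1
    have h2 : z i1 * ∑ i ∈ S, z i ≤ |∑ i ∈ S, z i| := by
      rcases he with h | h <;> rw [h]
      · rw [one_mul]
        exact le_abs_self _
      · rw [neg_one_mul]
        exact neg_le_abs _
    have h3 : ((D : ℤ) - 2) * (z i1 * ∑ i ∈ S, z i) ≤ ((D : ℤ) - 2) * |∑ i ∈ S, z i| :=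
      mul_le_mul_of_nonneg_left h2 (by linarith)
    linarith
  · push Not at hex
    have h1 : ∀ i ∈ S, (4 : ℤ) ≤ (z i) ^ 2 := by
      intro i hi
      have h2 := hex i hi
      have h3 := hz i hi
      rcases lt_trichotomy (z i) 0 with h | h | h
      · have : z i ≤ -2 := by have := h2.2; omega
        nlinarith
      · exact absurd h h3
      · have : 2 ≤ z i := by have := h2.1; omega
        nlinarith
    have h2 : (S.card : ℤ) * 4 ≤ ∑ i ∈ S, (z i) ^ 2 := by
      have := Finset.card_nsmul_le_sum S (fun i => (z i) ^ 2) 4 h1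
      rwa [nsmul_eq_mul] at this
    have h3 : (0 : ℤ) ≤ S.card := by positivity
    have h4 : ((D : ℤ) - 1) * S.card ≤ 4 * S.card := mul_le_mul_of_nonneg_right (by linarith) h3
    have h5 : 0 ≤ ((D : ℤ) - 2) * |∑ i ∈ S, z i| := mul_nonneg (by linarith) habs
    linarith


end JE12
export JE12 (core_alg)
end ZA
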