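import Pool.Agent.Helper470.ZA.Defs
import Pool.Agent.Helper470.ZA.B1
import Pool.Agent.Helper470.ZA.B2
set_option autoImplicit false
open Finset
open scoped Classical

namespace ZA
namespace JE8






theorem moment_27978 {ι : Type} (s : Finset ι) (y : ι → ℝ) :
    ∑ B ∈ s.powerset, (∑ i ∈ B, y i - (∑ i ∈ s, y i) / 2) ^ 2 =
      2 ^ s.card * (∑ i ∈ s, (y i) ^ 2) / 4 := by
  induction s using Finset.induction_on with
  | empty => simp
  | insert a s ha ih =>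
    rw [Finset.sum_powerset_insert ha, Finset.sum_insert ha, Finset.sum_insert ha,
      Finset.card_insert_of_notMem ha, ← Finset.sum_add_distrib]
    have h1 : ∀ B ∈ s.powerset, (∑ i ∈ B, y i - (y a + ∑ i ∈ s, y i) / 2) ^ 2 +
        (∑ i ∈ insert a B, y i - (y a + ∑ i ∈ s, y i) / 2) ^ 2 =
        2 * (∑ i ∈ B, y i - (∑ i ∈ s, y i) / 2) ^ 2 + y a ^ 2 / 2 := by
      intro B hB
      rw [Finset.sum_insert (fun h => ha (Finset.mem_powerset.1 hB h))]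
      ring
    rw [Finset.sum_congr rfl h1, Finset.sum_add_distrib, ← Finset.mul_sum, ih,
      Finset.sum_const, Finset.card_powerset, nsmul_eq_mul]
    push_cast
    ring

-- TARGET (prove this)
theorem cheb {ι : Type} (s : Finset ι) (y : ι → ℝ) (l : ℝ) (hl : 0 < l) :
    ((s.powerset.filter (fun B => l ≤ |∑ i ∈ B, y i - (∑ i ∈ s, y i) / 2|)).card : ℝ) / 2 ^ s.card
      ≤ (∑ i ∈ s, (y i) ^ 2) / (4 * l ^ 2) := by
  have h1 : ((s.powerset.filter (fun B => l ≤ |∑ i ∈ B, y i - (∑ i ∈ s, y i) / 2|)).card : ℝ) * l ^ 2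
      ≤ 2 ^ s.card * (∑ i ∈ s, (y i) ^ 2) / 4 := by
    rw [← moment_27978, ← nsmul_eq_mul, ← Finset.sum_const]
    refine le_trans (Finset.sum_le_sum (g := fun B => (∑ i ∈ B, y i - (∑ i ∈ s, y i) / 2) ^ 2) ?_)
      (Finset.sum_le_sum_of_subset_of_nonneg (Finset.filter_subset _ _)
        (fun B _ _ => sq_nonneg _))
    intro B hB
    have h2 := (Finset.mem_filter.1 hB).2
    rw [← sq_abs (∑ i ∈ B, y i - (∑ i ∈ s, y i) / 2)]
    exact pow_le_pow_left₀ hl.le h2 2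
  have h2 : (0 : ℝ) < 2 ^ s.card := by positivity
  rw [div_le_div_iff₀ h2 (by positivity)]
  nlinarith

theorem cnt_sum_27978 {ι : Type} (s : Finset ι) (y : ι → ℝ) (t c : ℝ) :
    (cnt s y (t - c) : ℝ) = ∑ B ∈ s.powerset, (if ∑ i ∈ B, y i + c = t then (1 : ℝ) else 0) := by
  unfold cnt
  rw [Finset.card_filter]
  push_cast
  apply Finset.sum_congr rfl
  intro B _
  by_cases h : ∑ i ∈ B, y i + c = t
  · rw [if_pos h, if_pos (by linarith)]
  · rw [if_neg h, if_neg (fun h' => h (by linarith))]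

theorem cnt_bad_27978 {ι : Type} (s1 s2 : Finset ι) (hd : Disjoint s1 s2) (y : ι → ℝ) (l : ℝ)
    (t : ℝ) (ht : 2 * l ≤ |t - (∑ i ∈ s1 ∪ s2, y i) / 2|) :
    (∑ B ∈ s2.powerset, (cnt s1 y (t - ∑ i ∈ B, y i) : ℝ)) ≤
      (∑ B ∈ s2.powerset.filter (fun B => l ≤ |∑ i ∈ B, y i - (∑ i ∈ s2, y i) / 2|),
        (cnt s1 y (t - ∑ i ∈ B, y i) : ℝ)) +
      ∑ B ∈ s1.powerset.filter (fun B => l ≤ |∑ i ∈ B, y i - (∑ i ∈ s1, y i) / 2|),
        (cnt s2 y (t - ∑ i ∈ B, y i) : ℝ) := by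
  have e1 : ∀ B, (cnt s1 y (t - ∑ i ∈ B, y i) : ℝ) = ∑ B' ∈ s1.powerset,
      (if ∑ i ∈ B', y i + ∑ i ∈ B, y i = t then (1 : ℝ) else 0) := fun B => cnt_sum_27978 _ _ _ _
  have e2 : ∀ B, (cnt s2 y (t - ∑ i ∈ B, y i) : ℝ) = ∑ B' ∈ s2.powerset,
      (if ∑ i ∈ B, y i + ∑ i ∈ B', y i = t then (1 : ℝ) else 0) := by
    intro B
    rw [cnt_sum_27978]
    apply Finset.sum_congr rfl
    intro B' _
    rw [add_comm]
  simp only [e1, e2]
  rw [Finset.sum_filter, Finset.sum_filter]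
  have e3 : ∑ a ∈ s1.powerset, (if l ≤ |∑ i ∈ a, y i - (∑ i ∈ s1, y i) / 2| then
      ∑ B' ∈ s2.powerset, (if ∑ i ∈ a, y i + ∑ i ∈ B', y i = t then (1 : ℝ) else 0) else 0) =
      ∑ B' ∈ s2.powerset, ∑ a ∈ s1.powerset, (if l ≤ |∑ i ∈ a, y i - (∑ i ∈ s1, y i) / 2| then
      (if ∑ i ∈ a, y i + ∑ i ∈ B', y i = t then (1 : ℝ) else 0) else 0) := by
    rw [Finset.sum_comm]
    apply Finset.sum_congr rfl
    intro a _
    split_ifs
    · rfl
    · simp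
  rw [e3, ← Finset.sum_add_distrib]
  apply Finset.sum_le_sum
  intro B _
  have e4 : (if l ≤ |∑ i ∈ B, y i - (∑ i ∈ s2, y i) / 2| then
      ∑ B' ∈ s1.powerset, (if ∑ i ∈ B', y i + ∑ i ∈ B, y i = t then (1 : ℝ) else 0) else 0) =
      ∑ B' ∈ s1.powerset, (if l ≤ |∑ i ∈ B, y i - (∑ i ∈ s2, y i) / 2| then
      (if ∑ i ∈ B', y i + ∑ i ∈ B, y i = t then (1 : ℝ) else 0) else 0) := by
    split_ifs
    · rfl
    · simp
  rw [e4, ← Finset.sum_add_distrib]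
  apply Finset.sum_le_sum
  intro B' _
  by_cases h : ∑ i ∈ B', y i + ∑ i ∈ B, y i = t
  · rw [if_pos h]
    by_cases h1 : l ≤ |∑ i ∈ B, y i - (∑ i ∈ s2, y i) / 2|
    · rw [if_pos h1]
      split_ifs <;> norm_num
    · rw [if_neg h1]
      have h2 : l ≤ |∑ i ∈ B', y i - (∑ i ∈ s1, y i) / 2| := by
        rw [Finset.sum_union hd] at ht
        have h3 : t - (∑ i ∈ s1, y i + ∑ i ∈ s2, y i) / 2 =
            (∑ i ∈ B', y i - (∑ i ∈ s1, y i) / 2) + (∑ i ∈ B, y i - (∑ i ∈ s2, y i) / 2) := by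
          rw [← h]
          ring
        rw [h3] at ht
        have h4 := abs_add_le (∑ i ∈ B', y i - (∑ i ∈ s1, y i) / 2)
          (∑ i ∈ B, y i - (∑ i ∈ s2, y i) / 2)
        have h5 := not_le.1 h1
        linarith
      rw [if_pos h2]
      norm_num
  · rw [if_neg h]
    simp

theorem pr_le_one_27978 {ι : Type} (s : Finset ι) (y : ι → ℝ) (t : ℝ) : pr s y t ≤ 1 := by
  unfold pr
  have h2 : (0 : ℝ) < 2 ^ s.card := by positivity
  rw [div_le_one h2]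
  unfold cnt
  have h3 := Finset.card_filter_le s.powerset (fun B => ∑ i ∈ B, y i = t)
  rw [Finset.card_powerset] at h3
  exact_mod_cast h3

theorem half_27978 {ι : Type} (s1 s2 : Finset ι) (y : ι → ℝ) (l : ℝ) (hl : 0 < l)
    (t : ℝ) (hs : s1.Nonempty) (hy : ∀ i ∈ s1, y i ≠ 0) (c : ℝ) (hc : 1 / √(s1.card : ℝ) ≤ c) :
    (∑ B ∈ s2.powerset.filter (fun B => l ≤ |∑ i ∈ B, y i - (∑ i ∈ s2, y i) / 2|),
        (cnt s1 y (t - ∑ i ∈ B, y i) : ℝ)) / (2 ^ s1.card * 2 ^ s2.card) ≤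
      (∑ i ∈ s2, (y i) ^ 2) / (4 * l ^ 2) * c := by
  have h1 : ∀ t', (cnt s1 y t' : ℝ) ≤ 2 ^ s1.card * c := by
    intro t'
    have h2 := (pr_le_LO s1 hs y hy t').trans hc
    unfold pr at h2
    rw [div_le_iff₀ (by positivity)] at h2
    linarith
  have hc0 : 0 ≤ c := le_trans (by positivity) hc
  have h3 := Finset.sum_le_card_nsmul
    (s2.powerset.filter (fun B => l ≤ |∑ i ∈ B, y i - (∑ i ∈ s2, y i) / 2|))
    (fun B => (cnt s1 y (t - ∑ i ∈ B, y i) : ℝ)) (2 ^ s1.card * c) (fun B _ => h1 _)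
  rw [nsmul_eq_mul] at h3
  have h4 := cheb s2 y l hl
  have h5 : (∑ B ∈ s2.powerset.filter (fun B => l ≤ |∑ i ∈ B, y i - (∑ i ∈ s2, y i) / 2|),
        (cnt s1 y (t - ∑ i ∈ B, y i) : ℝ)) / (2 ^ s1.card * 2 ^ s2.card) ≤
      (((s2.powerset.filter (fun B => l ≤ |∑ i ∈ B, y i - (∑ i ∈ s2, y i) / 2|)).card : ℝ) *
        (2 ^ s1.card * c)) / (2 ^ s1.card * 2 ^ s2.card) :=
    div_le_div_of_nonneg_right h3 (by positivity)
  refine h5.trans ?_
  have h6 : ∀ N : ℝ, (N * (2 ^ s1.card * c)) / (2 ^ s1.card * 2 ^ s2.card) =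
      (N / 2 ^ s2.card) * c := by
    intro N
    field_simp
  rw [h6]
  exact mul_le_mul_of_nonneg_right h4 hc0

theorem two_27978 {ι : Type} (s1 s2 : Finset ι) (hd : Disjoint s1 s2) (y : ι → ℝ) (l : ℝ)
    (hl : 0 < l) (t : ℝ) (ht : 2 * l ≤ |t - (∑ i ∈ s1 ∪ s2, y i) / 2|)
    (hs1 : s1.Nonempty) (hs2 : s2.Nonempty) (hy1 : ∀ i ∈ s1, y i ≠ 0) (hy2 : ∀ i ∈ s2, y i ≠ 0)
    (c : ℝ) (hc1 : 1 / √(s1.card : ℝ) ≤ c) (hc2 : 1 / √(s2.card : ℝ) ≤ c) :
    pr (s1 ∪ s2) y t ≤ (∑ i ∈ s1 ∪ s2, (y i) ^ 2) / (4 * l ^ 2) * c := by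
  rw [pr_union s1 s2 hd y t]
  have e1 : (∑ B ∈ s2.powerset, pr s1 y (t - ∑ i ∈ B, y i)) / 2 ^ s2.card =
      (∑ B ∈ s2.powerset, (cnt s1 y (t - ∑ i ∈ B, y i) : ℝ)) / (2 ^ s1.card * 2 ^ s2.card) := by
    unfold pr
    rw [← Finset.sum_div, div_div]
  rw [e1]
  have h1 := cnt_bad_27978 s1 s2 hd y l t ht
  have h2 := half_27978 s1 s2 y l hl t hs1 hy1 c hc1
  have h3 := half_27978 s2 s1 y l hl t hs2 hy2 c hc2
  rw [mul_comm ((2 : ℝ) ^ s2.card)] at h3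
  refine (div_le_div_of_nonneg_right h1 (by positivity)).trans ?_
  rw [add_div, Finset.sum_union hd, add_div, add_mul]
  linarith

theorem single_27978 {ι : Type} (a : ι) (y : ι → ℝ) (n : ℕ) (hn : 1 ≤ n)
    (hs : (n : ℝ) / 2 ≤ 1) (hV : (y a) ^ 2 ≤ 4 * n) (A : ℝ) (hA : 0 < A) (t : ℝ)
    (ht : A * √(n : ℝ) ≤ |t - (y a) / 2|) :
    pr {a} y t ≤ 100 / (A ^ 2 * √(n : ℝ)) := by
  have hn0 : (1 : ℝ) ≤ n := by exact_mod_cast hn
  have hsn : 0 < √(n : ℝ) := Real.sqrt_pos.2 (by linarith)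
  by_cases h0 : t = 0 ∨ t = y a
  · have h1 : |t - y a / 2| = |y a| / 2 := by
      rcases h0 with h | h
      · rw [h, zero_sub, abs_neg, abs_div, abs_two]
      · rw [h]
        have : y a - y a / 2 = y a / 2 := by ring
        rw [this, abs_div, abs_two]
    rw [h1] at ht
    have h2 : A ^ 2 ≤ 1 := by
      have h3 : (A * √(n : ℝ)) ^ 2 ≤ (|y a| / 2) ^ 2 := pow_le_pow_left₀ (by positivity) ht 2
      rw [mul_pow, Real.sq_sqrt (by linarith), div_pow, sq_abs] at h3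
      have h4 : A ^ 2 * n ≤ 1 * n := by linarith
      exact le_of_mul_le_mul_right h4 (by linarith)
    refine (pr_le_one_27978 _ _ _).trans ?_
    rw [le_div_iff₀ (by positivity), one_mul]
    have h5 : √(n : ℝ) ≤ 2 := by
      rw [Real.sqrt_le_left (by norm_num)]
      linarith
    calc A ^ 2 * √(n : ℝ) ≤ 1 * 2 := mul_le_mul h2 h5 hsn.le zero_le_one
      _ ≤ 100 := by norm_num
  · have h1 : pr {a} y t = 0 := by
      unfold pr cnt
      rw [div_eq_zero_iff]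
      left
      rw [Nat.cast_eq_zero, Finset.card_eq_zero, Finset.filter_eq_empty_iff]
      intro B hB hBt
      rw [Finset.mem_powerset, Finset.subset_singleton_iff] at hB
      apply h0
      rcases hB with h | h
      · left
        rw [← hBt, h, Finset.sum_empty]
      · right
        rw [← hBt, h, Finset.sum_singleton]
    rw [h1]
    positivity

-- TARGET (prove this)
theorem tail {ι : Type} (s : Finset ι) (y : ι → ℝ) (n : ℕ) (hn : 1 ≤ n) (hy : ∀ i ∈ s, y i ≠ 0)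
    (hs : (n : ℝ) / 2 ≤ (s.card : ℝ)) (hV : ∑ i ∈ s, (y i) ^ 2 ≤ 4 * n) (A : ℝ) (hA : 0 < A) (t : ℝ)
    (ht : A * √(n : ℝ) ≤ |t - (∑ i ∈ s, y i) / 2|) :
    pr s y t ≤ 100 / (A ^ 2 * √(n : ℝ)) := by
  have hn0 : (1 : ℝ) ≤ n := by exact_mod_cast hn
  have hn1 : (0 : ℝ) < n := by linarith
  have hsn : 0 < √(n : ℝ) := Real.sqrt_pos.2 hn1
  have hcard0 : 0 < s.card := by
    rcases Nat.eq_zero_or_pos s.card with h | h
    · rw [h] at hs
      norm_num at hs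
      linarith
    · exact h
  by_cases h1 : s.card = 1
  · obtain ⟨a, rfl⟩ := Finset.card_eq_one.1 h1
    rw [h1] at hs
    rw [Finset.sum_singleton] at hV ht
    exact single_27978 a y n hn (by exact_mod_cast hs) hV A hA t ht
  · have h2 : 2 ≤ s.card := by omega
    obtain ⟨s1, hs1, hc1⟩ := Finset.exists_subset_card_eq (s := s) (n := s.card / 2) (by omega)
    obtain ⟨s2, hs2e⟩ : ∃ s2, s2 = s \ s1 := ⟨_, rfl⟩
    have hc2 : s2.card = s.card - s.card / 2 := by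
      rw [hs2e, Finset.card_sdiff_of_subset hs1, hc1]
    have hd : Disjoint s1 s2 := by
      rw [hs2e]
      exact Finset.disjoint_sdiff
    have hu : s1 ∪ s2 = s := by
      rw [hs2e]
      exact Finset.union_sdiff_of_subset hs1
    have hs2 : s2 ⊆ s := by
      rw [hs2e]
      exact Finset.sdiff_subset
    have hk : ∀ m : ℕ, s.card / 2 ≤ m → 1 / √(m : ℝ) ≤ 3 / √(n : ℝ) := by
      intro m hm
      have h3 : s.card ≤ 3 * m := by omega
      have h4 : (n : ℝ) ≤ 6 * m := by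
        have : (s.card : ℝ) ≤ 3 * m := by exact_mod_cast h3
        linarith
      have hm0 : (0 : ℝ) < m := by linarith
      rw [div_le_div_iff₀ (Real.sqrt_pos.2 hm0) hsn, one_mul]
      calc √(n : ℝ) ≤ √(3 ^ 2 * m) := Real.sqrt_le_sqrt (by linarith)
        _ = 3 * √(m : ℝ) := by
          rw [Real.sqrt_mul (by norm_num), Real.sqrt_sq (by norm_num)]
    have hne1 : s1.Nonempty := by
      rw [← Finset.card_pos, hc1]
      omega
    have hne2 : s2.Nonempty := by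
      rw [← Finset.card_pos, hc2]
      omega
    have h5 := two_27978 s1 s2 hd y (A * √(n : ℝ) / 2) (by positivity) t
      (by rw [hu]; linarith) hne1 hne2 (fun i hi => hy i (hs1 hi)) (fun i hi => hy i (hs2 hi))
      (3 / √(n : ℝ)) (hk _ (by rw [hc1])) (hk _ (by rw [hc2]; omega))
    rw [hu] at h5
    refine h5.trans ?_
    have h6 : 4 * (A * √(n : ℝ) / 2) ^ 2 = A ^ 2 * n := by
      have : (√(n : ℝ)) ^ 2 = n := Real.sq_sqrt hn1.le
      calc 4 * (A * √(n : ℝ) / 2) ^ 2 = A ^ 2 * (√(n : ℝ)) ^ 2 := by ring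
        _ = A ^ 2 * n := by rw [this]
    rw [h6]
    have h7 : (∑ i ∈ s, (y i) ^ 2) / (A ^ 2 * n) ≤ 4 / A ^ 2 := by
      rw [div_le_div_iff₀ (by positivity) (by positivity)]
      have := mul_le_mul_of_nonneg_right hV (sq_nonneg A)
      linarith
    calc (∑ i ∈ s, (y i) ^ 2) / (A ^ 2 * n) * (3 / √(n : ℝ)) ≤ 4 / A ^ 2 * (3 / √(n : ℝ)) :=
          mul_le_mul_of_nonneg_right h7 (by positivity)
      _ = 12 / (A ^ 2 * √(n : ℝ)) := by
        rw [div_mul_div_comm]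
        norm_num
      _ ≤ 100 / (A ^ 2 * √(n : ℝ)) := div_le_div_of_nonneg_right (by norm_num) (by positivity)


end JE8
export JE8 (cheb tail)
end ZA
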