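import Pool.Agent.Helper470.ZA.Defs
import Pool.Agent.Helper470.ZA.B1
import Pool.Agent.Helper470.ZA.D6
set_option autoImplicit false
open Finset
open scoped Classical

namespace ZA
namespace JE9








-- TARGET (prove this)
theorem half2 {ι : Type} (s S : Finset ι) (hS : S ⊆ s) (y : ι → ℝ) (i0 : ι) (h0 : i0 ∈ s) (h1 : i0 ∉ S)
    (M : ℝ) (hM : ∀ τ : ℝ, pr S y τ + pr S y (τ - y i0) ≤ M) (t : ℝ) : pr s y t ≤ M / 2 := by
  have hsub : S ∪ {i0} ⊆ s := by
    intro x hx
    simp only [Finset.mem_union, Finset.mem_singleton] at hx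
    rcases hx with hx | rfl
    · exact hS hx
    · exact h0
  refine pr_le_of_subset (S ∪ {i0}) s hsub y (M/2) ?_ t
  intro τ
  rw [pr_union S {i0} (by simpa using h1) y τ]
  have hp : ({i0} : Finset ι).powerset = {∅, {i0}} := by
    ext a
    simp [Finset.subset_singleton_iff]
  rw [hp, Finset.sum_pair (by simp [eq_comm])]
  have := hM τ
  simp only [Finset.sum_empty, Finset.sum_singleton, Finset.card_singleton, pow_one, sub_zero]
  linarith

-- TARGET (prove this)
theorem step0 (η ε : ℝ) (hη : 0 < η) (hε : 0 < ε) : ∃ δ : ℝ, 0 < δ ∧ δ ≤ 1 ∧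
    ∀ {ι : Type} (s : Finset ι) (y : ι → ℝ) (t : ℝ), s.Nonempty →
    ε * s.card ≤ ((s.filter (fun i => (mult s y i : ℝ) < δ * s.card)).card : ℝ) →
    pr s y t ≤ η / √(s.card : ℝ) := by
  obtain ⟨C, hC, hal⟩ := halasz
  have hse : 0 < √ε := Real.sqrt_pos.mpr hε
  refine ⟨min 1 (min (ε/8) (η * (ε * √ε) / C)), ?_, min_le_left _ _, ?_⟩
  · refine lt_min one_pos (lt_min (by positivity) (by positivity))
  intro ι s y t hs hU
  set δ := min 1 (min (ε/8) (η * (ε * √ε) / C)) with hδdef
  have hδ8 : δ ≤ ε / 8 := (min_le_right _ _).trans (min_le_left _ _)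
  have hδC : δ ≤ η * (ε * √ε) / C := (min_le_right _ _).trans (min_le_right _ _)
  have hN : (0:ℝ) < s.card := by exact_mod_cast Finset.card_pos.mpr hs
  set U := s.filter (fun i => (mult s y i : ℝ) < δ * s.card) with hUdef
  set N : ℝ := (s.card : ℝ) with hNdef
  have hu : (0:ℝ) < U.card := lt_of_lt_of_le (mul_pos hε hN) hU
  have hUne : U.Nonempty := by
    rw [← Finset.card_pos]
    exact_mod_cast hu
  have hRr : (Rr U y : ℝ) ≤ U.card * (δ * N) := by
    have e1 : Rr U y = ∑ i ∈ U, (U.filter (fun j => |y i| = |y j|)).card := by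
      unfold Rr
      rw [Finset.card_filter, Finset.sum_product]
      refine Finset.sum_congr rfl (fun i _ => ?_)
      rw [Finset.card_filter]
    rw [e1]
    push_cast
    calc (∑ i ∈ U, ((U.filter (fun j => |y i| = |y j|)).card : ℝ)) ≤ ∑ i ∈ U, δ * N := by
          refine Finset.sum_le_sum (fun i hi => ?_)
          have h1 : (U.filter (fun j => |y i| = |y j|)).card ≤ mult s y i := by
            unfold mult
            apply Finset.card_le_card
            intro j hj
            simp only [Finset.mem_filter] at hj ⊢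
            exact ⟨(Finset.mem_filter.mp hj.1).1, hj.2.symm⟩
          have h2 := (Finset.mem_filter.mp hi).2
          exact le_trans (by exact_mod_cast h1) h2.le
      _ = U.card * (δ * N) := by
          rw [Finset.sum_const, nsmul_eq_mul]
  have hsub : U ⊆ s := Finset.filter_subset _ _
  refine pr_le_of_subset U s hsub y _ ?_ t
  intro τ
  have h8 : 8 * Rr U y ≤ U.card ^ 2 := by
    have : (8 : ℝ) * Rr U y ≤ (U.card : ℝ) ^ 2 := by
      calc (8 : ℝ) * Rr U y ≤ 8 * (U.card * (δ * N)) := by linarith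
        _ = U.card * (8 * δ * N) := by ring
        _ ≤ U.card * (ε * N) := by
            apply mul_le_mul_of_nonneg_left _ hu.le
            apply mul_le_mul_of_nonneg_right _ hN.le
            linarith
        _ ≤ U.card * U.card := by
            apply mul_le_mul_of_nonneg_left hU hu.le
        _ = (U.card : ℝ) ^ 2 := by ring
    exact_mod_cast this
  refine (hal U y τ hUne h8).trans ?_
  set u : ℝ := (U.card : ℝ) with hudef
  have hsu : 0 < √u := Real.sqrt_pos.mpr hu
  have hsN : 0 < √N := Real.sqrt_pos.mpr hN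
  rw [← mul_div_assoc, div_le_div_iff₀ (by positivity) hsN]
  have hsq : √ε * √N ≤ √u := by
    rw [← Real.sqrt_mul hε.le]
    exact Real.sqrt_le_sqrt hU
  have hCd : C * δ ≤ η * (ε * √ε) := by
    rw [le_div_iff₀ hC] at hδC
    linarith
  calc C * (Rr U y : ℝ) * √N ≤ C * (u * (δ * N)) * √N := by
        gcongr
    _ = (C * δ) * (u * N * √N) := by ring
    _ ≤ (η * (ε * √ε)) * (u * N * √N) := by
        apply mul_le_mul_of_nonneg_right hCd
        positivity
    _ = η * (u * ((ε * N) * (√ε * √N))) := by ring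
    _ ≤ η * (u * (u * √u)) := by
        gcongr
    _ = η * (u ^ 2 * √u) := by ring


end JE9
export JE9 (half2 step0)
end ZA
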