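import Pool.Agent.Helper470.ZA.Defs
import Pool.Agent.Helper470.ZA.E8
import Pool.Agent.Helper470.ZA.E9
set_option autoImplicit false
open Finset
open scoped Classical

namespace ZA
namespace JE13






-- TARGET (prove this)
theorem core7 {ι : Type} (s S : Finset ι) (z : ι → ℤ) (ε η A : ℝ) (hs1 : 1 ≤ s.card) (hS : S ⊆ s)
    (hε : 0 < ε) (hε1 : ε ≤ 1 / 8) (hη : 0 < η) (hA : 0 < A) (hAη : 100 / A ^ 2 ≤ η)
    (hSc : ((s \ S).card : ℝ) ≤ ε * s.card) (hz : ∀ i ∈ s, z i ≠ 0)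
    (hV : ∑ i ∈ S, (z i : ℝ) ^ 2 ≤ 4 * s.card)
    (hF : ∀ t : ℝ, pr S (fun i => (z i : ℝ)) t ≤ √(2 / (Real.pi * ∑ i ∈ S, (z i : ℝ) ^ 2)) + η / √(s.card : ℝ))
    (i0 : ι) (h0 : i0 ∈ s) (h1 : i0 ∉ S) (hbig : 2 * A * √(s.card : ℝ) ≤ |(z i0 : ℝ)|) (t : ℝ) :
    pr s (fun i => (z i : ℝ)) t ≤ (1 / 2) * (1 + ε) * √(2 / (Real.pi * s.card)) + η / √(s.card : ℝ) := by
  set N : ℕ := s.card with hN
  have hNpos : (0 : ℝ) < N := by exact_mod_cast hs1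
  have hsqN : 0 < √(N : ℝ) := Real.sqrt_pos.2 hNpos
  have hcard : ((s \ S).card : ℝ) + (S.card : ℝ) = N := by
    have := card_sdiff_add_card_eq_card hS
    exact_mod_cast this
  have hSge : (1 - ε) * N ≤ (S.card : ℝ) := by linarith
  have hVge : (S.card : ℝ) ≤ ∑ i ∈ S, (z i : ℝ) ^ 2 := by
    have : (S.card : ℝ) = ∑ i ∈ S, (1 : ℝ) := by simp
    rw [this]
    apply sum_le_sum
    intro i hi
    have h2 : z i ≠ 0 := hz i (hS hi)
    have h3 : 1 ≤ |z i| := Int.one_le_abs h2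
    have h4 : (1 : ℝ) ≤ |(z i : ℝ)| := by exact_mod_cast h3
    rw [← sq_abs]
    nlinarith
  set V : ℝ := ∑ i ∈ S, (z i : ℝ) ^ 2 with hVdef
  have hV1 : (1 - ε) * N ≤ V := hSge.trans hVge
  have hVpos : 0 < V := lt_of_lt_of_le (mul_pos (by linarith) hNpos) hV1
  have hpi : 0 < Real.pi := Real.pi_pos
  have hroot : √(2 / (Real.pi * V)) ≤ (1 + ε) * √(2 / (Real.pi * N)) := by
    have e1 : (1 + ε) * √(2 / (Real.pi * N)) = √((1 + ε) ^ 2 * (2 / (Real.pi * N))) := by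
      rw [Real.sqrt_mul (sq_nonneg _), Real.sqrt_sq (by linarith)]
    rw [e1]
    apply Real.sqrt_le_sqrt
    rw [← mul_div_assoc, div_le_div_iff₀ (mul_pos hpi hVpos) (mul_pos hpi hNpos)]
    have e2 : 1 ≤ (1 + ε) ^ 2 * (1 - ε) := by nlinarith [mul_pos hε hε]
    have e3 : (N : ℝ) ≤ (1 + ε) ^ 2 * V := by
      calc (N : ℝ) = 1 * N := (one_mul _).symm
        _ ≤ ((1 + ε) ^ 2 * (1 - ε)) * N := mul_le_mul_of_nonneg_right e2 hNpos.le
        _ = (1 + ε) ^ 2 * ((1 - ε) * N) := by ring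
        _ ≤ (1 + ε) ^ 2 * V := mul_le_mul_of_nonneg_left hV1 (sq_nonneg _)
    calc 2 * (Real.pi * N) = (2 * Real.pi) * N := by ring
      _ ≤ (2 * Real.pi) * ((1 + ε) ^ 2 * V) := mul_le_mul_of_nonneg_left e3 (by positivity)
      _ = (1 + ε) ^ 2 * 2 * (Real.pi * V) := by ring
  have hF' : ∀ τ : ℝ, pr S (fun i => (z i : ℝ)) τ ≤ (1 + ε) * √(2 / (Real.pi * N)) + η / √(N : ℝ) :=
    fun τ => (hF τ).trans (by linarith)
  have htail : ∀ τ : ℝ, A * √(N : ℝ) ≤ |τ - (∑ i ∈ S, (z i : ℝ)) / 2| →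
      pr S (fun i => (z i : ℝ)) τ ≤ η / √(N : ℝ) := by
    intro τ hτ
    have h2 := tail S (fun i => (z i : ℝ)) N hs1 (fun i hi => by
      have := hz i (hS hi)
      exact_mod_cast this) (by nlinarith) hV A hA τ hτ
    refine h2.trans ?_
    rw [← div_div]
    exact div_le_div_of_nonneg_right hAη hsqN.le
  have hM : ∀ τ : ℝ, pr S (fun i => (z i : ℝ)) τ + pr S (fun i => (z i : ℝ)) (τ - (z i0 : ℝ)) ≤
      (1 + ε) * √(2 / (Real.pi * N)) + 2 * (η / √(N : ℝ)) := by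
    intro τ
    have hcase : A * √(N : ℝ) ≤ |τ - (∑ i ∈ S, (z i : ℝ)) / 2| ∨
        A * √(N : ℝ) ≤ |(τ - (z i0 : ℝ)) - (∑ i ∈ S, (z i : ℝ)) / 2| := by
      by_contra hcon
      push Not at hcon
      have h3 : |(z i0 : ℝ)| ≤ |τ - (∑ i ∈ S, (z i : ℝ)) / 2| +
          |(τ - (z i0 : ℝ)) - (∑ i ∈ S, (z i : ℝ)) / 2| := by
        have h4 : (z i0 : ℝ) = (τ - (∑ i ∈ S, (z i : ℝ)) / 2) -
          ((τ - (z i0 : ℝ)) - (∑ i ∈ S, (z i : ℝ)) / 2) := by ring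
        calc |(z i0 : ℝ)| = |(τ - (∑ i ∈ S, (z i : ℝ)) / 2) -
          ((τ - (z i0 : ℝ)) - (∑ i ∈ S, (z i : ℝ)) / 2)| := by rw [← h4]
          _ ≤ _ := abs_sub _ _
      linarith [hcon.1, hcon.2]
    rcases hcase with h3 | h3
    · have h4 := htail τ h3
      have h5 := hF' (τ - (z i0 : ℝ))
      linarith
    · have h4 := htail (τ - (z i0 : ℝ)) h3
      have h5 := hF' τ
      linarith
  have hfin := half2 s S hS (fun i => (z i : ℝ)) i0 h0 h1 _ hM t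
  refine hfin.trans (le_of_eq ?_)
  ring


end JE13
export JE13 (core7)
end ZA
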