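import Pool.Agent.Helper470.ZA.Defs
import Pool.Agent.Helper470.ZA.B1
import Pool.Agent.Helper470.ZA.C2
set_option autoImplicit false
open Finset
open scoped Classical

namespace ZA
namespace JE14






-- TARGET (prove this)
theorem core8 (η δ A : ℝ) (K : ℕ) (hη : 0 < η) (hδ : 0 < δ) (hA : 1 ≤ A) (hK : 1 ≤ K) :
    ∃ B N0 : ℕ, 1 ≤ B ∧ ∀ {ι : Type} (s C u : Finset ι) (z : ι → ℤ) (c : ℤ), N0 ≤ s.card → C ⊆ s → u ⊆ s →
    Disjoint C u → c ≠ 0 → |c| ≤ (K : ℤ) → (∀ i ∈ C, z i = c) → δ * s.card ≤ (C.card : ℝ) → B ≤ u.card →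
    (∀ i ∈ u, √(s.card : ℝ) / A ≤ |(z i : ℝ)|) →
    ∀ t : ℝ, pr s (fun i => (z i : ℝ)) t ≤ η / √(s.card : ℝ) := by
  have hsδ : 0 < √δ := Real.sqrt_pos.2 hδ
  have hKr : (1 : ℝ) ≤ K := by exact_mod_cast hK
  have hA0 : 0 < A := by linarith
  obtain ⟨Q, hQdef⟩ : ∃ Q : ℝ, Q = 3 / √δ + 2 * A * K := ⟨_, rfl⟩
  have hQ : 0 < Q := by rw [hQdef]; positivity
  have hQη : 0 < Q / η := div_pos hQ hη
  refine ⟨⌈(Q / η) ^ 2⌉₊ + 1, ⌈(A * K) ^ 2⌉₊ + 1, by omega, ?_⟩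
  intro ι s C u z c hN hCs hus hdis hc hcK hCc hCδ hBu hu
  have hAK : 0 < A * K := by positivity
  have hnr : (A * K) ^ 2 ≤ (s.card : ℝ) := by
    have h1 : (A * K) ^ 2 ≤ (⌈(A * K) ^ 2⌉₊ : ℝ) := Nat.le_ceil _
    have h2 : ((⌈(A * K) ^ 2⌉₊ + 1 : ℕ) : ℝ) ≤ (s.card : ℝ) := by exact_mod_cast hN
    push_cast at h2
    linarith
  have hn0 : 0 < (s.card : ℝ) := by
    have : 0 < (A * K) ^ 2 := by positivity
    linarith
  have hsn : 0 < √(s.card : ℝ) := Real.sqrt_pos.2 hn0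
  have hsnAK : A * K ≤ √(s.card : ℝ) := (Real.le_sqrt' hAK).2 hnr
  have hCpos : 0 < (C.card : ℝ) := lt_of_lt_of_le (by positivity) hCδ
  have hCne : C.Nonempty := by
    rw [← Finset.card_pos]
    exact_mod_cast hCpos
  have hupos : 0 < u.card := by omega
  have hune : u.Nonempty := Finset.card_pos.1 hupos
  have huB : Q / η ≤ √(u.card : ℝ) := by
    refine (Real.le_sqrt' hQη).2 ?_
    have h1 : (Q / η) ^ 2 ≤ (⌈(Q / η) ^ 2⌉₊ : ℝ) := Nat.le_ceil _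
    have h2 : ((⌈(Q / η) ^ 2⌉₊ + 1 : ℕ) : ℝ) ≤ (u.card : ℝ) := by exact_mod_cast hBu
    push_cast at h2
    linarith
  have hsu : 0 < √(u.card : ℝ) := lt_of_lt_of_le hQη huB
  obtain ⟨a, ha⟩ : ∃ a : ℝ, a = √(s.card : ℝ) / A := ⟨_, rfl⟩
  have ha0 : 0 < a := by rw [ha]; positivity
  have hcr0 : (c : ℝ) ≠ 0 := by exact_mod_cast hc
  have hcabs : 0 < |(c : ℝ)| := abs_pos.2 hcr0
  have hcKr : |(c : ℝ)| ≤ K := by
    have : ((|c| : ℤ) : ℝ) ≤ ((K : ℤ) : ℝ) := by exact_mod_cast hcK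
    rw [Int.cast_abs] at this
    simpa using this
  have hKa : (K : ℝ) ≤ a := by
    rw [ha, le_div_iff₀ hA0]
    linarith
  have hac : 1 ≤ a / |(c : ℝ)| := by
    rw [le_div_iff₀ hcabs]
    linarith
  obtain ⟨L, hL⟩ : ∃ L : ℕ, L = ⌊a / |(c : ℝ)|⌋₊ := ⟨_, rfl⟩
  have hL1 : 1 ≤ L := by
    rw [hL]
    exact (Nat.one_le_floor_iff _).2 hac
  have hL1r : (1 : ℝ) ≤ L := by exact_mod_cast hL1
  have hLle : (L : ℝ) ≤ a / |(c : ℝ)| := by
    rw [hL]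
    exact Nat.floor_le (by positivity)
  have hLa : (L : ℝ) * |(c : ℝ)| ≤ a := by
    rw [le_div_iff₀ hcabs] at hLle
    exact hLle
  have hLlt : a / |(c : ℝ)| < L + 1 := by
    rw [hL]
    exact Nat.lt_floor_add_one _
  have hLlow : a ≤ 2 * L * |(c : ℝ)| := by
    rw [div_lt_iff₀ hcabs] at hLlt
    nlinarith
  have hLinv : 1 / (L : ℝ) ≤ 2 * A * K / √(s.card : ℝ) := by
    have hL0 : (0 : ℝ) < L := by linarith
    rw [div_le_div_iff₀ hL0 hsn]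
    have h1 : √(s.card : ℝ) ≤ A * (2 * L * |(c : ℝ)|) := by
      rw [ha, div_le_iff₀ hA0] at hLlow
      linarith
    have h2 : A * (2 * L * |(c : ℝ)|) ≤ 2 * A * K * L := by
      have : A * L * |(c : ℝ)| ≤ A * L * K := mul_le_mul_of_nonneg_left hcKr (by positivity)
      nlinarith
    linarith
  have hCinv : 3 / √(C.card : ℝ) ≤ 3 / √δ / √(s.card : ℝ) := by
    rw [div_div, ← Real.sqrt_mul hδ.le]
    exact div_le_div_of_nonneg_left (by norm_num) (Real.sqrt_pos.2 (by positivity))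
      (Real.sqrt_le_sqrt hCδ)
  have hsum : 3 / √(C.card : ℝ) + 1 / (L : ℝ) ≤ Q / √(s.card : ℝ) := by
    rw [hQdef, add_div]
    linarith
  intro t
  refine pr_le_of_subset (C ∪ u) s (Finset.union_subset hCs hus) _ _ ?_ t
  intro τ
  refine (pr_W C u hdis (fun i => (z i : ℝ)) (c : ℝ) hcr0 ?_ hCne hune a ha0 ?_ L hL1 hLa τ).trans ?_
  · intro i hi
    have := hCc i hi
    simp only [this]
  · intro i hi
    rw [ha]
    exact hu i hi
  · calc (1 / √(u.card : ℝ)) * (3 / √(C.card : ℝ) + 1 / (L : ℝ))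
        ≤ (1 / √(u.card : ℝ)) * (Q / √(s.card : ℝ)) :=
          mul_le_mul_of_nonneg_left hsum (by positivity)
      _ = (Q / √(u.card : ℝ)) / √(s.card : ℝ) := by
          rw [div_mul_div_comm, one_mul, div_div]
      _ ≤ η / √(s.card : ℝ) := by
          refine div_le_div_of_nonneg_right ?_ hsn.le
          rw [div_le_iff₀ hsu]
          rw [div_le_iff₀ hη] at huB
          linarith


end JE14
export JE14 (core8)
end ZA
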