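import Pool.Agent.Helper470.ZA.Defs
import Pool.Agent.Helper470.ZA.E8
set_option autoImplicit false
open Finset
open scoped Classical

namespace ZA
namespace JE15




-- TARGET (prove this)
theorem core10 {ι : Type} (s : Finset ι) (y : ι → ℝ) (hY : ∑ i ∈ s, y i ≠ 0) :
    pr s y 0 ≤ (∑ i ∈ s, (y i) ^ 2) / (∑ i ∈ s, y i) ^ 2 := by
  have hl : 0 < |∑ i ∈ s, y i| / 2 := by
    have := abs_pos.2 hY
    linarith
  have h := cheb s y (|∑ i ∈ s, y i| / 2) hl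
  have h2 : 4 * (|∑ i ∈ s, y i| / 2) ^ 2 = (∑ i ∈ s, y i) ^ 2 := by
    rw [div_pow, sq_abs]; ring
  rw [h2] at h
  refine le_trans ?_ h
  unfold pr cnt
  refine div_le_div_of_nonneg_right ?_ (by positivity)
  rw [Nat.cast_le]
  refine Finset.card_le_card fun B hB => ?_
  rw [Finset.mem_filter] at hB ⊢
  refine ⟨hB.1, ?_⟩
  rw [hB.2, zero_sub, abs_neg, abs_div, abs_of_pos (by norm_num : (0 : ℝ) < 2)]

-- TARGET (prove this)
theorem core11 {ι : Type} (s S E M : Finset ι) (y : ι → ℝ) (b : ℝ) (hb : 0 ≤ b) (hSE : Disjoint S E)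
    (hSM : Disjoint S M) (hEM : Disjoint E M) (hs : s = S ∪ E ∪ M) (hM : ∀ i ∈ M, |y i| ≤ b) :
    |∑ i ∈ S, y i| ≤ |∑ i ∈ s, y i| + √((E.card : ℝ) * ∑ i ∈ S ∪ E, (y i) ^ 2) + M.card * b ∧
    ∑ i ∈ s, (y i) ^ 2 ≤ ∑ i ∈ S ∪ E, (y i) ^ 2 + M.card * b ^ 2 := by
  have hd : Disjoint (S ∪ E) M := Finset.disjoint_union_left.2 ⟨hSM, hEM⟩
  constructor
  · have h1 : ∑ i ∈ s, y i = ∑ i ∈ S, y i + ∑ i ∈ E, y i + ∑ i ∈ M, y i := by
      rw [hs, Finset.sum_union hd, Finset.sum_union hSE]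
    have h2 : |∑ i ∈ E, y i| ≤ √((E.card : ℝ) * ∑ i ∈ S ∪ E, (y i) ^ 2) := by
      refine Real.abs_le_sqrt ?_
      refine (sq_sum_le_card_mul_sum_sq (s := E) (f := y)).trans ?_
      refine mul_le_mul_of_nonneg_left ?_ (Nat.cast_nonneg _)
      exact Finset.sum_le_sum_of_subset_of_nonneg Finset.subset_union_right
        fun i _ _ => sq_nonneg _
    have h3 : |∑ i ∈ M, y i| ≤ M.card * b := by
      refine (Finset.abs_sum_le_sum_abs _ _).trans ?_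
      have h4 := Finset.sum_le_card_nsmul M (fun i => |y i|) b hM
      rwa [nsmul_eq_mul] at h4
    have h4 : ∑ i ∈ S, y i = ∑ i ∈ s, y i - ∑ i ∈ E, y i - ∑ i ∈ M, y i := by
      rw [h1]; ring
    rw [h4]
    have h5 := abs_sub (∑ i ∈ s, y i - ∑ i ∈ E, y i) (∑ i ∈ M, y i)
    have h6 := abs_sub (∑ i ∈ s, y i) (∑ i ∈ E, y i)
    linarith
  · rw [hs, Finset.sum_union hd]
    have h4 := Finset.sum_le_card_nsmul M (fun i => (y i) ^ 2) (b ^ 2) fun i hi => by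
      rw [← sq_abs]
      exact pow_le_pow_left₀ (abs_nonneg _) (hM i hi) 2
    rw [nsmul_eq_mul] at h4
    linarith


end JE15
export JE15 (core10 core11)
end ZA
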