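import Pool.Agent.Helper470.ZA.Defs
set_option autoImplicit false
open Finset
open scoped Classical

namespace ZA
namespace JE16


theorem LL_sum {ι : Type} (s : Finset ι) (k : ι → ℝ) (x : ℝ) : ∀ α : ℝ,
    ∑ B ∈ s.powerset, Real.cos (α + 2 * x * ∑ i ∈ B, k i) =
      2 ^ s.card * Real.cos (α + x * ∑ i ∈ s, k i) * ∏ i ∈ s, Real.cos (x * k i) := by
  induction s using Finset.induction_on with
  | empty => intro α; simp
  | insert a s ha ih =>
    intro α
    rw [Finset.sum_powerset_insert ha, ih α]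
    have e : ∑ t ∈ s.powerset, Real.cos (α + 2 * x * ∑ i ∈ insert a t, k i) =
        ∑ t ∈ s.powerset, Real.cos ((α + 2 * x * k a) + 2 * x * ∑ i ∈ t, k i) := by
      refine Finset.sum_congr rfl fun t ht => ?_
      have hat : a ∉ t := fun h => ha (Finset.mem_powerset.mp ht h)
      rw [Finset.sum_insert hat]
      congr 1
      ring
    rw [e, ih (α + 2 * x * k a), Finset.card_insert_of_notMem ha, Finset.sum_insert ha,
      Finset.prod_insert ha]
    have h1 : Real.cos (α + x * ∑ i ∈ s, k i) + Real.cos (α + 2 * x * k a + x * ∑ i ∈ s, k i) =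
        2 * Real.cos (α + x * (k a + ∑ i ∈ s, k i)) * Real.cos (x * k a) := by
      rw [Real.cos_add_cos]
      have e1 : (α + x * ∑ i ∈ s, k i + (α + 2 * x * k a + x * ∑ i ∈ s, k i)) / 2 =
          α + x * (k a + ∑ i ∈ s, k i) := by ring
      have e2 : (α + x * ∑ i ∈ s, k i - (α + 2 * x * k a + x * ∑ i ∈ s, k i)) / 2 =
          -(x * k a) := by ring
      rw [e1, e2, Real.cos_neg]
    rw [pow_succ]
    linear_combination (2 ^ s.card * ∏ i ∈ s, Real.cos (x * k i)) * h1

theorem LL_cos (K : ℤ) : ∫ ξ in (-(1/2) : ℝ)..(1/2), Real.cos (2 * Real.pi * K * ξ) =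
    if K = 0 then 1 else 0 := by
  split_ifs with h
  · subst h
    simp
    norm_num
  · have hK : (2 * Real.pi * K : ℝ) ≠ 0 := by
      have : (K : ℝ) ≠ 0 := by exact_mod_cast h
      positivity
    rw [intervalIntegral.integral_comp_mul_left _ hK, integral_cos]
    have e1 : 2 * Real.pi * (K : ℝ) * (1 / 2) = K * Real.pi := by ring
    have e2 : 2 * Real.pi * (K : ℝ) * (-(1 / 2)) = -(K * Real.pi) := by ring
    rw [e1, e2, Real.sin_neg, Real.sin_int_mul_pi]
    simp

-- TARGET (prove this)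
theorem LL_int (q n b : ℕ) (hb : b ≤ n) :
    pr (univ : Finset (Fin n)) (fun i => if (i : ℕ) < b then -(q : ℝ) else 1) 0
      = ∫ ξ in (-(1/2) : ℝ)..(1/2), Real.cos (Real.pi * ξ * (((n : ℝ) - b) - q * b)) *
          (Real.cos (Real.pi * ξ)) ^ (n - b) * (Real.cos (Real.pi * ξ * q)) ^ b := by
  obtain ⟨m, rfl⟩ := Nat.exists_eq_add_of_le hb
  have hsumk : ∑ i : Fin (b + m), (if (i : ℕ) < b then -(q : ℝ) else 1) = m - q * b := by
    rw [Fin.sum_univ_eq_sum_range (fun i : ℕ => if i < b then -(q : ℝ) else 1) (b + m),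
      Finset.sum_range_add]
    have e1 : ∑ i ∈ range b, (if i < b then -(q : ℝ) else 1) = ∑ i ∈ range b, -(q : ℝ) :=
      Finset.sum_congr rfl fun i hi => if_pos (Finset.mem_range.mp hi)
    have e2 : ∑ i ∈ range m, (if b + i < b then -(q : ℝ) else 1) = ∑ i ∈ range m, (1 : ℝ) :=
      Finset.sum_congr rfl fun i hi => if_neg (by omega)
    rw [e1, e2, Finset.sum_const, Finset.sum_const, Finset.card_range, Finset.card_range,
      nsmul_eq_mul, nsmul_eq_mul]
    ring
  have hprodk : ∀ x : ℝ, ∏ i : Fin (b + m), Real.cos (x * (if (i : ℕ) < b then -(q : ℝ) else 1)) =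
      (Real.cos (x * q)) ^ b * (Real.cos x) ^ m := by
    intro x
    rw [Fin.prod_univ_eq_prod_range (fun i : ℕ => Real.cos (x * (if i < b then -(q : ℝ) else 1)))
      (b + m), Finset.prod_range_add]
    have e1 : ∏ i ∈ range b, Real.cos (x * (if i < b then -(q : ℝ) else 1)) =
        ∏ i ∈ range b, Real.cos (x * q) :=
      Finset.prod_congr rfl fun i hi => by
        rw [if_pos (Finset.mem_range.mp hi), mul_neg, Real.cos_neg]
    have e2 : ∏ i ∈ range m, Real.cos (x * (if b + i < b then -(q : ℝ) else 1)) =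
        ∏ i ∈ range m, Real.cos x :=
      Finset.prod_congr rfl fun i hi => by rw [if_neg (by omega), mul_one]
    rw [e1, e2, Finset.prod_const, Finset.prod_const, Finset.card_range, Finset.card_range]
  have hcnt : (cnt (univ : Finset (Fin (b + m))) (fun i => if (i : ℕ) < b then -(q : ℝ) else 1) 0 : ℝ)
      = ∑ B ∈ (univ : Finset (Fin (b + m))).powerset, ∫ ξ in (-(1/2) : ℝ)..(1/2),
        Real.cos (0 + 2 * (Real.pi * ξ) * ∑ i ∈ B, (if (i : ℕ) < b then -(q : ℝ) else 1)) := by
    unfold cnt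
    rw [Finset.card_filter, Nat.cast_sum]
    refine Finset.sum_congr rfl fun B _ => ?_
    have hK : ∑ i ∈ B, (if (i : ℕ) < b then -(q : ℝ) else 1) =
        ((∑ i ∈ B, (if (i : ℕ) < b then -(q : ℤ) else 1) : ℤ) : ℝ) := by
      push_cast
      refine Finset.sum_congr rfl fun i _ => ?_
      split_ifs <;> simp
    rw [hK]
    have hc := LL_cos (∑ i ∈ B, (if (i : ℕ) < b then -(q : ℤ) else 1))
    have e3 : ∀ ξ : ℝ, (0 + 2 * (Real.pi * ξ) *
        ((∑ i ∈ B, (if (i : ℕ) < b then -(q : ℤ) else 1) : ℤ) : ℝ)) =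
        2 * Real.pi * ((∑ i ∈ B, (if (i : ℕ) < b then -(q : ℤ) else 1) : ℤ) : ℝ) * ξ := by
      intro ξ; ring
    simp_rw [e3]
    rw [hc]
    by_cases h : (∑ i ∈ B, (if (i : ℕ) < b then -(q : ℤ) else 1)) = 0
    · rw [h]; simp
    · have h' : ((∑ i ∈ B, (if (i : ℕ) < b then -(q : ℤ) else 1) : ℤ) : ℝ) ≠ 0 := by
        exact_mod_cast h
      rw [if_neg h, if_neg h']
      simp
  unfold pr
  rw [hcnt, ← intervalIntegral.integral_finsetSum]
  · simp_rw [LL_sum]
    rw [hsumk] 
    simp_rw [hprodk]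
    rw [div_eq_iff (by positivity), ← intervalIntegral.integral_mul_const]
    apply intervalIntegral.integral_congr
    intro ξ _
    have hm : b + m - b = m := by omega
    simp only [hm, Finset.card_univ, Fintype.card_fin, zero_add]
    push_cast
    have e4 : Real.pi * ξ * ((b : ℝ) + m - b - q * b) = Real.pi * ξ * ((m : ℝ) - q * b) := by ring
    rw [e4]
    ring
  · intro B _
    apply Continuous.intervalIntegrable
    fun_prop


end JE16
export JE16 (LL_int)
end ZA
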