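import Pool.Agent.Helper470.ZA.Defs
set_option autoImplicit false
open Finset
open scoped Classical

namespace ZA
namespace JE17


-- TARGET (prove this)
theorem LL_lim_pow (x : ℝ) (m : ℕ → ℕ) (α : ℝ)
    (hm : Filter.Tendsto (fun n : ℕ => (m n : ℝ) / n) Filter.atTop (nhds α)) :
    Filter.Tendsto (fun n : ℕ => Real.cos (x / √(n : ℝ)) ^ (m n)) Filter.atTop
      (nhds (Real.exp (-(x ^ 2 / 2) * α))) := by
  have hsq : Filter.Tendsto (fun n : ℕ => √(n : ℝ)) Filter.atTop Filter.atTop :=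
    Real.tendsto_sqrt_atTop.comp tendsto_natCast_atTop_atTop
  have hz : ∀ c : ℝ, Filter.Tendsto (fun n : ℕ => c / √(n : ℝ)) Filter.atTop (nhds 0) :=
    fun c => hsq.const_div_atTop c
  -- `n (cos (x/√n) - 1) → - x²/2`
  have h1 : Filter.Tendsto (fun n : ℕ => (n : ℝ) * (Real.cos (x / √(n : ℝ)) - 1)) Filter.atTop
      (nhds (-(x ^ 2 / 2))) := by
    have h2 : Filter.Tendsto (fun n : ℕ => -(2 * (x / 2 * Real.sinc (x / 2 / √(n : ℝ))) ^ 2))
        Filter.atTop (nhds (-(2 * (x / 2 * Real.sinc 0) ^ 2))) := by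
      refine Filter.Tendsto.neg (Filter.Tendsto.const_mul 2 (Filter.Tendsto.pow ?_ 2))
      exact ((Real.continuous_sinc.tendsto 0).comp (hz (x / 2))).const_mul (x / 2)
    rw [Real.sinc_zero] at h2
    have h3 : -(2 * (x / 2 * 1) ^ 2) = -(x ^ 2 / 2) := by ring
    rw [h3] at h2
    refine h2.congr' ?_
    filter_upwards [Filter.eventually_gt_atTop 0] with n hn
    have hn' : (0 : ℝ) < n := by exact_mod_cast hn
    have hs : 0 < √(n : ℝ) := Real.sqrt_pos.2 hn'
    have hss : √(n : ℝ) ^ 2 = n := Real.sq_sqrt hn'.le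
    have h4 : Real.cos (x / √(n : ℝ)) = 1 - 2 * Real.sin (x / 2 / √(n : ℝ)) ^ 2 := by
      have h5 : x / √(n : ℝ) = 2 * (x / 2 / √(n : ℝ)) := by ring
      rw [h5, Real.cos_two_mul, Real.cos_sq']
      ring
    rw [h4]
    by_cases hx : x = 0
    · subst hx; simp
    · have h6 : x / 2 / √(n : ℝ) ≠ 0 := by positivity
      rw [Real.sinc_of_ne_zero h6]
      have h7 : x / 2 * (Real.sin (x / 2 / √(n : ℝ)) / (x / 2 / √(n : ℝ))) =
        √(n : ℝ) * Real.sin (x / 2 / √(n : ℝ)) := by
        field_simp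
      rw [h7, mul_pow, hss]
      ring
  have h2 := Real.tendsto_nat_mul_log_one_add_of_tendsto h1
  have h3 : Filter.Tendsto (fun n : ℕ => ((n : ℝ) * Real.log (1 + (Real.cos (x / √(n : ℝ)) - 1))) *
      ((m n : ℝ) / n)) Filter.atTop (nhds (-(x ^ 2 / 2) * α)) := h2.mul hm
  have h4 := (Real.continuous_exp.tendsto _).comp h3
  refine h4.congr' ?_
  have hcos : ∀ᶠ n : ℕ in Filter.atTop, 0 < Real.cos (x / √(n : ℝ)) := by
    have := (Real.continuous_cos.tendsto 0).comp (hz x)
    rw [Real.cos_zero] at this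
    exact this.eventually_const_lt one_pos
  filter_upwards [hcos, Filter.eventually_gt_atTop 0] with n hc hn
  have hn' : (n : ℝ) ≠ 0 := by exact_mod_cast hn.ne'
  show Real.exp ((n : ℝ) * Real.log (1 + (Real.cos (x / √(n : ℝ)) - 1)) * ((m n : ℝ) / n)) = _
  rw [show (1 + (Real.cos (x / √(n : ℝ)) - 1)) = Real.cos (x / √(n : ℝ)) by ring]
  have h5 : (n : ℝ) * Real.log (Real.cos (x / √(n : ℝ))) * ((m n : ℝ) / n) =
      (m n : ℝ) * Real.log (Real.cos (x / √(n : ℝ))) := by field_simp
  rw [h5, Real.exp_nat_mul, Real.exp_log hc]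

theorem LL_lim (q : ℕ) (hq : 1 ≤ q) :
    Filter.Tendsto (fun n : ℕ => √(n : ℝ) *
      ∫ ξ in (-(1/2) : ℝ)..(1/2), Real.cos (Real.pi * ξ * (((n : ℝ) - (n / (q + 1) : ℕ)) - q * (n / (q + 1) : ℕ))) *
          (Real.cos (Real.pi * ξ)) ^ (n - n / (q + 1)) * (Real.cos (Real.pi * ξ * q)) ^ (n / (q + 1)))
      Filter.atTop (nhds (√(2 / (Real.pi * q)))) := by
  have hq0 : (0 : ℝ) < q := by exact_mod_cast hq
  have hpi := Real.pi_pos
  have hsq : Filter.Tendsto (fun n : ℕ => √(n : ℝ)) Filter.atTop Filter.atTop :=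
    Real.tendsto_sqrt_atTop.comp tendsto_natCast_atTop_atTop
  let F : ℕ → ℝ → ℝ := fun n ξ =>
    Real.cos (Real.pi * ξ * (((n : ℝ) - (n / (q + 1) : ℕ)) - q * (n / (q + 1) : ℕ))) *
          (Real.cos (Real.pi * ξ)) ^ (n - n / (q + 1)) * (Real.cos (Real.pi * ξ * q)) ^ (n / (q + 1))
  have hFc : ∀ n, Continuous (F n) := fun n => by
    show Continuous fun ξ : ℝ => Real.cos (Real.pi * ξ * (((n : ℝ) - (n / (q + 1) : ℕ)) - q * (n / (q + 1) : ℕ))) *
          (Real.cos (Real.pi * ξ)) ^ (n - n / (q + 1)) * (Real.cos (Real.pi * ξ * q)) ^ (n / (q + 1))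
    fun_prop
  let G : ℕ → ℝ → ℝ := fun n =>
    (Set.Ioc (-√(n : ℝ) / 2) (√(n : ℝ) / 2)).indicator fun u => F n (u / √(n : ℝ))
  have hGint : ∀ᶠ n : ℕ in Filter.atTop, ∫ u, G n u = √(n : ℝ) * ∫ ξ in (-(1/2) : ℝ)..(1/2), F n ξ := by
    filter_upwards [Filter.eventually_gt_atTop 0] with n hn
    have hn' : (0 : ℝ) < n := by exact_mod_cast hn
    have hs : 0 < √(n : ℝ) := Real.sqrt_pos.2 hn'
    show ∫ u, (Set.Ioc (-√(n : ℝ) / 2) (√(n : ℝ) / 2)).indicator (fun u => F n (u / √(n : ℝ))) u = _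
    rw [MeasureTheory.integral_indicator measurableSet_Ioc,
      ← intervalIntegral.integral_of_le (by linarith),
      intervalIntegral.integral_comp_div (f := F n) hs.ne', smul_eq_mul]
    congr 2
    · field_simp
    · field_simp
  have hlim : Filter.Tendsto (fun n => ∫ u, G n u) Filter.atTop
      (nhds (∫ u : ℝ, Real.exp (-(Real.pi ^ 2 * q / 2) * u ^ 2))) := by
    refine MeasureTheory.tendsto_integral_of_dominated_convergence
      (fun u : ℝ => Real.exp (-1 * u ^ 2)) ?_ (integrable_exp_neg_mul_sq one_pos) ?_ ?_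
    · intro n
      have hc : Continuous fun u => F n (u / √(n : ℝ)) := (hFc n).comp (by fun_prop)
      exact (hc.aestronglyMeasurable).indicator measurableSet_Ioc
    · intro n
      refine Filter.Eventually.of_forall fun u => ?_
      by_cases hu : u ∈ Set.Ioc (-√(n : ℝ) / 2) (√(n : ℝ) / 2)
      · show ‖(Set.Ioc (-√(n : ℝ) / 2) (√(n : ℝ) / 2)).indicator (fun u => F n (u / √(n : ℝ))) u‖ ≤ _
        rw [Set.indicator_of_mem hu]
        have hs : 0 < √(n : ℝ) := by
          rcases hu with ⟨h1, h2⟩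
          linarith
        have hn' : (0 : ℝ) < n := Real.sqrt_pos.1 hs
        have hss : √(n : ℝ) ^ 2 = n := Real.sq_sqrt hn'.le
        set ξ : ℝ := u / √(n : ℝ) with hξ
        have hξ1 : |ξ| ≤ 1 / 2 := by
          rw [hξ, abs_div, abs_of_pos hs, div_le_iff₀ hs]
          rw [abs_le]
          constructor <;> linarith [hu.1, hu.2]
        have hc1 : |Real.cos (Real.pi * ξ)| ≤ Real.exp (-(2 * ξ ^ 2)) := by
          have h1 : |Real.pi * ξ| ≤ Real.pi / 2 := by
            rw [abs_mul, abs_of_pos hpi]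
            nlinarith
          have h2 : 0 ≤ Real.cos (Real.pi * ξ) :=
            Real.cos_nonneg_of_neg_pi_div_two_le_of_le (abs_le.1 h1).1 (abs_le.1 h1).2
          rw [abs_of_nonneg h2]
          have h3 := Real.cos_le_one_sub_mul_cos_sq (x := Real.pi * ξ) (by linarith)
          have h4 : 2 / Real.pi ^ 2 * (Real.pi * ξ) ^ 2 = 2 * ξ ^ 2 := by
            field_simp
          rw [h4] at h3
          have h5 := Real.add_one_le_exp (-(2 * ξ ^ 2))
          linarith
        have hb : (n : ℝ) / 2 ≤ ((n - n / (q + 1) : ℕ) : ℝ) := by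
          have h1 : n / (q + 1) ≤ n / 2 := Nat.div_le_div_left (by omega) (by norm_num)
          have h2 : n ≤ 2 * (n - n / (q + 1)) := by omega
          have h3 : (n : ℝ) ≤ 2 * ((n - n / (q + 1) : ℕ) : ℝ) := by exact_mod_cast h2
          linarith
        have hF : ‖F n ξ‖ ≤ |Real.cos (Real.pi * ξ)| ^ (n - n / (q + 1)) := by
          show ‖Real.cos (Real.pi * ξ * (((n : ℝ) - (n / (q + 1) : ℕ)) - q * (n / (q + 1) : ℕ))) *
            (Real.cos (Real.pi * ξ)) ^ (n - n / (q + 1)) *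
            (Real.cos (Real.pi * ξ * q)) ^ (n / (q + 1))‖ ≤ _
          rw [norm_mul, norm_mul, norm_pow, norm_pow, Real.norm_eq_abs, Real.norm_eq_abs,
            Real.norm_eq_abs]
          have h1 := Real.abs_cos_le_one (Real.pi * ξ * (((n : ℝ) - (n / (q + 1) : ℕ)) - q * (n / (q + 1) : ℕ)))
          have h2 : |Real.cos (Real.pi * ξ * q)| ^ (n / (q + 1)) ≤ 1 :=
            pow_le_one₀ (abs_nonneg _) (Real.abs_cos_le_one _)
          have h3 : 0 ≤ |Real.cos (Real.pi * ξ)| ^ (n - n / (q + 1)) := by positivity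
          calc _ ≤ 1 * |Real.cos (Real.pi * ξ)| ^ (n - n / (q + 1)) * 1 := by gcongr
            _ = _ := by ring
        refine hF.trans ?_
        calc |Real.cos (Real.pi * ξ)| ^ (n - n / (q + 1))
            ≤ Real.exp (-(2 * ξ ^ 2)) ^ (n - n / (q + 1)) := by gcongr
          _ = Real.exp (((n - n / (q + 1) : ℕ) : ℝ) * (-(2 * ξ ^ 2))) := (Real.exp_nat_mul _ _).symm
          _ ≤ Real.exp (-1 * u ^ 2) := by
            apply Real.exp_le_exp.2
            have h1 : u ^ 2 = n * ξ ^ 2 := by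
              rw [hξ, div_pow, hss]; field_simp
            rw [h1]
            nlinarith [sq_nonneg ξ]
      · show ‖(Set.Ioc (-√(n : ℝ) / 2) (√(n : ℝ) / 2)).indicator (fun u => F n (u / √(n : ℝ))) u‖ ≤ _
        rw [Set.indicator_of_notMem hu, norm_zero]
        positivity
    · refine Filter.Eventually.of_forall fun u => ?_
      -- ratios
      have hmod : Filter.Tendsto (fun n : ℕ => ((n % (q + 1) : ℕ) : ℝ) / n) Filter.atTop (nhds 0) := by
        have h1 : Filter.Tendsto (fun n : ℕ => ((q + 1 : ℕ) : ℝ) / n) Filter.atTop (nhds 0) :=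
          tendsto_const_div_atTop_nhds_zero_nat _
        refine squeeze_zero (fun n => by positivity) (fun n => ?_) h1
        have h2 : n % (q + 1) ≤ q + 1 := (Nat.mod_lt n (by omega)).le
        have h3 : ((n % (q + 1) : ℕ) : ℝ) ≤ ((q + 1 : ℕ) : ℝ) := by exact_mod_cast h2
        gcongr
      have hdm : ∀ n : ℕ, (n : ℝ) = (q + 1) * ((n / (q + 1) : ℕ) : ℝ) + ((n % (q + 1) : ℕ) : ℝ) := by
        intro n
        have h1 := Nat.div_add_mod n (q + 1)
        exact_mod_cast h1.symm
      have hdiv : Filter.Tendsto (fun n : ℕ => ((n / (q + 1) : ℕ) : ℝ) / n) Filter.atTop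
          (nhds (1 / (q + 1))) := by
        have h1 : Filter.Tendsto (fun n : ℕ => (1 / ((q : ℝ) + 1)) * (1 - ((n % (q + 1) : ℕ) : ℝ) / n))
            Filter.atTop (nhds ((1 / ((q : ℝ) + 1)) * (1 - 0))) :=
          (hmod.const_sub 1).const_mul _
        rw [sub_zero, mul_one] at h1
        refine h1.congr' ?_
        filter_upwards [Filter.eventually_gt_atTop 0] with n hn
        have hn' : (0 : ℝ) < n := by exact_mod_cast hn
        have hq1 : (0 : ℝ) < (q : ℝ) + 1 := by positivity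
        have h2 := hdm n
        field_simp
        linarith
      have hsub : Filter.Tendsto (fun n : ℕ => ((n - n / (q + 1) : ℕ) : ℝ) / n) Filter.atTop
          (nhds (1 - 1 / (q + 1))) := by
        refine (hdiv.const_sub 1).congr' ?_
        filter_upwards [Filter.eventually_gt_atTop 0] with n hn
        have hn' : (0 : ℝ) < n := by exact_mod_cast hn
        rw [Nat.cast_sub (Nat.div_le_self _ _)]
        field_simp
      have hA := LL_lim_pow (Real.pi * u) _ _ hsub
      have hB := LL_lim_pow (Real.pi * u * q) _ _ hdiv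
      have hC : Filter.Tendsto (fun n : ℕ => Real.cos (Real.pi * (u / √(n : ℝ)) *
          (((n : ℝ) - (n / (q + 1) : ℕ)) - q * (n / (q + 1) : ℕ)))) Filter.atTop (nhds 1) := by
        have h0 : Filter.Tendsto (fun n : ℕ => Real.pi * (u / √(n : ℝ)) *
          (((n : ℝ) - (n / (q + 1) : ℕ)) - q * (n / (q + 1) : ℕ))) Filter.atTop (nhds 0) := by
          have h1 : Filter.Tendsto (fun n : ℕ => (Real.pi * |u| * (q + 1)) / √(n : ℝ)) Filter.atTop
            (nhds 0) := hsq.const_div_atTop _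
          refine squeeze_zero_norm (fun n => ?_) h1
          have h2 : ((n : ℝ) - (n / (q + 1) : ℕ)) - q * (n / (q + 1) : ℕ) = ((n % (q + 1) : ℕ) : ℝ) := by
            have := hdm n
            linarith
          rw [h2, norm_mul, norm_mul, Real.norm_eq_abs, Real.norm_eq_abs, Real.norm_eq_abs,
            abs_of_pos hpi, abs_div, abs_of_nonneg (Real.sqrt_nonneg _), Nat.abs_cast]
          have h3 : ((n % (q + 1) : ℕ) : ℝ) ≤ (q : ℝ) + 1 := by
            have h2 : n % (q + 1) ≤ q + 1 := (Nat.mod_lt n (by omega)).le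
            exact_mod_cast h2
          calc Real.pi * (|u| / √(n : ℝ)) * ((n % (q + 1) : ℕ) : ℝ)
              ≤ Real.pi * (|u| / √(n : ℝ)) * ((q : ℝ) + 1) := by gcongr
            _ = _ := by ring
        have := (Real.continuous_cos.tendsto 0).comp h0
        rwa [Real.cos_zero] at this
      have hprod := (hC.mul hA).mul hB
      have hval : 1 * Real.exp (-((Real.pi * u) ^ 2 / 2) * (1 - 1 / ((q : ℝ) + 1))) *
          Real.exp (-((Real.pi * u * q) ^ 2 / 2) * (1 / ((q : ℝ) + 1))) =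
          Real.exp (-(Real.pi ^ 2 * q / 2) * u ^ 2) := by
        rw [one_mul, ← Real.exp_add]
        congr 1
        have hq1 : (q : ℝ) + 1 ≠ 0 := by positivity
        field_simp
        ring
      rw [hval] at hprod
      refine hprod.congr' ?_
      have hev : ∀ᶠ n : ℕ in Filter.atTop, 2 * |u| < √(n : ℝ) := hsq.eventually_gt_atTop _
      filter_upwards [hev] with n hn
      show _ = (Set.Ioc (-√(n : ℝ) / 2) (√(n : ℝ) / 2)).indicator (fun u => F n (u / √(n : ℝ))) u
      rw [Set.indicator_of_mem]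
      · show _ = Real.cos (Real.pi * (u / √(n : ℝ)) * (((n : ℝ) - (n / (q + 1) : ℕ)) - q * (n / (q + 1) : ℕ))) *
          (Real.cos (Real.pi * (u / √(n : ℝ)))) ^ (n - n / (q + 1)) *
          (Real.cos (Real.pi * (u / √(n : ℝ)) * q)) ^ (n / (q + 1))
        have e1 : Real.pi * u / √(n : ℝ) = Real.pi * (u / √(n : ℝ)) := by ring
        have e2 : Real.pi * u * q / √(n : ℝ) = Real.pi * (u / √(n : ℝ)) * q := by ring
        rw [e1, e2]
      · constructor
        · linarith [neg_abs_le u]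
        · linarith [le_abs_self u]
  rw [integral_gaussian] at hlim
  have hfin : Real.pi / (Real.pi ^ 2 * q / 2) = 2 / (Real.pi * q) := by
    field_simp
  rw [hfin] at hlim
  exact hlim.congr' hGint


end JE17
export JE17 (LL_lim)
end ZA
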