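import Pool.Agent.Helper470.ZA.Defs
import Pool.Agent.Helper470.ZA.E16
import Pool.Agent.Helper470.ZA.E17
set_option autoImplicit false
open Finset
open scoped Classical

namespace ZA
namespace JE18






-- TARGET (prove this)
theorem LL (q : ℕ) (hq : 1 ≤ q) (η : ℝ) (hη : 0 < η) : ∃ n0 : ℕ, ∀ n : ℕ, n0 ≤ n →
    (1 - η) * √(2 / (Real.pi * (q * n)))
      ≤ pr (univ : Finset (Fin n)) (fun i => if (i : ℕ) < n / (q + 1) then -(q : ℝ) else 1) 0 := by
  have hq0 : (0 : ℝ) < q := by exact_mod_cast hq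
  have hpi := Real.pi_pos
  have hL : 0 < √(2 / (Real.pi * q)) := Real.sqrt_pos.2 (by positivity)
  have hlt : (1 - η) * √(2 / (Real.pi * q)) < √(2 / (Real.pi * q)) := by nlinarith
  have h1 := (LL_lim q hq).eventually (lt_mem_nhds hlt)
  obtain ⟨n0, hn0⟩ := Filter.eventually_atTop.1 h1
  refine ⟨max n0 1, fun n hn => ?_⟩
  have h2 := hn0 n ((le_max_left _ _).trans hn)
  have hn1 : 1 ≤ n := (le_max_right _ _).trans hn
  have hnpos : (0 : ℝ) < n := by exact_mod_cast hn1
  have hb : n / (q + 1) ≤ n := Nat.div_le_self _ _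
  rw [← LL_int q n (n / (q + 1)) hb] at h2
  have h3 : √(2 / (Real.pi * (q * n))) = √(2 / (Real.pi * q)) / √(n : ℝ) := by
    rw [← Real.sqrt_div (by positivity)]
    congr 1
    field_simp
  rw [h3, ← mul_div_assoc, div_le_iff₀ (Real.sqrt_pos.2 hnpos), mul_comm (pr _ _ _)]
  exact h2.le


end JE18
export JE18 (LL)
end ZA
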