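import Pool.Agent.Helper470.ZA.Defs
set_option autoImplicit false
open Finset
open scoped Classical

namespace ZA
namespace JE19


-- TARGET (prove this)
theorem cb_wallis (k : ℕ) :
    ((Nat.centralBinom k : ℝ) / 4 ^ k) ^ 2 * (2 * k + 1) * Real.Wallis.W k = 1 := by
  induction k with
  | zero => simp [Real.Wallis.W]
  | succ k ih =>
    have h1 : (Nat.centralBinom (k + 1) : ℝ) / 4 ^ (k + 1) =
        (Nat.centralBinom k : ℝ) / 4 ^ k * ((2 * k + 1) / (2 * k + 2)) := by
      have h := Nat.succ_mul_centralBinom_succ k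
      have h' : ((k : ℝ) + 1) * (Nat.centralBinom (k + 1) : ℝ) =
          2 * (2 * k + 1) * (Nat.centralBinom k : ℝ) := by exact_mod_cast h
      have hk : ((k : ℝ) + 1) ≠ 0 := by positivity
      have h2 : (Nat.centralBinom (k + 1) : ℝ) =
          2 * (2 * k + 1) * (Nat.centralBinom k : ℝ) / (k + 1) := by
        field_simp
        linarith
      rw [h2, pow_succ]
      field_simp
      ring
    have h3 : Real.Wallis.W (k + 1) =
        Real.Wallis.W k * ((2 * k + 2) / (2 * k + 1) * ((2 * k + 2) / (2 * k + 3))) :=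
      Real.Wallis.W_succ k
    rw [h1, h3]
    have h4 : ((Nat.centralBinom k : ℝ) / 4 ^ k * ((2 * k + 1) / (2 * k + 2))) ^ 2 *
        (2 * ((k + 1 : ℕ) : ℝ) + 1) *
        (Real.Wallis.W k * ((2 * k + 2) / (2 * k + 1) * ((2 * k + 2) / (2 * k + 3)))) =
        ((Nat.centralBinom k : ℝ) / 4 ^ k) ^ 2 * (2 * k + 1) * Real.Wallis.W k := by
      have e1 : (2 * (k : ℝ) + 1) ≠ 0 := by positivity
      have e2 : (2 * (k : ℝ) + 2) ≠ 0 := by positivity
      have e3 : (2 * (k : ℝ) + 3) ≠ 0 := by positivity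
      push_cast
      field_simp
      ring
    rw [h4, ih]

theorem cb_eq (n : ℕ) : (n.choose (n / 2) : ℝ) / 2 ^ n =
    (Nat.centralBinom ((n + 1) / 2) : ℝ) / 4 ^ ((n + 1) / 2) := by
  rcases Nat.even_or_odd' n with ⟨m, rfl | rfl⟩
  · have h1 : (2 * m + 1) / 2 = m := by omega
    have h2 : 2 * m / 2 = m := by omega
    rw [h1, h2, Nat.centralBinom_eq_two_mul_choose, pow_mul]
    norm_num
  · have h1 : (2 * m + 1 + 1) / 2 = m + 1 := by omega
    have h2 : (2 * m + 1) / 2 = m := by omega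
    rw [h1, h2, Nat.centralBinom_eq_two_mul_choose]
    have h3 : (2 * (m + 1)).choose (m + 1) = 2 * (2 * m + 1).choose m := by
      have h4 : 2 * (m + 1) = (2 * m + 1) + 1 := by ring
      rw [h4, Nat.choose_succ_succ', Nat.choose_symm_half]
      ring
    rw [h3]
    have h5 : (4 : ℝ) ^ (m + 1) = 2 * 2 ^ (2 * m + 1) := by
      have : (4 : ℝ) = 2 ^ 2 := by norm_num
      rw [this, ← pow_mul, ← pow_succ']
      congr 1
    rw [h5]
    push_cast
    rw [mul_div_mul_left _ _ (by norm_num : (2 : ℝ) ≠ 0)]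

theorem cb (η : ℝ) (hη : 0 < η) : ∃ n0 : ℕ, ∀ n : ℕ, n0 ≤ n →
    (1 - η) * √(2 / (Real.pi * n)) ≤ (n.choose (n / 2) : ℝ) / 2 ^ n ∧
    (n.choose (n / 2) : ℝ) / 2 ^ n ≤ (1 + η) * √(2 / (Real.pi * n)) := by
  refine ⟨⌈2 / η⌉₊ + 1, fun n hn => ?_⟩
  have hn1 : 1 ≤ n := by omega
  have hnpos : (0 : ℝ) < n := by exact_mod_cast hn1
  have hnη : 2 / η ≤ n := by
    have h1 := Nat.le_ceil (2 / η)
    have h2 : ((⌈2 / η⌉₊ : ℕ) : ℝ) ≤ n := by exact_mod_cast (by omega : ⌈2 / η⌉₊ ≤ n)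
    linarith
  rw [cb_eq]
  set m := (n + 1) / 2 with hm
  have hm1 : n ≤ 2 * m := by omega
  have hm2 : 2 * m ≤ n + 1 := by omega
  have hm1' : (n : ℝ) ≤ 2 * m := by exact_mod_cast hm1
  have hm2' : 2 * (m : ℝ) ≤ n + 1 := by exact_mod_cast hm2
  set c := (Nat.centralBinom m : ℝ) / 4 ^ m with hc
  have hc0 : 0 ≤ c := by positivity
  have hW := cb_wallis m
  rw [← hc] at hW
  have hWpos : 0 < Real.Wallis.W m := Real.Wallis.W_pos m
  have hπ := Real.pi_pos
  have hup := Real.Wallis.W_le m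
  have hlo := Real.Wallis.le_W m
  have hx : (0 : ℝ) < 2 * m + 1 := by positivity
  -- lower bound
  have hlow : 2 / (Real.pi * (n + 2)) ≤ c ^ 2 := by
    rw [div_le_iff₀ (by positivity)]
    have h1 : c ^ 2 * (2 * m + 1) * Real.Wallis.W m ≤ c ^ 2 * (n + 2) * (Real.pi / 2) := by
      apply mul_le_mul _ hup hWpos.le (by positivity)
      apply mul_le_mul_of_nonneg_left _ (by positivity)
      linarith
    rw [hW] at h1
    nlinarith
  have hupp : c ^ 2 ≤ 2 / (Real.pi * n) := by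
    rw [le_div_iff₀ (by positivity)]
    have h1 : c ^ 2 * (2 * m + 1) * (((2 : ℝ) * m + 1) / (2 * m + 2) * (Real.pi / 2)) ≤ 1 := by
      have h9 : (0 : ℝ) ≤ c ^ 2 * (2 * m + 1) := by positivity
      have h8 := mul_le_mul_of_nonneg_left hlo h9
      linarith
    have h2 : (n : ℝ) ≤ (2 * m + 1) * (((2 : ℝ) * m + 1) / (2 * m + 2)) := by
      rw [← mul_div_assoc, le_div_iff₀ (by positivity)]
      nlinarith
    have h3 : c ^ 2 * n * (Real.pi / 2) ≤
        c ^ 2 * ((2 * m + 1) * (((2 : ℝ) * m + 1) / (2 * m + 2))) * (Real.pi / 2) := by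
      apply mul_le_mul_of_nonneg_right _ (by positivity)
      exact mul_le_mul_of_nonneg_left h2 (by positivity)
    have h4 : c ^ 2 * ((2 * m + 1) * (((2 : ℝ) * m + 1) / (2 * m + 2))) * (Real.pi / 2) =
        c ^ 2 * (2 * m + 1) * (((2 : ℝ) * m + 1) / (2 * m + 2) * (Real.pi / 2)) := by ring
    rw [h4] at h3
    nlinarith
  set q := √(2 / (Real.pi * n)) with hq
  have hq0 : 0 ≤ q := Real.sqrt_nonneg _
  have hqq : q ^ 2 = 2 / (Real.pi * n) := Real.sq_sqrt (by positivity)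
  constructor
  · by_cases hη1 : 1 ≤ η
    · have : (1 - η) * q ≤ 0 := mul_nonpos_of_nonpos_of_nonneg (by linarith) hq0
      linarith
    · push Not at hη1
      have h0 : 0 ≤ 1 - η := by linarith
      apply le_of_sq_le_sq _ hc0
      refine le_trans ?_ hlow
      rw [mul_pow, hqq, ← mul_div_assoc, div_le_div_iff₀ (by positivity) (by positivity)]
      have h5 : 2 ≤ n * η := by
        rw [div_le_iff₀ hη] at hnη
        exact hnη
      have h6 : (1 - η) ^ 2 * (n + 2) ≤ n := by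
        nlinarith [mul_pos hη hnpos, mul_nonneg h0 h0]
      calc (1 - η) ^ 2 * 2 * (Real.pi * (n + 2)) = 2 * Real.pi * ((1 - η) ^ 2 * (n + 2)) := by ring
        _ ≤ 2 * Real.pi * n := mul_le_mul_of_nonneg_left h6 (by positivity)
        _ = 2 * (Real.pi * n) := by ring
  · have h7 : c ≤ q := by
      apply le_of_sq_le_sq _ hq0
      rw [hqq]; exact hupp
    nlinarith


end JE19
export JE19 (cb)
end ZA
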