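import Pool.Agent.Helper470.ZA.Defs
set_option autoImplicit false
open Finset
open scoped Classical

namespace ZA
namespace JE2


theorem int_of_gcd (W : Finset ℕ) (hgcd : ∀ d : ℕ, (∀ w ∈ W, d ∣ w) → d = 1) (ξ : ℝ)
    (h : ∀ w ∈ W, ∃ n : ℤ, ξ * (w : ℝ) = n) : ∃ n : ℤ, ξ = n := by
  let H : AddSubgroup ℤ :=
    { carrier := {m | ∃ n : ℤ, ξ * (m : ℝ) = n}
      add_mem' := by
        rintro a b ⟨n, hn⟩ ⟨m, hm⟩
        refine ⟨n + m, ?_⟩
        push_cast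
        rw [mul_add, hn, hm]
      zero_mem' := ⟨0, by simp⟩
      neg_mem' := by
        rintro a ⟨n, hn⟩
        refine ⟨-n, ?_⟩
        push_cast
        rw [mul_neg, hn] }
  obtain ⟨a, ha⟩ := Int.subgroup_cyclic H
  have hdiv : ∀ w ∈ W, a.natAbs ∣ w := by
    intro w hw
    obtain ⟨n, hn⟩ := h w hw
    have hmem : (w : ℤ) ∈ H := ⟨n, by push_cast; exact hn⟩
    rw [ha, AddSubgroup.mem_closure_singleton] at hmem
    obtain ⟨k, hk⟩ := hmem
    rw [← Int.natCast_dvd_natCast, Int.natCast_natAbs, abs_dvd]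
    exact ⟨k, by rw [← hk, smul_eq_mul, mul_comm]⟩
  have h1 := hgcd _ hdiv
  have haH : a ∈ H := by
    rw [ha]
    exact AddSubgroup.subset_closure rfl
  obtain ⟨n, hn⟩ := haH
  rcases Int.natAbs_eq a with h2 | h2
  · rw [h1] at h2
    refine ⟨n, ?_⟩
    rw [← hn, h2]
    simp
  · rw [h1] at h2
    refine ⟨-n, ?_⟩
    push_cast
    rw [← hn, h2]
    simp

theorem gcd_cos_one (K : ℕ) (hK : 1 ≤ K) (W : Finset ℕ)
    (hgcd : ∀ d : ℕ, (∀ w ∈ W, d ∣ w) → d = 1) : ∃ c : ℝ, 0 < c ∧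
    ∀ ξ : ℝ, 1 / (2 * (K : ℝ)) ≤ |ξ| → |ξ| ≤ 1 / 2 →
      ∃ w ∈ W, |Real.cos (Real.pi * ξ * w)| ≤ 1 - c := by
  have hKr : (1 : ℝ) ≤ K := by exact_mod_cast hK
  set C : Set ℝ := {ξ | 1 / (2 * (K : ℝ)) ≤ |ξ| ∧ |ξ| ≤ 1 / 2} with hC
  have hCc : IsCompact C := by
    have h1 : C = Set.Icc (-(1 / 2 : ℝ)) (1 / 2) ∩ {ξ | 1 / (2 * (K : ℝ)) ≤ |ξ|} := by
      ext ξ
      simp only [hC, Set.mem_inter_iff, Set.mem_Icc]
      constructor
      · rintro ⟨h1, h2⟩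
        exact ⟨abs_le.1 h2, h1⟩
      · rintro ⟨h1, h2⟩
        exact ⟨h2, abs_le.2 h1⟩
    rw [h1]
    exact isCompact_Icc.inter_right (isClosed_le continuous_const continuous_abs)
  have hCne : C.Nonempty := by
    refine ⟨1 / 2, ?_, ?_⟩
    · rw [abs_of_pos (by norm_num)]
      apply one_div_le_one_div_of_le (by norm_num)
      linarith
    · rw [abs_of_pos (by norm_num)]
  have hg : Continuous fun ξ : ℝ => ∑ w ∈ W, (1 - |Real.cos (Real.pi * ξ * w)|) := by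
    apply continuous_finset_sum
    intro w _
    exact continuous_const.sub (continuous_abs.comp (Real.continuous_cos.comp (by fun_prop)))
  obtain ⟨ξ₀, hξ₀, hmin⟩ := hCc.exists_isMinOn hCne hg.continuousOn
  have hnn : ∀ ξ : ℝ, ∀ w ∈ W, 0 ≤ 1 - |Real.cos (Real.pi * ξ * w)| := by
    intro ξ w _
    have := Real.abs_cos_le_one (Real.pi * ξ * w)
    linarith
  have hpos : 0 < ∑ w ∈ W, (1 - |Real.cos (Real.pi * ξ₀ * w)|) := by
    rcases (Finset.sum_nonneg (hnn ξ₀)).lt_or_eq with h | h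
    · exact h
    · exfalso
      have h0 := (Finset.sum_eq_zero_iff_of_nonneg (hnn ξ₀)).1 h.symm
      obtain ⟨n, hn⟩ := int_of_gcd W hgcd ξ₀ (by
        intro w hw
        have h1 := h0 w hw
        have h2 : |Real.cos (Real.pi * ξ₀ * w)| = 1 := by linarith
        have h3 : Real.sin (Real.pi * ξ₀ * w) = 0 := by
          have h4 := Real.sin_sq_add_cos_sq (Real.pi * ξ₀ * w)
          have h5 : Real.cos (Real.pi * ξ₀ * w) ^ 2 = 1 := by
            rw [← sq_abs, h2, one_pow]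
          rw [h5] at h4
          have h6 : Real.sin (Real.pi * ξ₀ * w) ^ 2 = 0 := by linarith
          exact pow_eq_zero_iff (two_ne_zero) |>.1 h6
        obtain ⟨n, hn⟩ := Real.sin_eq_zero_iff.1 h3
        refine ⟨n, ?_⟩
        have h7 : Real.pi * (ξ₀ * w) = Real.pi * n := by
          rw [← mul_assoc, ← hn]
          ring
        exact mul_left_cancel₀ Real.pi_ne_zero h7)
      have hb := hξ₀.1
      have hb2 := hξ₀.2
      rw [hn] at hb hb2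
      have hn0 : n = 0 := by
        have h8 : |(n : ℝ)| < 1 := by linarith
        rw [← Int.cast_abs] at h8
        have h9 : |n| < 1 := by exact_mod_cast h8
        exact Int.abs_lt_one_iff.1 h9
      rw [hn0] at hb
      simp only [Int.cast_zero, abs_zero] at hb
      have : (0 : ℝ) < 1 / (2 * (K : ℝ)) := by positivity
      linarith
  set m := ∑ w ∈ W, (1 - |Real.cos (Real.pi * ξ₀ * w)|) with hm
  have hWp : (0 : ℝ) < W.card + 1 := by positivity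
  refine ⟨m / (W.card + 1), by positivity, ?_⟩
  intro ξ h1 h2
  by_contra hcon
  push Not at hcon
  have h3 : m ≤ ∑ w ∈ W, (1 - |Real.cos (Real.pi * ξ * w)|) := hmin ⟨h1, h2⟩
  have h4 : ∑ w ∈ W, (1 - |Real.cos (Real.pi * ξ * w)|) ≤ W.card • (m / (W.card + 1)) := by
    apply Finset.sum_le_card_nsmul
    intro w hw
    have := hcon w hw
    linarith
  rw [nsmul_eq_mul] at h4
  have h5 : (W.card : ℝ) * (m / (W.card + 1)) < (W.card + 1) * (m / (W.card + 1)) :=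
    mul_lt_mul_of_pos_right (by linarith) (by positivity)
  have h6 : ((W.card : ℝ) + 1) * (m / (W.card + 1)) = m := by field_simp
  linarith

-- TARGET (prove this)
theorem gcd_cos (K : ℕ) (hK : 1 ≤ K) : ∃ c : ℝ, 0 < c ∧ c < 1 ∧ ∀ W : Finset ℕ,
    (∀ w ∈ W, 1 ≤ w ∧ w ≤ K) → (∀ d : ℕ, (∀ w ∈ W, d ∣ w) → d = 1) →
    ∀ ξ : ℝ, 1 / (2 * (K : ℝ)) ≤ |ξ| → |ξ| ≤ 1 / 2 → ∃ w ∈ W, |Real.cos (Real.pi * ξ * w)| ≤ 1 - c := by
  have hex : ∀ W : Finset ℕ, ∃ c : ℝ, 0 < c ∧ ((∀ d : ℕ, (∀ w ∈ W, d ∣ w) → d = 1) →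
      ∀ ξ : ℝ, 1 / (2 * (K : ℝ)) ≤ |ξ| → |ξ| ≤ 1 / 2 →
        ∃ w ∈ W, |Real.cos (Real.pi * ξ * w)| ≤ 1 - c) := by
    intro W
    by_cases hgcd : ∀ d : ℕ, (∀ w ∈ W, d ∣ w) → d = 1
    · obtain ⟨c, hc, h⟩ := gcd_cos_one K hK W hgcd
      exact ⟨c, hc, fun _ => h⟩
    · exact ⟨1, one_pos, fun h => absurd h hgcd⟩
  choose c hc h using hex
  obtain ⟨W₀, hW₀, hmin⟩ := Finset.exists_min_image ((Icc 1 K).powerset) c
    ⟨∅, Finset.empty_mem_powerset _⟩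
  refine ⟨min (1 / 2) (c W₀), lt_min (by norm_num) (hc W₀),
    lt_of_le_of_lt (min_le_left _ _) (by norm_num), ?_⟩
  intro W hW hgcd ξ h1 h2
  obtain ⟨w, hw, hw2⟩ := h W hgcd ξ h1 h2
  refine ⟨w, hw, ?_⟩
  have h3 : c W₀ ≤ c W := hmin W (Finset.mem_powerset.2 fun w hw => Finset.mem_Icc.2 (hW w hw))
  have h4 : min (1 / 2) (c W₀) ≤ c W₀ := min_le_right _ _
  linarith


end JE2
export JE2 (gcd_cos)
end ZA
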