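import Pool.Agent.Helper470.ZA.Defs
set_option autoImplicit false
open Finset
open scoped Classical

namespace ZA
namespace JE6


-- TARGET (prove this)
theorem F_exp (c δ η : ℝ) (hc : 0 < c) (hc1 : c < 1) (hδ : 0 < δ) (hη : 0 < η) : ∃ N0 : ℕ, ∀ n : ℕ, N0 ≤ n →
    (1 - c) ^ (⌈δ * (n : ℝ)⌉₊) ≤ η / √(n : ℝ) := by
  obtain ⟨N0, hN0⟩ := exists_nat_ge ((1 / (c * δ * η)) ^ 2)
  refine ⟨N0 + 1, fun n hn => ?_⟩
  have hn1 : 1 ≤ n := by omega
  have hnR : (1:ℝ) ≤ n := by exact_mod_cast hn1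
  have hn0 : (0:ℝ) < n := by linarith
  have hsq : 0 < √(n:ℝ) := Real.sqrt_pos.2 hn0
  have h1 : 1 / (c * δ * η) ≤ √(n:ℝ) := by
    apply Real.le_sqrt_of_sq_le
    have : (N0:ℝ) ≤ n := by exact_mod_cast (by omega : N0 ≤ n)
    linarith
  have hm : δ * n ≤ (⌈δ * (n : ℝ)⌉₊ : ℝ) := Nat.le_ceil _
  set m := ⌈δ * (n : ℝ)⌉₊ with hmdef
  have h2 : (1 - c) ^ m ≤ Real.exp (-(c * m)) := by
    have h3 : 1 - c ≤ Real.exp (-c) := by
      have := Real.add_one_le_exp (-c)
      linarith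
    calc (1 - c) ^ m ≤ (Real.exp (-c)) ^ m := pow_le_pow_left₀ (by linarith) h3 m
      _ = Real.exp (-(c * m)) := by
          rw [← Real.exp_nat_mul]
          congr 1
          ring
  have h4 : Real.exp (-(c * m)) ≤ 1 / (c * δ * n) := by
    rw [Real.exp_neg, ← one_div]
    apply one_div_le_one_div_of_le (by positivity)
    have h5 := Real.add_one_le_exp (c * (m:ℝ))
    have h6 : c * (δ * n) ≤ c * m := mul_le_mul_of_nonneg_left hm hc.le
    linarith
  refine h2.trans (h4.trans ?_)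
  rw [div_le_div_iff₀ (by positivity) hsq]
  rw [div_le_iff₀ (by positivity)] at h1
  have h7 : √(n:ℝ) * √(n:ℝ) = n := Real.mul_self_sqrt hn0.le
  calc 1 * √(n:ℝ) ≤ (√(n:ℝ) * (c * δ * η)) * √(n:ℝ) := mul_le_mul_of_nonneg_right h1 hsq.le
    _ = η * (c * δ * (√(n:ℝ) * √(n:ℝ))) := by ring
    _ = η * (c * δ * n) := by rw [h7]

-- TARGET (prove this)
theorem c39 (N : ℝ) (hN : 0 < N) : 1 / √N ≤ (4 / 3) * √(2 / (Real.pi * N)) := by
  have hpi := Real.pi_pos
  have hpi2 := Real.pi_lt_d2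
  have e1 : (4 / 3 : ℝ) * √(2 / (Real.pi * N)) = √((4 / 3) ^ 2 * (2 / (Real.pi * N))) := by
    rw [Real.sqrt_mul (by positivity), Real.sqrt_sq (by norm_num)]
  have e2 : 1 / √N = √(1 / N) := by rw [Real.sqrt_div (by norm_num), Real.sqrt_one]
  rw [e1, e2]
  apply Real.sqrt_le_sqrt
  have e3 : (4 / 3 : ℝ) ^ 2 * (2 / (Real.pi * N)) = 32 / (9 * (Real.pi * N)) := by
    field_simp
    norm_num
  rw [e3, div_le_div_iff₀ hN (by positivity)]
  nlinarith

-- TARGET (prove this)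
theorem core12 (d η V N : ℝ) (hd : 2 ≤ d) (hη : 0 < η) (hη1 : η ≤ 1) (hN : 0 < N)
    (hV : (d - η) * N ≤ V) :
    √(2 / (Real.pi * V)) ≤ (1 / √d + η / 2) * √(2 / (Real.pi * N)) := by
  have hpi := Real.pi_pos
  have hdη : 1 ≤ d - η := by linarith
  have hV0 : 0 < (d - η) * N := by positivity
  have hV1 : 0 < V := hV0.trans_le hV
  have h1 : √(2 / (Real.pi * V)) ≤ (1 / √(d - η)) * √(2 / (Real.pi * N)) := by
    have e1 : (1 / √(d - η)) * √(2 / (Real.pi * N)) = √((1 / (d - η)) * (2 / (Real.pi * N))) := by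
      rw [Real.sqrt_mul (by positivity), Real.sqrt_div (by norm_num) (d - η), Real.sqrt_one]
    rw [e1]
    apply Real.sqrt_le_sqrt
    have e2 : (1 / (d - η)) * (2 / (Real.pi * N)) = 2 / (Real.pi * ((d - η) * N)) := by
      field_simp
    rw [e2]
    apply div_le_div_of_nonneg_left (by norm_num) (by positivity)
    exact mul_le_mul_of_nonneg_left hV hpi.le
  refine h1.trans (mul_le_mul_of_nonneg_right ?_ (Real.sqrt_nonneg _))
  obtain ⟨x, hx⟩ : ∃ x, x = √d := ⟨_, rfl⟩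
  obtain ⟨y, hy⟩ : ∃ y, y = √(d - η) := ⟨_, rfl⟩
  rw [← hx, ← hy]
  have hx2 : x ^ 2 = d := by rw [hx]; exact Real.sq_sqrt (by linarith)
  have hy2 : y ^ 2 = d - η := by rw [hy]; exact Real.sq_sqrt (by linarith)
  have hx0 : 0 ≤ x := by rw [hx]; exact Real.sqrt_nonneg _
  have hy0 : 0 ≤ y := by rw [hy]; exact Real.sqrt_nonneg _
  have hx1 : 1.4 ≤ x := by
    rw [hx]
    apply Real.le_sqrt_of_sq_le
    norm_num
    linarith
  have hy1 : 1 ≤ y := by
    rw [hy]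
    apply Real.le_sqrt_of_sq_le
    linarith
  have hxy : (x - y) * (x + y) = η := by nlinarith
  have hxy0 : 0 ≤ x - y := by
    by_contra hcon
    push Not at hcon
    nlinarith
  have h3 : 2 * (x - y) ≤ η * (x * y) := by
    rw [← hxy]
    have h4 : 2 ≤ (x + y) * (x * y) := by
      have h5 : 1.4 ≤ x * y := by nlinarith
      nlinarith
    nlinarith
  have hxp : 0 < x := by linarith
  have hyp : 0 < y := by linarith
  have e3 : 1 / y = 1 / x + (x - y) / (x * y) := by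
    field_simp
    ring
  rw [e3]
  have h6 : (x - y) / (x * y) ≤ η / 2 := by
    rw [div_le_div_iff₀ (by positivity) (by norm_num)]
    linarith
  linarith


end JE6
export JE6 (F_exp c39 core12)
end ZA
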