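import Pool.Agent.Helper470.ZA.Defs
set_option autoImplicit false
open Finset
open scoped Classical

namespace ZA
namespace JE3


-- TARGET (prove this)
theorem pri_int_exp (N : ℤ) : ∫ ξ in (-(1/2) : ℝ)..(1/2),
    Complex.exp ((N:ℂ) * (2 * Real.pi * Complex.I) * ξ) = if N = 0 then 1 else 0 := by
  by_cases h : N = 0
  · rw [if_pos h, h]
    simp
    norm_num
  · rw [if_neg h]
    have hc : (N:ℂ) * (2 * Real.pi * Complex.I) ≠ 0 := by
      have h1 : (N:ℂ) ≠ 0 := by exact_mod_cast h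
      have h2 : (Real.pi : ℂ) ≠ 0 := by exact_mod_cast Real.pi_ne_zero
      exact mul_ne_zero h1 (mul_ne_zero (mul_ne_zero two_ne_zero h2) Complex.I_ne_zero)
    rw [integral_exp_mul_complex hc]
    have e1 : (N:ℂ) * (2 * Real.pi * Complex.I) * (((1/2 : ℝ)) : ℂ) =
        (N:ℂ) * (2 * Real.pi * Complex.I) * ((-(1/2) : ℝ) : ℂ) +
          (N:ℂ) * (2 * Real.pi * Complex.I) := by
      push_cast
      ring
    rw [e1, Complex.exp_add, Complex.exp_int_mul_two_pi_mul_I, mul_one, sub_self, zero_div]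

theorem pri_norm (x : ℝ) : ‖1 + Complex.exp ((x:ℂ) * (2 * Real.pi * Complex.I))‖ =
    2 * |Real.cos (Real.pi * x)| := by
  have h1 : 1 + Complex.exp ((x:ℂ) * (2 * Real.pi * Complex.I)) =
      Complex.exp (((Real.pi * x : ℝ) : ℂ) * Complex.I) *
        (2 * ((Real.cos (Real.pi * x) : ℝ) : ℂ)) := by
    rw [Complex.ofReal_cos, Complex.cos]
    have h2 : Complex.exp (((Real.pi * x : ℝ) : ℂ) * Complex.I) *
        Complex.exp (-((Real.pi * x : ℝ) : ℂ) * Complex.I) = 1 := by
      rw [← Complex.exp_add]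
      have : ((Real.pi * x : ℝ) : ℂ) * Complex.I + -((Real.pi * x : ℝ) : ℂ) * Complex.I = 0 := by
        ring
      rw [this, Complex.exp_zero]
    have h3 : Complex.exp (((Real.pi * x : ℝ) : ℂ) * Complex.I) *
        Complex.exp (((Real.pi * x : ℝ) : ℂ) * Complex.I) =
        Complex.exp ((x:ℂ) * (2 * Real.pi * Complex.I)) := by
      rw [← Complex.exp_add]
      congr 1
      push_cast
      ring
    linear_combination -h2 - h3
  rw [h1, norm_mul, Complex.norm_exp_ofReal_mul_I, one_mul, norm_mul, Complex.norm_real,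
    Real.norm_eq_abs, Complex.norm_ofNat]

theorem pr_le_integral {ι : Type} (s : Finset ι) (k : ι → ℤ) (t : ℝ) :
    pr s (fun i => (k i : ℝ)) t ≤ ∫ ξ in (-(1/2) : ℝ)..(1/2), ∏ i ∈ s, |Real.cos (Real.pi * ξ * k i)| := by
  have hnn : 0 ≤ ∫ ξ in (-(1/2) : ℝ)..(1/2), ∏ i ∈ s, |Real.cos (Real.pi * ξ * k i)| :=
    intervalIntegral.integral_nonneg (by norm_num)
      (fun u _ => Finset.prod_nonneg fun i _ => abs_nonneg _)
  by_cases ht : ∃ m : ℤ, (m : ℝ) = t
  · obtain ⟨m, rfl⟩ := ht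
    have h1 : ((cnt s (fun i => (k i : ℝ)) (m:ℝ) : ℕ) : ℂ) =
        ∫ ξ in (-(1/2) : ℝ)..(1/2), ∑ B ∈ s.powerset,
          Complex.exp ((((∑ i ∈ B, k i) - m : ℤ) : ℂ) * (2 * Real.pi * Complex.I) * ξ) := by
      rw [intervalIntegral.integral_finset_sum]
      · unfold cnt
        rw [Finset.natCast_card_filter]
        refine Finset.sum_congr rfl fun B _ => ?_
        rw [pri_int_exp]
        have h2 : ((∑ i ∈ B, (k i : ℝ)) = (m:ℝ)) ↔ ((∑ i ∈ B, k i) - m = 0) := by
          rw [sub_eq_zero]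
          exact_mod_cast Iff.rfl
        by_cases h3 : (∑ i ∈ B, k i) - m = 0
        · rw [if_pos h3, if_pos (h2.2 h3)]
        · rw [if_neg h3, if_neg (fun h => h3 (h2.1 h))]
      · intro B _
        apply Continuous.intervalIntegrable
        fun_prop
    have h2 : ∀ ξ : ℝ, ∑ B ∈ s.powerset,
          Complex.exp ((((∑ i ∈ B, k i) - m : ℤ) : ℂ) * (2 * Real.pi * Complex.I) * ξ) =
        Complex.exp (((-(2 * Real.pi * m * ξ) : ℝ) : ℂ) * Complex.I) *
          ∏ i ∈ s, (1 + Complex.exp (((ξ * k i : ℝ) : ℂ) * (2 * Real.pi * Complex.I))) := by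
      intro ξ
      rw [Finset.prod_one_add, Finset.mul_sum]
      refine Finset.sum_congr rfl fun B _ => ?_
      rw [← Complex.exp_sum, ← Complex.exp_add]
      congr 1
      push_cast
      rw [← Finset.sum_mul, ← Finset.mul_sum]
      ring
    have h3 : (cnt s (fun i => (k i : ℝ)) (m:ℝ) : ℝ) ≤
        ∫ ξ in (-(1/2) : ℝ)..(1/2), 2 ^ s.card * ∏ i ∈ s, |Real.cos (Real.pi * ξ * k i)| := by
      have h4 : (cnt s (fun i => (k i : ℝ)) (m:ℝ) : ℝ) =
          ‖((cnt s (fun i => (k i : ℝ)) (m:ℝ) : ℕ) : ℂ)‖ := by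
        rw [Complex.norm_natCast]
      rw [h4, h1]
      refine (intervalIntegral.norm_integral_le_integral_norm (by norm_num)).trans ?_
      refine le_of_eq (intervalIntegral.integral_congr fun ξ _ => ?_)
      show ‖∑ B ∈ s.powerset,
          Complex.exp ((((∑ i ∈ B, k i) - m : ℤ) : ℂ) * (2 * Real.pi * Complex.I) * ξ)‖ =
          2 ^ s.card * ∏ i ∈ s, |Real.cos (Real.pi * ξ * k i)|
      rw [h2, norm_mul, Complex.norm_exp_ofReal_mul_I, one_mul, norm_prod, ← Finset.prod_const,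
        ← Finset.prod_mul_distrib]
      refine Finset.prod_congr rfl fun i _ => ?_
      rw [pri_norm, mul_assoc]
    rw [intervalIntegral.integral_const_mul] at h3
    unfold pr
    rw [div_le_iff₀ (by positivity)]
    linarith
  · have h0 : cnt s (fun i => (k i : ℝ)) t = 0 := by
      unfold cnt
      rw [Finset.card_eq_zero, Finset.filter_eq_empty_iff]
      intro B _ hB
      exact ht ⟨∑ i ∈ B, k i, by rw [← hB]; push_cast; rfl⟩
    unfold pr
    rw [h0, Nat.cast_zero, zero_div]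
    exact hnn


end JE3
export JE3 (pr_le_integral)
end ZA
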