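import Pool.Agent.Helper470.ZA.Defs
set_option autoImplicit false
open Finset
open scoped Classical

namespace ZA
namespace JE4


-- TARGET (prove this)
theorem cos_le_exp (x : ℝ) (hx : |x| ≤ Real.pi / 2) : |Real.cos x| ≤ Real.exp (-(x ^ 2) / 2) := by
  have key : ∀ y : ℝ, 0 ≤ y → y ≤ Real.pi / 2 → Real.cos y ≤ Real.exp (-(y ^ 2) / 2) := by
    intro y hy0 hy1
    have hanti : AntitoneOn (fun x : ℝ => Real.cos x * Real.exp (x ^ 2 / 2)) (Set.Icc 0 (Real.pi / 2)) := by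
      have hder : ∀ x : ℝ, HasDerivAt (fun x : ℝ => Real.cos x * Real.exp (x ^ 2 / 2))
          (-Real.sin x * Real.exp (x ^ 2 / 2) + Real.cos x * (Real.exp (x ^ 2 / 2) * x)) x := by
        intro x
        have h1 : HasDerivAt (fun x : ℝ => x ^ 2 / 2) x x := by
          have := (hasDerivAt_pow 2 x).div_const 2
          refine this.congr_deriv ?_
          norm_num
        exact (Real.hasDerivAt_cos x).mul h1.exp
      apply antitoneOn_of_deriv_nonpos (convex_Icc _ _)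
      · exact fun x _ => (hder x).continuousAt.continuousWithinAt
      · exact fun x _ => (hder x).differentiableAt.differentiableWithinAt
      · intro x hx
        rw [interior_Icc] at hx
        rw [(hder x).deriv]
        have hcos : 0 < Real.cos x := Real.cos_pos_of_mem_Ioo ⟨by linarith [hx.1, Real.pi_pos], hx.2⟩
        have h2 := Real.lt_tan hx.1 hx.2
        rw [Real.tan_eq_sin_div_cos, lt_div_iff₀ hcos] at h2
        have h3 := Real.exp_pos (x ^ 2 / 2)
        nlinarith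
    have h := hanti ⟨le_rfl, by positivity⟩ ⟨hy0, hy1⟩ hy0
    simp only [Real.cos_zero] at h
    norm_num at h
    have h4 : Real.exp (-(y ^ 2) / 2) * Real.exp (y ^ 2 / 2) = 1 := by
      rw [← Real.exp_add]
      have : -(y ^ 2) / 2 + y ^ 2 / 2 = 0 := by ring
      rw [this, Real.exp_zero]
    have h5 := Real.exp_pos (y ^ 2 / 2)
    by_contra hcon
    push Not at hcon
    have := mul_lt_mul_of_pos_right hcon h5
    linarith
  have h1 := key |x| (abs_nonneg x) hx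
  rw [Real.cos_abs, sq_abs] at h1
  have h2 : 0 ≤ Real.cos x := by
    apply Real.cos_nonneg_of_mem_Icc
    exact ⟨by linarith [(abs_le.1 hx).1], (abs_le.1 hx).2⟩
  rwa [abs_of_nonneg h2]

-- TARGET (prove this)
theorem F_prod {ι : Type} (s S : Finset ι) (hS : S ⊆ s) (k : ι → ℤ) (K : ℕ) (hK : 1 ≤ K)
    (hk : ∀ i ∈ S, k i ≠ 0 ∧ |k i| ≤ (K : ℤ)) (a : ℝ) (hs : ∀ i ∈ s, i ∉ S → |(k i : ℝ)| * (2 * a) ≤ 1)
    (ha : (K : ℝ) * (2 * a) ≤ 1) (ξ : ℝ) :
    (|ξ| ≤ a → ∏ i ∈ s, |Real.cos (Real.pi * ξ * k i)|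
        ≤ Real.exp (-(Real.pi ^ 2 * ξ ^ 2 * (∑ i ∈ s, (k i : ℝ) ^ 2) / 2))) ∧
    (|ξ| ≤ 1 / (2 * (K : ℝ)) → ∏ i ∈ s, |Real.cos (Real.pi * ξ * k i)|
        ≤ Real.exp (-(Real.pi ^ 2 * ξ ^ 2 * (S.card : ℝ) / 2))) := by
  have hπ := Real.pi_pos
  have hK' : (1 : ℝ) ≤ K := by exact_mod_cast hK
  have hkS : ∀ i ∈ S, |(k i : ℝ)| ≤ K ∧ (1 : ℝ) ≤ (k i : ℝ) ^ 2 := by
    intro i hi
    obtain ⟨h1, h2⟩ := hk i hi
    constructor
    · exact_mod_cast h2
    · have h3 : (1 : ℤ) ≤ (k i) ^ 2 := by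
        have := sq_pos_of_ne_zero h1
        linarith
      exact_mod_cast h3
  constructor
  · intro hξ
    have ha0 : 0 ≤ a := le_trans (abs_nonneg _) hξ
    have hi : ∀ i ∈ s, |Real.cos (Real.pi * ξ * k i)| ≤ Real.exp (-((Real.pi * ξ * k i) ^ 2) / 2) := by
      intro i hi
      apply cos_le_exp
      have h1 : |(k i : ℝ)| * (2 * a) ≤ 1 := by
        by_cases hiS : i ∈ S
        · have := (hkS i hiS).1
          nlinarith
        · exact hs i hi hiS
      rw [abs_mul, abs_mul, abs_of_pos hπ]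
      have h2 : |ξ| * |(k i : ℝ)| ≤ a * |(k i : ℝ)| := mul_le_mul_of_nonneg_right hξ (abs_nonneg _)
      nlinarith
    refine (Finset.prod_le_prod (fun i _ => abs_nonneg _) hi).trans (le_of_eq ?_)
    rw [← Real.exp_sum]
    congr 1
    rw [Finset.mul_sum, Finset.sum_div, ← Finset.sum_neg_distrib]
    refine Finset.sum_congr rfl fun i _ => ?_
    ring
  · intro hξ
    have h1 : ∏ i ∈ s, |Real.cos (Real.pi * ξ * k i)| ≤ ∏ i ∈ S, |Real.cos (Real.pi * ξ * k i)| := by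
      rw [← Finset.prod_sdiff hS]
      have h2 : ∏ i ∈ s \ S, |Real.cos (Real.pi * ξ * k i)| ≤ 1 :=
        Finset.prod_le_one (fun i _ => abs_nonneg _) (fun i _ => Real.abs_cos_le_one _)
      have h3 : 0 ≤ ∏ i ∈ S, |Real.cos (Real.pi * ξ * k i)| := Finset.prod_nonneg fun i _ => abs_nonneg _
      nlinarith
    refine h1.trans ?_
    have hi : ∀ i ∈ S, |Real.cos (Real.pi * ξ * k i)| ≤ Real.exp (-(Real.pi ^ 2 * ξ ^ 2) / 2) := by
      intro i hi
      obtain ⟨h4, h5⟩ := hkS i hi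
      refine (cos_le_exp _ ?_).trans (Real.exp_le_exp.2 ?_)
      · rw [abs_mul, abs_mul, abs_of_pos hπ]
        have h6 : |ξ| * |(k i : ℝ)| ≤ 1 / (2 * (K : ℝ)) * K :=
          mul_le_mul hξ h4 (abs_nonneg _) (by positivity)
        have h7 : 1 / (2 * (K : ℝ)) * K = 1 / 2 := by field_simp
        nlinarith
      · have h8 : Real.pi ^ 2 * ξ ^ 2 * 1 ≤ Real.pi ^ 2 * ξ ^ 2 * (k i : ℝ) ^ 2 :=
          mul_le_mul_of_nonneg_left h5 (by positivity)
        nlinarith
    refine (Finset.prod_le_prod (fun i _ => abs_nonneg _) hi).trans (le_of_eq ?_)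
    rw [Finset.prod_const, ← Real.exp_nat_mul]
    congr 1
    ring


end JE4
export JE4 (cos_le_exp F_prod)
end ZA
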