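import Pool.Agent.Helper470.ZA.Defs
set_option autoImplicit false
open Finset
open scoped Classical

namespace ZA
namespace JE5


-- TARGET (prove this)
theorem F_reg2 (η : ℝ) (hη : 0 < η) : ∃ A : ℝ, 1 ≤ A ∧ ∀ (n : ℕ), 1 ≤ n → ∀ b : ℝ, A / (2 * √(n : ℝ)) ≤ b →
    ∫ ξ in (A / (2 * √(n : ℝ)))..b, Real.exp (-(Real.pi ^ 2 * ξ ^ 2 * n / 4)) ≤ η / √(n : ℝ) := by
  refine ⟨max 1 (1 / η), le_max_left _ _, ?_⟩
  intro n hn b hb
  obtain ⟨A, hA⟩ : ∃ A, A = max 1 (1 / η) := ⟨_, rfl⟩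
  have hA1 : 1 ≤ A := hA ▸ le_max_left _ _
  have hA2 : 1 / η ≤ A := hA ▸ le_max_right _ _
  rw [← hA] at hb ⊢
  obtain ⟨r, hr⟩ : ∃ r, r = √(n : ℝ) := ⟨_, rfl⟩
  have hn1 : (1 : ℝ) ≤ n := Nat.one_le_cast.2 hn
  have hr0 : 0 < r := by rw [hr]; exact Real.sqrt_pos.2 (by linarith)
  have hrr : (n : ℝ) = r ^ 2 := by rw [hr, Real.sq_sqrt (by linarith)]
  rw [← hr] at hb ⊢
  rw [hrr]
  obtain ⟨x0, hx0⟩ : ∃ x0, x0 = A / (2 * r) := ⟨_, rfl⟩
  have hx0p : 0 < x0 := by rw [hx0]; positivity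
  rw [← hx0] at hb ⊢
  have hπ : 3 < Real.pi := Real.pi_gt_three
  obtain ⟨β, hβ⟩ : ∃ β, β = Real.pi ^ 2 * x0 * r ^ 2 / 4 := ⟨_, rfl⟩
  have hβp : 0 < β := by rw [hβ]; positivity
  have hmono : ∫ ξ in x0..b, Real.exp (-(Real.pi ^ 2 * ξ ^ 2 * r ^ 2 / 4)) ≤
      ∫ ξ in x0..b, Real.exp (-(β * ξ)) := by
    refine intervalIntegral.integral_mono_on hb ?_ ?_ ?_
    · exact (Continuous.intervalIntegrable (by fun_prop) _ _)
    · exact (Continuous.intervalIntegrable (by fun_prop) _ _)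
    · intro ξ hξ
      apply Real.exp_le_exp.2
      rw [hβ]
      have h1 : x0 * ξ ≤ ξ * ξ := mul_le_mul_of_nonneg_right hξ.1 (hx0p.le.trans hξ.1)
      have h2 : 0 ≤ Real.pi ^ 2 * r ^ 2 / 4 := by positivity
      nlinarith [mul_le_mul_of_nonneg_left h1 h2]
  have hint : ∫ ξ in x0..b, Real.exp (-(β * ξ)) =
      (-(Real.exp (-(β * b)) / β)) - (-(Real.exp (-(β * x0)) / β)) := by
    refine intervalIntegral.integral_eq_sub_of_hasDerivAt
      (f := fun ξ => -(Real.exp (-(β * ξ)) / β)) ?_ ?_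
    · intro ξ _
      have h1 : HasDerivAt (fun ξ : ℝ => -(β * ξ)) (-(β * 1)) ξ :=
        ((hasDerivAt_id ξ).const_mul β).neg
      have h2 : HasDerivAt (fun ξ : ℝ => -(Real.exp (-(β * ξ)) / β))
          (-(Real.exp (-(β * ξ)) * -(β * 1) / β)) ξ := ((h1.exp).div_const β).neg
      have h3 : -(Real.exp (-(β * ξ)) * -(β * 1) / β) = Real.exp (-(β * ξ)) := by
        field_simp
      rw [h3] at h2
      exact h2
    · exact (Continuous.intervalIntegrable (by fun_prop) _ _)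
  rw [hint] at hmono
  refine hmono.trans ?_
  have h3 : 0 ≤ Real.exp (-(β * b)) / β := by positivity
  have h4 : Real.exp (-(β * x0)) / β ≤ 1 / β := by
    apply div_le_div_of_nonneg_right _ hβp.le
    exact Real.exp_le_one_iff.2 (by nlinarith [mul_pos hβp hx0p])
  have h5 : 1 / β ≤ η / r := by
    rw [div_le_div_iff₀ hβp hr0, hβ, hx0]
    have h6 : 1 ≤ η * A := by
      rw [div_le_iff₀ hη] at hA2
      linarith
    have h7 : η * (Real.pi ^ 2 * (A / (2 * r)) * r ^ 2 / 4) = (η * A) * (Real.pi ^ 2 / 8) * r := by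
      field_simp
      ring
    rw [h7, one_mul]
    have h8 : 1 ≤ Real.pi ^ 2 / 8 := by nlinarith
    have h9 : 1 ≤ (η * A) * (Real.pi ^ 2 / 8) := by nlinarith
    nlinarith
  linarith

-- TARGET (prove this)
theorem F_reg1 (V a : ℝ) (hV : 0 < V) (ha : 0 ≤ a) :
    ∫ ξ in (-a)..a, Real.exp (-(Real.pi ^ 2 * ξ ^ 2 * V / 2)) ≤ √(2 / (Real.pi * V)) := by
  have hπ : 0 < Real.pi := Real.pi_pos
  have hb : 0 < Real.pi ^ 2 * V / 2 := by positivity
  have h1 := integral_gaussian (Real.pi ^ 2 * V / 2)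
  have h2 := integrable_exp_neg_mul_sq hb
  have e1 : ∀ ξ : ℝ, Real.exp (-(Real.pi ^ 2 * ξ ^ 2 * V / 2)) =
      Real.exp (-(Real.pi ^ 2 * V / 2) * ξ ^ 2) := by
    intro ξ
    congr 1
    ring
  have e2 : Real.pi / (Real.pi ^ 2 * V / 2) = 2 / (Real.pi * V) := by
    field_simp
  rw [e2] at h1
  rw [intervalIntegral.integral_of_le (by linarith), ← h1]
  simp only [e1]
  exact MeasureTheory.setIntegral_le_integral h2
    (Filter.Eventually.of_forall fun x => (Real.exp_pos _).le)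


end JE5
export JE5 (F_reg2 F_reg1)
end ZA
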