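import Pool.Agent.Helper470.ZA.Defs
import Pool.Agent.Helper470.ZA.E2
import Pool.Agent.Helper470.ZA.E3
import Pool.Agent.Helper470.ZA.E4
import Pool.Agent.Helper470.ZA.E5
import Pool.Agent.Helper470.ZA.E6
set_option autoImplicit false
open Finset
open scoped Classical

namespace ZA
namespace JE7















theorem lemmaF_cont {ι : Type} (s : Finset ι) (k : ι → ℤ) :
    Continuous fun ξ : ℝ => ∏ i ∈ s, |Real.cos (Real.pi * ξ * k i)| := by
  refine continuous_finsetProd _ fun i _ => ?_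
  fun_prop

theorem lemmaF_even {ι : Type} (s : Finset ι) (k : ι → ℤ) (ξ : ℝ) :
    ∏ i ∈ s, |Real.cos (Real.pi * (-ξ) * k i)| = ∏ i ∈ s, |Real.cos (Real.pi * ξ * k i)| := by
  refine Finset.prod_congr rfl fun i _ => ?_
  rw [show Real.pi * (-ξ) * (k i : ℝ) = -(Real.pi * ξ * k i) by ring, Real.cos_neg]

theorem lemmaF_abs (ξ : ℝ) (k : ℤ) (w : ℕ) (h : k.natAbs = w) :
    |Real.cos (Real.pi * ξ * k)| = |Real.cos (Real.pi * ξ * w)| := by
  rcases Int.natAbs_eq k with h1 | h1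
  · rw [h] at h1
    rw [h1, Int.cast_natCast]
  · rw [h] at h1
    rw [h1, Int.cast_neg, Int.cast_natCast, mul_neg, Real.cos_neg]

theorem lemmaF_far {ι : Type} (s S : Finset ι) (hS : S ⊆ s) (k : ι → ℤ) (K : ℕ) (c : ℝ)
    (hc : 0 < c) (hc1 : c < 1)
    (hg : ∀ W : Finset ℕ, (∀ w ∈ W, 1 ≤ w ∧ w ≤ K) → (∀ d : ℕ, (∀ w ∈ W, d ∣ w) → d = 1) →
      ∀ ξ : ℝ, 1 / (2 * (K : ℝ)) ≤ |ξ| → |ξ| ≤ 1 / 2 →
        ∃ w ∈ W, |Real.cos (Real.pi * ξ * w)| ≤ 1 - c)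
    (hk : ∀ i ∈ S, k i ≠ 0 ∧ |k i| ≤ (K : ℤ)) (m : ℕ)
    (hm : ∀ i ∈ S, m ≤ (S.filter (fun j => |k j| = |k i|)).card)
    (hgcd : ∀ d : ℕ, (∀ i ∈ S, (d : ℤ) ∣ k i) → d = 1) (ξ : ℝ)
    (h1 : 1 / (2 * (K : ℝ)) ≤ |ξ|) (h2 : |ξ| ≤ 1 / 2) :
    ∏ i ∈ s, |Real.cos (Real.pi * ξ * k i)| ≤ (1 - c) ^ m := by
  obtain ⟨w, hw, hwc⟩ := hg (S.image fun i => (k i).natAbs) (by
    intro w hw
    obtain ⟨i, hi, rfl⟩ := Finset.mem_image.1 hw
    obtain ⟨h3, h4⟩ := hk i hi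
    rw [Int.abs_eq_natAbs] at h4
    have h5 : (k i).natAbs ≠ 0 := Int.natAbs_ne_zero.2 h3
    exact ⟨Nat.one_le_iff_ne_zero.2 h5, by exact_mod_cast h4⟩) (by
    intro d hd
    refine hgcd d fun i hi => ?_
    rw [Int.natCast_dvd]
    exact hd _ (Finset.mem_image_of_mem _ hi)) ξ h1 h2
  obtain ⟨i, hi, rfl⟩ := Finset.mem_image.1 hw
  set T := S.filter (fun j => |k j| = |k i|) with hT
  have hTs : T ⊆ s := (Finset.filter_subset _ _).trans hS
  have hle1 : ∀ j, |Real.cos (Real.pi * ξ * k j)| ≤ 1 := fun j => Real.abs_cos_le_one _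
  have hTc : ∏ j ∈ T, |Real.cos (Real.pi * ξ * k j)| ≤ (1 - c) ^ T.card := by
    rw [← Finset.prod_const]
    refine Finset.prod_le_prod (fun j _ => abs_nonneg _) fun j hj => ?_
    have h6 := (Finset.mem_filter.1 hj).2
    have h7 : (k j).natAbs = (k i).natAbs := by
      rw [Int.abs_eq_natAbs, Int.abs_eq_natAbs] at h6
      exact_mod_cast h6
    rw [lemmaF_abs ξ (k j) _ h7]
    exact hwc
  have hsd : ∏ j ∈ s, |Real.cos (Real.pi * ξ * k j)| =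
      (∏ j ∈ s \ T, |Real.cos (Real.pi * ξ * k j)|) * ∏ j ∈ T, |Real.cos (Real.pi * ξ * k j)| :=
    (Finset.prod_sdiff hTs).symm
  have h8 : ∏ j ∈ s \ T, |Real.cos (Real.pi * ξ * k j)| ≤ 1 :=
    Finset.prod_le_one (fun j _ => abs_nonneg _) fun j _ => hle1 j
  have h9 : 0 ≤ ∏ j ∈ T, |Real.cos (Real.pi * ξ * k j)| :=
    Finset.prod_nonneg fun j _ => abs_nonneg _
  calc ∏ j ∈ s, |Real.cos (Real.pi * ξ * k j)|
      ≤ 1 * ∏ j ∈ T, |Real.cos (Real.pi * ξ * k j)| := by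
        rw [hsd]
        exact mul_le_mul_of_nonneg_right h8 h9
    _ ≤ (1 - c) ^ T.card := by rw [one_mul]; exact hTc
    _ ≤ (1 - c) ^ m := pow_le_pow_of_le_one (by linarith) (by linarith) (hm i hi)

-- TARGET (prove this)
theorem lemmaF (η : ℝ) (hη : 0 < η) : ∃ A : ℝ, 1 ≤ A ∧ ∀ (K : ℕ) (δ : ℝ), 1 ≤ K → 0 < δ → ∃ N0 : ℕ,
    ∀ {ι : Type} (n : ℕ) (s S : Finset ι) (k : ι → ℤ), N0 ≤ n → S ⊆ s → (n : ℝ) / 2 ≤ (S.card : ℝ) →
    (∀ i ∈ S, k i ≠ 0 ∧ |k i| ≤ (K : ℤ)) →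
    (∀ i ∈ S, δ * n ≤ ((S.filter (fun j => |k j| = |k i|)).card : ℝ)) →
    (∀ d : ℕ, (∀ i ∈ S, (d : ℤ) ∣ k i) → d = 1) →
    (∀ i ∈ s, i ∉ S → |(k i : ℝ)| ≤ √(n : ℝ) / A) →
    ∀ t : ℝ, pr s (fun i => (k i : ℝ)) t
      ≤ √(2 / (Real.pi * ∑ i ∈ s, (k i : ℝ) ^ 2)) + η / √(n : ℝ) := by
  obtain ⟨A, hA1, hA⟩ := F_reg2 (η / 4) (by positivity)
  refine ⟨A, hA1, ?_⟩
  intro K δ hK hδ
  obtain ⟨c, hc, hc1, hg⟩ := gcd_cos K hK
  obtain ⟨N1, hN1⟩ := F_exp c δ (η / 2) hc hc1 hδ (by positivity)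
  refine ⟨max N1 (max 1 ⌈(A * K) ^ 2⌉₊), ?_⟩
  intro ι n s S k hn hS hSc hk hmult hgcd hsmall t
  have hnN1 : N1 ≤ n := (le_max_left _ _).trans hn
  have hn1 : 1 ≤ n := ((le_max_left _ _).trans (le_max_right _ _)).trans hn
  have hnA : (A * K) ^ 2 ≤ (n : ℝ) := by
    have h1 : ⌈(A * K) ^ 2⌉₊ ≤ n := ((le_max_right _ _).trans (le_max_right _ _)).trans hn
    exact (Nat.le_ceil _).trans (by exact_mod_cast h1)
  have hK0 : (0 : ℝ) < K := by exact_mod_cast (by omega : 0 < K)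
  have hn0 : (0 : ℝ) < n := by exact_mod_cast (by omega : 0 < n)
  have hA0 : 0 < A := by linarith
  have hsq : 0 < √(n : ℝ) := Real.sqrt_pos.2 hn0
  have hAK : A * K ≤ √(n : ℝ) := Real.le_sqrt_of_sq_le hnA
  set a : ℝ := A / (2 * √(n : ℝ)) with ha
  set b : ℝ := 1 / (2 * (K : ℝ)) with hb
  have ha0 : 0 < a := by positivity
  have hb0 : 0 < b := by positivity
  have hab : a ≤ b := by
    rw [ha, hb, div_le_div_iff₀ (by positivity) (by positivity)]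
    linarith
  have hb2 : b ≤ 1 / 2 := by
    rw [hb]
    apply one_div_le_one_div_of_le (by norm_num)
    have : (1 : ℝ) ≤ K := by exact_mod_cast hK
    linarith
  have h2a : 2 * a = A / √(n : ℝ) := by
    rw [ha]
    field_simp
  have hSpos : 0 < S.card := by
    have h1 : (0 : ℝ) < S.card := by linarith
    exact_mod_cast h1
  have hV : 0 < ∑ i ∈ s, (k i : ℝ) ^ 2 := by
    obtain ⟨i, hi⟩ := Finset.card_pos.1 hSpos
    refine Finset.sum_pos' (fun j _ => sq_nonneg _) ⟨i, hS hi, ?_⟩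
    have : (k i : ℝ) ≠ 0 := by exact_mod_cast (hk i hi).1
    positivity
  have hFp := F_prod s S hS k K hK hk a (by
    intro i hi hiS
    have h1 := hsmall i hi hiS
    rw [h2a]
    calc |(k i : ℝ)| * (A / √(n : ℝ)) ≤ (√(n : ℝ) / A) * (A / √(n : ℝ)) :=
          mul_le_mul_of_nonneg_right h1 (by positivity)
      _ = 1 := by field_simp) (by
    rw [h2a, ← mul_div_assoc, div_le_one hsq]
    linarith)
  have hcont := lemmaF_cont s k
  have hii : ∀ x y : ℝ, IntervalIntegrable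
      (fun ξ : ℝ => ∏ i ∈ s, |Real.cos (Real.pi * ξ * k i)|) MeasureTheory.volume x y :=
    fun x y => hcont.intervalIntegrable x y
  -- the middle part
  have hmid : ∫ ξ in (-a)..a, ∏ i ∈ s, |Real.cos (Real.pi * ξ * k i)| ≤
      √(2 / (Real.pi * ∑ i ∈ s, (k i : ℝ) ^ 2)) := by
    refine le_trans ?_ (F_reg1 _ a hV ha0.le)
    refine intervalIntegral.integral_mono_on (by linarith) (hii _ _) ?_ ?_
    · apply Continuous.intervalIntegrable
      fun_prop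
    · intro ξ hξ
      exact (hFp ξ).1 (abs_le.2 ⟨hξ.1, hξ.2⟩)
  -- the intermediate part
  have hint : ∫ ξ in a..b, ∏ i ∈ s, |Real.cos (Real.pi * ξ * k i)| ≤ (η / 4) / √(n : ℝ) := by
    refine le_trans ?_ (hA n hn1 b hab)
    refine intervalIntegral.integral_mono_on hab (hii _ _) ?_ ?_
    · apply Continuous.intervalIntegrable
      fun_prop
    · intro ξ hξ
      have h1 : |ξ| ≤ 1 / (2 * (K : ℝ)) := by
        rw [abs_of_nonneg (by linarith [hξ.1])]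
        exact hξ.2
      refine ((hFp ξ).2 h1).trans ?_
      apply Real.exp_le_exp.2
      have h2 : 0 ≤ Real.pi ^ 2 * ξ ^ 2 := by positivity
      have h3 := mul_le_mul_of_nonneg_left hSc h2
      linarith
  -- the far part
  have hfar : ∫ ξ in b..(1 / 2), ∏ i ∈ s, |Real.cos (Real.pi * ξ * k i)| ≤
      (η / 4) / √(n : ℝ) := by
    have h1 : ∫ ξ in b..(1 / 2), ∏ i ∈ s, |Real.cos (Real.pi * ξ * k i)| ≤
        ∫ _ in b..(1 / 2 : ℝ), (η / 2) / √(n : ℝ) := by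
      refine intervalIntegral.integral_mono_on hb2 (hii _ _) intervalIntegrable_const ?_
      intro ξ hξ
      have hξ0 : |ξ| = ξ := abs_of_nonneg (by linarith [hξ.1])
      refine le_trans ?_ (hN1 n hnN1)
      refine lemmaF_far s S hS k K c hc hc1 hg hk _ ?_ hgcd ξ ?_ ?_
      · intro i hi
        exact Nat.ceil_le.2 (hmult i hi)
      · rw [hξ0]
        exact hξ.1
      · rw [hξ0]
        exact hξ.2
    rw [intervalIntegral.integral_const, smul_eq_mul] at h1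
    refine h1.trans ?_
    have h2 : 0 ≤ (η / 2) / √(n : ℝ) := by positivity
    have h3 : (1 / 2 - b) * ((η / 2) / √(n : ℝ)) ≤ (1 / 2) * ((η / 2) / √(n : ℝ)) :=
      mul_le_mul_of_nonneg_right (by linarith) h2
    refine h3.trans (le_of_eq ?_)
    ring
  have hsym : ∀ x y : ℝ, ∫ ξ in (-y)..(-x), ∏ i ∈ s, |Real.cos (Real.pi * ξ * k i)| =
      ∫ ξ in x..y, ∏ i ∈ s, |Real.cos (Real.pi * ξ * k i)| := by
    intro x y
    have h1 := intervalIntegral.integral_comp_neg (a := x) (b := y)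
      (fun ξ : ℝ => ∏ i ∈ s, |Real.cos (Real.pi * ξ * k i)|)
    rw [← h1]
    refine intervalIntegral.integral_congr fun ξ _ => ?_
    exact lemmaF_even s k ξ
  have hsplit : ∫ ξ in (-(1 / 2) : ℝ)..(1 / 2), ∏ i ∈ s, |Real.cos (Real.pi * ξ * k i)| =
      (∫ ξ in (-(1 / 2) : ℝ)..(-b), ∏ i ∈ s, |Real.cos (Real.pi * ξ * k i)|) +
      (∫ ξ in (-b)..(-a), ∏ i ∈ s, |Real.cos (Real.pi * ξ * k i)|) +
      (∫ ξ in (-a)..a, ∏ i ∈ s, |Real.cos (Real.pi * ξ * k i)|) +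
      (∫ ξ in a..b, ∏ i ∈ s, |Real.cos (Real.pi * ξ * k i)|) +
      (∫ ξ in b..(1 / 2), ∏ i ∈ s, |Real.cos (Real.pi * ξ * k i)|) := by
    rw [intervalIntegral.integral_add_adjacent_intervals (hii _ _) (hii _ _),
      intervalIntegral.integral_add_adjacent_intervals (hii _ _) (hii _ _),
      intervalIntegral.integral_add_adjacent_intervals (hii _ _) (hii _ _),
      intervalIntegral.integral_add_adjacent_intervals (hii _ _) (hii _ _)]
  refine (pr_le_integral s k t).trans ?_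
  rw [hsplit, hsym a b, hsym b (1 / 2)]
  have hfin : η / √(n : ℝ) = 4 * ((η / 4) / √(n : ℝ)) := by ring
  rw [hfin]
  linarith


end JE7
export JE7 (lemmaF)
end ZA
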