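import Pool.Agent.Helper470.ZA.Defs
import Pool.Agent.Helper470.ZA.B1
import Pool.Agent.Helper470.ZA.E1
import Pool.Agent.Helper470.ZA.E10
import Pool.Agent.Helper470.ZA.E11
import Pool.Agent.Helper470.ZA.E20
import Pool.Agent.Helper470.ZA.E6
import Pool.Agent.Helper470.ZA.E7
import Pool.Agent.Helper470.ZA.E9
set_option autoImplicit false
open Finset
open scoped Classical

namespace ZA
namespace JE21
























theorem U_full_zero {ι : Type} (S : Finset ι) (y : ι → ℝ) (v : ℝ) (z : ι → ℤ)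
    (hz : ∀ i ∈ S, y i = z i * v) (τ : ℝ) (hτ : ∀ j : ℤ, τ ≠ j * v) : pr S y τ = 0 := by
  have h : cnt S y τ = 0 := by
    unfold cnt
    rw [Finset.card_eq_zero, Finset.filter_eq_empty_iff]
    intro B hB hsum
    rw [Finset.mem_powerset] at hB
    apply hτ (∑ i ∈ B, z i)
    rw [← hsum, Int.cast_sum, Finset.sum_mul]
    exact Finset.sum_congr rfl fun i hi => hz i (hB hi)
  unfold pr
  rw [h, Nat.cast_zero, zero_div]

theorem U_full_scale {ι : Type} (S : Finset ι) (y : ι → ℝ) (v : ℝ) (hv : 0 < v) (z : ι → ℤ)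
    (hz : ∀ i ∈ S, y i = z i * v) (τ : ℝ) : pr S y τ = pr S (fun i => (z i : ℝ)) (τ / v) := by
  rw [pr_congr S y (fun i => v * (z i : ℝ)) (fun i hi => by rw [hz i hi]; ring)]
  have h := pr_scale S (fun i => (z i : ℝ)) v hv.ne' (τ / v)
  rw [mul_div_cancel₀ _ hv.ne'] at h
  exact h

theorem U_full_sqrt (N V ε : ℝ) (hN : 0 < N) (hε : 0 < ε) (hε8 : ε ≤ 1 / 8)
    (hV : (1 - ε) * N ≤ V) : √(2 / (Real.pi * V)) ≤ (1 + ε) * √(2 / (Real.pi * N)) := by
  have hpi := Real.pi_pos
  have hV0 : 0 < V := lt_of_lt_of_le (mul_pos (by linarith) hN) hV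
  rw [Real.sqrt_le_left (by positivity)]
  rw [mul_pow, Real.sq_sqrt (by positivity)]
  have e : (1 + ε) ^ 2 * (2 / (Real.pi * N)) = 2 * (1 + ε) ^ 2 / (Real.pi * N) := by ring
  rw [e, div_le_div_iff₀ (by positivity) (by positivity)]
  have h1 : 1 ≤ (1 + ε) ^ 2 * (1 - ε) := by nlinarith [mul_pos hε hε]
  have h2 : N ≤ (1 + ε) ^ 2 * V := by
    calc N = 1 * N := by ring
      _ ≤ ((1 + ε) ^ 2 * (1 - ε)) * N := mul_le_mul_of_nonneg_right h1 hN.le
      _ = (1 + ε) ^ 2 * ((1 - ε) * N) := by ring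
      _ ≤ (1 + ε) ^ 2 * V := mul_le_mul_of_nonneg_left hV (by positivity)
  nlinarith

theorem U_full_D (D : ℕ) (hD : D = 3 ∨ D = 4 ∨ D = 5) : (1 / 2 : ℝ) ≤ 1 / √((D : ℝ) - 1) := by
  have h1 : (1 : ℝ) < (D : ℝ) := by
    have : 1 < D := by omega
    exact_mod_cast this
  have h5 : (D : ℝ) ≤ 5 := by
    have : D ≤ 5 := by omega
    exact_mod_cast this
  have h2 : √((D : ℝ) - 1) ≤ 2 := by
    rw [Real.sqrt_le_left (by norm_num)]
    linarith
  exact one_div_le_one_div_of_le (Real.sqrt_pos.2 (by linarith)) h2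

-- TARGET (prove this)
theorem U_full (D : ℕ) (hD : D = 3 ∨ D = 4 ∨ D = 5) (η : ℝ) (hη : 0 < η) : ∃ (N0 : ℕ) (κ : ℝ), 0 < κ ∧
    ∀ {ι : Type} (s : Finset ι) (y : ι → ℝ) (r : ℕ), N0 ≤ s.card → (∀ i ∈ s, y i ≠ 0) →
    1 ≤ r → (r : ℝ) ≤ κ * s.card → (∀ q : ℕ, 2 ≤ q → q < D → q ∣ r) →
    (∀ B ⊆ s, B.card = r → ∑ i ∈ B, y i ≠ 0) →
    pr s y 0 ≤ (1 / √((D : ℝ) - 1) + η) * √(2 / (Real.pi * s.card)) := by
  obtain ⟨h, hh⟩ : ∃ h : ℝ, h = min η 1 := ⟨_, rfl⟩
  have hh0 : 0 < h := by rw [hh]; exact lt_min hη one_pos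
  have hhη : h ≤ η := by rw [hh]; exact min_le_left _ _
  obtain ⟨ε0, hε0, hε08, Uc⟩ := U_core D hD η hη
  obtain ⟨ε, hε⟩ : ∃ ε : ℝ, ε = min ε0 (min (h / 2) (1 / 8)) := ⟨_, rfl⟩
  have hε1 : 0 < ε := by rw [hε]; exact lt_min hε0 (lt_min (by positivity) (by norm_num))
  have hε2 : ε ≤ ε0 := by rw [hε]; exact min_le_left _ _
  have hε3 : ε ≤ h / 2 := by rw [hε]; exact (min_le_right _ _).trans (min_le_left _ _)
  have hε4 : ε ≤ 1 / 8 := by rw [hε]; exact (min_le_right _ _).trans (min_le_right _ _)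
  obtain ⟨δ, hδ0, hδ1, hstep0⟩ := step0 (1 / 4) (ε / 2) (by norm_num) (by positivity)
  obtain ⟨Q, hQ, N1, hstep1⟩ := step1 (1 / 4) δ (by norm_num) hδ0
  obtain ⟨K, hK, hlat⟩ := lattice Q (by omega)
  obtain ⟨N2, κ2, hκ2, hUc⟩ := Uc K (δ / 2) hK (by positivity)
  obtain ⟨A, hA, hF⟩ := lemmaF (h / 4) (by positivity)
  obtain ⟨N3, hF3⟩ := hF K (δ / 2) hK (by positivity)
  refine ⟨max N1 (max N2 (max N3 1)), min κ2 ε, lt_min hκ2 hε1, ?_⟩
  intro ι s y r hN hy hr1 hrκ hq hadm
  have hN1 : N1 ≤ s.card := (le_max_left _ _).trans hN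
  have hN2 : N2 ≤ s.card := ((le_max_left _ _).trans (le_max_right _ _)).trans hN
  have hN3 : N3 ≤ s.card :=
    (((le_max_left _ _).trans (le_max_right _ _)).trans (le_max_right _ _)).trans hN
  have hN4 : 1 ≤ s.card :=
    (((le_max_right _ _).trans (le_max_right _ _)).trans (le_max_right _ _)).trans hN
  have hNr : (0 : ℝ) < (s.card : ℝ) := by exact_mod_cast hN4
  have hsne : s.Nonempty := Finset.card_pos.1 hN4
  obtain ⟨T, hT⟩ : ∃ T : ℝ, T = √(2 / (Real.pi * s.card)) := ⟨_, rfl⟩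
  have hT0 : 0 ≤ T := by rw [hT]; exact Real.sqrt_nonneg _
  have h39 : 1 / √(s.card : ℝ) ≤ (4 / 3) * T := by rw [hT]; exact c39 _ hNr
  have hD2 := U_full_D D hD
  have hquart : ∀ x : ℝ, x ≤ (1 / 4) / √(s.card : ℝ) → x ≤ (1 / √((D : ℝ) - 1) + η) * T := by
    intro x hx
    have e : (1 / 4 : ℝ) / √(s.card : ℝ) = (1 / 4) * (1 / √(s.card : ℝ)) := by ring
    rw [e] at hx
    have h1 : (1 / 2 : ℝ) * T ≤ (1 / √((D : ℝ) - 1) + η) * T :=
      mul_le_mul_of_nonneg_right (by linarith) hT0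
    linarith
  rw [← hT]
  -- unpopular set
  by_cases hun : (ε / 2) * s.card ≤
      ((s.filter (fun i => (mult s y i : ℝ) < δ * s.card)).card : ℝ)
  · exact hquart _ (hstep0 s y 0 hsne hun)
  push Not at hun
  obtain ⟨P, hP⟩ : ∃ P : Finset ι, P = s.filter (fun i => δ * s.card ≤ (mult s y i : ℝ)) := ⟨_, rfl⟩
  have hPs : P ⊆ s := by rw [hP]; exact Finset.filter_subset _ _
  have hPm : ∀ i, i ∈ P ↔ i ∈ s ∧ δ * s.card ≤ (mult s y i : ℝ) := by
    intro i; rw [hP, Finset.mem_filter]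
  have hsP : ((s \ P).card : ℝ) < (ε / 2) * s.card := by
    refine lt_of_le_of_lt ?_ hun
    have : s \ P ⊆ s.filter (fun i => (mult s y i : ℝ) < δ * s.card) := by
      intro i hi
      rw [Finset.mem_sdiff, hPm] at hi
      rw [Finset.mem_filter]
      refine ⟨hi.1, ?_⟩
      by_contra hcon
      exact hi.2 ⟨hi.1, not_lt.1 hcon⟩
    exact_mod_cast Finset.card_le_card this
  have hcardP : (s \ P).card + P.card = s.card := Finset.card_sdiff_add_card_eq_card hPs
  have hPne : P.Nonempty := by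
    rw [← Finset.card_pos]
    by_contra hcon
    have h0 : P.card = 0 := by omega
    rw [h0, add_zero] at hcardP
    rw [hcardP] at hsP
    nlinarith
  by_cases hcomm : ∀ i ∈ P, ∀ j ∈ P, ∃ a b : ℕ, 1 ≤ a ∧ a < Q ∧ 1 ≤ b ∧ b < Q ∧
      (a : ℝ) * |y i| = b * |y j|
  swap
  · push Not at hcomm
    obtain ⟨i, hi, j, hj, hab⟩ := hcomm
    refine hquart _ (hstep1 s y 0 hN1 hy i (hPs hi) j (hPs hj) ((hPm i).1 hi).2 ((hPm j).1 hj).2 ?_)
    rintro ⟨a, b, h1, h2, h3, h4, h5⟩
    exact hab a b h1 h2 h3 h4 h5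
  obtain ⟨v, hv, k, hk, hgcd⟩ := hlat P hPne (fun i => |y i|)
    (fun i hi => abs_pos.2 (hy i (hPs hi))) hcomm
  have hreven : Even r := even_iff_two_dvd.2 (hq 2 le_rfl (by omega))
  have hm : ∀ i ∈ P, δ * s.card ≤ ((P.filter (fun j => k j = k i)).card : ℝ) := by
    intro i hi
    refine ((hPm i).1 hi).2.trans ?_
    have : s.filter (fun j => |y j| = |y i|) ⊆ P.filter (fun j => k j = k i) := by
      intro j hj
      rw [Finset.mem_filter] at hj ⊢
      have hjP : j ∈ P := by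
        rw [hPm]
        refine ⟨hj.1, ?_⟩
        have e : mult s y j = mult s y i := by
          unfold mult
          rw [hj.2]
        rw [e]
        exact ((hPm i).1 hi).2
      refine ⟨hjP, ?_⟩
      have h1 : |y j| = k j * v := (hk j hjP).2.2
      have h2 : |y i| = k i * v := (hk i hi).2.2
      have h3 : (k j : ℝ) * v = k i * v := by rw [← h1, ← h2, hj.2]
      exact_mod_cast mul_right_cancel₀ hv.ne' h3
    unfold mult
    exact_mod_cast Finset.card_le_card this
  obtain ⟨S, z, hSP, hz, hcls, hopp, hgcd', hcard⟩ := step3 s P hPs y K (δ * s.card) v hv k hk hgcd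
    hm r hreven hr1 hadm
  have hSs : S ⊆ s := hSP.trans hPs
  have hzy : ∀ i ∈ S, y i = z i * v := fun i hi => (hz i hi).1
  have hrε : (r : ℝ) ≤ ε * s.card :=
    hrκ.trans (mul_le_mul_of_nonneg_right (min_le_right _ _) hNr.le)
  have hrκ2 : (r : ℝ) ≤ κ2 * s.card :=
    hrκ.trans (mul_le_mul_of_nonneg_right (min_le_left _ _) hNr.le)
  have hsS : ((s \ S).card : ℝ) ≤ ε * s.card := by
    have h1 : (s \ S).card ≤ (s \ P).card + (P \ S).card := by
      refine (Finset.card_le_card ?_).trans (Finset.card_union_le _ _)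
      intro i hi
      rw [Finset.mem_sdiff] at hi
      rw [Finset.mem_union, Finset.mem_sdiff, Finset.mem_sdiff]
      by_cases hiP : i ∈ P
      · exact Or.inr ⟨hiP, hi.2⟩
      · exact Or.inl ⟨hi.1, hiP⟩
    have h2 : ((s \ S).card : ℝ) ≤ ((s \ P).card : ℝ) + ((P \ S).card : ℝ) := by exact_mod_cast h1
    have h3 : 2 * ((P \ S).card : ℝ) < (r : ℝ) := by exact_mod_cast hcard
    linarith
  have hScard : (1 - ε) * s.card ≤ (S.card : ℝ) := by
    have h1 : (s \ S).card + S.card = s.card := Finset.card_sdiff_add_card_eq_card hSs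
    have h2 : ((s \ S).card : ℝ) + (S.card : ℝ) = (s.card : ℝ) := by exact_mod_cast h1
    linarith
  by_cases hall : ∀ i ∈ s, ∃ j : ℤ, y i = j * v
  · choose! z' hz' using hall
    have hzz : ∀ i ∈ S, z' i = z i := by
      intro i hi
      have h1 := hz' i (hSs hi)
      rw [hzy i hi] at h1
      exact_mod_cast (mul_right_cancel₀ hv.ne' h1).symm
    have hmain := hUc s S z' r hN2 hSs
      (hsS.trans (mul_le_mul_of_nonneg_right hε2 hNr.le))
      (by
        intro i hi h0
        apply hy i hi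
        rw [hz' i hi, h0, Int.cast_zero, zero_mul])
      (by
        intro i hi
        rw [hzz i hi]
        exact (hz i hi).2.2)
      (by
        intro i hi
        have h1 := hcls i hi
        have h2 : S.filter (fun j => z' j = z' i) = S.filter (fun j => z j = z i) := by
          apply Finset.filter_congr
          intro j hj
          rw [hzz i hi, hzz j hj]
        rw [h2]
        linarith)
      (by
        intro i hi j hj
        rw [hzz i hi, hzz j hj]
        exact hopp i hi j hj)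
      (by
        intro d hd
        apply hgcd' d
        intro i hi
        rw [← hzz i hi]
        exact hd i hi)
      hr1 hrκ2 hq
      (by
        intro B hB hBr h0
        apply hadm B hB hBr
        have : ∑ i ∈ B, y i = ((∑ i ∈ B, z' i : ℤ) : ℝ) * v := by
          rw [Int.cast_sum, Finset.sum_mul]
          exact Finset.sum_congr rfl fun i hi => hz' i (hB hi)
        rw [this, h0, Int.cast_zero, zero_mul])
    rw [U_full_scale s y v hv z' hz' 0, zero_div, hT]
    exact hmain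
  · push Not at hall
    obtain ⟨i0, hi0, hi0j⟩ := hall
    have hi0S : i0 ∉ S := fun hmem => hi0j (z i0) (hzy i0 hmem)
    obtain ⟨V, hV⟩ : ∃ V : ℝ, V = ∑ i ∈ S, (z i : ℝ) ^ 2 := ⟨_, rfl⟩
    obtain ⟨M, hM⟩ : ∃ M : ℝ, M = √(2 / (Real.pi * V)) + (h / 4) / √(s.card : ℝ) := ⟨_, rfl⟩
    have hM0 : 0 ≤ M := by rw [hM]; positivity
    have hVS : (S.card : ℝ) ≤ V := by
      rw [hV]
      have : (S.card : ℝ) = ∑ i ∈ S, (1 : ℝ) := by simp
      rw [this]
      refine Finset.sum_le_sum fun i hi => ?_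
      have h1 : 1 ≤ |z i| := Int.one_le_abs (hz i hi).2.1
      have h2 : (1 : ℝ) ≤ |(z i : ℝ)| := by exact_mod_cast h1
      rw [← sq_abs]
      nlinarith
    have hprM : ∀ τ : ℝ, pr S y τ ≤ M := by
      intro τ
      rw [U_full_scale S y v hv z hzy τ, hM, hV]
      refine hF3 s.card S S z hN3 (Finset.Subset.refl S) ?_ (fun i hi => (hz i hi).2) ?_ hgcd'
        (fun i hi hi' => absurd hi hi') (τ / v)
      · nlinarith
      · intro i hi
        have h1 := hcls i hi
        have h2 : ((S.filter (fun j => z j = z i)).card : ℝ) ≤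
            ((S.filter (fun j => |z j| = |z i|)).card : ℝ) := by
          have : S.filter (fun j => z j = z i) ⊆ S.filter (fun j => |z j| = |z i|) := by
            intro j hj
            rw [Finset.mem_filter] at hj ⊢
            exact ⟨hj.1, by rw [hj.2]⟩
          exact_mod_cast Finset.card_le_card this
        linarith
    have hpair : ∀ τ : ℝ, pr S y τ + pr S y (τ - y i0) ≤ M := by
      intro τ
      by_cases hτ : ∀ j : ℤ, τ ≠ j * v
      · rw [U_full_zero S y v z hzy τ hτ, zero_add]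
        exact hprM _
      · push Not at hτ
        obtain ⟨j, hj⟩ := hτ
        have h0 : pr S y (τ - y i0) = 0 := by
          apply U_full_zero S y v z hzy
          intro j' hj'
          apply hi0j (j - j')
          rw [Int.cast_sub, sub_mul, ← hj, ← hj']
          ring
        rw [h0, add_zero]
        exact hprM _
    have hhalf := half2 s S hSs y i0 hi0 hi0S M hpair 0
    have hsq := U_full_sqrt s.card V ε hNr hε1 hε4 (hScard.trans hVS)
    rw [← hT] at hsq
    have e2 : (h / 4) / √(s.card : ℝ) ≤ (h / 3) * T := by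
      have : (h / 4) / √(s.card : ℝ) = (h / 4) * (1 / √(s.card : ℝ)) := by ring
      rw [this]
      calc (h / 4) * (1 / √(s.card : ℝ)) ≤ (h / 4) * ((4 / 3) * T) :=
            mul_le_mul_of_nonneg_left h39 (by positivity)
        _ = (h / 3) * T := by ring
    have e3 : M / 2 ≤ (1 / 2 + h) * T := by
      rw [hM]
      have e4 : ε * T ≤ (h / 2) * T := mul_le_mul_of_nonneg_right hε3 hT0
      have e5 : 0 ≤ h * T := mul_nonneg hh0.le hT0
      linarith
    refine hhalf.trans (e3.trans ?_)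
    exact mul_le_mul_of_nonneg_right (by linarith) hT0


end JE21
export JE21 (U_full)
end ZA
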