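import Pool.Agent.Helper470.ZA.DefsB
import Pool.Agent.Helper470.ZA.B1
import Pool.Agent.Helper470.ZA.E19
import Pool.Agent.Helper470.ZA.E21
set_option autoImplicit false
open Finset
open scoped Classical

namespace ZA
namespace JG1









theorem up_aux (c η : ℝ) (hc0 : 0 < c) (hc1 : c ≤ 1) (hη : 0 < η) (η1 : ℝ) (h1 : 0 < η1) (h2 : η1 ≤ η / 16)
    (h3 : η1 ≤ 1 / 16) (n s : ℕ) (hn : 1 ≤ n) (hs : (1 - η1) * n ≤ s) :
    (c + η1) * √(2 / (Real.pi * s)) ≤ (c + η) * ((1 - η1) * √(2 / (Real.pi * n))) := by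
  have hn' : (1 : ℝ) ≤ n := by exact_mod_cast hn
  have hsp : (0 : ℝ) < s := by nlinarith
  have hpi := Real.pi_pos
  have key : (1 - η1) * √(2 / (Real.pi * s)) ≤ √(2 / (Real.pi * n)) := by
    apply Real.le_sqrt_of_sq_le
    rw [mul_pow, Real.sq_sqrt (by positivity)]
    rw [mul_div_assoc', div_le_div_iff₀ (by positivity) (by positivity)]
    have h4 : (1 - η1) ^ 2 * n ≤ s := by
      have : (1 - η1) ^ 2 * n ≤ (1 - η1) * n := by
        apply mul_le_mul_of_nonneg_right _ (by positivity)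
        nlinarith
      linarith
    nlinarith [mul_le_mul_of_nonneg_left h4 hpi.le]
  have key2 : c + η1 ≤ (c + η) * (1 - η1) ^ 2 := by
    have h5 : 1 - 2 * η1 ≤ (1 - η1) ^ 2 := by nlinarith
    have h6 : (c + η) * (1 - 2 * η1) ≤ (c + η) * (1 - η1) ^ 2 :=
      mul_le_mul_of_nonneg_left h5 (by linarith)
    have h7 : η1 * c ≤ η1 := by nlinarith
    have h8 : η1 * η ≤ η / 16 := by nlinarith
    nlinarith
  have hB : 0 ≤ √(2 / (Real.pi * s)) := Real.sqrt_nonneg _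
  calc (c + η1) * √(2 / (Real.pi * s)) ≤ ((c + η) * (1 - η1) ^ 2) * √(2 / (Real.pi * s)) :=
        mul_le_mul_of_nonneg_right key2 hB
    _ = ((c + η) * (1 - η1)) * ((1 - η1) * √(2 / (Real.pi * s))) := by ring
    _ ≤ ((c + η) * (1 - η1)) * √(2 / (Real.pi * n)) := by
        apply mul_le_mul_of_nonneg_left key
        apply mul_nonneg <;> linarith
    _ = _ := by ring

-- TARGET (prove this)
theorem up_D (D : ℕ) (hD : D = 3 ∨ D = 4 ∨ D = 5) (η : ℝ) (hη : 0 < η) : ∃ κ : ℝ, 0 < κ ∧ ∃ n0 : ℕ,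
    ∀ n : ℕ, n0 ≤ n → ∀ r : ℕ, 1 ≤ r → (r : ℝ) ≤ κ * n → (∀ q : ℕ, 2 ≤ q → q < D → q ∣ r) →
    ∀ x : Fin n → ℝ, Admissible r x → (Z x : ℝ) ≤ (1 / √((D : ℝ) - 1) + η) * (n.choose (n / 2) : ℝ) := by
  have hc : 0 < 1 / √((D : ℝ) - 1) ∧ 1 / √((D : ℝ) - 1) ≤ 1 := by
    have h2 : (1 : ℝ) ≤ (D : ℝ) - 1 := by
      rcases hD with rfl | rfl | rfl <;> norm_num
    have h3 : (1 : ℝ) ≤ √((D : ℝ) - 1) := by
      rw [Real.one_le_sqrt]; exact h2
    exact ⟨by positivity, by rw [div_le_one (by linarith)]; exact h3⟩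
  obtain ⟨η1, hη1, hη2, hη3⟩ : ∃ η1 : ℝ, 0 < η1 ∧ η1 ≤ η / 16 ∧ η1 ≤ 1 / 16 :=
    ⟨min (η / 16) (1 / 16), lt_min (by linarith) (by norm_num), min_le_left _ _, min_le_right _ _⟩
  obtain ⟨N0, κ1, hκ1, hU⟩ := U_full D hD η1 hη1
  obtain ⟨n1, hn1⟩ := cb η1 hη1
  refine ⟨min (κ1 / 2) η1, lt_min (by linarith) hη1, max n1 (2 * N0 + 2), ?_⟩
  intro n hn r hr hrκ hdiv x hx
  have hnn1 : n1 ≤ n := le_trans (le_max_left _ _) hn
  have hnN : 2 * N0 + 2 ≤ n := le_trans (le_max_right _ _) hn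
  have hκa : min (κ1 / 2) η1 ≤ κ1 / 2 := min_le_left _ _
  have hκb : min (κ1 / 2) η1 ≤ η1 := min_le_right _ _
  have hnR : (0 : ℝ) ≤ n := Nat.cast_nonneg n
  have hr1 : (r : ℝ) ≤ κ1 / 2 * n := hrκ.trans (mul_le_mul_of_nonneg_right hκa hnR)
  have hr2 : (r : ℝ) ≤ η1 * n := hrκ.trans (mul_le_mul_of_nonneg_right hκb hnR)
  obtain ⟨s, hs⟩ : ∃ s : Finset (Fin n), s = univ.filter (fun i => x i ≠ 0) := ⟨_, rfl⟩
  have hz : (univ.filter (fun i => x i = 0) : Finset (Fin n)).card < r := by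
    by_contra hcon
    push Not at hcon
    obtain ⟨S, hS, hSc⟩ := Finset.exists_subset_card_eq hcon
    apply hx S hSc
    apply Finset.sum_eq_zero
    intro i hi
    exact (Finset.mem_filter.1 (hS hi)).2
  have hsum : s.card + (univ.filter (fun i => x i = 0) : Finset (Fin n)).card = n := by
    have := Finset.card_filter_add_card_filter_not (s := (univ : Finset (Fin n))) (fun i => x i = 0)
    rw [Finset.card_univ, Fintype.card_fin] at this
    have h3 : s.card = (univ.filter (fun i => ¬ x i = 0) : Finset (Fin n)).card := by rw [hs]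
    rw [h3]
    linarith
  have hsn : (n : ℝ) ≤ s.card + r := by
    have : n ≤ s.card + r := by omega
    exact_mod_cast this
  have hs1 : (1 - η1) * n ≤ (s.card : ℝ) := by linarith
  have hs2 : (n : ℝ) ≤ 2 * s.card := by nlinarith
  have hs3 : n ≤ 2 * s.card := by exact_mod_cast hs2
  have hpr := hU s x r (by omega) (fun i hi => by rw [hs] at hi; exact (Finset.mem_filter.1 hi).2) hr
    (by nlinarith) hdiv (fun B _ hB => hx B hB)
  have hprz : pr univ x 0 = pr s x 0 := by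
    apply pr_zeros s univ (Finset.subset_univ s) x
    intro i _ hi
    by_contra h
    apply hi
    rw [hs]
    exact Finset.mem_filter.2 ⟨Finset.mem_univ i, h⟩
  have hZ : pr univ x 0 = (Z x : ℝ) / 2 ^ n := by
    unfold pr cnt Z
    rw [Finset.powerset_univ, Finset.card_univ, Fintype.card_fin]
  have haux := up_aux (1 / √((D : ℝ) - 1)) η hc.1 hc.2 hη η1 hη1 hη2 hη3 n s.card (by omega) hs1
  have hcb := (hn1 n hnn1).1
  have hfin : (Z x : ℝ) / 2 ^ n ≤ (1 / √((D : ℝ) - 1) + η) * ((n.choose (n / 2) : ℝ) / 2 ^ n) := by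
    rw [← hZ, hprz]
    refine hpr.trans (haux.trans ?_)
    apply mul_le_mul_of_nonneg_left hcb
    linarith [hc.1]
  have h2n : (0 : ℝ) < 2 ^ n := by positivity
  rw [← mul_div_assoc, div_le_div_iff_of_pos_right h2n] at hfin
  exact hfin


end JG1
export JG1 (up_D)
end ZA
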