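import Pool.Agent.Helper470.ZA.DefsB
set_option autoImplicit false
open Finset
open scoped Classical

namespace ZA
namespace JG3


theorem low_half_sum {k m : ℕ} (S : Finset (Fin (k + 1))) :
    ∑ i ∈ S, (if i = 0 then -(m : ℝ) else 1) =
      (S.card : ℝ) + (if (0 : Fin (k + 1)) ∈ S then -(m : ℝ) - 1 else 0) := by
  have e : ∀ i : Fin (k + 1), (if i = 0 then -(m : ℝ) else 1) =
      1 + (if i = 0 then -(m : ℝ) - 1 else 0) := by
    intro i
    split_ifs <;> ring
  simp only [e, Finset.sum_add_distrib, Finset.sum_const, nsmul_eq_mul, mul_one,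
    Finset.sum_ite_eq']

-- TARGET (prove this)
theorem low_half (n r : ℕ) (hr : 1 ≤ r) (hn : 3 * r ≤ n) :
    ∃ x : Fin n → ℝ, Admissible r x ∧ n.choose (n / 2) ≤ 2 * Z x := by
  obtain ⟨k, rfl⟩ : ∃ k, n = k + 1 := ⟨n - 1, by omega⟩
  obtain ⟨m, hm⟩ : ∃ m, m = k / 2 := ⟨_, rfl⟩
  refine ⟨fun i => if i = 0 then -(m : ℝ) else 1, ?_, ?_⟩
  · intro S hS
    rw [low_half_sum, hS]
    split_ifs with h
    · intro h0
      have h1 : (r : ℝ) = m + 1 := by linarith
      have h2 : r = m + 1 := by exact_mod_cast h1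
      omega
    · rw [add_zero]
      exact_mod_cast (by omega : r ≠ 0)
  · have h1 : (k + 1).choose ((k + 1) / 2) ≤ 2 * k.choose m := by
      obtain ⟨j, hj⟩ : ∃ j, (k + 1) / 2 = j + 1 := ⟨(k + 1) / 2 - 1, by omega⟩
      rw [hj, Nat.choose_succ_succ', hm]
      have a1 := Nat.choose_le_middle j k
      have a2 := Nat.choose_le_middle (j + 1) k
      omega
    refine h1.trans (Nat.mul_le_mul_left 2 ?_)
    have h2 : k.choose m = (Finset.powersetCard m ((univ : Finset (Fin (k + 1))).erase 0)).card := by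
      rw [Finset.card_powersetCard, Finset.card_erase_of_mem (Finset.mem_univ _), Finset.card_fin,
        Nat.add_sub_cancel]
    rw [h2]
    unfold Z
    refine Finset.card_le_card_of_injOn (fun A => insert 0 A) ?_ ?_
    · intro A hA
      rw [Finset.mem_coe, Finset.mem_powersetCard] at hA
      have h0 : (0 : Fin (k + 1)) ∉ A := fun h => by
        have := hA.1 h
        simp at this
      rw [Finset.mem_coe, Finset.mem_filter]
      refine ⟨Finset.mem_univ _, ?_⟩
      rw [low_half_sum, if_pos (Finset.mem_insert_self _ _), Finset.card_insert_of_notMem h0, hA.2]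
      push_cast
      ring
    · intro A hA B hB hAB
      rw [Finset.mem_coe, Finset.mem_powersetCard] at hA hB
      have hA0 : (0 : Fin (k + 1)) ∉ A := fun h => by
        have := hA.1 h
        simp at this
      have hB0 : (0 : Fin (k + 1)) ∉ B := fun h => by
        have := hB.1 h
        simp at this
      have hAB' : insert 0 A = insert 0 B := hAB
      rw [← Finset.erase_insert hA0, hAB', Finset.erase_insert hB0]

-- TARGET (prove this)
theorem max_exists (n r : ℕ) (hr : 1 ≤ r) :
    ∃ M : ℕ, IsGreatest {k : ℕ | ∃ x : Fin n → ℝ, Admissible r x ∧ Z x = k} M := by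
  have hne : {k : ℕ | ∃ x : Fin n → ℝ, Admissible r x ∧ Z x = k}.Nonempty := by
    refine ⟨Z (fun _ : Fin n => (1 : ℝ)), fun _ => 1, ?_, rfl⟩
    intro S hS
    rw [Finset.sum_const, nsmul_eq_mul, mul_one, hS]
    exact_mod_cast (by omega : r ≠ 0)
  have hb : BddAbove {k : ℕ | ∃ x : Fin n → ℝ, Admissible r x ∧ Z x = k} := by
    refine ⟨(univ : Finset (Finset (Fin n))).card, ?_⟩
    rintro _ ⟨x, _, rfl⟩
    exact Finset.card_le_card (Finset.filter_subset _ _)
  exact ⟨_, Nat.sSup_mem hne hb, fun k hk => le_csSup hb hk⟩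


end JG3
export JG3 (low_half max_exists)
end ZA
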