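import Pool.Agent.Helper470.ZA.Defs
import Pool.Agent.Helper470.ZA.B1
import Pool.Agent.Helper470.ZA.B2
import Pool.Agent.Helper470.ZA.E8
set_option autoImplicit false
open Finset
open scoped Classical

namespace ZA
namespace JH1








theorem st_half {ι : Type} (s1 s2 : Finset ι) (hd : Disjoint s1 s2) (hs2 : s2.Nonempty) (y : ι → ℝ)
    (hy : ∀ i ∈ s2, y i ≠ 0) (l : ℝ) (hl : 0 < l) (t : ℝ) :
    (((s1 ∪ s2).powerset.filter (fun B => ∑ i ∈ B, y i = t ∧
      l ≤ |((B ∩ s1).card : ℝ) - (s1.card : ℝ) / 2|)).card : ℝ)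
      ≤ (2 ^ s1.card * ((s1.card : ℝ) / (4 * l ^ 2))) * (2 ^ s2.card * (1 / √(s2.card : ℝ))) := by
  set bad := s1.powerset.filter (fun C => l ≤ |(C.card : ℝ) - (s1.card : ℝ) / 2|) with hbad
  set F := (s1 ∪ s2).powerset.filter (fun B => ∑ i ∈ B, y i = t ∧
      l ≤ |((B ∩ s1).card : ℝ) - (s1.card : ℝ) / 2|) with hF
  have hbc : (bad.card : ℝ) ≤ 2 ^ s1.card * ((s1.card : ℝ) / (4 * l ^ 2)) := by
    have h := cheb s1 (fun _ => (1:ℝ)) l hl
    simp only [sum_const, nsmul_eq_mul, mul_one, one_pow] at h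
    rw [div_le_iff₀ (by positivity)] at h
    rw [mul_comm]
    exact h
  have hmap : ∀ B ∈ F, B ∩ s1 ∈ bad := by
    intro B hB
    rw [hF, mem_filter] at hB
    rw [hbad, mem_filter, mem_powerset]
    exact ⟨inter_subset_right, hB.2.2⟩
  have h1 : F.card = ∑ C ∈ bad, (F.filter (fun B => B ∩ s1 = C)).card :=
    card_eq_sum_card_fiberwise hmap
  have h2 : ∀ C ∈ bad, ((F.filter (fun B => B ∩ s1 = C)).card : ℝ) ≤ 2 ^ s2.card * (1 / √(s2.card : ℝ)) := by
    intro C hC
    have h3 : (F.filter (fun B => B ∩ s1 = C)).card ≤ cnt s2 y (t - ∑ i ∈ C, y i) := by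
      unfold cnt
      apply card_le_card_of_injOn (fun B => B ∩ s2)
      · intro B hB
        simp only [coe_filter, Set.mem_setOf_eq, mem_filter, hF, mem_powerset] at hB
        simp only [coe_filter, Set.mem_setOf_eq, mem_powerset]
        obtain ⟨⟨hBs, hsum, _⟩, hBC⟩ := hB
        refine ⟨inter_subset_right, ?_⟩
        have hBu : B = (B ∩ s1) ∪ (B ∩ s2) := by
          rw [← inter_union_distrib_left, inter_eq_left.2 hBs]
        have hdis : Disjoint (B ∩ s1) (B ∩ s2) :=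
          disjoint_of_subset_left inter_subset_right (disjoint_of_subset_right inter_subset_right hd)
        have hs : ∑ i ∈ B, y i = ∑ i ∈ (B ∩ s1), y i + ∑ i ∈ (B ∩ s2), y i := by
          conv_lhs => rw [hBu]
          rw [sum_union hdis]
        rw [← hBC]
        linarith
      · intro B hB B' hB' hEq
        simp only [coe_filter, Set.mem_setOf_eq, mem_filter, hF, mem_powerset] at hB hB'
        have e1 : B = (B ∩ s1) ∪ (B ∩ s2) := by
          rw [← inter_union_distrib_left, inter_eq_left.2 hB.1.1]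
        have e2 : B' = (B' ∩ s1) ∪ (B' ∩ s2) := by
          rw [← inter_union_distrib_left, inter_eq_left.2 hB'.1.1]
        simp only at hEq
        rw [e1, e2, hB.2, hB'.2, hEq]
    have h4 := pr_le_LO s2 hs2 y hy (t - ∑ i ∈ C, y i)
    unfold pr at h4
    rw [div_le_iff₀ (by positivity)] at h4
    have h5 : ((F.filter (fun B => B ∩ s1 = C)).card : ℝ) ≤ (cnt s2 y (t - ∑ i ∈ C, y i) : ℝ) := by
      exact_mod_cast h3
    linarith
  rw [h1]
  push_cast
  calc ∑ C ∈ bad, ((F.filter (fun B => B ∩ s1 = C)).card : ℝ)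
      ≤ ∑ C ∈ bad, (2 ^ s2.card * (1 / √(s2.card : ℝ))) := sum_le_sum h2
    _ = (bad.card : ℝ) * (2 ^ s2.card * (1 / √(s2.card : ℝ))) := by rw [sum_const, nsmul_eq_mul]
    _ ≤ _ := by
        apply mul_le_mul_of_nonneg_right hbc
        positivity

theorem st_real (N N1 N2 : ℝ) (A : ℝ) (hA : 0 < A) (hN : 0 < N) (h12 : N1 + N2 = N) (h1 : N / 4 ≤ N1)
    (h2 : N / 4 ≤ N2) :
    (N1 / (4 * (A * √N / 2) ^ 2)) * (1 / √N2) + (N2 / (4 * (A * √N / 2) ^ 2)) * (1 / √N1)
      ≤ 100 / (A ^ 2 * √N) := by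
  have hsN : 0 < √N := Real.sqrt_pos.2 hN
  have hsq : √N ^ 2 = N := Real.sq_sqrt hN.le
  have key : ∀ M : ℝ, N / 4 ≤ M → 1 / √M ≤ 2 / √N := by
    intro M hM
    have h3 : √N / 2 ≤ √M := by
      apply Real.le_sqrt_of_sq_le
      rw [div_pow, hsq]
      linarith
    have h4 : 0 < √N / 2 := by positivity
    calc 1 / √M ≤ 1 / (√N / 2) := one_div_le_one_div_of_le h4 h3
      _ = 2 / √N := by field_simp
  have e4 : 4 * (A * √N / 2) ^ 2 = A ^ 2 * N := by
    have : 4 * (A * √N / 2) ^ 2 = A ^ 2 * √N ^ 2 := by ring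
    rw [this, hsq]
  rw [e4]
  have hD : 0 < A ^ 2 * N := by positivity
  have a1 : (N1 / (A ^ 2 * N)) * (1 / √N2) ≤ (N1 / (A ^ 2 * N)) * (2 / √N) := by
    apply mul_le_mul_of_nonneg_left (key N2 h2)
    apply div_nonneg _ hD.le
    linarith
  have a2 : (N2 / (A ^ 2 * N)) * (1 / √N1) ≤ (N2 / (A ^ 2 * N)) * (2 / √N) := by
    apply mul_le_mul_of_nonneg_left (key N1 h1)
    apply div_nonneg _ hD.le
    linarith
  have a3 : (N1 / (A ^ 2 * N)) * (2 / √N) + (N2 / (A ^ 2 * N)) * (2 / √N) = 2 / (A ^ 2 * √N) := by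
    rw [← add_mul, ← add_div, h12]
    field_simp
  have a4 : 2 / (A ^ 2 * √N) ≤ 100 / (A ^ 2 * √N) := by
    apply div_le_div_of_nonneg_right (by norm_num) (by positivity)
  linarith

-- TARGET (prove this)
theorem size_tail {ι : Type} (s : Finset ι) (hs : s.Nonempty) (y : ι → ℝ) (hy : ∀ i ∈ s, y i ≠ 0)
    (A : ℝ) (hA : 0 < A) (t : ℝ) :
    ((s.powerset.filter (fun B => ∑ i ∈ B, y i = t ∧ A * √(s.card : ℝ) ≤ |(B.card : ℝ) - (s.card : ℝ) / 2|)).card : ℝ)
      / 2 ^ s.card ≤ 100 / (A ^ 2 * √(s.card : ℝ)) := by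
  by_cases hN1 : s.card = 1
  · have hcard : ((s.powerset.filter (fun B => ∑ i ∈ B, y i = t ∧
        A * √(s.card : ℝ) ≤ |(B.card : ℝ) - (s.card : ℝ) / 2|)).card : ℝ) ≤ 2 ^ s.card := by
      have := card_filter_le s.powerset (fun B => ∑ i ∈ B, y i = t ∧
        A * √(s.card : ℝ) ≤ |(B.card : ℝ) - (s.card : ℝ) / 2|)
      rw [card_powerset] at this
      exact_mod_cast this
    by_cases hA2 : A ≤ 1 / 2
    · have h1 : ((s.powerset.filter (fun B => ∑ i ∈ B, y i = t ∧
        A * √(s.card : ℝ) ≤ |(B.card : ℝ) - (s.card : ℝ) / 2|)).card : ℝ) / 2 ^ s.card ≤ 1 := by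
        rw [div_le_one (by positivity)]
        exact hcard
      refine le_trans h1 ?_
      rw [hN1]
      simp only [Nat.cast_one, Real.sqrt_one, mul_one]
      rw [le_div_iff₀ (by positivity)]
      nlinarith
    · have h0 : (s.powerset.filter (fun B => ∑ i ∈ B, y i = t ∧
        A * √(s.card : ℝ) ≤ |(B.card : ℝ) - (s.card : ℝ) / 2|)) = ∅ := by
        apply filter_eq_empty_iff.2
        intro B hB hc
        rw [mem_powerset] at hB
        have hBc := card_le_card hB
        obtain ⟨_, hc2⟩ := hc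
        rw [hN1] at hc2 hBc
        simp only [Nat.cast_one, Real.sqrt_one, mul_one] at hc2
        have hb0 : (0:ℝ) ≤ B.card := by positivity
        have hb1 : (B.card : ℝ) ≤ 1 := by exact_mod_cast hBc
        have : |(B.card : ℝ) - 1 / 2| ≤ 1 / 2 := by
          rw [abs_le]; constructor <;> linarith
        linarith
      rw [h0]
      simp only [card_empty, Nat.cast_zero, zero_div]
      positivity
  · have hpos : 0 < s.card := card_pos.2 hs
    have hN2 : 2 ≤ s.card := by omega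
    obtain ⟨s1, hs1, hc1⟩ := exists_subset_card_eq (s := s) (n := s.card / 2) (by omega)
    obtain ⟨s2, hs2⟩ : ∃ s2, s2 = s \ s1 := ⟨_, rfl⟩
    have hd : Disjoint s1 s2 := by rw [hs2]; exact disjoint_sdiff
    have hu : s1 ∪ s2 = s := by rw [hs2]; exact union_sdiff_of_subset hs1
    have hc12 : s1.card + s2.card = s.card := by rw [← hu, card_union_of_disjoint hd]
    have hs1n : s1.Nonempty := card_pos.1 (by omega)
    have hs2n : s2.Nonempty := card_pos.1 (by omega)
    have hy1 : ∀ i ∈ s1, y i ≠ 0 := fun i hi => hy i (hs1 hi)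
    have hy2 : ∀ i ∈ s2, y i ≠ 0 := fun i hi => hy i (by rw [← hu]; exact mem_union_right _ hi)
    have hNpos : (0:ℝ) < s.card := by exact_mod_cast hpos
    have hl : 0 < A * √(s.card : ℝ) / 2 := by
      have := Real.sqrt_pos.2 hNpos
      positivity
    have k1 := st_half s1 s2 hd hs2n y hy2 (A * √(s.card : ℝ) / 2) hl t
    have k2 := st_half s2 s1 hd.symm hs1n y hy1 (A * √(s.card : ℝ) / 2) hl t
    rw [hu] at k1
    rw [union_comm, hu] at k2
    have hsub : (s.powerset.filter (fun B => ∑ i ∈ B, y i = t ∧ A * √(s.card : ℝ) ≤ |(B.card : ℝ) - (s.card : ℝ) / 2|))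
        ⊆ (s.powerset.filter (fun B => ∑ i ∈ B, y i = t ∧
            A * √(s.card : ℝ) / 2 ≤ |((B ∩ s1).card : ℝ) - (s1.card : ℝ) / 2|)) ∪
          (s.powerset.filter (fun B => ∑ i ∈ B, y i = t ∧
            A * √(s.card : ℝ) / 2 ≤ |((B ∩ s2).card : ℝ) - (s2.card : ℝ) / 2|)) := by
      intro B hB
      rw [mem_filter, mem_powerset] at hB
      obtain ⟨hBs, hsum, hbig⟩ := hB
      have hBu : B = (B ∩ s1) ∪ (B ∩ s2) := by
        rw [← inter_union_distrib_left, hu, inter_eq_left.2 hBs]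
      have hdis : Disjoint (B ∩ s1) (B ∩ s2) :=
        disjoint_of_subset_left inter_subset_right (disjoint_of_subset_right inter_subset_right hd)
      have hcB : (B.card : ℝ) = (B ∩ s1).card + (B ∩ s2).card := by
        have : B.card = (B ∩ s1).card + (B ∩ s2).card := by
          conv_lhs => rw [hBu]
          rw [card_union_of_disjoint hdis]
        exact_mod_cast this
      have hcs : (s.card : ℝ) = s1.card + s2.card := by exact_mod_cast hc12.symm
      rw [mem_union, mem_filter, mem_filter, mem_powerset]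
      by_contra hcon
      rw [not_or] at hcon
      obtain ⟨n1, n2⟩ := hcon
      have m1 : |((B ∩ s1).card : ℝ) - (s1.card : ℝ) / 2| < A * √(s.card : ℝ) / 2 := by
        by_contra h; exact n1 ⟨hBs, hsum, not_lt.1 h⟩
      have m2 : |((B ∩ s2).card : ℝ) - (s2.card : ℝ) / 2| < A * √(s.card : ℝ) / 2 := by
        by_contra h; exact n2 ⟨hBs, hsum, not_lt.1 h⟩
      have h3 : (B.card : ℝ) - (s.card : ℝ) / 2 =
          (((B ∩ s1).card : ℝ) - (s1.card : ℝ) / 2) + (((B ∩ s2).card : ℝ) - (s2.card : ℝ) / 2) := by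
        rw [hcB, hcs]; ring
      rw [h3] at hbig
      have := abs_add_le (((B ∩ s1).card : ℝ) - (s1.card : ℝ) / 2) (((B ∩ s2).card : ℝ) - (s2.card : ℝ) / 2)
      linarith
    have hle : ((s.powerset.filter (fun B => ∑ i ∈ B, y i = t ∧ A * √(s.card : ℝ) ≤ |(B.card : ℝ) - (s.card : ℝ) / 2|)).card : ℝ)
        ≤ ((s.powerset.filter (fun B => ∑ i ∈ B, y i = t ∧
            A * √(s.card : ℝ) / 2 ≤ |((B ∩ s1).card : ℝ) - (s1.card : ℝ) / 2|)).card : ℝ) +
          ((s.powerset.filter (fun B => ∑ i ∈ B, y i = t ∧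
            A * √(s.card : ℝ) / 2 ≤ |((B ∩ s2).card : ℝ) - (s2.card : ℝ) / 2|)).card : ℝ) := by
      have := le_trans (card_le_card hsub) (card_union_le _ _)
      exact_mod_cast this
    have hfin := st_real (s.card : ℝ) (s1.card : ℝ) (s2.card : ℝ) A hA hNpos (by exact_mod_cast hc12)
      (by
        have : s.card ≤ 4 * s1.card := by omega
        have : (s.card : ℝ) ≤ 4 * s1.card := by exact_mod_cast this
        linarith)
      (by
        have : s.card ≤ 4 * s2.card := by omega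
        have : (s.card : ℝ) ≤ 4 * s2.card := by exact_mod_cast this
        linarith)
    rw [div_le_iff₀ (by positivity)]
    have h2N : (2:ℝ) ^ s.card = 2 ^ s1.card * 2 ^ s2.card := by rw [← hc12, pow_add]
    refine le_trans (hle.trans (add_le_add k1 k2)) ?_
    rw [h2N]
    have hP : (0:ℝ) < 2 ^ s1.card * 2 ^ s2.card := by positivity
    have := mul_le_mul_of_nonneg_right hfin hP.le
    refine le_trans (le_of_eq ?_) this
    ring

-- TARGET (prove this)
theorem typical {ι : Type} (s : Finset ι) (hs : s.Nonempty) (y : ι → ℝ) (hy : ∀ i ∈ s, y i ≠ 0)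
    (A c : ℝ) (hA : 0 < A) (hAc : 100 / A ^ 2 < c) (hc : c / √(s.card : ℝ) ≤ pr s y 0) :
    ∃ B ⊆ s, ∑ i ∈ B, y i = 0 ∧ |(B.card : ℝ) - (s.card : ℝ) / 2| < A * √(s.card : ℝ) := by
  by_contra hcon
  push Not at hcon
  have hst := size_tail s hs y hy A hA 0
  have hN : (0:ℝ) < s.card := by exact_mod_cast card_pos.2 hs
  have hsN : 0 < √(s.card : ℝ) := Real.sqrt_pos.2 hN
  have hle : pr s y 0 ≤ ((s.powerset.filter (fun B => ∑ i ∈ B, y i = 0 ∧ A * √(s.card : ℝ) ≤ |(B.card : ℝ) - (s.card : ℝ) / 2|)).card : ℝ)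
      / 2 ^ s.card := by
    unfold pr cnt
    apply div_le_div_of_nonneg_right _ (by positivity)
    have : (s.powerset.filter (fun B => ∑ i ∈ B, y i = 0)).card ≤
        (s.powerset.filter (fun B => ∑ i ∈ B, y i = 0 ∧ A * √(s.card : ℝ) ≤ |(B.card : ℝ) - (s.card : ℝ) / 2|)).card := by
      apply card_le_card
      intro B hB
      rw [mem_filter, mem_powerset] at hB ⊢
      exact ⟨hB.1, hB.2, hcon B hB.1 hB.2⟩
    exact_mod_cast this
  have h1 : 100 / (A ^ 2 * √(s.card : ℝ)) < c / √(s.card : ℝ) := by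
    rw [← div_div]
    exact div_lt_div_of_pos_right hAc hsN
  linarith


end JH1
export JH1 (size_tail typical)
end ZA
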