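import Pool.Agent.Helper470.ZA.DefsB
set_option autoImplicit false
open Finset
open scoped Classical

namespace ZA
namespace JH10


-- TARGET (prove this)
theorem dd_facts (r : ℕ) (hr : 1 ≤ r) : 2 ≤ dd r ∧ ¬ dd r ∣ r ∧ ∀ q : ℕ, 1 ≤ q → q < dd r → q ∣ r := by
  have hne : {q : ℕ | 1 ≤ q ∧ ¬ q ∣ r}.Nonempty :=
    ⟨r + 1, by omega, fun h => by
      have := Nat.le_of_dvd (by omega) h
      omega⟩
  have hmem : dd r ∈ {q : ℕ | 1 ≤ q ∧ ¬ q ∣ r} := Nat.sInf_mem hne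
  obtain ⟨h1, h2⟩ := hmem
  refine ⟨?_, h2, ?_⟩
  · rcases Nat.lt_or_ge (dd r) 2 with h | h
    · exfalso
      have h3 : dd r = 1 := by omega
      rw [h3] at h2
      exact h2 (one_dvd r)
    · exact h
  · intro q hq hqd
    by_contra hcon
    exact Nat.notMem_of_lt_sInf (s := {q : ℕ | 1 ≤ q ∧ ¬ q ∣ r}) hqd ⟨hq, hcon⟩


-- TARGET (prove this)
theorem dd_le (r d : ℕ) (hd : 1 ≤ d) (h : ¬ d ∣ r) : dd r ≤ d := by
  exact Nat.sInf_le (s := {q : ℕ | 1 ≤ q ∧ ¬ q ∣ r}) ⟨hd, h⟩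



end JH10
export JH10 (dd_facts dd_le)
end ZA
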