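import Pool.Agent.Helper470.ZA.Defs
import Pool.Agent.Helper470.ZA.H1
set_option autoImplicit false
open Finset
open scoped Classical

namespace ZA
namespace JH2




-- TARGET (prove this)
theorem size_bound {ι : Type} (s : Finset ι) (hs : s.Nonempty) (y : ι → ℝ) (hy : ∀ i ∈ s, y i ≠ 0)
    (A c : ℝ) (hA : 0 < A) (hAc : 100 / A ^ 2 < c) (hc : c / √(s.card : ℝ) ≤ pr s y 0)
    (n r : ℕ) (hr : 1 ≤ r) (hrn : r ≤ n) (hsn : s.card ≤ n) (hz : n - r < s.card)
    (hadm : ∀ B ⊆ s, ∑ i ∈ B, y i = 0 → r < B.card ∨ B.card + (n - s.card) < r) :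
    ((max (n - r) (2 * min r (n - r)) : ℕ) : ℝ) ≤ s.card + 2 * A * √(s.card : ℝ) := by
  obtain ⟨B, hB, hB0, hBc⟩ := typical s hs y hy A c hA hAc hc
  have hBs : B.card ≤ s.card := Finset.card_le_card hB
  have hsq : 0 ≤ √(s.card : ℝ) := Real.sqrt_nonneg _
  have hAs : 0 ≤ A * √(s.card : ℝ) := mul_nonneg hA.le hsq
  obtain ⟨h1, h2⟩ := abs_lt.mp hBc
  have hmain : ((2 * min r (n - r) : ℕ) : ℝ) ≤ s.card + 2 * A * √(s.card : ℝ) := by
    rcases hadm B hB hB0 with h | h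
    · have h3 : 2 * min r (n - r) ≤ 2 * B.card := by
        have := Nat.min_le_left r (n - r)
        omega
      have h4 : ((2 * min r (n - r) : ℕ) : ℝ) ≤ ((2 * B.card : ℕ) : ℝ) := by exact_mod_cast h3
      push_cast at h4 ⊢
      linarith
    · have h3 : 2 * min r (n - r) + 2 * B.card ≤ 2 * s.card := by
        have := Nat.min_le_right r (n - r)
        omega
      have h4 : ((2 * min r (n - r) + 2 * B.card : ℕ) : ℝ) ≤ ((2 * s.card : ℕ) : ℝ) := by
        exact_mod_cast h3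
      push_cast at h4 ⊢
      linarith
  have h5 : ((n - r : ℕ) : ℝ) ≤ s.card + 2 * A * √(s.card : ℝ) := by
    have h6 : ((n - r : ℕ) : ℝ) ≤ (s.card : ℝ) := by exact_mod_cast hz.le
    nlinarith
  rw [Nat.cast_max]
  exact max_le h5 hmain



end JH2
export JH2 (size_bound)
end ZA
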