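import Pool.Agent.Helper470.ZA.DefsB
import Pool.Agent.Helper470.ZA.B2
import Pool.Agent.Helper470.ZA.H10
import Pool.Agent.Helper470.ZA.H2
set_option autoImplicit false
open Finset
open scoped Classical

namespace ZA
namespace JH11








theorem zl_num (η : ℝ) (hη : 0 < η) (hη1 : η ≤ 1) : (1 / 2 + η / 16) * √(4 + η) ≤ 1 + η := by
  apply le_of_sq_le_sq _ (by linarith)
  rw [mul_pow, Real.sq_sqrt (by linarith)]
  have h1 : 0 ≤ η ^ 2 * (1 - η) := mul_nonneg (sq_nonneg _) (by linarith)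
  have h2 : 0 ≤ η ^ 2 := sq_nonneg _
  have h3 : (1 / 2 + η / 16) ^ 2 * (4 + η) = 1 + η / 2 + 5 / 64 * η ^ 2 + 1 / 256 * η ^ 3 := by
    ring
  have h4 : (1 + η) ^ 2 = 1 + 2 * η + η ^ 2 := by ring
  have h5 : η ^ 2 * (1 - η) = η ^ 2 - η ^ 3 := by ring
  rw [h3, h4]
  rw [h5] at h1
  linarith

-- TARGET (prove this)
set_option maxHeartbeats 4000000 in
theorem lin1 (η : ℝ) (hη : 0 < η) (hη1 : η ≤ 1) : ∃ N0 : ℕ, ∀ {ι : Type} (s : Finset ι) (y : ι → ℝ) (n r : ℕ),
    N0 ≤ s.card → 1 ≤ r → r < n → s.card ≤ n → n - r < s.card → (∀ i ∈ s, y i ≠ 0) →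
    (∀ B ⊆ s, ∑ i ∈ B, y i = 0 → r < B.card ∨ B.card + (n - s.card) < r) →
    (1 + η) * √(2 / (Real.pi * VV n r)) < pr s y 0 →
    (1 / 2 + η / 16) * √(2 / (Real.pi * s.card)) < pr s y 0 ∧ (s.card : ℝ) ≤ 13 * ((n - r : ℕ) : ℝ) := by
  refine ⟨max 1 ⌈(240 / η) ^ 2⌉₊, ?_⟩
  intro ι s y n r hN0 hr hrn hsn hz hy hadm hpr
  obtain ⟨N, hN⟩ : ∃ N : ℝ, N = (s.card : ℝ) := ⟨_, rfl⟩
  have hs1 : 1 ≤ s.card := le_trans (le_max_left _ _) hN0
  have hs : s.Nonempty := Finset.card_pos.1 (by omega)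
  have hNge : (240 / η) ^ 2 ≤ N := by
    rw [hN]
    exact le_trans (Nat.le_ceil _) (by exact_mod_cast le_trans (le_max_right _ _) hN0)
  have hNpos : 0 < N := by
    have : 0 < (240 / η) ^ 2 := by positivity
    linarith
  have hsq : 240 / η ≤ √N := Real.le_sqrt_of_sq_le hNge
  have hsq' : 240 ≤ η * √N := by
    rw [div_le_iff₀ hη] at hsq
    linarith
  have hss : √N * √N = N := Real.mul_self_sqrt hNpos.le
  have hsqpos : 0 < √N := Real.sqrt_pos.2 hNpos
  have h240 : 240 * √N ≤ η * N := by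
    calc 240 * √N ≤ (η * √N) * √N := mul_le_mul_of_nonneg_right hsq' hsqpos.le
      _ = η * N := by rw [mul_assoc, hss]
  -- V
  have hk1 : 1 ≤ n - r := by omega
  have hNs1 : n - r ≤ Ns n r := le_max_left _ _
  have hNs2 : Ns n r ≤ 2 * (n - r) := by
    unfold Ns
    apply max_le (by omega)
    have := min_le_right r (n - r)
    omega
  have hV1 : VV n r ≤ 4 * Ns n r := min_le_right _ _
  have hV0 : 1 ≤ VV n r := by
    unfold VV
    apply le_min
    · have h1 := (dd_facts r hr).1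
      have h2 : 1 ≤ dd r - 1 := by omega
      have h3 : 1 ≤ n := by omega
      calc 1 = 1 * 1 := rfl
        _ ≤ (dd r - 1) * n := Nat.mul_le_mul h2 h3
    · omega
  obtain ⟨V, hV⟩ : ∃ V : ℝ, V = (VV n r : ℝ) := ⟨_, rfl⟩
  obtain ⟨k, hk⟩ : ∃ k : ℝ, k = ((n - r : ℕ) : ℝ) := ⟨_, rfl⟩
  have hVpos : 0 < V := by
    rw [hV]; exact_mod_cast hV0
  have hV8 : V ≤ 8 * k := by
    rw [hV, hk]
    have : VV n r ≤ 8 * (n - r) := by omega
    exact_mod_cast this
  have hkN : k < N := by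
    rw [hk, hN]; exact_mod_cast hz
  have hπ : 0 < Real.pi := Real.pi_pos
  have hπ2 : Real.pi < 3.15 := Real.pi_lt_d2
  rw [← hV] at hpr
  have hLO := pr_le_LO s hs y hy 0
  rw [← hN] at hLO
  rw [← hN, ← hk]
  have hq0 : 0 < √(2 / (Real.pi * V)) := Real.sqrt_pos.2 (by positivity)
  have hlt1 : √(2 / (Real.pi * V)) < pr s y 0 := by
    have : √(2 / (Real.pi * V)) ≤ (1 + η) * √(2 / (Real.pi * V)) := by nlinarith
    linarith
  constructor
  · have hc : (1 / 4) / √(s.card : ℝ) ≤ pr s y 0 := by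
      rw [← hN]
      refine le_trans ?_ hlt1.le
      apply Real.le_sqrt_of_sq_le
      rw [div_pow, Real.sq_sqrt hNpos.le, div_le_div_iff₀ hNpos (by positivity)]
      have h1 : Real.pi * V ≤ 3.15 * (8 * N) :=
        mul_le_mul hπ2.le (by linarith) hVpos.le (by norm_num)
      nlinarith
    have hsb := size_bound s hs y hy 30 (1 / 4) (by norm_num) (by norm_num) hc n r hr hrn.le hsn
      hz hadm
    have hNsr : (Ns n r : ℝ) ≤ N + 60 * √N := by
      rw [← hN] at hsb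
      have : (Ns n r : ℝ) = ((max (n - r) (2 * min r (n - r)) : ℕ) : ℝ) := rfl
      rw [this]
      linarith
    have hVle : V ≤ (4 + η) * N := by
      have h1 : V ≤ 4 * (Ns n r : ℝ) := by
        rw [hV]; exact_mod_cast hV1
      linarith
    have h4 : 0 < √(4 + η) := Real.sqrt_pos.2 (by linarith)
    have h5 : (1 / 2 + η / 16) * √(4 + η) ≤ 1 + η := zl_num η hη hη1
    have h6 : √(2 / (Real.pi * N)) ≤ √(4 + η) * √(2 / (Real.pi * V)) := by
      rw [← Real.sqrt_mul (by linarith)]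
      apply Real.sqrt_le_sqrt
      rw [← mul_div_assoc, div_le_div_iff₀ (by positivity) (by positivity)]
      have := mul_le_mul_of_nonneg_left hVle (show (0 : ℝ) ≤ Real.pi * 2 by positivity)
      nlinarith
    refine lt_of_le_of_lt ?_ hpr
    calc (1 / 2 + η / 16) * √(2 / (Real.pi * N))
        ≤ (1 / 2 + η / 16) * (√(4 + η) * √(2 / (Real.pi * V))) :=
          mul_le_mul_of_nonneg_left h6 (by positivity)
      _ = ((1 / 2 + η / 16) * √(4 + η)) * √(2 / (Real.pi * V)) := by ring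
      _ ≤ (1 + η) * √(2 / (Real.pi * V)) := mul_le_mul_of_nonneg_right h5 hq0.le
  · have h1 : √(2 / (Real.pi * V)) < 1 / √N := lt_of_lt_of_le hlt1 hLO
    have h2 : 2 / (Real.pi * V) < (1 / √N) ^ 2 := by
      have h3 := Real.sq_sqrt (show (0 : ℝ) ≤ 2 / (Real.pi * V) by positivity)
      rw [← h3]
      exact pow_lt_pow_left₀ h1 hq0.le (by norm_num)
    rw [div_pow, Real.sq_sqrt hNpos.le, div_lt_div_iff₀ (by positivity) hNpos] at h2
    have h3 : Real.pi * V ≤ 3.15 * (8 * k) := mul_le_mul hπ2.le hV8 hVpos.le (by norm_num)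
    have hkpos : 0 < k := by
      rw [hk]; exact_mod_cast hk1
    nlinarith


end JH11
export JH11 (lin1)
end ZA
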