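import Pool.Agent.Helper470.ZA.Defs
set_option autoImplicit false
open Finset
open scoped Classical

namespace ZA
namespace JH6


-- TARGET (prove this)
theorem bezout_W (K : ℕ) : ∃ C : ℕ, ∀ W : Finset ℤ, (∀ w ∈ W, |w| ≤ (K : ℤ)) → W.Nonempty →
    ∃ g : ℤ, (∀ w ∈ W, ∀ w' ∈ W, g ∣ w - w') ∧
      ∃ β : ℤ → ℤ, ∑ w ∈ W, β w = 0 ∧ ∑ w ∈ W, w * β w = g ∧ ∀ w ∈ W, |β w| ≤ (C : ℤ) := by
  have bez : ∀ (f : ℤ → ℤ) (T : Finset ℤ), ∃ c : ℤ → ℤ, ∀ t ∈ T, (∑ u ∈ T, c u * f u) ∣ f t := by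
    intro f T
    induction T using Finset.induction_on with
    | empty => exact ⟨fun _ => 0, by simp⟩
    | insert a T' ha ih =>
      obtain ⟨c, hc⟩ := ih
      set S := ∑ u ∈ T', c u * f u with hS
      refine ⟨fun u => if u = a then Int.gcdA (f a) S else Int.gcdB (f a) S * c u, ?_⟩
      have h1 : ∑ u ∈ insert a T', (if u = a then Int.gcdA (f a) S else Int.gcdB (f a) S * c u) * f u
          = (Int.gcd (f a) S : ℤ) := by
        rw [Finset.sum_insert ha, if_pos rfl, Int.gcd_eq_gcd_ab]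
        have h2 : ∑ u ∈ T', (if u = a then Int.gcdA (f a) S else Int.gcdB (f a) S * c u) * f u
            = Int.gcdB (f a) S * S := by
          rw [hS, Finset.mul_sum]
          refine Finset.sum_congr rfl fun u hu => ?_
          rw [if_neg (show ¬ u = a from fun h => ha (h ▸ hu))]
          ring
        rw [h2]
        ring
      intro t ht
      rw [h1]
      rcases Finset.mem_insert.1 ht with rfl | ht
      · exact Int.gcd_dvd_left ..
      · exact (Int.gcd_dvd_right ..).trans (hc t ht)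
  have one : ∀ W : Finset ℤ, ∃ β : ℤ → ℤ, W.Nonempty → ∃ g : ℤ, (∀ w ∈ W, ∀ w' ∈ W, g ∣ w - w') ∧
      ∑ w ∈ W, β w = 0 ∧ ∑ w ∈ W, w * β w = g := by
    intro W
    by_cases hW : W.Nonempty
    · obtain ⟨w0, hw0⟩ := hW
      obtain ⟨c, hc⟩ := bez (fun w => w - w0) W
      refine ⟨fun w => c w - (if w = w0 then ∑ u ∈ W, c u else 0), fun _ =>
        ⟨∑ u ∈ W, c u * (u - w0), ?_, ?_, ?_⟩⟩
      · intro w hw w' hw'
        have h1 := dvd_sub (hc w hw) (hc w' hw')
        have h2 : (w - w0) - (w' - w0) = w - w' := by ring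
        rw [h2] at h1
        exact h1
      · rw [Finset.sum_sub_distrib, Finset.sum_ite_eq' W w0, if_pos hw0, sub_self]
      · have h1 : ∀ w ∈ W, w * (c w - (if w = w0 then ∑ u ∈ W, c u else 0))
            = c w * w - (if w = w0 then w0 * ∑ u ∈ W, c u else 0) := by
          intro w _
          split_ifs with h
          · rw [h]; ring
          · ring
        rw [Finset.sum_congr rfl h1, Finset.sum_sub_distrib, Finset.sum_ite_eq' W w0, if_pos hw0,
          Finset.mul_sum, ← Finset.sum_sub_distrib]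
        refine Finset.sum_congr rfl fun u _ => ?_
        ring
    · exact ⟨fun _ => 0, fun h => absurd h hW⟩
  choose β hβ using one
  refine ⟨∑ W ∈ (Finset.Icc (-(K : ℤ)) K).powerset, ∑ w ∈ W, (β W w).natAbs, ?_⟩
  intro W hWK hWn
  obtain ⟨g, h1, h2, h3⟩ := hβ W hWn
  refine ⟨g, h1, β W, h2, h3, ?_⟩
  intro w hw
  have hWm : W ∈ (Finset.Icc (-(K : ℤ)) K).powerset := by
    rw [Finset.mem_powerset]
    intro x hx
    rw [Finset.mem_Icc]
    exact abs_le.1 (hWK x hx)
  have h4 : (β W w).natAbs ≤ ∑ w ∈ W, (β W w).natAbs :=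
    Finset.single_le_sum (f := fun w => (β W w).natAbs) (fun _ _ => Nat.zero_le _) hw
  have h5 : ∑ w ∈ W, (β W w).natAbs
      ≤ ∑ W ∈ (Finset.Icc (-(K : ℤ)) K).powerset, ∑ w ∈ W, (β W w).natAbs :=
    Finset.single_le_sum (f := fun W => ∑ w ∈ W, (β W w).natAbs) (fun _ _ => Nat.zero_le _) hWm
  rw [Int.abs_eq_natAbs]
  exact_mod_cast h4.trans h5


end JH6
export JH6 (bezout_W)
end ZA
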