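import Pool.Agent.Helper470.ZA.Defs
import Pool.Agent.Helper470.ZA.H6
set_option autoImplicit false
open Finset
open scoped Classical

namespace ZA
namespace JH5




-- TARGET (prove this)
theorem zsum_int (K : ℕ) (hK : 1 ≤ K) : ∃ C : ℕ, ∀ (W : Finset ℤ) (c : ℤ → ℕ) (μ : ℤ → ℝ) (r : ℕ),
    (∀ w ∈ W, |w| ≤ (K : ℤ)) → W.Nonempty → ∑ w ∈ W, μ w = r → ∑ w ∈ W, (w : ℝ) * μ w = 0 →
    (∀ w ∈ W, (C : ℝ) ≤ μ w ∧ μ w + C ≤ c w) →
    (∀ d : ℕ, (∀ w ∈ W, ∀ w' ∈ W, (d : ℤ) ∣ w - w') → d ∣ r) →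
    ∃ m : ℤ → ℕ, (∀ w ∈ W, m w ≤ c w) ∧ ∑ w ∈ W, m w = r ∧ ∑ w ∈ W, w * (m w : ℤ) = 0 := by
  classical
  obtain ⟨Cb, hCb⟩ := bezout_W K
  refine ⟨(2 * K + 1) + K * (2 * K + 1) ^ 2 * Cb, ?_⟩
  intro W c μ r hW hne hsum hwsum hC hdiv
  obtain ⟨g, hg, β, hβ0, hβg, hβC⟩ := hCb W hW hne
  obtain ⟨w0, hw0⟩ := hne
  -- card bound
  have hcard : W.card ≤ 2 * K + 1 := by
    have h1 : W ⊆ Finset.Icc (-(K : ℤ)) K := by
      intro w hw
      have := abs_le.1 (hW w hw)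
      exact Finset.mem_Icc.2 this
    have h2 := Finset.card_le_card h1
    rw [Int.card_Icc] at h2
    omega
  -- the rounded vector
  set m' : ℤ → ℤ := fun w => if w = w0 then (r : ℤ) - ∑ v ∈ W.erase w0, ⌊μ v⌋ else ⌊μ w⌋ with hm'
  have hm'0 : m' w0 = (r : ℤ) - ∑ v ∈ W.erase w0, ⌊μ v⌋ := by simp [hm']
  have hm'1 : ∀ w, w ≠ w0 → m' w = ⌊μ w⌋ := fun w hw => by simp [hm', hw]
  have hs1 : ∑ w ∈ W, m' w = r := by
    rw [← Finset.add_sum_erase W m' hw0, hm'0,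
      Finset.sum_congr rfl (fun w hw => hm'1 w (Finset.ne_of_mem_erase hw))]
    ring
  have herr : ∀ w ∈ W, |(m' w : ℝ) - μ w| ≤ 2 * K + 1 := by
    intro w hw
    by_cases h : w = w0
    · subst h
      have h1 : (m' w : ℝ) - μ w = ∑ v ∈ W.erase w, (μ v - (⌊μ v⌋ : ℝ)) := by
        rw [hm'0, Finset.sum_sub_distrib]
        push_cast
        rw [← hsum, ← Finset.add_sum_erase W μ hw0]
        ring
      rw [h1]
      refine (Finset.abs_sum_le_sum_abs _ _).trans ?_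
      have h2 : ∑ v ∈ W.erase w, |μ v - (⌊μ v⌋ : ℝ)| ≤ ∑ v ∈ W.erase w, (1 : ℝ) := by
        refine Finset.sum_le_sum fun v _ => ?_
        rw [abs_le]
        constructor
        · linarith [Int.floor_le (μ v)]
        · linarith [Int.lt_floor_add_one (μ v)]
      refine h2.trans ?_
      rw [Finset.sum_const, nsmul_eq_mul, mul_one]
      have h3 : (W.erase w).card ≤ 2 * K + 1 := (Finset.card_erase_le).trans hcard
      exact_mod_cast h3
    · rw [hm'1 w h, abs_le]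
      have hK0 : (0 : ℝ) ≤ K := Nat.cast_nonneg K
      constructor
      · linarith [Int.lt_floor_add_one (μ w)]
      · linarith [Int.floor_le (μ w)]
  set t : ℤ := ∑ w ∈ W, w * m' w with ht
  have htb : |(t : ℝ)| ≤ K * (2 * K + 1) ^ 2 := by
    have h1 : (t : ℝ) = ∑ w ∈ W, (w : ℝ) * ((m' w : ℝ) - μ w) := by
      rw [ht]
      push_cast
      simp only [mul_sub]
      rw [Finset.sum_sub_distrib, hwsum, sub_zero]
    rw [h1]
    refine (Finset.abs_sum_le_sum_abs _ _).trans ?_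
    have h2 : ∑ w ∈ W, |(w : ℝ) * ((m' w : ℝ) - μ w)| ≤ ∑ w ∈ W, ((K : ℝ) * (2 * K + 1)) := by
      refine Finset.sum_le_sum fun w hw => ?_
      rw [abs_mul]
      refine mul_le_mul ?_ (herr w hw) (abs_nonneg _) (Nat.cast_nonneg K)
      have := hW w hw
      exact_mod_cast this
    refine h2.trans ?_
    rw [Finset.sum_const, nsmul_eq_mul]
    have h3 : (W.card : ℝ) ≤ 2 * K + 1 := by exact_mod_cast hcard
    have h4 : (0 : ℝ) ≤ (K : ℝ) * (2 * K + 1) := by positivity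
    calc (W.card : ℝ) * ((K : ℝ) * (2 * K + 1)) ≤ (2 * K + 1) * ((K : ℝ) * (2 * K + 1)) :=
          mul_le_mul_of_nonneg_right h3 h4
      _ = K * (2 * K + 1) ^ 2 := by ring
  have hgr : g ∣ (r : ℤ) := by
    have h1 := hdiv g.natAbs (fun w hw w' hw' => Int.natAbs_dvd.2 (hg w hw w' hw'))
    have h2 : ((g.natAbs : ℕ) : ℤ) ∣ (r : ℤ) := Int.natCast_dvd_natCast.2 h1
    exact Int.natAbs_dvd.1 h2
  have hgt : g ∣ t := by
    have h1 : t = ∑ w ∈ W, (w - w0) * m' w + w0 * r := by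
      rw [ht, ← hs1, Finset.mul_sum, ← Finset.sum_add_distrib]
      refine Finset.sum_congr rfl fun w _ => ?_
      ring
    rw [h1]
    refine dvd_add (Finset.dvd_sum fun w hw => ?_) (Dvd.dvd.mul_left hgr w0)
    exact Dvd.dvd.mul_right (hg w hw w0 hw0) _
  obtain ⟨j, hj, hjt⟩ : ∃ j : ℤ, t = g * j ∧ |j| ≤ |t| := by
    by_cases hg0 : g = 0
    · refine ⟨0, ?_, by simp⟩
      rw [hg0] at hgt
      rw [hg0, zero_mul]
      exact zero_dvd_iff.1 hgt
    · obtain ⟨j, hj⟩ := hgt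
      refine ⟨j, hj, ?_⟩
      rw [hj, abs_mul]
      have h1 : 1 ≤ |g| := Int.one_le_abs hg0
      nlinarith [abs_nonneg j]
  have hjb : |(j : ℝ)| ≤ K * (2 * K + 1) ^ 2 := by
    refine le_trans ?_ htb
    exact_mod_cast hjt
  have hclose : ∀ w ∈ W, |((m' w - j * β w : ℤ) : ℝ) - μ w|
      ≤ ((2 * K + 1) + K * (2 * K + 1) ^ 2 * Cb : ℕ) := by
    intro w hw
    have h1 : ((m' w - j * β w : ℤ) : ℝ) - μ w = ((m' w : ℝ) - μ w) - (j : ℝ) * (β w : ℝ) := by
      push_cast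
      ring
    rw [h1]
    refine (abs_sub _ _).trans ?_
    rw [abs_mul]
    have h2 : |(β w : ℝ)| ≤ Cb := by exact_mod_cast hβC w hw
    have h3 : |(j : ℝ)| * |(β w : ℝ)| ≤ (K * (2 * K + 1) ^ 2) * Cb :=
      mul_le_mul hjb h2 (abs_nonneg _) (by positivity)
    have h4 := herr w hw
    push_cast
    linarith
  have hnn : ∀ w ∈ W, 0 ≤ m' w - j * β w := by
    intro w hw
    have h1 := (abs_le.1 (hclose w hw)).1
    have h2 := (hC w hw).1
    have h3 : (0 : ℝ) ≤ ((m' w - j * β w : ℤ) : ℝ) := by linarith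
    exact_mod_cast h3
  have hle : ∀ w ∈ W, m' w - j * β w ≤ c w := by
    intro w hw
    have h1 := (abs_le.1 (hclose w hw)).2
    have h2 := (hC w hw).2
    have h3 : ((m' w - j * β w : ℤ) : ℝ) ≤ (c w : ℝ) := by linarith
    exact_mod_cast h3
  refine ⟨fun w => (m' w - j * β w).toNat, ?_, ?_, ?_⟩
  · intro w hw
    have h1 := hnn w hw
    have h2 := hle w hw
    show (m' w - j * β w).toNat ≤ c w
    omega
  · have h1 : ((∑ w ∈ W, (m' w - j * β w).toNat : ℕ) : ℤ) = (r : ℤ) := by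
      rw [Nat.cast_sum, Finset.sum_congr rfl (fun w hw => Int.toNat_of_nonneg (hnn w hw)),
        Finset.sum_sub_distrib, hs1, ← Finset.mul_sum, hβ0]
      ring
    exact_mod_cast h1
  · rw [Finset.sum_congr rfl (fun w hw => by
      rw [Int.toNat_of_nonneg (hnn w hw)] : ∀ w ∈ W,
        w * (((m' w - j * β w).toNat : ℕ) : ℤ) = w * (m' w - j * β w))]
    have h1 : ∑ w ∈ W, w * (m' w - j * β w) = t - j * ∑ w ∈ W, w * β w := by
      rw [ht, Finset.mul_sum, ← Finset.sum_sub_distrib]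
      refine Finset.sum_congr rfl fun w _ => ?_
      ring
    rw [h1, hβg, hj]
    ring


end JH5
export JH5 (zsum_int)
end ZA
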