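import Pool.Agent.Helper470.ZA.Defs
import Pool.Agent.Helper470.ZA.H5
set_option autoImplicit false
open Finset
open scoped Classical

namespace ZA
namespace JH7




theorem zsum_ab (n N r κ nP nQ MP MQ σ : ℝ) (hN1 : 1 ≤ N) (hκ : 0 < κ)
    (hn1 : 99 / 100 * N ≤ n) (hn2 : n ≤ N)
    (hσ1 : |σ| ≤ 1 / 100 * N) (hr1 : κ * N ≤ r) (hr2 : r ≤ 19 / 20 * N)
    (hnP0 : 0 < nP) (hnQ0 : 0 < nQ) (hMP : 0.49 * N ≤ MP) (hMQ : 0.49 * N ≤ MQ) :
    ∃ lam a b : ℝ, a * nQ = b * nP ∧ a * MQ + b * MP = lam * σ ∧ lam * n = r ∧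
      |a| ≤ lam / 49 ∧ |b| ≤ lam / 49 ∧ κ ≤ lam ∧ lam ≤ 0.96 := by
  have hn0 : 0 < n := by linarith
  have hMP0 : 0 < MP := by linarith
  have hMQ0 : 0 < MQ := by linarith
  obtain ⟨lam, hlam⟩ : ∃ x : ℝ, x = r / n := ⟨_, rfl⟩
  have hlam1 : κ ≤ lam := by
    rw [hlam, le_div_iff₀ hn0]
    have : κ * n ≤ κ * N := mul_le_mul_of_nonneg_left hn2 hκ.le
    linarith
  have hlam0 : 0 < lam := lt_of_lt_of_le hκ hlam1
  have hlam2 : lam ≤ 0.96 := by
    rw [hlam, div_le_iff₀ hn0]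
    linarith
  obtain ⟨Den, hDen⟩ : ∃ x : ℝ, x = nP * MQ + nQ * MP := ⟨_, rfl⟩
  have hDen0 : 0 < Den := by rw [hDen]; positivity
  refine ⟨lam, lam * σ * nP / Den, lam * σ * nQ / Den, ?_, ?_, ?_, ?_, ?_, hlam1, hlam2⟩
  · ring
  · rw [div_mul_eq_mul_div, div_mul_eq_mul_div, ← add_div, div_eq_iff hDen0.ne', hDen]
    ring
  · rw [hlam]; field_simp
  · rw [abs_div, abs_of_pos hDen0, div_le_iff₀ hDen0, abs_mul, abs_mul, abs_of_pos hlam0,
      abs_of_pos hnP0]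
    have h1 : lam * |σ| * nP ≤ lam * (1 / 100 * N) * nP := by gcongr
    have h2 : nP * (0.49 * N) ≤ nP * MQ := mul_le_mul_of_nonneg_left hMQ hnP0.le
    have h3 : 0 ≤ nQ * MP := by positivity
    have h4 : lam / 49 * (nP * (0.49 * N)) ≤ lam / 49 * Den := by
      refine mul_le_mul_of_nonneg_left ?_ (by positivity)
      rw [hDen]
      linarith
    have h5 : lam * (1 / 100 * N) * nP = lam / 49 * (nP * (0.49 * N)) := by ring
    linarith
  · rw [abs_div, abs_of_pos hDen0, div_le_iff₀ hDen0, abs_mul, abs_mul, abs_of_pos hlam0,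
      abs_of_pos hnQ0]
    have h1 : lam * |σ| * nQ ≤ lam * (1 / 100 * N) * nQ := by gcongr
    have h2 : nQ * (0.49 * N) ≤ nQ * MP := mul_le_mul_of_nonneg_left hMP hnQ0.le
    have h3 : 0 ≤ nP * MQ := by positivity
    have h4 : lam / 49 * (nQ * (0.49 * N)) ≤ lam / 49 * Den := by
      refine mul_le_mul_of_nonneg_left ?_ (by positivity)
      rw [hDen]
      linarith
    have h5 : lam * (1 / 100 * N) * nQ = lam / 49 * (nQ * (0.49 * N)) := by ring
    linarith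

/-- facts about the positive and negative parts -/
theorem zsum_parts {ι : Type} (S : Finset ι) (z : ι → ℤ) (N : ℝ) (hN1 : 1 ≤ N)
    (hz : ∀ i ∈ S, z i ≠ 0) (hn1 : 99 / 100 * N ≤ (S.card : ℝ))
    (hσ : |∑ i ∈ S, (z i : ℝ)| ≤ 1 / 100 * N) :
    ((S.filter (fun i => z i < 0)).card : ℝ) + ((S.filter (fun i => ¬ z i < 0)).card : ℝ) =
      (S.card : ℝ) ∧
    ∑ i ∈ S, (z i : ℝ) = ∑ i ∈ S.filter (fun i => ¬ z i < 0), (z i : ℝ) -
      (-∑ i ∈ S.filter (fun i => z i < 0), (z i : ℝ)) ∧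
    0 < ((S.filter (fun i => ¬ z i < 0)).card : ℝ) ∧
    0 < ((S.filter (fun i => z i < 0)).card : ℝ) ∧
    0.49 * N ≤ ∑ i ∈ S.filter (fun i => ¬ z i < 0), (z i : ℝ) ∧
    0.49 * N ≤ -∑ i ∈ S.filter (fun i => z i < 0), (z i : ℝ) := by
  have hcard : ((S.filter (fun i => z i < 0)).card : ℝ) +
      ((S.filter (fun i => ¬ z i < 0)).card : ℝ) = (S.card : ℝ) := by
    have := Finset.card_filter_add_card_filter_not (s := S) (fun i => z i < 0)
    exact_mod_cast this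
  have hσe := Finset.sum_filter_add_sum_filter_not S (fun i => z i < 0) (fun i => (z i : ℝ))
  have hMQn : ((S.filter (fun i => z i < 0)).card : ℝ) ≤
      -∑ i ∈ S.filter (fun i => z i < 0), (z i : ℝ) := by
    rw [Finset.cast_card, ← Finset.sum_neg_distrib]
    refine Finset.sum_le_sum fun i hi => ?_
    have h1 : z i < 0 := (Finset.mem_filter.1 hi).2
    have h2 : z i ≤ -1 := by omega
    have h3 : (z i : ℝ) ≤ -1 := by exact_mod_cast h2
    linarith
  have hMPn : ((S.filter (fun i => ¬ z i < 0)).card : ℝ) ≤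
      ∑ i ∈ S.filter (fun i => ¬ z i < 0), (z i : ℝ) := by
    rw [Finset.cast_card]
    refine Finset.sum_le_sum fun i hi => ?_
    have h0 := Finset.mem_filter.1 hi
    have h1 : ¬ z i < 0 := h0.2
    have h2 : z i ≠ 0 := hz i h0.1
    have h3 : 1 ≤ z i := by omega
    exact_mod_cast h3
  have hσ' := abs_le.1 hσ
  rw [← hσe] at hσ'
  have hMPlow : 0.49 * N ≤ ∑ i ∈ S.filter (fun i => ¬ z i < 0), (z i : ℝ) := by
    linarith [hσ'.1]
  have hMQlow : 0.49 * N ≤ -∑ i ∈ S.filter (fun i => z i < 0), (z i : ℝ) := by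
    linarith [hσ'.2]
  refine ⟨hcard, ?_, ?_, ?_, hMPlow, hMQlow⟩
  · rw [← hσe]; ring
  · rcases (Nat.cast_nonneg (S.filter (fun i => ¬ z i < 0)).card :
      (0 : ℝ) ≤ _).lt_or_eq with h | h
    · exact h
    · exfalso
      have h1 : S.filter (fun i => ¬ z i < 0) = ∅ := by
        rw [← Finset.card_eq_zero]
        exact_mod_cast h.symm
      rw [h1, Finset.sum_empty] at hMPlow
      linarith
  · rcases (Nat.cast_nonneg (S.filter (fun i => z i < 0)).card :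
      (0 : ℝ) ≤ _).lt_or_eq with h | h
    · exact h
    · exfalso
      have h1 : S.filter (fun i => z i < 0) = ∅ := by
        rw [← Finset.card_eq_zero]
        exact_mod_cast h.symm
      rw [h1, Finset.sum_empty] at hMQlow
      linarith

/-- choosing the subset -/
theorem zsum_choose {ι : Type} (S : Finset ι) (z : ι → ℤ) (m : ℤ → ℕ) (r : ℕ)
    (hm1 : ∀ w ∈ S.image z, m w ≤ (S.filter (fun i => z i = w)).card)
    (hm2 : ∑ w ∈ S.image z, m w = r) (hm3 : ∑ w ∈ S.image z, w * (m w : ℤ) = 0) :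
    ∃ B ⊆ S, B.card = r ∧ ∑ i ∈ B, z i = 0 := by
  have hex : ∀ w : ℤ, ∃ t ⊆ S.filter (fun i => z i = w), (w ∈ S.image z → t.card = m w) := by
    intro w
    by_cases hw : w ∈ S.image z
    · obtain ⟨t, ht1, ht2⟩ := Finset.exists_subset_card_eq (hm1 w hw)
      exact ⟨t, ht1, fun _ => ht2⟩
    · exact ⟨∅, Finset.empty_subset _, fun h => absurd h hw⟩
  choose t ht1 ht2 using hex
  have htz : ∀ w, ∀ i ∈ t w, z i = w := fun w i hi => (Finset.mem_filter.1 (ht1 w hi)).2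
  have hdisj : ∀ w ∈ S.image z, ∀ w' ∈ S.image z, w ≠ w' → Disjoint (t w) (t w') := by
    intro w _ w' _ hne
    rw [Finset.disjoint_left]
    intro i hi hi'
    exact hne ((htz w i hi).symm.trans (htz w' i hi'))
  refine ⟨(S.image z).biUnion t, ?_, ?_, ?_⟩
  · intro i hi
    obtain ⟨w, _, hiw⟩ := Finset.mem_biUnion.1 hi
    exact (Finset.mem_filter.1 (ht1 w hiw)).1
  · rw [Finset.card_biUnion hdisj, ← hm2]
    exact Finset.sum_congr rfl fun w hw => ht2 w hw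
  · rw [Finset.sum_biUnion hdisj, ← hm3]
    refine Finset.sum_congr rfl fun w hw => ?_
    rw [Finset.sum_congr rfl (fun i hi => htz w i hi), Finset.sum_const, ht2 w hw,
      nsmul_eq_mul, mul_comm]

/-- the two sums -/
theorem zsum_sums {ι : Type} (S : Finset ι) (z : ι → ℤ) (r lam a b : ℝ) (nP nQ MP MQ : ℝ)
    (hnQ : nQ = ((S.filter (fun i => z i < 0)).card : ℝ))
    (hnP : nP = ((S.filter (fun i => ¬ z i < 0)).card : ℝ))
    (hMQ : MQ = -∑ i ∈ S.filter (fun i => z i < 0), (z i : ℝ))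
    (hMP : MP = ∑ i ∈ S.filter (fun i => ¬ z i < 0), (z i : ℝ))
    (h1 : a * nQ = b * nP) (h2 : a * MQ + b * MP = lam * (MP - MQ)) (h3 : lam * (nQ + nP) = r) :
    ∑ w ∈ S.image z, (if w < 0 then lam + a else lam - b) *
        ((S.filter (fun i => z i = w)).card : ℝ) = r ∧
      ∑ w ∈ S.image z, (w : ℝ) * ((if w < 0 then lam + a else lam - b) *
        ((S.filter (fun i => z i = w)).card : ℝ)) = 0 := by
  have hcW : ∀ g : ℤ → ℝ, ∑ w ∈ S.image z, g w * ((S.filter (fun i => z i = w)).card : ℝ) =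
      ∑ i ∈ S, g (z i) := by
    intro g
    rw [Finset.sum_comp g z]
    refine Finset.sum_congr rfl fun w _ => ?_
    rw [nsmul_eq_mul, mul_comm]
  constructor
  · rw [hcW (fun w => if w < 0 then lam + a else lam - b), Finset.sum_ite, Finset.sum_const,
      Finset.sum_const, nsmul_eq_mul, nsmul_eq_mul, ← hnQ, ← hnP]
    rw [← h3]
    linear_combination h1
  · have h0 : ∀ w ∈ S.image z, (w : ℝ) * ((if w < 0 then lam + a else lam - b) *
        ((S.filter (fun i => z i = w)).card : ℝ)) =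
        ((w : ℝ) * (if w < 0 then lam + a else lam - b)) *
        ((S.filter (fun i => z i = w)).card : ℝ) := by
      intro w _; ring
    rw [Finset.sum_congr rfl h0, hcW (fun w => (w : ℝ) * (if w < 0 then lam + a else lam - b))]
    have h4 : ∀ i ∈ S, (z i : ℝ) * (if z i < 0 then lam + a else lam - b) =
        if z i < 0 then (z i : ℝ) * (lam + a) else (z i : ℝ) * (lam - b) := by
      intro i _
      split_ifs <;> rfl
    rw [Finset.sum_congr rfl h4, Finset.sum_ite, ← Finset.sum_mul, ← Finset.sum_mul, ← hMP]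
    have h5 : ∑ i ∈ S.filter (fun i => z i < 0), (z i : ℝ) = -MQ := by rw [hMQ, neg_neg]
    rw [h5]
    linear_combination -h2

-- TARGET (prove this)
theorem zsum (K : ℕ) (δ κ : ℝ) (hK : 1 ≤ K) (hδ : 0 < δ) (hκ : 0 < κ) : ∃ N0 : ℕ,
    ∀ {ι : Type} (S : Finset ι) (z : ι → ℤ) (N r : ℕ), N0 ≤ N → (∀ i ∈ S, z i ≠ 0 ∧ |z i| ≤ (K : ℤ)) →
    (99 / 100 : ℝ) * N ≤ S.card → S.card ≤ N →
    (∀ i ∈ S, δ * N ≤ ((S.filter (fun j => z j = z i)).card : ℝ)) →
    |∑ i ∈ S, (z i : ℝ)| ≤ (1 / 100 : ℝ) * N → κ * N ≤ (r : ℝ) → (r : ℝ) ≤ (19 / 20 : ℝ) * N →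
    (∀ d : ℕ, (∀ i ∈ S, ∀ j ∈ S, (d : ℤ) ∣ z i - z j) → d ∣ r) →
    ∃ B ⊆ S, B.card = r ∧ ∑ i ∈ B, z i = 0 := by
  obtain ⟨C, hC⟩ := zsum_int K hK
  refine ⟨⌈(C : ℝ) / (0.016 * δ)⌉₊ + ⌈(C : ℝ) / (0.9 * κ * δ)⌉₊ + 1, ?_⟩
  intro ι S z N r hN hz hS1 hS2 hmul hσ hr1 hr2 hdiv
  have hNr : ((⌈(C : ℝ) / (0.016 * δ)⌉₊ : ℕ) : ℝ) + ((⌈(C : ℝ) / (0.9 * κ * δ)⌉₊ : ℕ) : ℝ) + 1 ≤ N := by
    exact_mod_cast hN
  have hn1 : (0 : ℝ) ≤ ((⌈(C : ℝ) / (0.016 * δ)⌉₊ : ℕ) : ℝ) := Nat.cast_nonneg _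
  have hn2 : (0 : ℝ) ≤ ((⌈(C : ℝ) / (0.9 * κ * δ)⌉₊ : ℕ) : ℝ) := Nat.cast_nonneg _
  have hc1 : (C : ℝ) ≤ 0.016 * δ * N := by
    have h1 := Nat.le_ceil ((C : ℝ) / (0.016 * δ))
    have h2 : (C : ℝ) / (0.016 * δ) ≤ N := by linarith
    rw [div_le_iff₀ (by positivity)] at h2
    linarith
  have hc2 : (C : ℝ) ≤ 0.9 * κ * δ * N := by
    have h1 := Nat.le_ceil ((C : ℝ) / (0.9 * κ * δ))
    have h2 : (C : ℝ) / (0.9 * κ * δ) ≤ N := by linarith
    rw [div_le_iff₀ (by positivity)] at h2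
    linarith
  have hN1 : (1 : ℝ) ≤ N := by linarith
  clear hNr hn1 hn2 hN
  have hS2' : (S.card : ℝ) ≤ N := by exact_mod_cast hS2
  have hSne : S.Nonempty := by
    rw [← Finset.card_pos]
    have : (0 : ℝ) < (S.card : ℝ) := by linarith
    exact_mod_cast this
  obtain ⟨p1, p2, p3, p4, p5, p6⟩ := zsum_parts S z N hN1 (fun i hi => (hz i hi).1) hS1 hσ
  obtain ⟨lam, a, b, q1, q2, q3, q4, q5, q6, q7⟩ := zsum_ab (S.card : ℝ) N r κ _ _ _ _ _ hN1 hκ
    hS1 hS2' hσ hr1 hr2 p3 p4 p5 p6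
  obtain ⟨s1, s2⟩ := zsum_sums S z r lam a b _ _ _ _ rfl rfl rfl rfl q1 (by rw [q2, p2])
    (by rw [p1, q3])
  have ha' := abs_le.1 q4
  have hb' := abs_le.1 q5
  have hlam0 : 0 < lam := lt_of_lt_of_le hκ q6
  have hψ1 : ∀ w : ℤ, (48 / 49) * lam ≤ (if w < 0 then lam + a else lam - b) := by
    intro w
    split_ifs
    · linarith [ha'.1]
    · linarith [hb'.2]
  have hψ2 : ∀ w : ℤ, (if w < 0 then lam + a else lam - b) ≤ (50 / 49) * lam := by
    intro w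
    split_ifs
    · linarith [ha'.2]
    · linarith [hb'.1]
  have hmain := hC (S.image z) (fun w => (S.filter (fun i => z i = w)).card)
    (fun w => (if w < 0 then lam + a else lam - b) * ((S.filter (fun i => z i = w)).card : ℝ)) r
    ?_ (hSne.image z) s1 s2 ?_ ?_
  · obtain ⟨m, hm1, hm2, hm3⟩ := hmain
    exact zsum_choose S z m r hm1 hm2 hm3
  · intro w hw
    obtain ⟨i, hi, rfl⟩ := Finset.mem_image.1 hw
    exact (hz i hi).2
  · intro w hw
    have h1 : δ * N ≤ ((S.filter (fun i => z i = w)).card : ℝ) := by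
      obtain ⟨i, hi, rfl⟩ := Finset.mem_image.1 hw
      exact hmul i hi
    have h2 := hψ1 w
    have h3 := hψ2 w
    generalize (if w < 0 then lam + a else lam - b) = ψ at h2 h3 ⊢
    generalize ((S.filter (fun i => z i = w)).card : ℝ) = cw at h1 ⊢
    have hδN : 0 < δ * N := by positivity
    have hcw0 : 0 ≤ cw := by linarith
    constructor
    · have h4 : (48 / 49) * κ * (δ * N) ≤ ψ * cw :=
        mul_le_mul (by linarith) h1 hδN.le (by linarith)
      have h5 : 0.9 * κ * δ * N ≤ (48 / 49) * κ * (δ * N) := by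
        have : 0 ≤ κ * (δ * N) := by positivity
        nlinarith
      linarith
    · have h4 : ψ ≤ 0.984 := by linarith
      have h5 : ψ * cw ≤ 0.984 * cw := mul_le_mul_of_nonneg_right h4 hcw0
      have h6 : 0.016 * δ * N ≤ 0.016 * cw := by nlinarith
      linarith
  · intro d hd
    refine hdiv d ?_
    intro i hi j hj
    exact hd (z i) (Finset.mem_image_of_mem z hi) (z j) (Finset.mem_image_of_mem z hj)


end JH7
export JH7 (zsum)
end ZA
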