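import Pool.Agent.Helper470.ZA.DefsB
import Pool.Agent.Helper470.ZA.H7
set_option autoImplicit false
open Finset
open scoped Classical

namespace ZA
namespace JH12




-- TARGET (prove this)
theorem lin2 (κ : ℝ) (hκ : 0 < κ) (K : ℕ) (hK : 1 ≤ K) (δ : ℝ) (hδ : 0 < δ) : ∃ N0 : ℕ,
    ∀ {ι : Type} (s S : Finset ι) (z : ι → ℤ) (n r : ℕ),
    N0 ≤ s.card → 1 ≤ r → r ≤ n → s.card ≤ n → n - r < s.card → κ * n ≤ (r : ℝ) →
    (s.card : ℝ) ≤ 13 * ((n - r : ℕ) : ℝ) →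
    (∀ B ⊆ s, ∑ i ∈ B, z i = 0 → r < B.card ∨ B.card + (n - s.card) < r) →
    S ⊆ s → (∀ i ∈ S, z i ≠ 0 ∧ |z i| ≤ (K : ℤ)) →
    (∀ i ∈ S, δ * s.card ≤ ((S.filter (fun j => z j = z i)).card : ℝ)) →
    ((s \ S).card : ℝ) ≤ (1 / 256 : ℝ) * s.card → |∑ i ∈ S, (z i : ℝ)| ≤ (1 / 100 : ℝ) * s.card →
    n ≤ s.card + 2 * K ∧ ∃ d : ℕ, 2 ≤ d ∧ (∀ i ∈ S, ∀ j ∈ S, (d : ℤ) ∣ z i - z j) ∧ ¬ d ∣ r := by
  classical
  obtain ⟨κ2, hκ2⟩ : ∃ κ2 : ℝ, κ2 = min κ (1 / 2) / 2 := ⟨_, rfl⟩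
  have hκ2pos : 0 < κ2 := by rw [hκ2]; exact half_pos (lt_min hκ (by norm_num))
  have hκ2a : 2 * κ2 ≤ κ := by
    rw [hκ2]
    have := min_le_left κ (1 / 2)
    linarith
  have hκ2b : κ2 ≤ 1 / 4 := by
    rw [hκ2]
    have := min_le_right κ (1 / 2)
    linarith
  obtain ⟨N1, hz⟩ := zsum K δ κ2 hK hδ hκ2pos
  refine ⟨max N1 (⌈(260 / 7 : ℝ) * (4 * K + 4)⌉₊ + ⌈(4 * K + 4 : ℝ) / κ2⌉₊ + 1), ?_⟩
  intro ι s S z n r hN hr1 hrn hsn hnr hκr hs13 hadm hSs hzS hcls hsS hsum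
  have hN1 : N1 ≤ s.card := (le_max_left _ _).trans hN
  have hN2 : ⌈(260 / 7 : ℝ) * (4 * K + 4)⌉₊ + ⌈(4 * K + 4 : ℝ) / κ2⌉₊ + 1 ≤ s.card :=
    (le_max_right _ _).trans hN
  obtain ⟨N, hNdef⟩ : ∃ N : ℕ, s.card = N := ⟨_, rfl⟩
  simp only [hNdef] at hN1 hN2 hsn hnr hs13 hadm hcls hsS hsum ⊢
  have hKr : (1 : ℝ) ≤ (K : ℝ) := by exact_mod_cast hK
  have hA : (4 * K + 4 : ℝ) ≤ (7 / 260) * N := by
    have h1 : (260 / 7 : ℝ) * (4 * K + 4) ≤ (⌈(260 / 7 : ℝ) * (4 * K + 4)⌉₊ : ℝ) := Nat.le_ceil _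
    have h2 : ⌈(260 / 7 : ℝ) * (4 * K + 4)⌉₊ ≤ N := by omega
    have h3 : ((⌈(260 / 7 : ℝ) * (4 * K + 4)⌉₊ : ℕ) : ℝ) ≤ (N : ℝ) := by exact_mod_cast h2
    linarith
  have hB : (4 * K + 4 : ℝ) ≤ κ2 * N := by
    have h1 : (4 * K + 4 : ℝ) / κ2 ≤ (⌈(4 * K + 4 : ℝ) / κ2⌉₊ : ℝ) := Nat.le_ceil _
    have h2 : ⌈(4 * K + 4 : ℝ) / κ2⌉₊ ≤ N := by omega
    have h3 : ((⌈(4 * K + 4 : ℝ) / κ2⌉₊ : ℕ) : ℝ) ≤ (N : ℝ) := by exact_mod_cast h2
    have h4 : (4 * K + 4 : ℝ) / κ2 ≤ N := h1.trans h3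
    rw [div_le_iff₀ hκ2pos] at h4
    linarith
  have hNpos : (0 : ℝ) < N := by linarith
  have hnrR : ((n - r : ℕ) : ℝ) = (n : ℝ) - r := Nat.cast_sub hrn
  have hsnR : (N : ℝ) ≤ n := by exact_mod_cast hsn
  -- the padding is smaller than r
  have hz0 : n - N < r := by
    have := hadm ∅ (Finset.empty_subset _) (by simp)
    rw [Finset.card_empty] at this
    omega
  have hz0R : ((n - N : ℕ) : ℝ) = (n : ℝ) - N := Nat.cast_sub hsn
  have hrN : 2 * (κ2 * N) ≤ r := by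
    have h1 : κ * N ≤ κ * n := mul_le_mul_of_nonneg_left hsnR hκ.le
    have h2 : (2 * κ2) * N ≤ κ * N := mul_le_mul_of_nonneg_right hκ2a hNpos.le
    linarith
  have hcardS : s.card = (s \ S).card + S.card := (Finset.card_sdiff_add_card_eq_card hSs).symm
  have hScard : (99 / 100 : ℝ) * N ≤ S.card := by
    have h1 : (N : ℝ) = ((s \ S).card : ℝ) + S.card := by
      rw [← hNdef]
      exact_mod_cast hcardS
    linarith
  have hScard' : S.card ≤ N := by rw [← hNdef]; exact Finset.card_le_card hSs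
  have hSne : S.Nonempty := by
    rw [← Finset.card_pos]
    have : (0 : ℝ) < (S.card : ℝ) := by linarith
    exact_mod_cast this
  -- S is not constant
  have hnc : ∃ i ∈ S, ∃ j ∈ S, z i ≠ z j := by
    by_contra hcon
    push Not at hcon
    obtain ⟨i0, hi0⟩ := hSne
    have h1 : ∑ i ∈ S, (z i : ℝ) = S.card * (z i0 : ℝ) := by
      rw [Finset.sum_congr rfl (fun i hi => by rw [hcon i hi i0 hi0] :
        ∀ i ∈ S, (z i : ℝ) = (z i0 : ℝ)), Finset.sum_const, nsmul_eq_mul]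
    rw [h1, abs_mul] at hsum
    have h2 : (1 : ℝ) ≤ |(z i0 : ℝ)| := by
      have := Int.one_le_abs (hzS i0 hi0).1
      exact_mod_cast this
    have h3 : |(S.card : ℝ)| = S.card := abs_of_nonneg (by positivity)
    rw [h3] at hsum
    nlinarith
  obtain ⟨g, hg⟩ : ∃ g : ℕ, g = (S ×ˢ S).gcd (fun q => (z q.1 - z q.2).natAbs) := ⟨_, rfl⟩
  have hgdvd : ∀ d : ℕ, (∀ i ∈ S, ∀ j ∈ S, (d : ℤ) ∣ z i - z j) → d ∣ g := by
    intro d hd
    rw [hg, Finset.dvd_gcd_iff]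
    rintro ⟨i, j⟩ hij
    rw [Finset.mem_product] at hij
    exact Int.natCast_dvd.mp (hd i hij.1 j hij.2)
  have hg2 : g ≤ 2 * K := by
    obtain ⟨i, hi, j, hj, hij⟩ := hnc
    have h1 : g ∣ (z i - z j).natAbs := by
      rw [hg]
      exact Finset.gcd_dvd (f := fun q : ι × ι => (z q.1 - z q.2).natAbs) (b := (i, j))
        (Finset.mem_product.mpr ⟨hi, hj⟩)
    have h2 : 0 < (z i - z j).natAbs := Int.natAbs_pos.mpr (sub_ne_zero.mpr hij)
    have h3 := Nat.le_of_dvd h2 h1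
    have h4 := (hzS i hi).2
    have h5 := (hzS j hj).2
    rw [abs_le] at h4 h5
    omega
  have hg1 : 1 ≤ g := by
    obtain ⟨i, hi, j, hj, hij⟩ := hnc
    have h1 : g ∣ (z i - z j).natAbs := by
      rw [hg]
      exact Finset.gcd_dvd (f := fun q : ι × ι => (z q.1 - z q.2).natAbs) (b := (i, j))
        (Finset.mem_product.mpr ⟨hi, hj⟩)
    rcases Nat.eq_zero_or_pos g with h0 | h0
    · rw [h0, zero_dvd_iff, Int.natAbs_eq_zero, sub_eq_zero] at h1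
      exact absurd h1 hij
    · exact h0
  have hfirst : n ≤ N + 2 * K := by
    by_contra hcon
    push Not at hcon
    obtain ⟨a, ha⟩ : ∃ a : ℕ, a = ⌈κ2 * N⌉₊ := ⟨_, rfl⟩
    obtain ⟨b, hb⟩ : ∃ b : ℕ, b = ⌊(19 / 20 : ℝ) * N⌋₊ := ⟨_, rfl⟩
    have ha1 : κ2 * N ≤ a := by rw [ha]; exact Nat.le_ceil _
    have ha2 : (a : ℝ) < κ2 * N + 1 := by rw [ha]; exact Nat.ceil_lt_add_one (by positivity)
    have hb1 : (b : ℝ) ≤ (19 / 20 : ℝ) * N := by rw [hb]; exact Nat.floor_le (by positivity)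
    have hb2 : (19 / 20 : ℝ) * N < b + 1 := by rw [hb]; exact Nat.lt_floor_add_one _
    have hκN : κ2 * N ≤ (1 / 4) * N := mul_le_mul_of_nonneg_right hκ2b hNpos.le
    have c1 : a + 2 * K ≤ r := by
      have : (a : ℝ) + 2 * K ≤ r := by linarith
      exact_mod_cast this
    have c2 : (r - (n - N)) + 2 * K ≤ b := by
      have h1 : ((r - (n - N) : ℕ) : ℝ) = (r : ℝ) - ((n : ℝ) - N) := by
        rw [Nat.cast_sub hz0.le, hz0R]
      have : ((r - (n - N) : ℕ) : ℝ) + 2 * K ≤ b := by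
        rw [h1]
        rw [hnrR] at hs13
        linarith
      exact_mod_cast this
    have c3 : a + 2 * K ≤ b := by
      have : (a : ℝ) + 2 * K ≤ b := by linarith
      exact_mod_cast this
    obtain ⟨hi, hhi⟩ : ∃ hi : ℕ, hi = min r b := ⟨_, rfl⟩
    obtain ⟨q, hq⟩ : ∃ q : ℕ, q = g * (hi / g) := ⟨_, rfl⟩
    have hq1 : q ≤ hi := by rw [hq]; exact Nat.mul_div_le _ _
    have hq2 : hi < q + g := by
      rw [hq]
      have := Nat.lt_mul_div_succ hi (show 0 < g by omega)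
      rw [Nat.mul_add, Nat.mul_one] at this
      exact this
    have hhi1 : hi ≤ r := by rw [hhi]; exact min_le_left _ _
    have hhi2 : hi ≤ b := by rw [hhi]; exact min_le_right _ _
    have hhi3 : a + 2 * K ≤ hi := by rw [hhi]; exact le_min c1 c3
    have hhi4 : (r - (n - N)) + 2 * K ≤ hi := by
      rw [hhi]
      refine le_min ?_ c2
      omega
    obtain ⟨B, hBS, hBc, hB0⟩ := hz S z N q hN1 hzS hScard hScard' hcls hsum
      (by
        have : (a : ℝ) ≤ q := by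
          have : a ≤ q := by omega
          exact_mod_cast this
        linarith)
      (by
        have : (q : ℝ) ≤ b := by
          have : q ≤ b := by omega
          exact_mod_cast this
        linarith)
      (by
        intro d hd
        exact (hgdvd d hd).trans (by rw [hq]; exact Dvd.intro _ rfl))
    have := hadm B (hBS.trans hSs) hB0
    rw [hBc] at this
    omega
  refine ⟨hfirst, ?_⟩
  by_contra hcon
  push Not at hcon
  have hfR : (n : ℝ) ≤ N + 2 * K := by exact_mod_cast hfirst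
  obtain ⟨B, hBS, hBc, hB0⟩ := hz S z N r hN1 hzS hScard hScard' hcls hsum
    (by
      have : 0 ≤ κ2 * N := by positivity
      linarith)
    (by
      rw [hnrR] at hs13
      linarith)
    (by
      intro d hd
      rcases Nat.lt_or_ge d 2 with h2 | h2
      · interval_cases d
        · exfalso
          obtain ⟨i, hi, j, hj, hij⟩ := hnc
          have := hd i hi j hj
          rw [Nat.cast_zero, zero_dvd_iff, sub_eq_zero] at this
          exact hij this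
        · exact one_dvd _
      · exact hcon d h2 hd)
  have := hadm B (hBS.trans hSs) hB0
  rw [hBc] at this
  omega


end JH12
export JH12 (lin2)
end ZA
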