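import Pool.Agent.Helper470.ZA.Defs
set_option autoImplicit false
open Finset
open scoped Classical

namespace ZA
namespace JH8


-- TARGET (prove this)
theorem core_alg2 {ι : Type} (S : Finset ι) (z : ι → ℤ) (d D : ℕ) (hd : 2 ≤ d)
    (hdiff : ∀ i ∈ S, ∀ j ∈ S, (d : ℤ) ∣ z i - z j) (hgcd : ∀ e : ℕ, (∀ i ∈ S, (e : ℤ) ∣ z i) → e = 1)
    (hD : 2 ≤ D) (hD5 : D ≤ 5) (hDd : D ≤ d) :
    ((D : ℤ) - 1) * S.card - 8 * |∑ i ∈ S, z i| ≤ ∑ i ∈ S, (z i) ^ 2 := by
  rcases S.eq_empty_or_nonempty with rfl | ⟨i0, hi0⟩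
  · simp
  have hd' : (2:ℤ) ≤ d := by exact_mod_cast hd
  have hDd' : (D:ℤ) ≤ d := by exact_mod_cast hDd
  have hD' : (2:ℤ) ≤ D := by exact_mod_cast hD
  have hD5' : (D:ℤ) ≤ 5 := by exact_mod_cast hD5
  obtain ⟨a, ha⟩ : ∃ a : ℤ, a = z i0 % d := ⟨_, rfl⟩
  have ha0 : 0 ≤ a := by rw [ha]; exact Int.emod_nonneg _ (by omega)
  have had : a < d := by rw [ha]; exact Int.emod_lt_of_pos _ (by omega)
  have hane : a ≠ 0 := by
    intro h
    rw [h] at ha
    have h1 : (d:ℤ) ∣ z i0 := Int.dvd_of_emod_eq_zero ha.symm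
    have h2 := hgcd d (fun i hi => by
      have h3 := hdiff i hi i0 hi0
      have h4 := dvd_add h3 h1
      rwa [sub_add_cancel] at h4)
    omega
  have ha1 : 1 ≤ a := by omega
  have hq : ∀ i ∈ S, ∃ q : ℤ, z i = a + d * q := by
    intro i hi
    obtain ⟨c, hc⟩ := hdiff i hi i0 hi0
    refine ⟨c + z i0 / d, ?_⟩
    have h1 := Int.emod_add_mul_ediv (z i0) d
    rw [ha]
    linarith
  have hcard0 : (0:ℤ) ≤ S.card := Int.natCast_nonneg _
  have habs0 : 0 ≤ |∑ i ∈ S, z i| := abs_nonneg _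
  have hDc : ((D : ℤ) - 1) * S.card ≤ 4 * S.card :=
    mul_le_mul_of_nonneg_right (by linarith) hcard0
  have hcoef : (d - 2 * a) * ∑ i ∈ S, z i ≤ (d - 2) * |∑ i ∈ S, z i| := by
    calc (d - 2 * a) * ∑ i ∈ S, z i ≤ |(d - 2 * a) * ∑ i ∈ S, z i| := le_abs_self _
      _ = |(d : ℤ) - 2 * a| * |∑ i ∈ S, z i| := abs_mul _ _
      _ ≤ (d - 2) * |∑ i ∈ S, z i| := by
          refine mul_le_mul_of_nonneg_right ?_ habs0
          rw [abs_le]
          constructor <;> linarith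
  by_cases hd8 : d ≤ 8
  · have hd8' : (d:ℤ) ≤ 8 := by exact_mod_cast hd8
    have hpt : ∀ i ∈ S, a * (d - a) - (d - 2 * a) * z i ≤ (z i) ^ 2 := by
      intro i hi
      obtain ⟨q, hq'⟩ := hq i hi
      have h1 : 0 ≤ q * (q + 1) := by
        rcases le_or_gt 0 q with h | h
        · positivity
        · exact mul_nonneg_of_nonpos_of_nonpos h.le (by omega)
      have h2 : 0 ≤ (d:ℤ) ^ 2 * (q * (q + 1)) := mul_nonneg (sq_nonneg _) h1
      rw [hq']
      nlinarith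
    have hs := Finset.sum_le_sum hpt
    rw [Finset.sum_sub_distrib, Finset.sum_const, nsmul_eq_mul, ← Finset.mul_sum] at hs
    have h3 : (D:ℤ) - 1 ≤ a * (d - a) := by nlinarith
    have h4 : ((D:ℤ) - 1) * S.card ≤ a * (d - a) * S.card :=
      mul_le_mul_of_nonneg_right h3 hcard0
    have h5 : ((d:ℤ) - 2) * |∑ i ∈ S, z i| ≤ 8 * |∑ i ∈ S, z i| :=
      mul_le_mul_of_nonneg_right (by linarith) habs0
    linarith
  · have hd9 : (9:ℤ) ≤ d := by
      have : 9 ≤ d := by omega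
      exact_mod_cast this
    have hpt : ∀ i ∈ S, (d:ℤ) * 1 - (d - 2 * a) * z i ≤ 2 * (z i) ^ 2 := by
      intro i hi
      obtain ⟨q, hq'⟩ := hq i hi
      rcases le_or_gt 0 q with h | h
      · have h1 : a ≤ z i := by
          rw [hq']
          nlinarith
        have h2 : 1 ≤ z i := by linarith
        nlinarith
      · have h1 : z i ≤ a - d := by
          rw [hq']
          nlinarith
        have h2 : z i ≤ -1 := by linarith
        nlinarith
    have hs := Finset.sum_le_sum hpt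
    rw [Finset.sum_sub_distrib, Finset.sum_const, nsmul_eq_mul, ← Finset.mul_sum,
      ← Finset.mul_sum] at hs
    have hsq0 : 0 ≤ ∑ i ∈ S, (z i) ^ 2 := Finset.sum_nonneg fun i _ => sq_nonneg _
    rcases le_or_gt (|∑ i ∈ S, z i|) (S.card : ℤ) with h | h
    · have h6 : 9 * ((S.card : ℤ) - |∑ i ∈ S, z i|) ≤ d * ((S.card : ℤ) - |∑ i ∈ S, z i|) :=
        mul_le_mul_of_nonneg_right hd9 (by linarith)
      nlinarith
    · linarith


end JH8
export JH8 (core_alg2)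
end ZA
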