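import Pool.Agent.Helper470.ZA.Defs
set_option autoImplicit false
open Finset
open scoped Classical

namespace ZA
namespace JH3


-- TARGET (prove this)
theorem step3b {ι : Type} (P : Finset ι) (y : ι → ℝ) (K : ℕ) (m m' : ℝ) (v : ℝ) (hv : 0 < v)
    (k : ι → ℕ) (hk : ∀ i ∈ P, 1 ≤ k i ∧ k i ≤ K ∧ |y i| = k i * v)
    (hgcd : ∀ d : ℕ, (∀ i ∈ P, d ∣ k i) → d = 1)
    (hm : ∀ i ∈ P, m ≤ ((P.filter (fun j => k j = k i)).card : ℝ)) (hm' : 0 < m') (hmm : m' ≤ m / 2) :
    ∃ (S : Finset ι) (z : ι → ℤ), S ⊆ P ∧ (∀ i ∈ S, y i = z i * v ∧ z i ≠ 0 ∧ |z i| ≤ (K : ℤ)) ∧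
      (∀ i ∈ S, m' ≤ ((S.filter (fun j => z j = z i)).card : ℝ)) ∧
      (∀ d : ℕ, (∀ i ∈ S, (d : ℤ) ∣ z i) → d = 1) ∧ ((P \ S).card : ℝ) ≤ 2 * K * m'  := by
  obtain ⟨z, hz⟩ : ∃ z : ι → ℤ, ∀ i, z i = if 0 < y i then (k i : ℤ) else -(k i : ℤ) :=
    ⟨fun i => if 0 < y i then (k i : ℤ) else -(k i : ℤ), fun i => rfl⟩
  have hzor : ∀ i, z i = (k i : ℤ) ∨ z i = -(k i : ℤ) := by
    intro i
    rw [hz]
    split_ifs
    · exact Or.inl rfl
    · exact Or.inr rfl
  have hyz : ∀ i ∈ P, y i = z i * v := by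
    intro i hi
    obtain ⟨-, -, h3⟩ := hk i hi
    rw [hz]
    split_ifs with h
    · rw [abs_of_pos h] at h3
      rw [h3]
      push_cast
      ring
    · rw [abs_of_nonpos (not_lt.1 h)] at h3
      push_cast
      linarith
  have hz0 : ∀ i ∈ P, z i ≠ 0 := by
    intro i hi h0
    obtain ⟨h1, -, -⟩ := hk i hi
    rcases hzor i with h | h <;> omega
  have hzK : ∀ i ∈ P, |z i| ≤ (K : ℤ) := by
    intro i hi
    obtain ⟨h1, h2, -⟩ := hk i hi
    have h3 : (k i : ℤ) ≤ K := by exact_mod_cast h2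
    rcases hzor i with h | h
    · rw [h, abs_of_nonneg (by positivity)]
      exact h3
    · rw [h, abs_neg, abs_of_nonneg (by positivity)]
      exact h3
  obtain ⟨S, hS⟩ : ∃ S : Finset ι,
      S = P.filter (fun i => m' ≤ ((P.filter (fun j => z j = z i)).card : ℝ)) := ⟨_, rfl⟩
  have hSm : ∀ i, i ∈ S ↔ i ∈ P ∧ m' ≤ ((P.filter (fun j => z j = z i)).card : ℝ) := by
    intro i
    rw [hS, Finset.mem_filter]
  have hSP : S ⊆ P := fun i hi => ((hSm i).1 hi).1
  refine ⟨S, z, hSP, fun i hi => ⟨hyz i (hSP hi), hz0 i (hSP hi), hzK i (hSP hi)⟩, ?_, ?_, ?_⟩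
  · intro i hi
    obtain ⟨h1, h2⟩ := (hSm i).1 hi
    have h3 : S.filter (fun j => z j = z i) = P.filter (fun j => z j = z i) := by
      ext j
      rw [Finset.mem_filter, Finset.mem_filter, hSm]
      constructor
      · rintro ⟨⟨h4, -⟩, h5⟩
        exact ⟨h4, h5⟩
      · rintro ⟨h4, h5⟩
        refine ⟨⟨h4, ?_⟩, h5⟩
        rw [h5]
        exact h2
    rw [h3]
    exact h2
  · intro d hd
    apply hgcd d
    intro i hi
    have key : ∀ c : ℤ, (c = (k i : ℤ) ∨ c = -(k i : ℤ)) →
        m' ≤ ((P.filter (fun j => z j = c)).card : ℝ) → d ∣ k i := by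
      intro c hc hcard
      have hne : (P.filter (fun j => z j = c)).Nonempty := by
        rw [← Finset.card_pos]
        have : (0 : ℝ) < ((P.filter (fun j => z j = c)).card : ℝ) := lt_of_lt_of_le hm' hcard
        exact_mod_cast this
      obtain ⟨j, hj⟩ := hne
      rw [Finset.mem_filter] at hj
      have hjS : j ∈ S := by
        rw [hSm, hj.2]
        exact ⟨hj.1, hcard⟩
      have h1 := hd j hjS
      rw [hj.2] at h1
      rcases hc with h | h
      · rw [h] at h1
        exact Int.natCast_dvd_natCast.1 h1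
      · rw [h, dvd_neg] at h1
        exact Int.natCast_dvd_natCast.1 h1
    by_contra hcon
    have h1 : ((P.filter (fun j => z j = (k i : ℤ))).card : ℝ) < m' := by
      by_contra h
      exact hcon (key _ (Or.inl rfl) (not_lt.1 h))
    have h2 : ((P.filter (fun j => z j = -(k i : ℤ))).card : ℝ) < m' := by
      by_contra h
      exact hcon (key _ (Or.inr rfl) (not_lt.1 h))
    have h3 : P.filter (fun j => k j = k i) ⊆
        P.filter (fun j => z j = (k i : ℤ)) ∪ P.filter (fun j => z j = -(k i : ℤ)) := by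
      intro j hj
      rw [Finset.mem_filter] at hj
      rw [Finset.mem_union, Finset.mem_filter, Finset.mem_filter]
      rcases hzor j with h | h
      · left
        exact ⟨hj.1, by rw [h, hj.2]⟩
      · right
        exact ⟨hj.1, by rw [h, hj.2]⟩
    have h4 : (P.filter (fun j => k j = k i)).card ≤
        (P.filter (fun j => z j = (k i : ℤ))).card + (P.filter (fun j => z j = -(k i : ℤ))).card :=
      (Finset.card_le_card h3).trans (Finset.card_union_le _ _)
    have h5 : ((P.filter (fun j => k j = k i)).card : ℝ) ≤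
        ((P.filter (fun j => z j = (k i : ℤ))).card : ℝ) +
          ((P.filter (fun j => z j = -(k i : ℤ))).card : ℝ) := by
      exact_mod_cast h4
    have h6 := hm i hi
    linarith
  · obtain ⟨Z, hZ⟩ : ∃ Z : Finset ℤ, Z = (Finset.Icc (-(K : ℤ)) K).erase 0 := ⟨_, rfl⟩
    have hZc : Z.card = 2 * K := by
      rw [hZ, Finset.card_erase_of_mem, Int.card_Icc]
      · omega
      · rw [Finset.mem_Icc]
        omega
    have hmaps : ∀ i ∈ P \ S, z i ∈ Z := by
      intro i hi
      rw [Finset.mem_sdiff] at hi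
      rw [hZ, Finset.mem_erase, Finset.mem_Icc]
      have h1 := abs_le.1 (hzK i hi.1)
      exact ⟨hz0 i hi.1, h1.1, h1.2⟩
    have hsum := Finset.card_eq_sum_card_fiberwise hmaps
    have hfib : ∀ c ∈ Z, (((P \ S).filter (fun i => z i = c)).card : ℝ) ≤ m' := by
      intro c hc
      rcases ((P \ S).filter (fun i => z i = c)).eq_empty_or_nonempty with h | h
      · rw [h, Finset.card_empty]
        push_cast
        exact hm'.le
      · obtain ⟨i, hi⟩ := h
        rw [Finset.mem_filter, Finset.mem_sdiff] at hi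
        have h1 : ¬ m' ≤ ((P.filter (fun j => z j = z i)).card : ℝ) := fun h =>
          hi.1.2 ((hSm i).2 ⟨hi.1.1, h⟩)
        rw [hi.2] at h1
        have h2 : (P \ S).filter (fun i => z i = c) ⊆ P.filter (fun j => z j = c) :=
          Finset.filter_subset_filter _ Finset.sdiff_subset
        have h3 : (((P \ S).filter (fun i => z i = c)).card : ℝ) ≤
            ((P.filter (fun j => z j = c)).card : ℝ) := by
          exact_mod_cast Finset.card_le_card h2
        linarith [not_le.1 h1]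
    rw [hsum]
    push_cast
    calc ∑ c ∈ Z, (((P \ S).filter (fun i => z i = c)).card : ℝ) ≤ ∑ c ∈ Z, m' :=
          Finset.sum_le_sum hfib
      _ = 2 * K * m' := by
        rw [Finset.sum_const, hZc, nsmul_eq_mul]
        push_cast
        ring


end JH3
export JH3 (step3b)
end ZA
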