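import Pool.Agent.Helper470.ZA.Defs
import Pool.Agent.Helper470.ZA.B1
import Pool.Agent.Helper470.ZA.E13
import Pool.Agent.Helper470.ZA.E14
import Pool.Agent.Helper470.ZA.E15
import Pool.Agent.Helper470.ZA.E6
import Pool.Agent.Helper470.ZA.E7
set_option autoImplicit false
open Finset
open scoped Classical

namespace ZA
namespace JH4
















-- TARGET (prove this)
theorem U_bal (h : ℝ) (hh : 0 < h) (hh1 : h ≤ 1) : 
    ∀ (K : ℕ) (δ : ℝ), 1 ≤ K → 0 < δ → ∃ (N0 : ℕ),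
    ∀ {ι : Type} (s S : Finset ι) (z : ι → ℤ), N0 ≤ s.card → S ⊆ s →
    ((s \ S).card : ℝ) ≤ (h / 16) ^ 2 * s.card → (∀ i ∈ s, z i ≠ 0) → (∀ i ∈ S, |z i| ≤ (K : ℤ)) →
    (∀ i ∈ S, δ * s.card ≤ ((S.filter (fun j => z j = z i)).card : ℝ)) →
    (∀ d : ℕ, (∀ i ∈ S, (d : ℤ) ∣ z i) → d = 1) →
    (1 / 2 + h) * √(2 / (Real.pi * s.card)) < pr s (fun i => (z i : ℝ)) 0 →
    |∑ i ∈ S, (z i : ℝ)| ≤ h / 4 * s.card ∧
    pr s (fun i => (z i : ℝ)) 0 ≤ √(2 / (Real.pi * ∑ i ∈ S, (z i : ℝ) ^ 2)) + (h / 4) / √(s.card : ℝ) := by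
  have h0 : 0 < h := hh
  have h1 : h ≤ 1 := hh1
  obtain ⟨A', hA', hF⟩ := lemmaF (h / 4) (by positivity)
  obtain ⟨A, hA, hAη⟩ : ∃ A : ℝ, 0 < A ∧ 100 / A ^ 2 ≤ h / 4 := by
    have hsq : 0 < √(h / 4) := Real.sqrt_pos.mpr (by positivity)
    refine ⟨10 / √(h / 4), by positivity, ?_⟩
    rw [div_pow, Real.sq_sqrt (by positivity)]
    apply le_of_eq
    field_simp
    norm_num
  intro K δ hK hδ
  obtain ⟨N0F, hF⟩ := hF K δ hK hδ
  obtain ⟨B, N1, hB, h8⟩ := core8 (h / 4) δ A' K (by positivity) hδ hA' hK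
  have hB0 : (0 : ℝ) < B := by exact_mod_cast hB
  obtain ⟨C1, hC1⟩ : ∃ C1 : ℝ, C1 = 4 + 4 * A ^ 2 * B := ⟨_, rfl⟩
  have hC1p : 0 < C1 := by rw [hC1]; positivity
  obtain ⟨ρ, hρ⟩ : ∃ ρ : ℝ, ρ = h / 16 := ⟨_, rfl⟩
  have hρ0 : 0 < ρ := by rw [hρ]; positivity
  obtain ⟨N2, hN2⟩ := exists_nat_ge ((2 * A * B / ρ) ^ 2 + (C1 / (ρ ^ 2 * (h / 4))) ^ 2)
  refine ⟨max (max N0F N1) (max 1 N2), ?_⟩
  intro ι s S z hN hS hSc hz hzK hcl hgcd hlarge
  have hN0F : N0F ≤ s.card := le_trans ((le_max_left _ _).trans (le_max_left _ _)) hN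
  have hN1 : N1 ≤ s.card := le_trans ((le_max_right _ _).trans (le_max_left _ _)) hN
  have hs1 : 1 ≤ s.card := le_trans ((le_max_left _ _).trans (le_max_right _ _)) hN
  have hN2' : N2 ≤ s.card := le_trans ((le_max_right _ _).trans (le_max_right _ _)) hN
  obtain ⟨N, hNdef⟩ : ∃ N : ℝ, N = (s.card : ℝ) := ⟨_, rfl⟩
  have hNpos : 0 < N := by
    rw [hNdef]
    exact_mod_cast hs1
  have hsN : 0 < √N := Real.sqrt_pos.mpr hNpos
  have hsNsq : √N * √N = N := Real.mul_self_sqrt hNpos.le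
  have hNge : (2 * A * B / ρ) ^ 2 + (C1 / (ρ ^ 2 * (h / 4))) ^ 2 ≤ N := by
    refine hN2.trans ?_
    rw [hNdef]
    exact_mod_cast hN2'
  have hsq1 : 2 * A * B / ρ ≤ √N := by
    apply Real.le_sqrt_of_sq_le
    have : 0 ≤ (C1 / (ρ ^ 2 * (h / 4))) ^ 2 := by positivity
    linarith
  have hsq2 : C1 / (ρ ^ 2 * (h / 4)) ≤ √N := by
    apply Real.le_sqrt_of_sq_le
    have : 0 ≤ (2 * A * B / ρ) ^ 2 := by positivity
    linarith
  have hsq1' : 2 * A * B ≤ ρ * √N := by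
    rw [div_le_iff₀ hρ0] at hsq1
    linarith
  have hsq2' : C1 ≤ √N * (ρ ^ 2 * (h / 4)) := by
    rwa [div_le_iff₀ (by positivity)] at hsq2
  rw [← hNdef] at hSc hcl hlarge ⊢
  obtain ⟨T, hT⟩ : ∃ T : ℝ, T = √(2 / (Real.pi * N)) := ⟨_, rfl⟩
  have hTpos : 0 < T := by
    rw [hT]
    have := Real.pi_pos
    exact Real.sqrt_pos.mpr (by positivity)
  rw [← hT] at hlarge
  have hcon : ¬ pr s (fun i => (z i : ℝ)) 0 ≤ (1 / 2 + h) * T := not_le.2 hlarge
  have hc39 : 1 / √N ≤ (4 / 3) * T := by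
    rw [hT]
    exact c39 N hNpos
  have hη1 : (h / 4) / √N ≤ (h / 3) * T := by
    calc (h / 4) / √N = (h / 4) * (1 / √N) := by ring
      _ ≤ (h / 4) * ((4 / 3) * T) := mul_le_mul_of_nonneg_left hc39 (by positivity)
      _ = (h / 3) * T := by ring
  have hε1 : (h / 16) ^ 2 ≤ 1 / 8 := by nlinarith
  have hcardS : ((s \ S).card : ℝ) + (S.card : ℝ) = N := by
    rw [hNdef]
    have := Finset.card_sdiff_add_card_eq_card hS
    exact_mod_cast this
  have hShalf : N / 2 ≤ (S.card : ℝ) := by nlinarith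
  have hSne : S.Nonempty := by
    rw [← Finset.card_pos]
    have : (0 : ℝ) < (S.card : ℝ) := by linarith
    exact_mod_cast this
  -- application of `lemmaF`
  have hFs : ∀ s' : Finset ι, S ⊆ s' → (∀ i ∈ s', i ∉ S → |(z i : ℝ)| ≤ √N / A') →
      ∀ t : ℝ, pr s' (fun i => (z i : ℝ)) t
        ≤ √(2 / (Real.pi * ∑ i ∈ s', (z i : ℝ) ^ 2)) + (h / 4) / √N := by
    intro s' hSs' hsm t
    have := hF s.card s' S z hN0F hSs' (by rw [← hNdef]; exact hShalf)
      (fun i hi => ⟨hz i (hS hi), hzK i hi⟩)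
      (fun i hi => by
        rw [← hNdef]
        refine (hcl i hi).trans ?_
        have : (S.filter (fun j => z j = z i)).card ≤ (S.filter (fun j => |z j| = |z i|)).card := by
          apply Finset.card_le_card
          intro j hj
          rw [Finset.mem_filter] at hj ⊢
          exact ⟨hj.1, by rw [hj.2]⟩
        exact_mod_cast this) hgcd (by rw [← hNdef]; exact hsm) t
    rw [← hNdef] at this
    exact this
  have hFS := hFs S (Finset.Subset.refl S) (fun i hi hni => absurd hi hni)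
  -- case (a) / (d)
  have hbig : ∀ s' : Finset ι, S ⊆ s' → s' ⊆ s →
      (∀ i ∈ s', i ∉ S → |(z i : ℝ)| ≤ √N / A') → 4 * N ≤ ∑ i ∈ s', (z i : ℝ) ^ 2 →
      pr s (fun i => (z i : ℝ)) 0 ≤ (1 / 2 + h) * T := by
    intro s' hSs' hs's hsm hV
    refine pr_le_of_subset s' s hs's _ _ (fun τ => (hFs s' hSs' hsm τ).trans ?_) 0
    have h4 : √(2 / (Real.pi * ∑ i ∈ s', (z i : ℝ) ^ 2)) ≤ T / 2 := by
      have h5 : T / 2 = √(2 / (Real.pi * N) / 4) := by
        rw [Real.sqrt_div' _ (by norm_num), ← hT]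
        congr 1
        rw [show (4 : ℝ) = 2 ^ 2 by norm_num, Real.sqrt_sq (by norm_num)]
      rw [h5]
      apply Real.sqrt_le_sqrt
      have hpi := Real.pi_pos
      rw [div_div]
      apply div_le_div_of_nonneg_left (by norm_num) (by positivity)
      nlinarith
    nlinarith
  by_cases hVS : 4 * N ≤ ∑ i ∈ S, (z i : ℝ) ^ 2
  · exact absurd (hbig S (Finset.Subset.refl S) hS (fun i hi hni => absurd hi hni) hVS) hcon
  push Not at hVS
  by_cases hb : ∃ i0 ∈ s, i0 ∉ S ∧ 2 * A * √N ≤ |(z i0 : ℝ)|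
  · -- case (b)
    obtain ⟨i0, hi0, hi0S, hbg⟩ := hb
    refine absurd ?_ hcon
    have h7 := core7 s S z ((h / 16) ^ 2) (h / 4) A hs1 hS (by positivity) hε1 (by positivity) hA
      hAη (by rw [← hNdef]; exact hSc) hz (by rw [← hNdef]; exact hVS.le)
      (by rw [← hNdef]; exact hFS) i0 hi0 hi0S (by rw [← hNdef]; exact hbg) 0
    rw [← hNdef, ← hT] at h7
    refine h7.trans ?_
    have h9 : (1 : ℝ) / 2 * (1 + (h / 16) ^ 2) ≤ 1 / 2 + h / 3 := by nlinarith
    have h10 := mul_le_mul_of_nonneg_right h9 hTpos.le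
    have h11 : 0 < h * T := by positivity
    nlinarith
  push Not at hb
  -- case (c)
  obtain ⟨M, hM⟩ : ∃ M : Finset ι, M = (s \ S).filter (fun i => √N / A' < |(z i : ℝ)|) := ⟨_, rfl⟩
  obtain ⟨E, hE⟩ : ∃ E : Finset ι, E = (s \ S).filter (fun i => ¬ √N / A' < |(z i : ℝ)|) := ⟨_, rfl⟩
  have hMs : ∀ i ∈ M, i ∈ s ∧ i ∉ S ∧ √N / A' < |(z i : ℝ)| := by
    intro i hi
    rw [hM, Finset.mem_filter, Finset.mem_sdiff] at hi
    exact ⟨hi.1.1, hi.1.2, hi.2⟩
  have hEs : ∀ i ∈ E, i ∈ s ∧ i ∉ S ∧ |(z i : ℝ)| ≤ √N / A' := by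
    intro i hi
    rw [hE, Finset.mem_filter, Finset.mem_sdiff] at hi
    exact ⟨hi.1.1, hi.1.2, not_lt.mp hi.2⟩
  by_cases hMB : B ≤ M.card
  · obtain ⟨i, hi⟩ := hSne
    have h12 := h8 s (S.filter (fun j => z j = z i)) M z (z i) hN1
      ((Finset.filter_subset _ _).trans hS) (fun j hj => (hMs j hj).1)
      (by
        rw [Finset.disjoint_left]
        intro j hj hjM
        exact (hMs j hjM).2.1 (Finset.mem_filter.mp hj).1)
      (hz i (hS hi)) (hzK i hi) (fun j hj => (Finset.mem_filter.mp hj).2)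
      (by rw [← hNdef]; exact hcl i hi) hMB
      (by
        intro j hj
        rw [← hNdef]
        exact (hMs j hj).2.2.le) 0
    rw [← hNdef] at h12
    refine absurd ?_ hcon
    refine h12.trans (hη1.trans ?_)
    apply mul_le_mul_of_nonneg_right _ hTpos.le
    linarith
  push Not at hMB
  -- case (d)
  have hSEs : S ∪ E ⊆ s := Finset.union_subset hS (fun i hi => (hEs i hi).1)
  by_cases hVE : 4 * N ≤ ∑ i ∈ S ∪ E, (z i : ℝ) ^ 2
  · refine absurd (hbig (S ∪ E) Finset.subset_union_left hSEs ?_ hVE) hcon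
    intro i hi hni
    rcases Finset.mem_union.mp hi with h2 | h2
    · exact absurd h2 hni
    · exact (hEs i h2).2.2
  push Not at hVE
  -- case (e)
  have hdSE : Disjoint S E := by
    rw [Finset.disjoint_left]
    intro i hi hiE
    exact (hEs i hiE).2.1 hi
  have hdSM : Disjoint S M := by
    rw [Finset.disjoint_left]
    intro i hi hiM
    exact (hMs i hiM).2.1 hi
  have hdEM : Disjoint E M := by
    rw [Finset.disjoint_left]
    intro i hi hiM
    exact absurd (hMs i hiM).2.2 (not_lt.mpr (hEs i hi).2.2)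
  have hsU : s = S ∪ E ∪ M := by
    ext i
    constructor
    · intro hi
      by_cases hiS : i ∈ S
      · exact Finset.mem_union_left _ (Finset.mem_union_left _ hiS)
      · by_cases hlt : √N / A' < |(z i : ℝ)|
        · apply Finset.mem_union_right
          rw [hM, Finset.mem_filter, Finset.mem_sdiff]
          exact ⟨⟨hi, hiS⟩, hlt⟩
        · apply Finset.mem_union_left
          apply Finset.mem_union_right
          rw [hE, Finset.mem_filter, Finset.mem_sdiff]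
          exact ⟨⟨hi, hiS⟩, hlt⟩
    · intro hi
      rcases Finset.mem_union.mp hi with h2 | h2
      · exact hSEs h2
      · exact (hMs i h2).1
  obtain ⟨h11a, h11b⟩ := core11 s S E M (fun i => (z i : ℝ)) (2 * A * √N) (by positivity) hdSE
    hdSM hdEM hsU (fun i hi => (hb i (hMs i hi).1 (hMs i hi).2.1).le)
  have hMcard : (M.card : ℝ) ≤ B := by exact_mod_cast hMB.le
  have hV : ∑ i ∈ s, ((z i : ℝ)) ^ 2 ≤ C1 * N := by
    refine h11b.trans ?_
    have h13 : (2 * A * √N) ^ 2 = 4 * A ^ 2 * N := by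
      rw [mul_pow, pow_two (√N), hsNsq]
      ring
    rw [h13]
    have h14 : (M.card : ℝ) * (4 * A ^ 2 * N) ≤ B * (4 * A ^ 2 * N) :=
      mul_le_mul_of_nonneg_right hMcard (by positivity)
    rw [hC1]
    linarith
  by_cases hY : ρ * N ≤ |∑ i ∈ s, (z i : ℝ)|
  · have hYne : ∑ i ∈ s, (z i : ℝ) ≠ 0 := by
      intro h0'
      rw [h0', abs_zero] at hY
      have : 0 < ρ * N := by positivity
      linarith
    have h15 := core10 s (fun i => (z i : ℝ)) hYne
    have h16 : (ρ * N) ^ 2 ≤ (∑ i ∈ s, (z i : ℝ)) ^ 2 := by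
      rw [← sq_abs (∑ i ∈ s, (z i : ℝ))]
      exact pow_le_pow_left₀ (by positivity) hY 2
    refine absurd ?_ hcon
    refine h15.trans ?_
    have h17 : (∑ i ∈ s, ((z i : ℝ)) ^ 2) / (∑ i ∈ s, (z i : ℝ)) ^ 2 ≤ C1 * N / (ρ * N) ^ 2 :=
      div_le_div₀ (by positivity) hV (by positivity) h16
    refine h17.trans ?_
    have h18 : C1 * N / (ρ * N) ^ 2 ≤ (h / 4) / √N := by
      rw [div_le_div_iff₀ (by positivity) hsN]
      calc C1 * N * √N ≤ (√N * (ρ ^ 2 * (h / 4))) * N * √N := by gcongr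
        _ = (h / 4) * (ρ ^ 2 * N) * (√N * √N) := by ring
        _ = (h / 4) * (ρ * N) ^ 2 := by rw [hsNsq]; ring
    refine h18.trans (hη1.trans ?_)
    apply mul_le_mul_of_nonneg_right _ hTpos.le
    linarith
  push Not at hY
  -- case (f)
  have hEcard : (E.card : ℝ) ≤ (h / 16) ^ 2 * N := by
    refine le_trans ?_ hSc
    have : E.card ≤ (s \ S).card := by
      rw [hE]
      exact Finset.card_filter_le _ _
    exact_mod_cast this
  have hsqrtE : √((E.card : ℝ) * ∑ i ∈ S ∪ E, ((z i : ℝ)) ^ 2) ≤ 2 * ρ * N := by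
    rw [Real.sqrt_le_left (by positivity)]
    have h19 : 0 ≤ ∑ i ∈ S ∪ E, ((z i : ℝ)) ^ 2 := Finset.sum_nonneg fun i _ => sq_nonneg _
    calc (E.card : ℝ) * ∑ i ∈ S ∪ E, ((z i : ℝ)) ^ 2
        ≤ ((h / 16) ^ 2 * N) * (4 * N) := mul_le_mul hEcard hVE.le h19 (by positivity)
      _ = (2 * ρ * N) ^ 2 := by rw [hρ]; ring
  have hMb : (M.card : ℝ) * (2 * A * √N) ≤ ρ * N := by
    calc (M.card : ℝ) * (2 * A * √N) ≤ B * (2 * A * √N) :=
          mul_le_mul_of_nonneg_right hMcard (by positivity)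
      _ = (2 * A * B) * √N := by ring
      _ ≤ (ρ * √N) * √N := mul_le_mul_of_nonneg_right hsq1' hsN.le
      _ = ρ * N := by rw [mul_assoc, hsNsq]
  have hSsum : |∑ i ∈ S, (z i : ℝ)| ≤ h / 4 * N := by
    refine h11a.trans ?_
    have : h / 4 * N = ρ * N + 2 * ρ * N + ρ * N := by rw [hρ]; ring
    rw [this]
    linarith
  exact ⟨hSsum, pr_le_of_subset S s hS _ _ (fun τ => hFS τ) 0⟩


end JH4
export JH4 (U_bal)
end ZA
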