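import Pool.Agent.Helper470.ZA.Defs
import Pool.Agent.Helper470.ZA.B1
import Pool.Agent.Helper470.ZA.E1
import Pool.Agent.Helper470.ZA.E10
import Pool.Agent.Helper470.ZA.E6
import Pool.Agent.Helper470.ZA.E7
import Pool.Agent.Helper470.ZA.E9
import Pool.Agent.Helper470.ZA.H3
import Pool.Agent.Helper470.ZA.H4
set_option autoImplicit false
open Finset
open scoped Classical

namespace ZA
namespace JH9
























theorem st_zero_181 {ι : Type} (S : Finset ι) (y : ι → ℝ) (v : ℝ) (z : ι → ℤ)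
    (hz : ∀ i ∈ S, y i = z i * v) (τ : ℝ) (hτ : ∀ j : ℤ, τ ≠ j * v) : pr S y τ = 0 := by
  have h : cnt S y τ = 0 := by
    unfold cnt
    rw [Finset.card_eq_zero, Finset.filter_eq_empty_iff]
    intro B hB hsum
    rw [Finset.mem_powerset] at hB
    apply hτ (∑ i ∈ B, z i)
    rw [← hsum, Int.cast_sum, Finset.sum_mul]
    exact Finset.sum_congr rfl fun i hi => hz i (hB hi)
  unfold pr
  rw [h, Nat.cast_zero, zero_div]

theorem st_scale_181 {ι : Type} (S : Finset ι) (y : ι → ℝ) (v : ℝ) (hv : 0 < v) (z : ι → ℤ)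
    (hz : ∀ i ∈ S, y i = z i * v) (τ : ℝ) : pr S y τ = pr S (fun i => (z i : ℝ)) (τ / v) := by
  rw [pr_congr S y (fun i => v * (z i : ℝ)) (fun i hi => by rw [hz i hi]; ring)]
  have h := pr_scale S (fun i => (z i : ℝ)) v hv.ne' (τ / v)
  rw [mul_div_cancel₀ _ hv.ne'] at h
  exact h

theorem st_sqrt_181 (N V ε : ℝ) (hN : 0 < N) (hε : 0 < ε) (hε8 : ε ≤ 1 / 8)
    (hV : (1 - ε) * N ≤ V) : √(2 / (Real.pi * V)) ≤ (1 + ε) * √(2 / (Real.pi * N)) := by
  have hpi := Real.pi_pos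
  have hV0 : 0 < V := lt_of_lt_of_le (mul_pos (by linarith) hN) hV
  rw [Real.sqrt_le_left (by positivity)]
  rw [mul_pow, Real.sq_sqrt (by positivity)]
  have e : (1 + ε) ^ 2 * (2 / (Real.pi * N)) = 2 * (1 + ε) ^ 2 / (Real.pi * N) := by ring
  rw [e, div_le_div_iff₀ (by positivity) (by positivity)]
  have h1 : 1 ≤ (1 + ε) ^ 2 * (1 - ε) := by nlinarith [mul_pos hε hε]
  have h2 : N ≤ (1 + ε) ^ 2 * V := by
    calc N = 1 * N := by ring
      _ ≤ ((1 + ε) ^ 2 * (1 - ε)) * N := mul_le_mul_of_nonneg_right h1 hN.le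
      _ = (1 + ε) ^ 2 * ((1 - ε) * N) := by ring
      _ ≤ (1 + ε) ^ 2 * V := mul_le_mul_of_nonneg_left hV (by positivity)
  nlinarith


-- TARGET (prove this)
theorem struct (h : ℝ) (hh : 0 < h) (hh1 : h ≤ 1) : ∃ (K : ℕ) (δ : ℝ) (N0 : ℕ), 1 ≤ K ∧ 0 < δ ∧
    ∀ {ι : Type} (s : Finset ι) (y : ι → ℝ), N0 ≤ s.card → (∀ i ∈ s, y i ≠ 0) →
    (1 / 2 + h) * √(2 / (Real.pi * s.card)) < pr s y 0 →
    ∃ (S : Finset ι) (z : ι → ℤ) (v : ℝ), 0 < v ∧ S ⊆ s ∧ (∀ i ∈ s, y i = z i * v) ∧ (∀ i ∈ s, z i ≠ 0) ∧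
      (∀ i ∈ S, |z i| ≤ (K : ℤ)) ∧ (∀ i ∈ S, δ * s.card ≤ ((S.filter (fun j => z j = z i)).card : ℝ)) ∧
      (∀ d : ℕ, (∀ i ∈ S, (d : ℤ) ∣ z i) → d = 1) ∧ ((s \ S).card : ℝ) ≤ (h / 16) ^ 2 * s.card ∧
      |∑ i ∈ S, (z i : ℝ)| ≤ h / 4 * s.card ∧
      pr s y 0 ≤ √(2 / (Real.pi * ∑ i ∈ S, (z i : ℝ) ^ 2)) + (h / 4) / √(s.card : ℝ) := by
  obtain ⟨ε, hε⟩ : ∃ ε : ℝ, ε = (h / 16) ^ 2 := ⟨_, rfl⟩
  have hh0 : 0 < h := hh
  have hε1 : 0 < ε := by rw [hε]; positivity
  have hε3 : ε ≤ h / 2 := by rw [hε]; nlinarith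
  have hε4 : ε ≤ 1 / 8 := by rw [hε]; nlinarith
  obtain ⟨δ0, hδ0, hδ1, hstep0⟩ := step0 (1 / 4) (ε / 2) (by norm_num) (by positivity)
  obtain ⟨Q, hQ, N1, hstep1⟩ := step1 (1 / 4) δ0 (by norm_num) hδ0
  obtain ⟨K, hK, hlat⟩ := lattice Q (by omega)
  have hKr : (1 : ℝ) ≤ (K : ℝ) := by exact_mod_cast hK
  obtain ⟨δ, hδ⟩ : ∃ δ : ℝ, δ = min (δ0 / 2) (ε / (4 * K)) := ⟨_, rfl⟩
  have hδpos : 0 < δ := by rw [hδ]; exact lt_min (by positivity) (by positivity)
  have hδa : δ ≤ δ0 / 2 := by rw [hδ]; exact min_le_left _ _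
  have hδb : δ ≤ ε / (4 * K) := by rw [hδ]; exact min_le_right _ _
  obtain ⟨A, hA, hF⟩ := lemmaF (h / 4) (by positivity)
  obtain ⟨N3, hF3⟩ := hF K δ hK hδpos
  obtain ⟨N2, hUb⟩ := U_bal h hh hh1 K δ hK hδpos
  refine ⟨K, δ, max N1 (max N2 (max N3 1)), hK, hδpos, ?_⟩
  intro ι s y hN hy hbig
  have hN1 : N1 ≤ s.card := (le_max_left _ _).trans hN
  have hN2 : N2 ≤ s.card := ((le_max_left _ _).trans (le_max_right _ _)).trans hN
  have hN3 : N3 ≤ s.card :=
    (((le_max_left _ _).trans (le_max_right _ _)).trans (le_max_right _ _)).trans hN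
  have hN4 : 1 ≤ s.card :=
    (((le_max_right _ _).trans (le_max_right _ _)).trans (le_max_right _ _)).trans hN
  have hNr : (0 : ℝ) < (s.card : ℝ) := by exact_mod_cast hN4
  have hsne : s.Nonempty := Finset.card_pos.1 hN4
  obtain ⟨T, hT⟩ : ∃ T : ℝ, T = √(2 / (Real.pi * s.card)) := ⟨_, rfl⟩
  have hT0 : 0 ≤ T := by rw [hT]; exact Real.sqrt_nonneg _
  have h39 : 1 / √(s.card : ℝ) ≤ (4 / 3) * T := by rw [hT]; exact c39 _ hNr
  have hbig' : (1 / 2 + h) * T < pr s y 0 := by rw [hT]; exact hbig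
  have hquart : ¬ (pr s y 0 ≤ (1 / 4) / √(s.card : ℝ)) := by
    intro hx
    have e : (1 / 4 : ℝ) / √(s.card : ℝ) = (1 / 4) * (1 / √(s.card : ℝ)) := by ring
    rw [e] at hx
    have h1 : 0 ≤ h * T := mul_nonneg hh0.le hT0
    nlinarith
  have hun : ((s.filter (fun i => (mult s y i : ℝ) < δ0 * s.card)).card : ℝ) <
      (ε / 2) * s.card := by
    by_contra hcon
    exact hquart (hstep0 s y 0 hsne (not_lt.1 hcon))
  obtain ⟨P, hP⟩ : ∃ P : Finset ι, P = s.filter (fun i => δ0 * s.card ≤ (mult s y i : ℝ)) :=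
    ⟨_, rfl⟩
  have hPs : P ⊆ s := by rw [hP]; exact Finset.filter_subset _ _
  have hPm : ∀ i, i ∈ P ↔ i ∈ s ∧ δ0 * s.card ≤ (mult s y i : ℝ) := by
    intro i; rw [hP, Finset.mem_filter]
  have hsP : ((s \ P).card : ℝ) < (ε / 2) * s.card := by
    refine lt_of_le_of_lt ?_ hun
    have : s \ P ⊆ s.filter (fun i => (mult s y i : ℝ) < δ0 * s.card) := by
      intro i hi
      rw [Finset.mem_sdiff, hPm] at hi
      rw [Finset.mem_filter]
      refine ⟨hi.1, ?_⟩
      by_contra hcon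
      exact hi.2 ⟨hi.1, not_lt.1 hcon⟩
    exact_mod_cast Finset.card_le_card this
  have hcardP : (s \ P).card + P.card = s.card := Finset.card_sdiff_add_card_eq_card hPs
  have hPne : P.Nonempty := by
    rw [← Finset.card_pos]
    by_contra hcon
    have h0 : P.card = 0 := by omega
    rw [h0, add_zero] at hcardP
    rw [hcardP] at hsP
    nlinarith
  have hcomm : ∀ i ∈ P, ∀ j ∈ P, ∃ a b : ℕ, 1 ≤ a ∧ a < Q ∧ 1 ≤ b ∧ b < Q ∧
      (a : ℝ) * |y i| = b * |y j| := by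
    by_contra hcon
    push Not at hcon
    obtain ⟨i, hi, j, hj, hab⟩ := hcon
    refine hquart (hstep1 s y 0 hN1 hy i (hPs hi) j (hPs hj) ((hPm i).1 hi).2 ((hPm j).1 hj).2 ?_)
    rintro ⟨a, b, h1, h2, h3, h4, h5⟩
    exact hab a b h1 h2 h3 h4 h5
  obtain ⟨v, hv, k, hk, hgcd⟩ := hlat P hPne (fun i => |y i|)
    (fun i hi => abs_pos.2 (hy i (hPs hi))) hcomm
  have hm : ∀ i ∈ P, δ0 * s.card ≤ ((P.filter (fun j => k j = k i)).card : ℝ) := by
    intro i hi
    refine ((hPm i).1 hi).2.trans ?_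
    have : s.filter (fun j => |y j| = |y i|) ⊆ P.filter (fun j => k j = k i) := by
      intro j hj
      rw [Finset.mem_filter] at hj ⊢
      have hjP : j ∈ P := by
        rw [hPm]
        refine ⟨hj.1, ?_⟩
        have e : mult s y j = mult s y i := by
          unfold mult
          rw [hj.2]
        rw [e]
        exact ((hPm i).1 hi).2
      refine ⟨hjP, ?_⟩
      have h1 : |y j| = k j * v := (hk j hjP).2.2
      have h2 : |y i| = k i * v := (hk i hi).2.2
      have h3 : (k j : ℝ) * v = k i * v := by rw [← h1, ← h2, hj.2]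
      exact_mod_cast mul_right_cancel₀ hv.ne' h3
    unfold mult
    exact_mod_cast Finset.card_le_card this
  have hmm : δ * s.card ≤ (δ0 * s.card) / 2 := by nlinarith
  obtain ⟨S, z, hSP, hz, hcls, hgcd', hcard⟩ := step3b P y K (δ0 * s.card) (δ * s.card) v hv k hk
    hgcd hm (by positivity) hmm
  have hSs : S ⊆ s := hSP.trans hPs
  have hzy : ∀ i ∈ S, y i = z i * v := fun i hi => (hz i hi).1
  have hKδ : 2 * K * (δ * s.card) ≤ (ε / 2) * s.card := by
    have h1 : (4 * K : ℝ) * δ ≤ ε := by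
      rw [le_div_iff₀ (by positivity)] at hδb
      linarith
    have h2 : (2 * K : ℝ) * δ ≤ ε / 2 := by linarith
    calc 2 * K * (δ * s.card) = (2 * K * δ) * s.card := by ring
      _ ≤ (ε / 2) * s.card := mul_le_mul_of_nonneg_right h2 hNr.le
  have hsS : ((s \ S).card : ℝ) ≤ ε * s.card := by
    have h1 : (s \ S).card ≤ (s \ P).card + (P \ S).card := by
      refine (Finset.card_le_card ?_).trans (Finset.card_union_le _ _)
      intro i hi
      rw [Finset.mem_sdiff] at hi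
      rw [Finset.mem_union, Finset.mem_sdiff, Finset.mem_sdiff]
      by_cases hiP : i ∈ P
      · exact Or.inr ⟨hiP, hi.2⟩
      · exact Or.inl ⟨hi.1, hiP⟩
    have h2 : ((s \ S).card : ℝ) ≤ ((s \ P).card : ℝ) + ((P \ S).card : ℝ) := by exact_mod_cast h1
    linarith
  have hScard : (1 - ε) * s.card ≤ (S.card : ℝ) := by
    have h1 : (s \ S).card + S.card = s.card := Finset.card_sdiff_add_card_eq_card hSs
    have h2 : ((s \ S).card : ℝ) + (S.card : ℝ) = (s.card : ℝ) := by exact_mod_cast h1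
    linarith
  have hall : ∀ i ∈ s, ∃ j : ℤ, y i = j * v := by
    by_contra hcon
    push Not at hcon
    obtain ⟨i0, hi0, hi0j⟩ := hcon
    have hi0S : i0 ∉ S := fun hmem => hi0j (z i0) (hzy i0 hmem)
    obtain ⟨V, hV⟩ : ∃ V : ℝ, V = ∑ i ∈ S, (z i : ℝ) ^ 2 := ⟨_, rfl⟩
    obtain ⟨M, hM⟩ : ∃ M : ℝ, M = √(2 / (Real.pi * V)) + (h / 4) / √(s.card : ℝ) := ⟨_, rfl⟩
    have hM0 : 0 ≤ M := by rw [hM]; positivity
    have hVS : (S.card : ℝ) ≤ V := by
      rw [hV]
      have : (S.card : ℝ) = ∑ i ∈ S, (1 : ℝ) := by simp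
      rw [this]
      refine Finset.sum_le_sum fun i hi => ?_
      have h1 : 1 ≤ |z i| := Int.one_le_abs (hz i hi).2.1
      have h2 : (1 : ℝ) ≤ |(z i : ℝ)| := by exact_mod_cast h1
      rw [← sq_abs]
      nlinarith
    have hprM : ∀ τ : ℝ, pr S y τ ≤ M := by
      intro τ
      rw [st_scale_181 S y v hv z hzy τ, hM, hV]
      refine hF3 s.card S S z hN3 (Finset.Subset.refl S) ?_ (fun i hi => (hz i hi).2) ?_ hgcd'
        (fun i hi hi' => absurd hi hi') (τ / v)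
      · nlinarith
      · intro i hi
        have h1 := hcls i hi
        have h2 : ((S.filter (fun j => z j = z i)).card : ℝ) ≤
            ((S.filter (fun j => |z j| = |z i|)).card : ℝ) := by
          have : S.filter (fun j => z j = z i) ⊆ S.filter (fun j => |z j| = |z i|) := by
            intro j hj
            rw [Finset.mem_filter] at hj ⊢
            exact ⟨hj.1, by rw [hj.2]⟩
          exact_mod_cast Finset.card_le_card this
        linarith
    have hpair : ∀ τ : ℝ, pr S y τ + pr S y (τ - y i0) ≤ M := by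
      intro τ
      by_cases hτ : ∀ j : ℤ, τ ≠ j * v
      · rw [st_zero_181 S y v z hzy τ hτ, zero_add]
        exact hprM _
      · push Not at hτ
        obtain ⟨j, hj⟩ := hτ
        have h0 : pr S y (τ - y i0) = 0 := by
          apply st_zero_181 S y v z hzy
          intro j' hj'
          apply hi0j (j - j')
          rw [Int.cast_sub, sub_mul, ← hj, ← hj']
          ring
        rw [h0, add_zero]
        exact hprM _
    have hhalf := half2 s S hSs y i0 hi0 hi0S M hpair 0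
    have hsq := st_sqrt_181 s.card V ε hNr hε1 hε4 (hScard.trans hVS)
    rw [← hT] at hsq
    have e2 : (h / 4) / √(s.card : ℝ) ≤ (h / 3) * T := by
      have : (h / 4) / √(s.card : ℝ) = (h / 4) * (1 / √(s.card : ℝ)) := by ring
      rw [this]
      calc (h / 4) * (1 / √(s.card : ℝ)) ≤ (h / 4) * ((4 / 3) * T) :=
            mul_le_mul_of_nonneg_left h39 (by positivity)
        _ = (h / 3) * T := by ring
    have e3 : M / 2 ≤ (1 / 2 + h) * T := by
      rw [hM]
      have e4 : ε * T ≤ (h / 2) * T := mul_le_mul_of_nonneg_right hε3 hT0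
      have e5 : 0 ≤ h * T := mul_nonneg hh0.le hT0
      linarith
    linarith
  choose! z' hz' using hall
  have hzz : ∀ i ∈ S, z' i = z i := by
    intro i hi
    have h1 := hz' i (hSs hi)
    rw [hzy i hi] at h1
    exact_mod_cast (mul_right_cancel₀ hv.ne' h1).symm
  have hz'0 : ∀ i ∈ s, z' i ≠ 0 := by
    intro i hi h0
    apply hy i hi
    rw [hz' i hi, h0, Int.cast_zero, zero_mul]
  have hz'K : ∀ i ∈ S, |z' i| ≤ (K : ℤ) := by
    intro i hi
    rw [hzz i hi]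
    exact (hz i hi).2.2
  have hz'c : ∀ i ∈ S, δ * s.card ≤ ((S.filter (fun j => z' j = z' i)).card : ℝ) := by
    intro i hi
    have h1 := hcls i hi
    have h2 : S.filter (fun j => z' j = z' i) = S.filter (fun j => z j = z i) := by
      apply Finset.filter_congr
      intro j hj
      rw [hzz i hi, hzz j hj]
    rw [h2]
    linarith
  have hz'g : ∀ d : ℕ, (∀ i ∈ S, (d : ℤ) ∣ z' i) → d = 1 := by
    intro d hd
    apply hgcd' d
    intro i hi
    rw [← hzz i hi]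
    exact hd i hi
  have hsc : pr s y 0 = pr s (fun i => (z' i : ℝ)) 0 := by
    have := st_scale_181 s y v hv z' hz' 0
    rw [zero_div] at this
    exact this
  obtain ⟨hb1, hb2⟩ := hUb s S z' hN2 hSs (by rw [← hε]; exact hsS) hz'0 hz'K hz'c hz'g
    (by rw [← hsc]; exact hbig)
  refine ⟨S, z', v, hv, hSs, hz', hz'0, hz'K, hz'c, hz'g, ?_, hb1, ?_⟩
  · rw [← hε]; exact hsS
  · rw [hsc]; exact hb2


end JH9
export JH9 (struct)
end ZA
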