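import Pool.Agent.Helper470.ZA.DefsB
import Pool.Agent.Helper470.ZA.E6
import Pool.Agent.Helper470.ZA.H10
import Pool.Agent.Helper470.ZA.H11
import Pool.Agent.Helper470.ZA.H12
import Pool.Agent.Helper470.ZA.H8
import Pool.Agent.Helper470.ZA.H9
set_option autoImplicit false
open Finset
open scoped Classical

namespace ZA
namespace JH13
















theorem lin3_sq1 (a X Y : ℝ) (ha : 0 ≤ a) (h : X ≤ a ^ 2 * Y) : √X ≤ a * √Y := by
  calc √X ≤ √(a ^ 2 * Y) := Real.sqrt_le_sqrt h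
    _ = a * √Y := by rw [Real.sqrt_mul (sq_nonneg a), Real.sqrt_sq ha]

theorem lin3_sq2 (a X Y : ℝ) (ha : 0 ≤ a) (h : a ^ 2 * Y ≤ X) : a * √Y ≤ √X := by
  calc a * √Y = √(a ^ 2 * Y) := by rw [Real.sqrt_mul (sq_nonneg a), Real.sqrt_sq ha]
    _ ≤ √X := Real.sqrt_le_sqrt h

set_option maxHeartbeats 1000000 in
/-- the numerical end of the argument -/
theorem lin3_num (p h N V VS D1 : ℝ) (hh : 0 < h) (hh1 : h ≤ 1 / 32) (hN : 0 < N) (hV : 0 < V)
    (hD1 : 1 ≤ D1) (hD4 : D1 ≤ 4)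
    (hVS : D1 * (1 - 3 * h) * N ≤ VS) (hVu : V ≤ D1 * ((1 + h) * N))
    (hp : p ≤ √(2 / (Real.pi * VS)) + (h / 4) / √N)
    (hlow : (1 + 32 * h) * √(2 / (Real.pi * V)) < p) : False := by
  have hpi : 0 < Real.pi := Real.pi_pos
  set c : ℝ := 2 / (Real.pi * (D1 * N)) with hc
  have hc0 : 0 < c := by positivity
  have hD0 : 0 < D1 := by linarith
  have h13 : 0 < 1 - 3 * h := by linarith
  have hVS0 : 0 < VS := lt_of_lt_of_le (by positivity) hVS
  have e1 : 2 / (Real.pi * VS) ≤ (1 + 3 * h) ^ 2 * c := by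
    have a1 : 2 / (Real.pi * VS) ≤ 2 / (Real.pi * (D1 * (1 - 3 * h) * N)) := by
      apply div_le_div_of_nonneg_left (by norm_num) (by positivity)
      exact mul_le_mul_of_nonneg_left hVS hpi.le
    have a2 : 2 / (Real.pi * (D1 * (1 - 3 * h) * N)) = c / (1 - 3 * h) := by
      rw [hc]; field_simp
    rw [a2] at a1
    refine a1.trans ?_
    rw [div_le_iff₀ h13]
    have a3 : 1 ≤ (1 + 3 * h) ^ 2 * (1 - 3 * h) := by
      have : (1 + 3 * h) ^ 2 * (1 - 3 * h) = 1 + 3 * h * (1 - 3 * h - 9 * h ^ 2) := by ring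
      rw [this]
      have : 0 ≤ 3 * h * (1 - 3 * h - 9 * h ^ 2) := by
        apply mul_nonneg (by positivity)
        nlinarith
      linarith
    nlinarith [mul_le_mul_of_nonneg_right a3 hc0.le]
  have e2 : 2 / (Real.pi * N) ≤ 2 ^ 2 * c := by
    have : 2 / (Real.pi * N) = D1 * c := by rw [hc]; field_simp
    rw [this]
    nlinarith
  have e3 : (1 - h / 2) ^ 2 * c ≤ 2 / (Real.pi * V) := by
    have a1 : 2 / (Real.pi * (D1 * ((1 + h) * N))) ≤ 2 / (Real.pi * V) := by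
      apply div_le_div_of_nonneg_left (by norm_num) (by positivity)
      exact mul_le_mul_of_nonneg_left hVu hpi.le
    have a2 : 2 / (Real.pi * (D1 * ((1 + h) * N))) = c / (1 + h) := by
      rw [hc]; field_simp
    rw [a2] at a1
    refine le_trans ?_ a1
    rw [le_div_iff₀ (by linarith)]
    have a3 : (1 - h / 2) ^ 2 * (1 + h) ≤ 1 := by
      have : (1 - h / 2) ^ 2 * (1 + h) = 1 - h ^ 2 * (3 / 4 - h / 4) := by ring
      rw [this]
      have : 0 ≤ h ^ 2 * (3 / 4 - h / 4) := by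
        apply mul_nonneg (by positivity)
        linarith
      linarith
    nlinarith [mul_le_mul_of_nonneg_right a3 hc0.le]
  have f1 := lin3_sq1 (1 + 3 * h) _ _ (by positivity) e1
  have f2 := lin3_sq1 2 _ _ (by norm_num) e2
  have f3 := lin3_sq2 (1 - h / 2) _ _ (by linarith) e3
  have f4 := c39 N hN
  have hW0 : 0 < √c := Real.sqrt_pos.mpr hc0
  have f5 : (h / 4) / √N = (h / 4) * (1 / √N) := by ring
  rw [f5] at hp
  have f6 : (h / 4) * (1 / √N) ≤ (h / 4) * ((4 / 3) * (2 * √c)) := by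
    apply mul_le_mul_of_nonneg_left _ (by positivity)
    refine f4.trans ?_
    apply mul_le_mul_of_nonneg_left f2 (by norm_num)
  have f7 : (1 + 32 * h) * ((1 - h / 2) * √c) ≤ (1 + 32 * h) * √(2 / (Real.pi * V)) :=
    mul_le_mul_of_nonneg_left f3 (by positivity)
  have f8 : (1 + 32 * h) * ((1 - h / 2) * √c) < (1 + 4 * h) * √c := by
    have : (1 + 3 * h) * √c + (h / 4) * ((4 / 3) * (2 * √c)) ≤ (1 + 4 * h) * √c := by
      have : (1 + 3 * h) * √c + (h / 4) * ((4 / 3) * (2 * √c)) = (1 + 3 * h + 2 / 3 * h) * √c := by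
        ring
      rw [this]
      apply mul_le_mul_of_nonneg_right _ hW0.le
      linarith
    linarith
  rw [← mul_assoc] at f8
  have f9 := lt_of_mul_lt_mul_right f8 hW0.le
  nlinarith

-- TARGET (prove this)
set_option maxHeartbeats 1000000 in
theorem lin3 (η κ : ℝ) (hη : 0 < η) (hκ : 0 < κ) : ∃ N0 : ℕ, ∀ {ι : Type} (s : Finset ι) (y : ι → ℝ) (n r : ℕ),
    N0 ≤ s.card → 1 ≤ r → r < n → s.card ≤ n → n - r < s.card → κ * n ≤ (r : ℝ) → (∀ i ∈ s, y i ≠ 0) →
    (∀ B ⊆ s, ∑ i ∈ B, y i = 0 → r < B.card ∨ B.card + (n - s.card) < r) →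
    pr s y 0 ≤ (1 + η) * √(2 / (Real.pi * VV n r)) := by
  set η' : ℝ := min η 1 with hη'
  have hη'0 : 0 < η' := lt_min hη one_pos
  have hη'1 : η' ≤ 1 := min_le_right _ _
  have hη'2 : η' ≤ η := min_le_left _ _
  set h : ℝ := η' / 32 with hh
  have hh0 : 0 < h := by positivity
  have hh1 : h ≤ 1 / 32 := by rw [hh]; linarith
  obtain ⟨K, δ, N1, hK, hδ, H1⟩ := struct h hh0 (by linarith)
  obtain ⟨N2, H2⟩ := lin1 η' hη'0 hη'1
  obtain ⟨N3, H3⟩ := lin2 κ hκ K hK δ hδ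
  refine ⟨max (max N1 N2) (max N3 (⌈2 * (K : ℝ) / h⌉₊ + 1)), ?_⟩
  intro ι s y n r hN hr1 hrn hsn hnr hκn hy hadm
  have hN1 : N1 ≤ s.card := le_trans (le_trans (le_max_left _ _) (le_max_left _ _)) hN
  have hN2 : N2 ≤ s.card := le_trans (le_trans (le_max_right _ _) (le_max_left _ _)) hN
  have hN3 : N3 ≤ s.card := le_trans (le_trans (le_max_left _ _) (le_max_right _ _)) hN
  have hN4 : ⌈2 * (K : ℝ) / h⌉₊ + 1 ≤ s.card :=
    le_trans (le_trans (le_max_right _ _) (le_max_right _ _)) hN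
  have hNpos : 0 < s.card := by omega
  have hNR : (0 : ℝ) < s.card := by exact_mod_cast hNpos
  have hN5 : 2 * (K : ℝ) / h ≤ s.card := by
    calc 2 * (K : ℝ) / h ≤ ⌈2 * (K : ℝ) / h⌉₊ := Nat.le_ceil _
      _ ≤ s.card := by exact_mod_cast (by omega : ⌈2 * (K : ℝ) / h⌉₊ ≤ s.card)
  rw [div_le_iff₀ hh0] at hN5
  by_contra hcon
  push Not at hcon
  have hW0 : 0 ≤ √(2 / (Real.pi * VV n r)) := Real.sqrt_nonneg _
  have hc1 : (1 + η') * √(2 / (Real.pi * VV n r)) < pr s y 0 :=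
    lt_of_le_of_lt (mul_le_mul_of_nonneg_right (by linarith) hW0) hcon
  obtain ⟨L1, L2⟩ := H2 s y n r hN2 hr1 hrn hsn hnr hy hadm hc1
  have hc2 : (1 / 2 + h) * √(2 / (Real.pi * s.card)) < pr s y 0 := by
    refine lt_of_le_of_lt (mul_le_mul_of_nonneg_right ?_ (Real.sqrt_nonneg _)) L1
    rw [hh]; linarith
  obtain ⟨S, z, v, hv, hSs, hyz, hz0, hzK, hmult, hgcd, hsS, hsum, hpr⟩ := H1 s y hN1 hy hc2
  have hadm' : ∀ B ⊆ s, ∑ i ∈ B, z i = 0 → r < B.card ∨ B.card + (n - s.card) < r := by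
    intro B hB hz
    apply hadm B hB
    have : ∑ i ∈ B, y i = (∑ i ∈ B, (z i : ℝ)) * v := by
      rw [Finset.sum_mul]
      exact Finset.sum_congr rfl fun i hi => hyz i (hB hi)
    rw [this]
    have : (∑ i ∈ B, (z i : ℝ)) = ((∑ i ∈ B, z i : ℤ) : ℝ) := by push_cast; rfl
    rw [this, hz]; simp
  have hb1 : ((s \ S).card : ℝ) ≤ (1 / 256 : ℝ) * s.card := by
    refine hsS.trans (mul_le_mul_of_nonneg_right ?_ hNR.le)
    nlinarith
  have hb2 : |∑ i ∈ S, (z i : ℝ)| ≤ (1 / 100 : ℝ) * s.card := by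
    refine hsum.trans (mul_le_mul_of_nonneg_right ?_ hNR.le)
    linarith
  obtain ⟨hn2K, d, hd2, hdiff, hdr⟩ := H3 s S z n r hN3 hr1 hrn.le hsn hnr hκn L2 hadm' hSs
    (fun i hi => ⟨hz0 i (hSs hi), hzK i hi⟩) hmult hb1 hb2
  obtain ⟨hdd2, hddr, _⟩ := dd_facts r hr1
  have hddd : dd r ≤ d := dd_le r d (by omega) hdr
  set D : ℕ := min (dd r) 5 with hD
  have hD2 : 2 ≤ D := le_min hdd2 (by norm_num)
  have hD5 : D ≤ 5 := min_le_right _ _
  have hDd : D ≤ d := (min_le_left _ _).trans hddd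
  have hcore := core_alg2 S z d D hd2 hdiff hgcd hD2 hD5 hDd
  have hcoreR : ((D : ℝ) - 1) * S.card - 8 * |∑ i ∈ S, (z i : ℝ)| ≤ ∑ i ∈ S, (z i : ℝ) ^ 2 := by
    have := (Int.cast_le (R := ℝ)).mpr hcore
    push_cast at this
    exact this
  have hD2R : (2 : ℝ) ≤ D := by exact_mod_cast hD2
  have hD5R : (D : ℝ) ≤ 5 := by exact_mod_cast hD5
  have hScard : (s.card : ℝ) - (s \ S).card ≤ S.card := by
    have : (s \ S).card + S.card = s.card := Finset.card_sdiff_add_card_eq_card hSs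
    have : ((s \ S).card : ℝ) + S.card = s.card := by exact_mod_cast this
    linarith
  have hVS : ((D : ℝ) - 1) * (1 - 3 * h) * s.card ≤ ∑ i ∈ S, (z i : ℝ) ^ 2 := by
    refine le_trans ?_ hcoreR
    have a1 : ((D : ℝ) - 1) * ((1 - (h / 16) ^ 2) * s.card) ≤ ((D : ℝ) - 1) * S.card := by
      apply mul_le_mul_of_nonneg_left _ (by linarith)
      linarith
    have a2 : ((D : ℝ) - 1) * (1 - 3 * h) * s.card ≤
        ((D : ℝ) - 1) * ((1 - (h / 16) ^ 2) * s.card) - 8 * (h / 4 * s.card) := by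
      have b1 : (h / 16) ^ 2 ≤ h := by nlinarith
      have b3 : 1 * (2 * h) ≤ ((D : ℝ) - 1) * (3 * h - (h / 16) ^ 2) :=
        mul_le_mul (by linarith) (by linarith) (by positivity) (by linarith)
      have b2 : 0 ≤ (((D : ℝ) - 1) * (3 * h - (h / 16) ^ 2) - 2 * h) * s.card := by
        apply mul_nonneg _ hNR.le
        linarith
      have b4 : ((D : ℝ) - 1) * ((1 - (h / 16) ^ 2) * s.card) - 8 * (h / 4 * s.card) -
        ((D : ℝ) - 1) * (1 - 3 * h) * s.card =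
        (((D : ℝ) - 1) * (3 * h - (h / 16) ^ 2) - 2 * h) * s.card := by ring
      linarith
    linarith
  have hVpos : 0 < VV n r := by
    unfold VV Ns
    apply lt_min
    · apply Nat.mul_pos (by omega) (by omega)
    · have : 0 < n - r := by omega
      have : n - r ≤ max (n - r) (2 * min r (n - r)) := le_max_left _ _
      omega
  have hNsn : Ns n r ≤ n := by unfold Ns; omega
  have hVle : VV n r ≤ (D - 1) * n := by
    rcases le_total (dd r) 5 with h5 | h5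
    · have : D = dd r := min_eq_left h5
      rw [this]; exact min_le_left _ _
    · have : D = 5 := min_eq_right h5
      rw [this]
      refine (min_le_right _ _).trans ?_
      have : 5 - 1 = 4 := rfl
      rw [this]
      exact Nat.mul_le_mul_left 4 hNsn
  have hVleR : (VV n r : ℝ) ≤ ((D : ℝ) - 1) * n := by
    have : ((VV n r : ℕ) : ℝ) ≤ (((D - 1) * n : ℕ) : ℝ) := by exact_mod_cast hVle
    rw [Nat.cast_mul, Nat.cast_sub (by omega)] at this
    simpa using this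
  have hnR : (n : ℝ) ≤ (1 + h) * s.card := by
    have : (n : ℝ) ≤ s.card + 2 * K := by exact_mod_cast hn2K
    linarith
  have hVu : (VV n r : ℝ) ≤ ((D : ℝ) - 1) * ((1 + h) * s.card) :=
    hVleR.trans (mul_le_mul_of_nonneg_left hnR (by linarith))
  refine lin3_num (pr s y 0) h s.card (VV n r) (∑ i ∈ S, (z i : ℝ) ^ 2) ((D : ℝ) - 1) hh0 hh1 hNR
    (by exact_mod_cast hVpos) (by linarith) (by linarith) hVS hVu hpr ?_
  have : 1 + 32 * h = 1 + η' := by rw [hh]; ring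
  rw [this]
  exact hc1


end JH13
export JH13 (lin3)
end ZA
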