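import Pool.Agent.Helper470.ZA.DefsB
import Pool.Agent.Helper470.ZA.E18
set_option autoImplicit false
open Finset
open scoped Classical

namespace ZA
namespace JH14




-- TARGET (prove this)
theorem low_q2 (η : ℝ) (hη : 0 < η) : ∃ n0 : ℕ, ∀ q : ℕ, 1 ≤ q → q ≤ 4 → ∀ n : ℕ, n0 ≤ n → ∀ r : ℕ, ¬ (q + 1) ∣ r →
    ∃ x : Fin n → ℝ, Admissible r x ∧ (1 - η) * (2 ^ n * √(2 / (Real.pi * (q * n)))) ≤ (Z x : ℝ) := by
  obtain ⟨a1, h1⟩ := LL 1 le_rfl η hη
  obtain ⟨a2, h2⟩ := LL 2 (by norm_num) η hη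
  obtain ⟨a3, h3⟩ := LL 3 (by norm_num) η hη
  obtain ⟨a4, h4⟩ := LL 4 (by norm_num) η hη
  have key : ∀ q : ℕ, ∀ n : ℕ, ∀ r : ℕ, ¬ (q + 1) ∣ r →
      (1 - η) * √(2 / (Real.pi * (q * n)))
      ≤ pr (univ : Finset (Fin n)) (fun i => if (i : ℕ) < n / (q + 1) then -(q : ℝ) else 1) 0 →
      ∃ x : Fin n → ℝ, Admissible r x ∧ (1 - η) * (2 ^ n * √(2 / (Real.pi * (q * n)))) ≤ (Z x : ℝ) := by
    intro q n r hr hpr
    refine ⟨fun i => if (i : ℕ) < n / (q + 1) then -(q : ℝ) else 1, ?_, ?_⟩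
    · intro S hS h0
      apply hr
      rw [Finset.sum_ite, Finset.sum_const, Finset.sum_const] at h0
      have hc := Finset.card_filter_add_card_filter_not (s := S) (fun i : Fin n => (i : ℕ) < n / (q + 1))
      rw [hS] at hc
      set k := (S.filter (fun i : Fin n => (i : ℕ) < n / (q + 1))).card with hk
      set k' := (S.filter (fun i : Fin n => ¬ (i : ℕ) < n / (q + 1))).card with hk'
      refine ⟨k, ?_⟩
      have h1 : (k' : ℝ) = q * k := by
        simp only [nsmul_eq_mul, mul_one] at h0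
        linarith
      have h2 : k' = q * k := by exact_mod_cast h1
      rw [← hc, h2]; ring
    · have hZ : (Z (fun i : Fin n => if (i : ℕ) < n / (q + 1) then -(q : ℝ) else 1) : ℝ)
          = pr (univ : Finset (Fin n)) (fun i => if (i : ℕ) < n / (q + 1) then -(q : ℝ) else 1) 0 * 2 ^ n := by
        unfold pr Z cnt
        rw [Finset.powerset_univ, Finset.card_univ, Fintype.card_fin]
        rw [div_mul_cancel₀]
        positivity
      rw [hZ]
      have : (0:ℝ) < 2 ^ n := by positivity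
      nlinarith
  refine ⟨max (max a1 a2) (max a3 a4), ?_⟩
  intro q hq1 hq4 n hn r hr
  apply key q n r hr
  interval_cases q
  · exact h1 n (le_trans (le_trans (le_max_left _ _) (le_max_left _ _)) hn)
  · exact h2 n (le_trans (le_trans (le_max_right _ _) (le_max_left _ _)) hn)
  · exact h3 n (le_trans (le_trans (le_max_left _ _) (le_max_right _ _)) hn)
  · exact h4 n (le_trans (le_trans (le_max_right _ _) (le_max_right _ _)) hn)



end JH14
export JH14 (low_q2)
end ZA
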