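import Pool.Agent.Helper470.ZA.DefsB
set_option autoImplicit false
open Finset
open scoped Classical

namespace ZA
namespace JH15



/-- the star vector -/
noncomputable def vsx (n N m : ℕ) (i : Fin n) : ℝ :=
  if i.val = 0 then -(m : ℝ) else if i.val < N then 1 else 0

theorem vs_sum {n N m : ℕ} (hN : 1 ≤ N) (hNn : N ≤ n) (z : Fin n) (hz : z.val = 0)
    (O : Finset (Fin n)) (hO : ∀ i, i ∈ O ↔ 1 ≤ i.val ∧ i.val < N) (S : Finset (Fin n)) :
    ∑ i ∈ S, vsx n N m i = -(m : ℝ) * (if z ∈ S then 1 else 0) + ((S ∩ O).card : ℝ) := by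
  have h1 : ∀ i, vsx n N m i = -(m : ℝ) * (if z = i then 1 else 0) + (if i ∈ O then 1 else 0) := by
    intro i
    unfold vsx
    by_cases hi : i.val = 0
    · have e : z = i := Fin.ext (by omega)
      have e2 : i ∉ O := by rw [hO]; omega
      simp [hi, e, e2]
    · have e : z ≠ i := by intro h; rw [← h] at hi; exact hi hz
      by_cases hj : i.val < N
      · have e2 : i ∈ O := by rw [hO]; omega
        simp [hi, e, e2, hj]
      · have e2 : i ∉ O := by rw [hO]; omega
        simp [hi, e, e2, hj]
  simp_rw [h1]
  rw [Finset.sum_add_distrib, ← Finset.mul_sum, Finset.sum_ite_eq, ← Finset.filter_mem_eq_inter,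
    Finset.sum_boole]

-- TARGET (prove this)
theorem vec_star (n N m r : ℕ) (hN : 1 ≤ N) (hNn : N ≤ n) (hm : 1 ≤ m) (hmN : m ≤ N - 1) (h0 : n - N < r)
    (h1 : r < m + 1 ∨ m + 1 + (n - N) < r) :
    ∃ x : Fin n → ℝ, Admissible r x ∧ 2 ^ (n - N) * (N - 1).choose m ≤ Z x := by
  have hn : 0 < n := by omega
  let z : Fin n := ⟨0, hn⟩
  have hz : z.val = 0 := rfl
  let O : Finset (Fin n) := (Finset.Ico 1 N).attachFin (fun i hi => by
    rw [Finset.mem_Ico] at hi; omega)
  let Q : Finset (Fin n) := (Finset.Ico N n).attachFin (fun i hi => by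
    rw [Finset.mem_Ico] at hi; omega)
  have hO : ∀ i, i ∈ O ↔ 1 ≤ i.val ∧ i.val < N := fun i => by
    simp only [O, Finset.mem_attachFin, Finset.mem_Ico]
  have hQ : ∀ i, i ∈ Q ↔ N ≤ i.val := fun i => by
    simp only [Q, Finset.mem_attachFin, Finset.mem_Ico]
    exact ⟨fun h => h.1, fun h => ⟨h, i.isLt⟩⟩
  have cO : O.card = N - 1 := by simp only [O, Finset.card_attachFin, Nat.card_Ico]
  have cQ : Q.card = n - N := by simp only [Q, Finset.card_attachFin, Nat.card_Ico]
  have hzO : z ∉ O := by rw [hO]; omega
  have hzQ : z ∉ Q := by rw [hQ]; omega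
  have hOQ : Disjoint O Q := by
    rw [Finset.disjoint_left]
    intro i h1 h2
    rw [hO] at h1
    rw [hQ] at h2
    omega
  have hsum := vs_sum (m := m) hN hNn z hz O hO
  refine ⟨vsx n N m, ?_, ?_⟩
  · intro S hS h
    rw [hsum] at h
    have hdec : ∀ i, i = z ∨ i ∈ O ∨ i ∈ Q := by
      intro i
      by_cases h1 : i.val = 0
      · left; exact Fin.ext (by omega)
      · right
        rw [hO, hQ]
        omega
    by_cases hzS : z ∈ S
    · rw [if_pos hzS, mul_one] at h
      have hc : (S ∩ O).card = m := by
        have : ((S ∩ O).card : ℝ) = m := by linarith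
        exact_mod_cast this
      have hS2 : S = insert z ((S ∩ O) ∪ (S ∩ Q)) := by
        ext i
        simp only [Finset.mem_insert, Finset.mem_union, Finset.mem_inter]
        constructor
        · intro hi
          rcases hdec i with h1 | h1 | h1
          · left; exact h1
          · right; left; exact ⟨hi, h1⟩
          · right; right; exact ⟨hi, h1⟩
        · rintro (h1 | h1 | h1)
          · rw [h1]; exact hzS
          · exact h1.1
          · exact h1.1
      have hcard : S.card = 1 + m + (S ∩ Q).card := by
        rw [hS2, Finset.card_insert_of_notMem, Finset.card_union_of_disjoint, ← hS2, hc]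
        · ring
        · exact hOQ.mono Finset.inter_subset_right Finset.inter_subset_right
        · simp only [Finset.mem_union, Finset.mem_inter]
          rintro (h1 | h1)
          · exact hzO h1.2
          · exact hzQ h1.2
      have hle : (S ∩ Q).card ≤ n - N := by
        rw [← cQ]; exact Finset.card_le_card Finset.inter_subset_right
      omega
    · rw [if_neg hzS, mul_zero, zero_add] at h
      have hc : (S ∩ O).card = 0 := by exact_mod_cast h
      rw [Finset.card_eq_zero] at hc
      have hSQ : S ⊆ Q := by
        intro i hi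
        rcases hdec i with h1 | h1 | h1
        · exact absurd (h1 ▸ hi) hzS
        · have : i ∈ S ∩ O := Finset.mem_inter.2 ⟨hi, h1⟩
          rw [hc] at this
          simp at this
        · exact h1
      have := Finset.card_le_card hSQ
      omega
  · have hcard : 2 ^ (n - N) * (N - 1).choose m =
        (Finset.powersetCard m O ×ˢ Q.powerset).card := by
      rw [Finset.card_product, Finset.card_powersetCard, Finset.card_powerset, cO, cQ, mul_comm]
    rw [hcard]
    unfold Z
    refine Finset.card_le_card_of_injOn (fun p => insert z (p.1 ∪ p.2)) ?_ ?_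
    · rintro ⟨A, C⟩ hp
      simp only [Finset.coe_product, Set.mem_prod, Finset.mem_coe, Finset.mem_powersetCard,
        Finset.mem_powerset] at hp
      obtain ⟨⟨hA, hAc⟩, hC⟩ := hp
      simp only [Finset.coe_filter, Finset.mem_univ, true_and, Set.mem_setOf_eq]
      rw [hsum, if_pos (Finset.mem_insert_self _ _)]
      have : (insert z (A ∪ C)) ∩ O = A := by
        ext i
        simp only [Finset.mem_inter, Finset.mem_insert, Finset.mem_union]
        constructor
        · rintro ⟨h1 | h1 | h1, h2⟩
          · exact absurd (h1 ▸ h2) hzO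
          · exact h1
          · exact absurd (hC h1) (Finset.disjoint_left.1 hOQ h2)
        · intro h1
          exact ⟨Or.inr (Or.inl h1), hA h1⟩
      rw [this, hAc]
      ring
    · rintro ⟨A, C⟩ hp ⟨A', C'⟩ hp' h
      simp only [Finset.coe_product, Set.mem_prod, Finset.mem_coe, Finset.mem_powersetCard,
        Finset.mem_powerset] at hp hp'
      obtain ⟨⟨hA, hAc⟩, hC⟩ := hp
      obtain ⟨⟨hA', hAc'⟩, hC'⟩ := hp'
      simp only at h
      have rA : ∀ (A C : Finset (Fin n)), A ⊆ O → C ⊆ Q → (insert z (A ∪ C)) ∩ O = A := by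
        intro A C hA hC
        ext i
        simp only [Finset.mem_inter, Finset.mem_insert, Finset.mem_union]
        constructor
        · rintro ⟨h1 | h1 | h1, h2⟩
          · exact absurd (h1 ▸ h2) hzO
          · exact h1
          · exact absurd (hC h1) (Finset.disjoint_left.1 hOQ h2)
        · intro h1
          exact ⟨Or.inr (Or.inl h1), hA h1⟩
      have rC : ∀ (A C : Finset (Fin n)), A ⊆ O → C ⊆ Q → (insert z (A ∪ C)) ∩ Q = C := by
        intro A C hA hC
        ext i
        simp only [Finset.mem_inter, Finset.mem_insert, Finset.mem_union]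
        constructor
        · rintro ⟨h1 | h1 | h1, h2⟩
          · exact absurd (h1 ▸ h2) hzQ
          · exact absurd h2 (Finset.disjoint_left.1 hOQ (hA h1))
          · exact h1
        · intro h1
          exact ⟨Or.inr (Or.inr h1), hC h1⟩
      have e1 : A = A' := by rw [← rA A C hA hC, h, rA A' C' hA' hC']
      have e2 : C = C' := by rw [← rC A C hA hC, h, rC A' C' hA' hC']
      rw [e1, e2]


end JH15
export JH15 (vec_star)
end ZA
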