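import Pool.Agent.Helper470.ZA.DefsB
import Pool.Agent.Helper470.ZA.E19
import Pool.Agent.Helper470.ZA.H15
set_option autoImplicit false
open Finset
open scoped Classical

namespace ZA
namespace JH16






theorem low_star_sq (x : ℝ) (hx : 0 < x) :
    √(2 / (Real.pi * x)) = 2 * √(2 / (Real.pi * (4 * x))) := by
  have hp := Real.pi_pos
  have h : 2 / (Real.pi * x) = 2 ^ 2 * (2 / (Real.pi * (4 * x))) := by
    field_simp
    norm_num
  rw [h, Real.sqrt_mul (by norm_num), Real.sqrt_sq (by norm_num)]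

theorem low_star_fin (n k c : ℕ) (η1 : ℝ) (hk : 0 < k) (hkn : k ≤ n)
    (h : (1 - η1) * √(2 / (Real.pi * k)) ≤ (c : ℝ) / 2 ^ k) :
    (1 - η1) * (2 ^ n * (2 * √(2 / (Real.pi * (4 * k))))) ≤ 2 ^ (n - k) * (c : ℝ) := by
  have hk' : (0 : ℝ) < k := by exact_mod_cast hk
  rw [low_star_sq _ hk'] at h
  rw [le_div_iff₀ (by positivity)] at h
  have e : (2 : ℝ) ^ n = 2 ^ (n - k) * 2 ^ k := by
    rw [← pow_add]; congr 1; omega
  rw [e]
  have h2 := mul_le_mul_of_nonneg_left h (by positivity : (0 : ℝ) ≤ 2 ^ (n - k))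
  calc (1 - η1) * (2 ^ (n - k) * 2 ^ k * (2 * √(2 / (Real.pi * (4 * k)))))
      = 2 ^ (n - k) * ((1 - η1) * (2 * √(2 / (Real.pi * (4 * k)))) * 2 ^ k) := by ring
    _ ≤ _ := h2

-- TARGET (prove this)
theorem low_star (η : ℝ) (hη : 0 < η) : ∃ k0 : ℕ, ∀ n r : ℕ, 1 ≤ r → r + k0 ≤ n →
    ∃ x : Fin n → ℝ, Admissible r x ∧ (1 - η) * (2 ^ n * √(2 / (Real.pi * (4 * Ns n r)))) ≤ (Z x : ℝ) := by
  obtain ⟨n0, hn0⟩ := cb (min η 1 / 2) (by have : 0 < min η 1 := lt_min hη one_pos
                                           positivity)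
  set η1 : ℝ := min η 1 / 2 with hη1
  have hη1a : η1 ≤ η / 2 := by
    have := min_le_left η 1
    rw [hη1]; linarith
  have hη1b : η1 ≤ 1 / 2 := by
    have := min_le_right η 1
    rw [hη1]; linarith
  obtain ⟨n1, hn1⟩ := exists_nat_gt (4 / η)
  refine ⟨n0 + n1 + 4, ?_⟩
  intro n r hr hrn
  obtain ⟨k, rfl⟩ : ∃ k, n = r + k := ⟨n - r, by omega⟩
  have hk0 : n0 ≤ k := by omega
  have hk1 : n1 ≤ k := by omega
  have hk4 : 4 ≤ k := by omega
  have key : ∀ (c s z : ℝ), 0 ≤ s → 1 - η ≤ c → c * (2 ^ (r + k) * s) ≤ z →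
      (1 - η) * (2 ^ (r + k) * s) ≤ z := fun c s z hs hc hz =>
    (mul_le_mul_of_nonneg_right hc (by positivity)).trans hz
  have hkR : (0 : ℝ) < k := by
    have : 0 < k := by omega
    exact_mod_cast this
  rcases le_or_gt (2 * r) k with h | h
  · -- case (i)
    have hNs : Ns (r + k) r = k := by unfold Ns; omega
    rw [hNs]
    obtain ⟨x, hx, hZ⟩ := vec_star (r + k) (k + 1) (k / 2) r (by omega) (by omega) (by omega)
      (by omega) (by omega) (Or.inl (by omega))
    refine ⟨x, hx, ?_⟩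
    have e1 : r + k - (k + 1) = r - 1 := by omega
    rw [e1, Nat.add_sub_cancel] at hZ
    have h1 := low_star_fin (r + k) k (k.choose (k / 2)) η1 (by omega) (by omega) (hn0 k hk0).1
    have hZ' : (2 : ℝ) ^ (r - 1) * (k.choose (k / 2) : ℝ) ≤ Z x := by exact_mod_cast hZ
    apply key (1 - η1) _ _ (Real.sqrt_nonneg _) (by linarith)
    refine le_trans ?_ hZ'
    have e2 : r + k - k = r - 1 + 1 := by omega
    rw [e2, pow_succ] at h1
    linarith
  · rcases le_or_gt r k with h' | h'
    · -- case (ii)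
      have hNs : Ns (r + k) r = 2 * r := by unfold Ns; omega
      rw [hNs]
      obtain ⟨x, hx, hZ⟩ := vec_star (r + k) (2 * r) r r (by omega) (by omega) (by omega)
        (by omega) (by omega) (Or.inl (by omega))
      refine ⟨x, hx, ?_⟩
      have h1 := low_star_fin (r + k) (2 * r) ((2 * r).choose (2 * r / 2)) η1 (by omega)
        (by omega) (hn0 (2 * r) (by omega)).1
      have e3 : 2 * r / 2 = r := by omega
      have e4 : (2 * r).choose r = 2 * (2 * r - 1).choose r := by
        obtain ⟨m, rfl⟩ : ∃ m, r = m + 1 := ⟨r - 1, by omega⟩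
        have a1 : 2 * (m + 1) = (2 * m + 1) + 1 := by ring
        have a2 : 2 * (m + 1) - 1 = 2 * m + 1 := by omega
        rw [a2, a1, Nat.choose_succ_succ]
        have a3 : (2 * m + 1).choose m = (2 * m + 1).choose (m + 1) :=
          Nat.choose_symm_of_eq_add (by ring)
        rw [a3]; ring
      rw [e3, e4] at h1
      have hZ' : (2 : ℝ) ^ (r + k - 2 * r) * ((2 * r - 1).choose r : ℝ) ≤ Z x := by
        exact_mod_cast hZ
      apply key (1 - η1) _ _ (Real.sqrt_nonneg _) (by linarith)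
      refine le_trans ?_ hZ'
      push_cast at h1 ⊢
      linarith
    · -- case (iii)
      have hNs : Ns (r + k) r = 2 * k := by unfold Ns; omega
      rw [hNs]
      obtain ⟨x, hx, hZ⟩ := vec_star (r + k) (2 * k) (k - 2) r (by omega) (by omega) (by omega)
        (by omega) (by omega) (Or.inr (by omega))
      refine ⟨x, hx, ?_⟩
      have h1 := low_star_fin (r + k) (2 * k) ((2 * k).choose (2 * k / 2)) η1 (by omega)
        (by omega) (hn0 (2 * k) (by omega)).1
      have e3 : 2 * k / 2 = k := by omega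
      have e4 : (2 * k).choose k = 2 * (2 * k - 1).choose (k - 1) := by
        obtain ⟨m, rfl⟩ : ∃ m, k = m + 1 := ⟨k - 1, by omega⟩
        have a1 : 2 * (m + 1) = (2 * m + 1) + 1 := by ring
        have a2 : 2 * (m + 1) - 1 = 2 * m + 1 := by omega
        rw [a2, a1, Nat.choose_succ_succ]
        have a3 : (2 * m + 1).choose m = (2 * m + 1).choose (m + 1) :=
          Nat.choose_symm_of_eq_add (by ring)
        rw [Nat.add_sub_cancel, ← a3]; ring
      have e5 : (2 * k - 1).choose (k - 2) * (k + 1) = (2 * k - 1).choose (k - 1) * (k - 1) := by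
        have := Nat.choose_succ_right_eq (2 * k - 1) (k - 2)
        have b1 : k - 2 + 1 = k - 1 := by omega
        have b2 : 2 * k - 1 - (k - 2) = k + 1 := by omega
        rw [b1, b2] at this
        exact this.symm
      rw [e3, e4] at h1
      have hZ' : (2 : ℝ) ^ (r + k - 2 * k) * ((2 * k - 1).choose (k - 2) : ℝ) ≤ Z x := by
        exact_mod_cast hZ
      have e5' : ((2 * k - 1).choose (k - 2) : ℝ) * ((k : ℝ) + 1)
          = ((2 * k - 1).choose (k - 1) : ℝ) * ((k : ℝ) - 1) := by
        have := congrArg (Nat.cast : ℕ → ℝ) e5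
        rw [Nat.cast_mul, Nat.cast_mul, Nat.cast_sub (by omega : 1 ≤ k)] at this
        push_cast at this
        exact this
      have e6 : ((2 * k - 1).choose (k - 2) : ℝ)
          = ((2 * k - 1).choose (k - 1) : ℝ) * (((k : ℝ) - 1) / ((k : ℝ) + 1)) := by
        have : (k : ℝ) + 1 ≠ 0 := by positivity
        field_simp
        linarith
      have hk4' : (4 : ℝ) ≤ k := by exact_mod_cast hk4
      have hq0 : 0 ≤ ((k : ℝ) - 1) / ((k : ℝ) + 1) := by
        apply div_nonneg <;> linarith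
      have hc : 1 - η ≤ (1 - η1) * (((k : ℝ) - 1) / ((k : ℝ) + 1)) := by
        have hk1' : (n1 : ℝ) ≤ k := by exact_mod_cast hk1
        have h4 : 4 / η < k := lt_of_lt_of_le hn1 hk1'
        have h5 : 4 < k * η := by rwa [div_lt_iff₀ hη] at h4
        have h6 : 2 / ((k : ℝ) + 1) ≤ η / 2 := by
          rw [div_le_iff₀ (by positivity)]
          nlinarith
        have h7 : ((k : ℝ) - 1) / ((k : ℝ) + 1) = 1 - 2 / ((k : ℝ) + 1) := by
          have : (k : ℝ) + 1 ≠ 0 := by positivity
          field_simp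
          ring
        have h8 : 0 ≤ 2 / ((k : ℝ) + 1) := by positivity
        have h9 : 0 ≤ η1 := by
          have : 0 < min η 1 := lt_min hη one_pos
          rw [hη1]; positivity
        rw [h7]
        nlinarith [mul_nonneg h9 h8]
      apply key ((1 - η1) * (((k : ℝ) - 1) / ((k : ℝ) + 1))) _ _ (Real.sqrt_nonneg _) hc
      refine le_trans ?_ hZ'
      push_cast at h1
      rw [e6]
      have h10 : (1 - η1) * (2 ^ (r + k) * √(2 / (Real.pi * (4 * ((2 * k : ℕ) : ℝ)))))
          ≤ 2 ^ (r + k - 2 * k) * ((2 * k - 1).choose (k - 1) : ℝ) := by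
        push_cast
        linarith
      have h11 := mul_le_mul_of_nonneg_right h10 hq0
      calc _ = (1 - η1) * (2 ^ (r + k) * √(2 / (Real.pi * (4 * ((2 * k : ℕ) : ℝ)))))
            * (((k : ℝ) - 1) / ((k : ℝ) + 1)) := by ring
        _ ≤ _ := h11
        _ = _ := by ring


end JH16
export JH16 (low_star)
end ZA
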