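import Pool.Agent.Helper470.ZA.DefsB
import Pool.Agent.Helper470.ZA.H10
import Pool.Agent.Helper470.ZA.H14
import Pool.Agent.Helper470.ZA.H16
set_option autoImplicit false
open Finset
open scoped Classical

namespace ZA
namespace JH17








-- TARGET (prove this)
theorem low_all (η : ℝ) (hη : 0 < η) : ∃ k0 : ℕ, ∀ n r : ℕ, 1 ≤ r → r + k0 ≤ n →
    ∃ x : Fin n → ℝ, Admissible r x ∧ (1 - η) * (2 ^ n * √(2 / (Real.pi * VV n r))) ≤ (Z x : ℝ) := by
  obtain ⟨k1, h1⟩ := low_star η hη
  obtain ⟨n0, h2⟩ := low_q2 η hη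
  refine ⟨max k1 n0, ?_⟩
  intro n r hr hn
  have hn1 : r + k1 ≤ n := by
    have := le_max_left k1 n0
    omega
  have hn0 : n0 ≤ n := by
    have := le_max_right k1 n0
    omega
  obtain ⟨hd2, hdr, _⟩ := dd_facts r hr
  by_cases hcase : 4 * Ns n r ≤ (dd r - 1) * n
  · have hV : VV n r = 4 * Ns n r := by
      unfold VV
      exact min_eq_right hcase
    obtain ⟨x, hx, hZ⟩ := h1 n r hr hn1
    refine ⟨x, hx, ?_⟩
    rw [hV]
    push_cast
    exact hZ
  · push Not at hcase
    have hV : VV n r = (dd r - 1) * n := by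
      unfold VV
      exact min_eq_left hcase.le
    have hNs : Ns n r ≤ n := by
      unfold Ns
      omega
    have hq : dd r - 1 ≤ 4 := by
      by_contra hcon
      push Not at hcon
      have : 4 * n ≤ (dd r - 1) * n := Nat.mul_le_mul_right n (by omega)
      omega
    obtain ⟨x, hx, hZ⟩ := h2 (dd r - 1) (by omega) hq n hn0 r
      (by rw [show dd r - 1 + 1 = dd r by omega]; exact hdr)
    refine ⟨x, hx, ?_⟩
    rw [hV, Nat.cast_mul]
    exact hZ


end JH17
export JH17 (low_all)
end ZA
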