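import Pool.Agent.Helper470.ZA.DefsB
import Pool.Agent.Helper470.ZS.L
import Pool.Agent.Helper470.ZS.U2
set_option autoImplicit false
open Finset
open scoped Classical

namespace ZA

theorem odd_up (n r : ℕ) (hr : Odd r) (hn : 200 * r ≤ n) (x : Fin n → ℝ) (hx : Admissible r x) :
    Z x ≤ n.choose (n / 2) := by
  have h := Pool.Agent.Helper470.ZS.U2.upper_bound n r hr hn x hx
  have e : Z x = Pool.Agent.Helper470.ZS.N x Finset.univ {0} := by
    unfold Z Pool.Agent.Helper470.ZS.N
    rw [Finset.powerset_univ]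
    congr 1
  rw [e]
  exact h

theorem odd_low (n r : ℕ) (hr : Odd r) :
    ∃ x : Fin n → ℝ, Admissible r x ∧ Z x = n.choose (n / 2) := by
  obtain ⟨x, hx, hN⟩ := Pool.Agent.Helper470.ZS.L.lower_bound n r hr
  refine ⟨x, hx, ?_⟩
  rw [← hN]
  unfold Z Pool.Agent.Helper470.ZS.N
  rw [Finset.powerset_univ]
  congr 1

end ZA
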