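import Pool.Agent.Helper470.ZA.DefsB
import Pool.Agent.Helper470.ZA.E19
import Pool.Agent.Helper470.ZA.G1
import Pool.Agent.Helper470.ZA.H10
import Pool.Agent.Helper470.ZA.OddUp
set_option autoImplicit false
open Finset
open scoped Classical

namespace ZA
namespace JH18










-- TARGET (prove this)
theorem up_small (η : ℝ) (hη : 0 < η) : ∃ κ : ℝ, 0 < κ ∧ ∃ n0 : ℕ, ∀ n : ℕ, n0 ≤ n → ∀ r : ℕ, 1 ≤ r →
    (r : ℝ) ≤ κ * n → ∀ x : Fin n → ℝ, Admissible r x → (Z x : ℝ) ≤ (1 + η) * (2 ^ n * √(2 / (Real.pi * VV n r))) := by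
  classical
  obtain ⟨η1, hη1, hη1a, hη1b⟩ : ∃ η1 : ℝ, 0 < η1 ∧ 16 * η1 ≤ 1 ∧ 16 * η1 ≤ η := by
    refine ⟨min η 1 / 16, by positivity, ?_, ?_⟩
    · have := min_le_right η 1
      linarith
    · have := min_le_left η 1
      linarith
  obtain ⟨κ3, hκ3, n3, h3⟩ := up_D 3 (Or.inl rfl) η1 hη1
  obtain ⟨κ4, hκ4, n4, h4⟩ := up_D 4 (Or.inr (Or.inl rfl)) η1 hη1
  obtain ⟨κ5, hκ5, n5, h5⟩ := up_D 5 (Or.inr (Or.inr rfl)) η1 hη1
  obtain ⟨n1, hc⟩ := cb η1 hη1
  refine ⟨min (1 / 200) (min κ3 (min κ4 κ5)), by positivity, max 1 (max n1 (max n3 (max n4 n5))), ?_⟩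
  intro n hn r hr hrn x hx
  have hn1 : 1 ≤ n := le_trans (le_max_left _ _) hn
  have hnn := le_trans (le_max_right _ _) hn
  have hnc : n1 ≤ n := le_trans (le_max_left _ _) hnn
  have hnn2 := le_trans (le_max_right _ _) hnn
  have hnn3 : n3 ≤ n := le_trans (le_max_left _ _) hnn2
  have hnn4' := le_trans (le_max_right _ _) hnn2
  have hnn4 : n4 ≤ n := le_trans (le_max_left _ _) hnn4'
  have hnn5 : n5 ≤ n := le_trans (le_max_right _ _) hnn4'
  have hnR : (1:ℝ) ≤ (n:ℝ) := by exact_mod_cast hn1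
  have hn0 : (0:ℝ) < n := by linarith
  have hk200 : (r:ℝ) ≤ 1/200 * n := le_trans hrn (mul_le_mul_of_nonneg_right (min_le_left _ _) hn0.le)
  have hk' : (r:ℝ) ≤ (min κ3 (min κ4 κ5)) * n := le_trans hrn (mul_le_mul_of_nonneg_right (min_le_right _ _) hn0.le)
  have hk3 : (r:ℝ) ≤ κ3 * n := le_trans hk' (mul_le_mul_of_nonneg_right (min_le_left _ _) hn0.le)
  have hk'' : (r:ℝ) ≤ (min κ4 κ5) * n := le_trans hk' (mul_le_mul_of_nonneg_right (min_le_right _ _) hn0.le)
  have hk4 : (r:ℝ) ≤ κ4 * n := le_trans hk'' (mul_le_mul_of_nonneg_right (min_le_left _ _) hn0.le)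
  have hk5 : (r:ℝ) ≤ κ5 * n := le_trans hk'' (mul_le_mul_of_nonneg_right (min_le_right _ _) hn0.le)
  have h200 : 200 * r ≤ n := by
    have : (200 * r : ℝ) ≤ n := by linarith
    exact_mod_cast this
  obtain ⟨hd2, hdn, hdq⟩ := dd_facts r hr
  have hNsle : Ns n r ≤ n := by
    unfold Ns
    omega
  have hNspos : 1 ≤ Ns n r := by
    unfold Ns
    omega
  have hVpos : 1 ≤ VV n r := by
    unfold VV
    refine le_min ?_ (by omega)
    exact Nat.one_le_iff_ne_zero.mpr (Nat.mul_ne_zero (by omega) (by omega))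
  have hC0 : (0:ℝ) ≤ (n.choose (n/2) : ℝ) := by positivity
  have key : ∃ m : ℕ, 1 ≤ m ∧ m ≤ 4 ∧ (Z x : ℝ) ≤ (1 / √(m : ℝ) + η1) * (n.choose (n / 2) : ℝ) ∧ VV n r ≤ m * n := by
    by_cases hd : dd r = 2
    · refine ⟨1, le_refl _, by norm_num, ?_, ?_⟩
      · have hodd : Odd r := by
          rw [hd] at hdn
          rcases Nat.even_or_odd r with h | h
          · exact absurd h.two_dvd hdn
          · exact h
        have h1 := odd_up n r hodd h200 x hx
        have h1' : (Z x : ℝ) ≤ (n.choose (n/2) : ℝ) := by exact_mod_cast h1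
        simp only [Nat.cast_one, Real.sqrt_one, div_one]
        nlinarith [mul_nonneg hη1.le hC0]
      · refine le_trans (min_le_left _ _) ?_
        rw [hd]
    · have hd3 : 3 ≤ dd r := by omega
      by_cases hd' : dd r = 3
      · refine ⟨2, by norm_num, by norm_num, ?_, ?_⟩
        · have := h3 n hnn3 r hr hk3 (fun q h1 h2 => hdq q (by omega) (by omega)) x hx
          have e : ((3:ℕ):ℝ) - 1 = ((2:ℕ):ℝ) := by norm_num
          rw [e] at this
          exact this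
        · refine le_trans (min_le_left _ _) ?_
          rw [hd']
      · by_cases hd4 : dd r = 4
        · refine ⟨3, by norm_num, by norm_num, ?_, ?_⟩
          · have := h4 n hnn4 r hr hk4 (fun q h1 h2 => hdq q (by omega) (by omega)) x hx
            have e : ((4:ℕ):ℝ) - 1 = ((3:ℕ):ℝ) := by norm_num
            rw [e] at this
            exact this
          · refine le_trans (min_le_left _ _) ?_
            rw [hd4]
        · refine ⟨4, by norm_num, by norm_num, ?_, ?_⟩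
          · have := h5 n hnn5 r hr hk5 (fun q h1 h2 => hdq q (by omega) (by omega)) x hx
            have e : ((5:ℕ):ℝ) - 1 = ((4:ℕ):ℝ) := by norm_num
            rw [e] at this
            exact this
          · refine le_trans (min_le_right _ _) ?_
            omega
  obtain ⟨m, hm1, hm4, hZ, hVm⟩ := key
  have hmR : (1:ℝ) ≤ (m:ℝ) := by exact_mod_cast hm1
  have hmR4 : (m:ℝ) ≤ 4 := by exact_mod_cast hm4
  have hsm0 : 0 < √(m:ℝ) := Real.sqrt_pos.mpr (by linarith)
  have hsm2 : √(m:ℝ) ≤ 2 := by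
    rw [Real.sqrt_le_left (by norm_num)]
    linarith
  have hinv : 1 ≤ 2 * (1 / √(m:ℝ)) := by
    rw [mul_one_div, le_div_iff₀ hsm0]
    linarith
  have hcoef : 1 / √(m : ℝ) + η1 ≤ (1 / √(m:ℝ)) * (1 + 2 * η1) := by
    nlinarith [mul_le_mul_of_nonneg_left hinv hη1.le]
  have hCup : (n.choose (n / 2) : ℝ) ≤ (1 + η1) * √(2 / (Real.pi * n)) * 2 ^ n := by
    have := (hc n hnc).2
    rwa [div_le_iff₀ (by positivity)] at this
  have hsq : (1 / √(m:ℝ)) * √(2 / (Real.pi * n)) ≤ √(2 / (Real.pi * VV n r)) := by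
    have e : (1 / √(m:ℝ)) * √(2 / (Real.pi * n)) = √(2 / (Real.pi * (m * n))) := by
      have : (1 / √(m:ℝ)) = √(1 / (m:ℝ)) := by
        rw [Real.sqrt_div' _ (by linarith), Real.sqrt_one]
      rw [this, ← Real.sqrt_mul (by positivity)]
      congr 1
      have hm0 : (m:ℝ) ≠ 0 := by linarith
      have hπ : Real.pi ≠ 0 := Real.pi_ne_zero
      field_simp
    rw [e]
    apply Real.sqrt_le_sqrt
    have hV0 : (0:ℝ) < (VV n r : ℝ) := by exact_mod_cast hVpos
    have hVm' : (VV n r : ℝ) ≤ m * n := by exact_mod_cast hVm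
    apply div_le_div_of_nonneg_left (by norm_num) (mul_pos Real.pi_pos hV0)
    exact mul_le_mul_of_nonneg_left hVm' Real.pi_pos.le
  have h2n : (0:ℝ) < 2 ^ n := by positivity
  have hS0 : 0 ≤ √(2 / (Real.pi * n)) := Real.sqrt_nonneg _
  have hT0 : 0 ≤ √(2 / (Real.pi * VV n r)) := Real.sqrt_nonneg _
  calc (Z x : ℝ) ≤ (1 / √(m : ℝ) + η1) * (n.choose (n / 2) : ℝ) := hZ
    _ ≤ ((1 / √(m:ℝ)) * (1 + 2 * η1)) * ((1 + η1) * √(2 / (Real.pi * n)) * 2 ^ n) :=
        mul_le_mul hcoef hCup hC0 (by positivity)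
    _ = ((1 + 2 * η1) * (1 + η1)) * (2 ^ n * ((1 / √(m:ℝ)) * √(2 / (Real.pi * n)))) := by ring
    _ ≤ ((1 + 2 * η1) * (1 + η1)) * (2 ^ n * √(2 / (Real.pi * VV n r))) := by
        apply mul_le_mul_of_nonneg_left _ (by positivity)
        exact mul_le_mul_of_nonneg_left hsq h2n.le
    _ ≤ (1 + η) * (2 ^ n * √(2 / (Real.pi * VV n r))) := by
        apply mul_le_mul_of_nonneg_right _ (by positivity)
        nlinarith [mul_nonneg hη1.le hη1.le]


end JH18
export JH18 (up_small)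
end ZA
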