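import Pool.Agent.Helper470.ZA.DefsB
import Pool.Agent.Helper470.ZA.B1
import Pool.Agent.Helper470.ZA.H13
set_option autoImplicit false
open Finset
open scoped Classical

namespace ZA
namespace JH19






-- TARGET (prove this)
theorem up_big (η κ : ℝ) (hη : 0 < η) (hκ : 0 < κ) : ∃ k0 : ℕ, ∀ n r : ℕ, 1 ≤ r → r + k0 ≤ n → κ * n ≤ (r : ℝ) →
    ∀ x : Fin n → ℝ, Admissible r x → (Z x : ℝ) ≤ (1 + η) * (2 ^ n * √(2 / (Real.pi * VV n r))) := by
  obtain ⟨N0, h0⟩ := lin3 η κ hη hκ
  refine ⟨max N0 1, ?_⟩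
  intro n r hr hrn hκr x hadm
  set s : Finset (Fin n) := univ.filter (fun i => x i ≠ 0) with hs
  set z : Finset (Fin n) := univ.filter (fun i => ¬ (x i ≠ 0)) with hz
  have hcard : s.card + z.card = n := by
    have := Finset.card_filter_add_card_filter_not (s := (univ : Finset (Fin n))) (fun i => x i ≠ 0)
    rw [Finset.card_univ, Fintype.card_fin] at this
    exact this
  have hdisj : Disjoint s z := Finset.disjoint_filter_filter_not _ _ _
  have hz0 : ∀ i ∈ z, x i = 0 := by
    intro i hi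
    have := (Finset.mem_filter.mp hi).2
    exact not_not.mp this
  have hk1 : N0 ≤ max N0 1 := le_max_left _ _
  have hk2 : 1 ≤ max N0 1 := le_max_right _ _
  have hzr : z.card < r := by
    by_contra hcon
    push Not at hcon
    obtain ⟨T, hTz, hTc⟩ := Finset.exists_subset_card_eq hcon
    exact hadm T hTc (Finset.sum_eq_zero (fun i hi => hz0 i (hTz hi)))
  have hN : n - r < s.card := by omega
  have hB : ∀ B ⊆ s, ∑ i ∈ B, x i = 0 → r < B.card ∨ B.card + (n - s.card) < r := by
    intro B hBs hB0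
    by_contra hcon
    push Not at hcon
    obtain ⟨h1, h2⟩ := hcon
    have h3 : r - B.card ≤ z.card := by omega
    obtain ⟨T, hTz, hTc⟩ := Finset.exists_subset_card_eq h3
    have hd : Disjoint B T := Finset.disjoint_of_subset_left hBs (Finset.disjoint_of_subset_right hTz hdisj)
    refine hadm (B ∪ T) ?_ ?_
    · rw [Finset.card_union_of_disjoint hd, hTc]; omega
    · rw [Finset.sum_union hd, hB0, zero_add]
      exact Finset.sum_eq_zero (fun i hi => hz0 i (hTz hi))
  have hs0 : ∀ i ∈ s, x i ≠ 0 := fun i hi => (Finset.mem_filter.mp hi).2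
  have key := h0 s x n r (by omega) hr (by omega) (by omega) hN hκr hs0 hB
  have hpr : pr (univ : Finset (Fin n)) x 0 = pr s x 0 :=
    pr_zeros s univ (Finset.subset_univ _) x (by
      intro i _ hi
      by_contra hne
      exact hi (Finset.mem_filter.mpr ⟨Finset.mem_univ _, hne⟩)) 0
  have hZ : (Z x : ℝ) = 2 ^ n * pr (univ : Finset (Fin n)) x 0 := by
    unfold pr cnt Z
    rw [Finset.powerset_univ, Finset.card_univ, Fintype.card_fin]
    field_simp
  rw [hZ, hpr]
  have h2 : (0 : ℝ) ≤ 2 ^ n := by positivity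
  calc (2 : ℝ) ^ n * pr s x 0 ≤ 2 ^ n * ((1 + η) * √(2 / (Real.pi * VV n r))) :=
        mul_le_mul_of_nonneg_left key h2
    _ = _ := by ring



end JH19
export JH19 (up_big)
end ZA
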