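import Pool.Agent.Helper470.ZA.DefsB
import Pool.Agent.Helper470.ZA.G3
import Pool.Agent.Helper470.ZA.H10
import Pool.Agent.Helper470.ZA.H17
import Pool.Agent.Helper470.ZA.H18
import Pool.Agent.Helper470.ZA.H19
set_option autoImplicit false
open Finset
open scoped Classical

namespace ZA
namespace JH20












-- TARGET (prove this)
theorem main (η : ℝ) (hη : 0 < η) : ∃ k0 : ℕ, ∀ n r : ℕ, 1 ≤ r → r + k0 ≤ n →
    ∃ M : ℕ, IsGreatest {k : ℕ | ∃ x : Fin n → ℝ, Admissible r x ∧ Z x = k} M ∧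
      |(M : ℝ) / (2 ^ n * √(2 / (Real.pi * VV n r))) - 1| ≤ η := by
  obtain ⟨κ, hκ, n0, hn0⟩ := up_small η hη
  obtain ⟨k1, hk1⟩ := up_big η κ hη hκ
  obtain ⟨k2, hk2⟩ := low_all η hη
  refine ⟨n0 + k1 + k2 + 1, ?_⟩
  intro n r hr hn
  obtain ⟨M, hM⟩ := max_exists n r hr
  refine ⟨M, hM, ?_⟩
  set E : ℝ := 2 ^ n * √(2 / (Real.pi * VV n r)) with hE
  have hVV : 0 < VV n r := by
    unfold VV Ns
    obtain ⟨hd, -, -⟩ := dd_facts r hr
    apply lt_min
    · apply Nat.mul_pos <;> omega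
    · have : 0 < n - r := by omega
      have h1 : n - r ≤ max (n - r) (2 * min r (n - r)) := le_max_left _ _
      omega
  have hEpos : 0 < E := by
    rw [hE]
    have : (0 : ℝ) < VV n r := by exact_mod_cast hVV
    positivity
  obtain ⟨⟨x, hx, hZ⟩, hmax⟩ := hM
  have hup : (M : ℝ) ≤ (1 + η) * E := by
    rw [← hZ]
    rcases le_total (r : ℝ) (κ * n) with h | h
    · exact hn0 n (by omega) r hr h x hx
    · exact hk1 n r hr (by omega) h x hx
  have hlow : (1 - η) * E ≤ (M : ℝ) := by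
    obtain ⟨x', hx', hZ'⟩ := hk2 n r hr (by omega)
    have h1 : Z x' ≤ M := hmax ⟨x', hx', rfl⟩
    have h2 : (Z x' : ℝ) ≤ M := by exact_mod_cast h1
    exact hZ'.trans h2
  rw [abs_le]
  constructor
  · have : 1 - η ≤ (M : ℝ) / E := by
      rw [le_div_iff₀ hEpos]
      exact hlow
    linarith
  · have : (M : ℝ) / E ≤ 1 + η := by
      rw [div_le_iff₀ hEpos]
      exact hup
    linarith


end JH20
export JH20 (main)
end ZA
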