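import Pool.Agent.Helper470.ZA.DefsB
import Pool.Agent.Helper470.ZA.B1
import Pool.Agent.Helper470.ZA.B2
set_option autoImplicit false
open Finset
open scoped Classical

namespace ZA
namespace JI1






-- TARGET (prove this)
theorem sk_Z_cnt {n : ℕ} (x : Fin n → ℝ) : Z x = cnt univ x 0 := by
  unfold Z cnt
  rw [Finset.powerset_univ]

theorem sk_map {n m : ℕ} (f : Fin n ↪ Fin m) (x : Fin m → ℝ) (t : ℝ) :
    cnt (univ.map f) x t = cnt univ (fun i => x (f i)) t := by
  unfold cnt
  symm
  apply Finset.card_bij (fun B _ => B.map f)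
  · intro B hB
    rw [mem_filter, mem_powerset] at hB ⊢
    refine ⟨Finset.map_subset_map.2 (subset_univ _), ?_⟩
    rw [Finset.sum_map]
    exact hB.2
  · intro B _ C _ h
    exact Finset.map_injective f h
  · intro B hB
    rw [mem_filter, mem_powerset] at hB
    obtain ⟨u, hu, rfl⟩ := Finset.subset_map_iff.1 hB.1
    refine ⟨u, ?_, rfl⟩
    rw [mem_filter, mem_powerset]
    refine ⟨subset_univ _, ?_⟩
    rw [← hB.2, Finset.sum_map]

theorem sk_erase {n : ℕ} (j : Fin (n + 1)) :
    (univ : Finset (Fin (n + 1))).erase j = univ.map (j.succAboveEmb) := by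
  ext i
  simp only [mem_erase, mem_univ, and_true, mem_map, true_and, Fin.coe_succAboveEmb]
  constructor
  · intro h
    exact Fin.exists_succAbove_eq h
  · rintro ⟨a, rfl⟩
    exact Fin.succAbove_ne j a

theorem sk_two {n : ℕ} (j : Fin (n + 1)) (x : Fin (n + 1) → ℝ) (hj : x j = 0) :
    Z x = 2 * Z (fun i => x (j.succAbove i)) := by
  have h1 := pr_zeros ((univ : Finset (Fin (n + 1))).erase j) univ (Finset.erase_subset _ _) x
    (by
      intro i _ hi
      have : i = j := by
        by_contra hne
        exact hi (mem_erase.2 ⟨hne, mem_univ _⟩)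
      rw [this, hj]) 0
  have hc : ((univ : Finset (Fin (n + 1))).erase j).card = n := by
    rw [Finset.card_erase_of_mem (mem_univ _), Finset.card_univ, Fintype.card_fin]
    simp
  unfold pr at h1
  rw [hc, Finset.card_univ, Fintype.card_fin, sk_erase, sk_map] at h1
  have h2 : cnt univ x 0 = 2 * cnt univ (fun i => x (j.succAboveEmb i)) 0 := by
    have h3 : (0:ℝ) < 2 ^ n := by positivity
    rw [pow_succ] at h1
    field_simp at h1
    have h4 : (cnt univ x 0 : ℝ) = 2 * cnt univ (fun i => x (j.succAboveEmb i)) 0 := by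
      linarith
    exact_mod_cast h4
  rw [sk_Z_cnt, sk_Z_cnt]
  exact h2

theorem sk_bound {n : ℕ} (x : Fin n → ℝ) (s : Finset (Fin n)) (hs : s.Nonempty)
    (hs1 : ∀ i, i ∈ s ↔ x i ≠ 0) : (Z x : ℝ) ≤ 2 ^ n / √(s.card : ℝ) := by
  have h1 := pr_zeros s univ (subset_univ _) x (fun i _ hi => by
    by_contra h
    exact hi ((hs1 i).2 h)) 0
  have h2 := pr_le_LO s hs x (fun i hi => (hs1 i).1 hi) 0
  rw [← h1] at h2
  unfold pr at h2
  rw [Finset.card_univ, Fintype.card_fin, div_le_iff₀ (by positivity)] at h2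
  rw [sk_Z_cnt]
  calc (cnt univ x 0 : ℝ) ≤ 1 / √(s.card : ℝ) * 2 ^ n := h2
    _ = 2 ^ n / √(s.card : ℝ) := by ring

theorem sk_low (k n : ℕ) (hn : k + 1 ≤ n) :
    ∃ x : Fin n → ℝ, Admissible (n - k) x ∧ 2 ^ (n - k - 1) ≤ Z x := by
  set P : Finset (Fin n) := univ.filter (fun i : Fin n => k + 1 ≤ i.val) with hP
  have hPc : P.card = n - k - 1 := by
    have h1 : P.card = ((Finset.range n).filter (fun i => k + 1 ≤ i)).card := by
      rw [← Finset.card_map Fin.valEmbedding]
      congr 1
      ext i
      simp only [hP, mem_map, mem_filter, mem_univ, true_and, Fin.valEmbedding_apply, mem_range]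
      constructor
      · rintro ⟨a, ha, rfl⟩
        exact ⟨a.2, ha⟩
      · rintro ⟨h1, h2⟩
        exact ⟨⟨i, h1⟩, h2, rfl⟩
    have h2 : (Finset.range n).filter (fun i => k + 1 ≤ i) = Finset.Ico (k + 1) n := by
      ext i
      simp only [mem_filter, mem_range, mem_Ico]
      omega
    rw [h1, h2, Nat.card_Ico]
    omega
  refine ⟨fun i => if i.val < k + 1 then 1 else 0, ?_, ?_⟩
  · intro S hS h0
    rw [Finset.sum_eq_zero_iff_of_nonneg (fun i _ => by split_ifs <;> norm_num)] at h0
    have hSP : S ⊆ P := by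
      intro i hi
      have := h0 i hi
      rw [hP, mem_filter]
      refine ⟨mem_univ _, ?_⟩
      by_contra hlt
      rw [if_pos (by omega)] at this
      exact one_ne_zero this
    have := Finset.card_le_card hSP
    omega
  · unfold Z
    rw [← hPc, ← Finset.card_powerset]
    apply Finset.card_le_card
    intro B hB
    rw [mem_powerset] at hB
    rw [mem_filter]
    refine ⟨mem_univ _, Finset.sum_eq_zero fun i hi => ?_⟩
    have := hB hi
    rw [hP, mem_filter] at this
    rw [if_neg (by omega)]

theorem step_k (k n M : ℕ) (hn : 4 ^ (k + 1) + k ≤ n)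
    (h : IsGreatest {m : ℕ | ∃ x : Fin n → ℝ, Admissible (n - k) x ∧ Z x = m} M) :
    IsGreatest {m : ℕ | ∃ x : Fin (n + 1) → ℝ, Admissible (n + 1 - k) x ∧ Z x = m} (2 * M) := by
  have h4 : 0 < 4 ^ (k + 1) := by positivity
  obtain ⟨⟨x, hx, hxM⟩, hub⟩ := h
  have hM : 2 ^ (n - k - 1) ≤ M := by
    obtain ⟨y, hy, hyZ⟩ := sk_low k n (by omega)
    exact hyZ.trans (hub ⟨y, hy, rfl⟩)
  have hpow4 : (4:ℝ) ^ (k + 1) = (2 ^ (k + 1)) ^ 2 := by
    rw [← pow_mul, mul_comm, pow_mul]
    norm_num
  constructor
  · refine ⟨Fin.cons 0 x, ?_, ?_⟩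
    · intro S hS h0
      set f : Fin n ↪ Fin (n + 1) := (0 : Fin (n + 1)).succAboveEmb with hf
      have hfx : ∀ i, (Fin.cons 0 x : Fin (n + 1) → ℝ) (f i) = x i := by
        intro i
        rw [hf, Fin.coe_succAboveEmb, Fin.zero_succAbove, Fin.cons_succ]
      have hsub : S.erase 0 ⊆ univ.map f := by
        rw [← sk_erase]
        exact Finset.erase_subset_erase _ (subset_univ _)
      obtain ⟨T, -, hT⟩ := Finset.subset_map_iff.1 hsub
      have hsum : ∑ i ∈ T, x i = 0 := by
        have h1 : ∑ i ∈ S.erase 0, (Fin.cons 0 x : Fin (n + 1) → ℝ) i = 0 := by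
          refine Eq.trans ?_ h0
          apply Finset.sum_erase
          exact Fin.cons_zero _ _
        rw [hT, Finset.sum_map] at h1
        simpa only [hfx] using h1
      have hTc : T.card = (S.erase 0).card := by rw [hT, Finset.card_map]
      by_cases h0S : (0 : Fin (n + 1)) ∈ S
      · rw [Finset.card_erase_of_mem h0S, hS] at hTc
        exact hx T (by omega) hsum
      · rw [Finset.erase_eq_of_notMem h0S, hS] at hTc
        by_cases hz : ∃ i ∈ T, x i = 0
        · obtain ⟨i, hi, hi0⟩ := hz
          apply hx (T.erase i)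
          · rw [Finset.card_erase_of_mem hi, hTc]
            omega
          · rw [Finset.sum_erase _ hi0]
            exact hsum
        · push Not at hz
          set s : Finset (Fin n) := univ.filter (fun i => x i ≠ 0) with hs
          have hTs : T ⊆ s := fun i hi => mem_filter.2 ⟨mem_univ _, hz i hi⟩
          have hsc := Finset.card_le_card hTs
          have hsne : s.Nonempty := by
            rw [← Finset.card_pos]
            omega
          have hb := sk_bound x s hsne (fun i => by simp [hs])
          have h5 : ((2:ℝ) ^ (n - k - 1)) ≤ 2 ^ n / √(s.card : ℝ) := by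
            refine le_trans ?_ hb
            rw [hxM]
            exact_mod_cast hM
          have hspos : (0:ℝ) < s.card := by exact_mod_cast Finset.card_pos.2 hsne
          have hsq : 0 < √(s.card : ℝ) := Real.sqrt_pos.2 hspos
          rw [le_div_iff₀ hsq] at h5
          have h6 : (2:ℝ) ^ n = 2 ^ (n - k - 1) * 2 ^ (k + 1) := by
            rw [← pow_add]
            congr 1
            omega
          rw [h6] at h5
          have h7 : √(s.card : ℝ) ≤ 2 ^ (k + 1) := le_of_mul_le_mul_left h5 (by positivity)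
          have h8 : (s.card : ℝ) ≤ 4 ^ (k + 1) := by
            rw [hpow4, ← Real.sq_sqrt hspos.le]
            exact pow_le_pow_left₀ hsq.le h7 2
          have h9 : s.card ≤ 4 ^ (k + 1) := by exact_mod_cast h8
          omega
    · rw [sk_two 0 _ (Fin.cons_zero _ _)]
      congr 1
  · rintro m ⟨y, hy, rfl⟩
    by_cases hz : ∃ j, y j = 0
    · obtain ⟨j, hj⟩ := hz
      rw [sk_two j y hj]
      apply Nat.mul_le_mul_left
      apply hub
      refine ⟨_, ?_, rfl⟩
      intro T hT h0
      apply hy (insert j (T.map j.succAboveEmb))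
      · rw [Finset.card_insert_of_notMem, Finset.card_map, hT]
        · omega
        · intro hmem
          obtain ⟨a, _, ha⟩ := Finset.mem_map.1 hmem
          exact Fin.succAbove_ne j a ha
      · rw [Finset.sum_insert_of_eq_zero_if_notMem (fun _ => hj), Finset.sum_map]
        exact h0
    · push Not at hz
      have hb := sk_bound y univ ⟨0, mem_univ _⟩ (fun i => by simp [hz i])
      rw [Finset.card_univ, Fintype.card_fin] at hb
      have h5 : (2:ℝ) ^ (k + 1) ≤ √((n + 1 : ℕ) : ℝ) := by
        apply Real.le_sqrt_of_sq_le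
        rw [← hpow4]
        have : 4 ^ (k + 1) ≤ n + 1 := by omega
        exact_mod_cast this
      have h6 : (2:ℝ) ^ (n + 1) / √((n + 1 : ℕ) : ℝ) ≤ 2 ^ (n + 1) / 2 ^ (k + 1) :=
        div_le_div_of_nonneg_left (by positivity) (by positivity) h5
      have h7 : (2:ℝ) ^ (n + 1) / 2 ^ (k + 1) = 2 * 2 ^ (n - k - 1) := by
        rw [div_eq_iff (by positivity), ← pow_succ', ← pow_add]
        congr 1
        omega
      have h8 : (Z y : ℝ) ≤ 2 * 2 ^ (n - k - 1) := by linarith
      have h9 : Z y ≤ 2 * 2 ^ (n - k - 1) := by exact_mod_cast h8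
      omega


end JI1
export JI1 (step_k)
end ZA
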