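import Pool.Agent.Helper470.ZA.DefsB
import Pool.Agent.Helper470.ZA.G3
import Pool.Agent.Helper470.ZA.H10
import Pool.Agent.Helper470.ZA.H20
import Pool.Agent.Helper470.ZA.I1
set_option autoImplicit false
open Finset
open scoped Classical

namespace ZA
namespace JI2










-- TARGET (prove this)
theorem fixed_k : ∃ α : ℕ → ℝ, (∀ k : ℕ, 0 < α k) ∧
    (∀ k n : ℕ, 4 ^ (k + 1) + k ≤ n →
      ∃ M : ℕ, IsGreatest {m : ℕ | ∃ x : Fin n → ℝ, Admissible (n - k) x ∧ Z x = m} M ∧ (M : ℝ) = α k * 2 ^ n) ∧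
    Filter.Tendsto (fun k : ℕ => α k * (2 * √(Real.pi * k))) Filter.atTop (nhds 1) := by
  have hnk : ∀ k : ℕ, 4 ^ (k + 1) + k - k = 4 ^ (k + 1) := fun k => Nat.add_sub_cancel _ _
  have hpos4 : ∀ k : ℕ, 1 ≤ 4 ^ (k + 1) := fun k => Nat.one_le_pow _ _ (by norm_num)
  have hex : ∀ k : ℕ, ∃ M : ℕ, IsGreatest {m : ℕ | ∃ x : Fin (4 ^ (k + 1) + k) → ℝ,
      Admissible (4 ^ (k + 1) + k - k) x ∧ Z x = m} M := fun k =>
    max_exists (4 ^ (k + 1) + k) (4 ^ (k + 1) + k - k) (by rw [hnk]; exact hpos4 k)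
  choose Mk hMk using hex
  have hall : ∀ k n : ℕ, 4 ^ (k + 1) + k ≤ n →
      IsGreatest {m : ℕ | ∃ x : Fin n → ℝ, Admissible (n - k) x ∧ Z x = m}
        (Mk k * 2 ^ (n - (4 ^ (k + 1) + k))) := by
    intro k n hn
    induction n, hn using Nat.le_induction with
    | base => rw [Nat.sub_self, pow_zero, mul_one]; exact hMk k
    | succ n hn ih =>
      have h1 := step_k k n _ hn ih
      have h2 : 2 * (Mk k * 2 ^ (n - (4 ^ (k + 1) + k))) = Mk k * 2 ^ (n + 1 - (4 ^ (k + 1) + k)) := by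
        rw [Nat.sub_add_comm hn, pow_succ 2 (n - (4 ^ (k + 1) + k)), mul_comm 2, mul_assoc]
      rw [h2] at h1
      exact h1
  have hMpos : ∀ k, 0 < Mk k := by
    intro k
    obtain ⟨x, _, hx⟩ := (hMk k).1
    rw [← hx]
    unfold Z
    exact Finset.card_pos.2 ⟨∅, by simp⟩
  have hval : ∀ k n : ℕ, 4 ^ (k + 1) + k ≤ n →
      ((Mk k * 2 ^ (n - (4 ^ (k + 1) + k)) : ℕ) : ℝ) = (Mk k : ℝ) / 2 ^ (4 ^ (k + 1) + k) * 2 ^ n := by
    intro k n hn
    have h1 : (2 : ℝ) ^ n = 2 ^ (n - (4 ^ (k + 1) + k)) * 2 ^ (4 ^ (k + 1) + k) := by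
      rw [← pow_add, Nat.sub_add_cancel hn]
    rw [h1]
    push_cast
    field_simp
  refine ⟨fun k => (Mk k : ℝ) / 2 ^ (4 ^ (k + 1) + k), ?_, ?_, ?_⟩
  · intro k
    have := hMpos k
    positivity
  · intro k n hn
    exact ⟨_, hall k n hn, hval k n hn⟩
  · rw [Metric.tendsto_atTop]
    intro ε hε
    obtain ⟨k0, hk0⟩ := main (ε / 2) (half_pos hε)
    refine ⟨max k0 1, fun k hk => ?_⟩
    have hk1 : 1 ≤ k := le_trans (le_max_right _ _) hk
    have hk2 : k0 ≤ k := le_trans (le_max_left _ _) hk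
    obtain ⟨n, hn⟩ : ∃ n, n = 4 ^ (k + 1) + k + (8 * k + 1) := ⟨_, rfl⟩
    have h4 := hpos4 k
    obtain ⟨r, hr⟩ : ∃ r, r = n - k := ⟨_, rfl⟩
    have hnr : n - r = k := by omega
    have hkr : k ≤ r := by omega
    have hr1 : 1 ≤ r := by omega
    obtain ⟨M, hM, hMa⟩ := hk0 n r hr1 (by omega)
    have hnn : 4 ^ (k + 1) + k ≤ n := by omega
    have hM2 := hall k n hnn
    rw [← hr] at hM2
    have hMe : M = Mk k * 2 ^ (n - (4 ^ (k + 1) + k)) := hM.unique hM2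
    have hNs : Ns n r = 2 * k := by
      unfold Ns
      rw [hnr, min_eq_right hkr]
      exact max_eq_right (by omega)
    have hV : VV n r = 8 * k := by
      unfold VV
      rw [hNs]
      have hd := (dd_facts r hr1).1
      have h5 : 4 * (2 * k) ≤ (dd r - 1) * n := by
        calc 4 * (2 * k) ≤ 1 * n := by omega
          _ ≤ (dd r - 1) * n := Nat.mul_le_mul_right _ (by omega)
      rw [min_eq_right h5]
      ring
    rw [hV, hMe, hval k n hnn] at hMa
    have hkpos : (0 : ℝ) < k := by exact_mod_cast hk1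
    have hpi := Real.pi_pos
    have hsq : √(2 / (Real.pi * ((8 * k : ℕ) : ℝ))) = 1 / (2 * √(Real.pi * k)) := by
      have h6 : 2 / (Real.pi * ((8 * k : ℕ) : ℝ)) = (1 / (2 * √(Real.pi * k))) ^ 2 := by
        rw [div_pow, mul_pow, Real.sq_sqrt (by positivity)]
        push_cast
        field_simp
        norm_num
      rw [h6]
      exact Real.sqrt_sq (by positivity)
    rw [hsq] at hMa
    have hs : 0 < √(Real.pi * k) := Real.sqrt_pos.2 (by positivity)
    have h7 : (Mk k : ℝ) / 2 ^ (4 ^ (k + 1) + k) * 2 ^ n / (2 ^ n * (1 / (2 * √(Real.pi * k)))) =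
        (Mk k : ℝ) / 2 ^ (4 ^ (k + 1) + k) * (2 * √(Real.pi * k)) := by
      field_simp
    rw [h7] at hMa
    rw [Real.dist_eq]
    linarith



end JI2
export JI2 (fixed_k)
end ZA
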