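import Pool.Agent.Helper470.ZA.DefsB
set_option autoImplicit false
open Finset
open scoped Classical

namespace ZA
namespace JK1


-- TARGET (prove this)
theorem LO_exact {n : ℕ} (x : Fin n → ℝ) (hx : ∀ i, x i ≠ 0) : Z x ≤ n.choose (n / 2) := by
  obtain ⟨N, hN⟩ : ∃ N : Finset (Fin n), ∀ i, i ∈ N ↔ x i < 0 :=
    ⟨univ.filter (fun i => x i < 0), fun i => by simp⟩
  have key : ∀ B : Finset (Fin n), ∑ i ∈ symmDiff B N, |x i| = ∑ i ∈ B, x i - ∑ i ∈ N, x i := by
    intro B
    have e1 : ∑ i ∈ symmDiff B N, |x i| = ∑ i, if i ∈ symmDiff B N then |x i| else 0 := by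
      rw [Finset.sum_ite_mem, Finset.univ_inter]
    have e2 : ∑ i ∈ B, x i = ∑ i, if i ∈ B then x i else 0 := by
      rw [Finset.sum_ite_mem, Finset.univ_inter]
    have e3 : ∑ i ∈ N, x i = ∑ i, if i ∈ N then x i else 0 := by
      rw [Finset.sum_ite_mem, Finset.univ_inter]
    rw [e1, e2, e3, ← Finset.sum_sub_distrib]
    apply Finset.sum_congr rfl
    intro i _
    have hmd := @Finset.mem_symmDiff _ _ B N i
    by_cases hB : i ∈ B <;> by_cases hi : i ∈ N
    · simp [hmd, hB, hi]
    · have h0 : 0 ≤ x i := not_lt.mp (fun h => hi ((hN i).mpr h))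
      simp [hmd, hB, hi, abs_of_nonneg h0]
    · have h0 : x i < 0 := (hN i).mp hi
      simp [hmd, hB, hi, abs_of_neg h0]
    · simp [hmd, hB, hi]
  obtain ⟨F, hF⟩ : ∃ F : Finset (Finset (Fin n)), F =
      (univ.filter (fun B : Finset (Fin n) => ∑ i ∈ B, x i = 0)).image (fun B => symmDiff B N) :=
    ⟨_, rfl⟩
  have hcard : F.card = Z x := by
    rw [hF, Finset.card_image_of_injective _ (symmDiff_left_injective N)]
    rfl
  have hsum : ∀ B ∈ F, ∑ i ∈ B, |x i| = - ∑ i ∈ N, x i := by
    intro B hB
    rw [hF, Finset.mem_image] at hB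
    obtain ⟨C, hC, rfl⟩ := hB
    rw [key, (Finset.mem_filter.mp hC).2, zero_sub]
  have hanti : IsAntichain (· ⊆ ·) (SetLike.coe F) := by
    intro A hA B hB hAB hsub
    have hA' : A ∈ F := hA
    have hB' : B ∈ F := hB
    have h1 := hsum A hA'
    have h2 := hsum B hB'
    have hsub' : A ⊆ B := hsub
    have h3 : ∃ i, i ∈ B ∧ i ∉ A := by
      by_contra hcon
      push Not at hcon
      exact hAB (Finset.Subset.antisymm hsub' hcon)
    obtain ⟨i, hiB, hiA⟩ := h3
    have h4 : ∑ i ∈ A, |x i| < ∑ i ∈ B, |x i| :=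
      Finset.sum_lt_sum_of_subset hsub' hiB hiA (abs_pos.mpr (hx i)) (fun j _ _ => abs_nonneg _)
    rw [h1, h2] at h4
    exact lt_irrefl _ h4
  have h := hanti.sperner
  rw [hcard, Fintype.card_fin] at h
  exact h

-- TARGET (prove this)
theorem remove_zero (n r : ℕ) (x : Fin (n + 1) → ℝ) (j : Fin (n + 1)) (hj : x j = 0) (hx : Admissible (r + 1) x) :
    Admissible r (fun i => x (j.succAbove i)) ∧ Z x = 2 * Z (fun i => x (j.succAbove i)) := by
  obtain ⟨e, he⟩ : ∃ e : Fin n ↪ Fin (n + 1), ∀ i, e i = j.succAbove i :=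
    ⟨j.succAboveEmb, fun i => rfl⟩
  have hjmem : ∀ B : Finset (Fin n), j ∉ B.map e := by
    intro B h
    rw [Finset.mem_map] at h
    obtain ⟨i, _, hi⟩ := h
    rw [he] at hi
    exact Fin.succAbove_ne j i hi
  have hsmap : ∀ B : Finset (Fin n), ∑ i ∈ B.map e, x i = ∑ i ∈ B, x (j.succAbove i) := by
    intro B
    rw [Finset.sum_map]
    apply Finset.sum_congr rfl
    intro i _
    rw [he]
  have hsins : ∀ B : Finset (Fin n), ∑ i ∈ insert j (B.map e), x i =
      ∑ i ∈ B, x (j.succAbove i) := by
    intro B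
    rw [Finset.sum_insert (hjmem B), hj, zero_add, hsmap]
  constructor
  · intro S hS h0
    refine hx (insert j (S.map e)) ?_ ?_
    · rw [Finset.card_insert_of_notMem (hjmem S), Finset.card_map, hS]
    · rw [hsins]
      exact h0
  · have hpre : ∀ B : Finset (Fin (n + 1)), (univ.filter (fun i => e i ∈ B)).map e = B.erase j := by
      intro B
      ext i
      rw [Finset.mem_map, Finset.mem_erase]
      constructor
      · rintro ⟨a, ha, rfl⟩
        rw [Finset.mem_filter] at ha
        refine ⟨?_, ha.2⟩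
        rw [he]
        exact Fin.succAbove_ne j a
      · rintro ⟨h1, h2⟩
        obtain ⟨a, ha⟩ := Fin.exists_succAbove_eq h1
        refine ⟨a, ?_, ?_⟩
        · rw [Finset.mem_filter, he, ha]
          exact ⟨Finset.mem_univ _, h2⟩
        · rw [he, ha]
    have hA : (univ.filter (fun B : Finset (Fin (n + 1)) => ∑ i ∈ B, x i = 0)).filter
        (fun B => j ∉ B) = (univ.filter (fun B : Finset (Fin n) =>
          ∑ i ∈ B, x (j.succAbove i) = 0)).image (fun B => B.map e) := by
      ext B
      rw [Finset.mem_filter, Finset.mem_filter, Finset.mem_image]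
      constructor
      · rintro ⟨⟨_, h1⟩, h2⟩
        have h3 := hpre B
        rw [Finset.erase_eq_of_notMem h2] at h3
        refine ⟨univ.filter (fun i => e i ∈ B), ?_, h3⟩
        rw [Finset.mem_filter]
        refine ⟨Finset.mem_univ _, ?_⟩
        rw [← hsmap, h3, h1]
      · rintro ⟨C, hC, rfl⟩
        rw [Finset.mem_filter] at hC
        exact ⟨⟨Finset.mem_univ _, by rw [hsmap]; exact hC.2⟩, hjmem C⟩
    have hB : (univ.filter (fun B : Finset (Fin (n + 1)) => ∑ i ∈ B, x i = 0)).filter
        (fun B => ¬ j ∉ B) = (univ.filter (fun B : Finset (Fin n) =>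
          ∑ i ∈ B, x (j.succAbove i) = 0)).image (fun B => insert j (B.map e)) := by
      ext B
      rw [Finset.mem_filter, Finset.mem_filter, Finset.mem_image, not_not]
      constructor
      · rintro ⟨⟨_, h1⟩, h2⟩
        have h3 := hpre B
        have h4 : insert j ((univ.filter (fun i => e i ∈ B)).map e) = B := by
          rw [h3, Finset.insert_erase h2]
        refine ⟨univ.filter (fun i => e i ∈ B), ?_, h4⟩
        rw [Finset.mem_filter]
        refine ⟨Finset.mem_univ _, ?_⟩
        rw [← hsins, h4, h1]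
      · rintro ⟨C, hC, rfl⟩
        rw [Finset.mem_filter] at hC
        exact ⟨⟨Finset.mem_univ _, by rw [hsins]; exact hC.2⟩, Finset.mem_insert_self _ _⟩
    have hcA : ((univ.filter (fun B : Finset (Fin (n + 1)) => ∑ i ∈ B, x i = 0)).filter
        (fun B => j ∉ B)).card = Z (fun i => x (j.succAbove i)) := by
      rw [hA, Finset.card_image_of_injective _ (Finset.map_injective e)]
      rfl
    have hcB : ((univ.filter (fun B : Finset (Fin (n + 1)) => ∑ i ∈ B, x i = 0)).filter
        (fun B => ¬ j ∉ B)).card = Z (fun i => x (j.succAbove i)) := by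
      rw [hB, Finset.card_image_of_injective]
      · rfl
      · intro C D hCD
        have h5 : insert j (C.map e) = insert j (D.map e) := hCD
        have h6 := congrArg (fun E => E.erase j) h5
        have h7 : (insert j (C.map e)).erase j = (insert j (D.map e)).erase j := h6
        rw [Finset.erase_insert (hjmem C), Finset.erase_insert (hjmem D)] at h7
        exact Finset.map_injective e h7
    have hsplit := Finset.card_filter_add_card_filter_not
      (s := univ.filter (fun B : Finset (Fin (n + 1)) => ∑ i ∈ B, x i = 0)) (fun B => j ∉ B)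
    have hZ : Z x = (univ.filter (fun B : Finset (Fin (n + 1)) => ∑ i ∈ B, x i = 0)).card := rfl
    rw [hZ, ← hsplit, hcA, hcB, two_mul]


end JK1
export JK1 (LO_exact remove_zero)
end ZA
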