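import Pool.Agent.Helper470.ZA.DefsB
import Pool.Agent.Helper470.ZA.E19
import Pool.Agent.Helper470.ZA.H10
import Pool.Agent.Helper470.ZA.H20
import Pool.Agent.Helper470.ZA.K1
import Pool.Agent.Helper470.ZA.OddUp
set_option autoImplicit false
open Finset
open scoped Classical

namespace ZA
namespace JK2














theorem odd_exact_VV (δ c : ℝ) (hδ : 0 < δ) (hc1 : c ≤ 8 * δ) (hc2 : c ≤ 1 / 2) (n r : ℕ)
    (hn : 4 ≤ n + 1) (hr : 1 ≤ r) (he : 2 ∣ r) (hb : ((r + 1 : ℕ) : ℝ) ≤ (7 / 8 - δ) * ((n + 1 : ℕ) : ℝ))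
    (hrn : r ≤ n) :
    (1 + c) * ((n + 1 : ℕ) : ℝ) ≤ (VV n r : ℝ) := by
  obtain ⟨h1, h2, -⟩ := dd_facts r hr
  have h3 : 3 ≤ dd r := by
    rcases Nat.lt_or_ge 2 (dd r) with h | h
    · exact h
    · have : dd r = 2 := le_antisymm h h1
      rw [this] at h2
      exact absurd he h2
  have hnR : (4 : ℝ) ≤ ((n + 1 : ℕ) : ℝ) := by exact_mod_cast hn
  unfold VV
  rw [Nat.cast_min]
  apply le_min
  · have h4 : 2 * n ≤ (dd r - 1) * n := Nat.mul_le_mul_right _ (by omega)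
    have h5 : (2 : ℝ) * n ≤ (((dd r - 1) * n : ℕ) : ℝ) := by exact_mod_cast h4
    refine le_trans ?_ h5
    push_cast at hnR ⊢
    nlinarith
  · have hq : ((n - r : ℕ) : ℝ) = (n : ℝ) - r := Nat.cast_sub hrn
    have hq2 : (1 / 8 + δ) * ((n + 1 : ℕ) : ℝ) ≤ ((n - r : ℕ) : ℝ) := by
      rw [hq]
      push_cast at hb ⊢
      linarith
    rcases Nat.lt_or_ge r (n - r) with h | h
    · have h6 : n + 1 ≤ 2 * (n - r) := by omega
      have h7 : 4 * (n - r) ≤ 4 * Ns n r := Nat.mul_le_mul_left _ (le_max_left _ _)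
      have h8 : 2 * (n + 1) ≤ 4 * Ns n r := by omega
      have h9 : (2 : ℝ) * ((n + 1 : ℕ) : ℝ) ≤ ((4 * Ns n r : ℕ) : ℝ) := by exact_mod_cast h8
      refine le_trans ?_ h9
      nlinarith
    · have h6 : min r (n - r) = n - r := min_eq_right h
      have h7 : 2 * (n - r) ≤ Ns n r := by
        unfold Ns
        rw [h6]
        exact le_max_right _ _
      have h8 : 8 * (n - r) ≤ 4 * Ns n r := by omega
      have h9 : (8 : ℝ) * ((n - r : ℕ) : ℝ) ≤ ((4 * Ns n r : ℕ) : ℝ) := by exact_mod_cast h8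
      refine le_trans ?_ h9
      nlinarith

-- TARGET (prove this)
theorem odd_exact (δ : ℝ) (hδ : 0 < δ) : ∃ n0 : ℕ, ∀ n : ℕ, n0 ≤ n → ∀ r : ℕ, Odd r → (r : ℝ) ≤ (7 / 8 - δ) * n →
    IsGreatest {m : ℕ | ∃ x : Fin n → ℝ, Admissible r x ∧ Z x = m} (n.choose (n / 2)) := by
  set c : ℝ := min (8 * δ) (1 / 2) with hc
  have hc0 : 0 < c := lt_min (by linarith) (by norm_num)
  have hc1 : c ≤ 8 * δ := min_le_left _ _
  have hc2 : c ≤ 1 / 2 := min_le_right _ _
  obtain ⟨k0, hk0⟩ := main (c / 16) (by positivity)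
  obtain ⟨n1, hn1⟩ := cb (c / 16) (by positivity)
  refine ⟨n1 + 8 * k0 + 4, fun n hn r hr hb => ⟨?_, ?_⟩⟩
  · obtain ⟨x, hx, hZ⟩ := odd_low n r hr
    exact ⟨x, hx, hZ⟩
  · rintro m ⟨x, hx, rfl⟩
    by_cases h0 : ∀ i, x i ≠ 0
    · exact LO_exact x h0
    · push Not at h0
      obtain ⟨j, hj⟩ := h0
      obtain ⟨n, rfl⟩ : ∃ n', n = n' + 1 := ⟨n - 1, by omega⟩
      obtain ⟨r, rfl⟩ : ∃ r', r = r' + 1 := by
        obtain ⟨k, hk⟩ := hr
        exact ⟨2 * k, hk⟩
      have he : 2 ∣ r := by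
        obtain ⟨k, hk⟩ := hr
        exact ⟨k, by omega⟩
      have hr1 : 1 ≤ r := by
        rcases Nat.eq_zero_or_pos r with h | h
        · exfalso
          subst h
          exact hx {j} (by simp) (by simpa using hj)
        · exact h
      obtain ⟨hA, hZ⟩ := remove_zero n r x j hj hx
      have hnR : (0 : ℝ) < ((n + 1 : ℕ) : ℝ) := by positivity
      have hrn : r + 1 + k0 ≤ n + 1 := by
        have h1 : (8 : ℝ) * k0 ≤ ((n + 1 : ℕ) : ℝ) := by
          have : 8 * k0 ≤ n + 1 := by omega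
          exact_mod_cast this
        have h2 : ((r + 1 : ℕ) : ℝ) + k0 ≤ ((n + 1 : ℕ) : ℝ) := by nlinarith
        exact_mod_cast h2
      have hVV := odd_exact_VV δ c hδ hc1 hc2 n r (by omega) hr1 he hb (by omega)
      obtain ⟨M, hM, hM2⟩ := hk0 n r hr1 (by omega)
      have hZM : Z (fun i => x (j.succAbove i)) ≤ M := hM.2 ⟨_, hA, rfl⟩
      have hVpos : (0 : ℝ) < (VV n r : ℝ) := lt_of_lt_of_le (by positivity) hVV
      have hsq : 0 < √(2 / (Real.pi * VV n r)) := Real.sqrt_pos.2 (by positivity)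
      have hden : 0 < (2 : ℝ) ^ n * √(2 / (Real.pi * VV n r)) := by positivity
      have hM3 : (M : ℝ) ≤ (1 + c / 16) * (2 ^ n * √(2 / (Real.pi * VV n r))) := by
        have h1 := (abs_le.1 hM2).2
        have h2 : (M : ℝ) / (2 ^ n * √(2 / (Real.pi * VV n r))) ≤ 1 + c / 16 := by linarith
        rwa [div_le_iff₀ hden] at h2
      have hmono : √(2 / (Real.pi * VV n r)) ≤ √(2 / (Real.pi * ((n + 1 : ℕ) : ℝ))) / √(1 + c) := by
        rw [← Real.sqrt_div' _ (by positivity)]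
        apply Real.sqrt_le_sqrt
        rw [div_div]
        apply div_le_div_of_nonneg_left (by norm_num) (by positivity)
        have := mul_le_mul_of_nonneg_left hVV Real.pi_pos.le
        linarith
      have hs1 : 1 + c / 16 ≤ (1 - c / 16) * √(1 + c) := by
        have h1 : 0 ≤ (1 - c / 16) * √(1 + c) := mul_nonneg (by linarith) (Real.sqrt_nonneg _)
        apply le_of_sq_le_sq _ h1
        rw [mul_pow, Real.sq_sqrt (by positivity)]
        nlinarith [mul_pos hc0 hc0, mul_pos (mul_pos hc0 hc0) hc0]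
      obtain ⟨hcb, -⟩ := hn1 (n + 1) (by omega)
      have hS : 0 < √(1 + c) := Real.sqrt_pos.2 (by positivity)
      have hchain : (1 + c / 16) * √(2 / (Real.pi * VV n r)) ≤ ((n + 1).choose ((n + 1) / 2) : ℝ) / 2 ^ (n + 1) := by
        refine le_trans ?_ hcb
        calc (1 + c / 16) * √(2 / (Real.pi * VV n r))
            ≤ (1 + c / 16) * (√(2 / (Real.pi * ((n + 1 : ℕ) : ℝ))) / √(1 + c)) :=
              mul_le_mul_of_nonneg_left hmono (by positivity)
          _ = (1 + c / 16) / √(1 + c) * √(2 / (Real.pi * ((n + 1 : ℕ) : ℝ))) := by ring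
          _ ≤ (1 - c / 16) * √(2 / (Real.pi * ((n + 1 : ℕ) : ℝ))) := by
              apply mul_le_mul_of_nonneg_right _ (Real.sqrt_nonneg _)
              rw [div_le_iff₀ hS]
              exact hs1
      rw [le_div_iff₀ (by positivity)] at hchain
      have hfin : ((Z x : ℕ) : ℝ) ≤ ((n + 1).choose ((n + 1) / 2) : ℝ) := by
        refine le_trans ?_ hchain
        rw [hZ]
        push_cast
        have h1 : (Z (fun i => x (j.succAbove i)) : ℝ) ≤ (M : ℝ) := by exact_mod_cast hZM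
        calc (2 : ℝ) * (Z (fun i => x (j.succAbove i)) : ℝ) ≤ 2 * ((1 + c / 16) * (2 ^ n * √(2 / (Real.pi * VV n r)))) := by linarith
          _ = _ := by ring
      exact_mod_cast hfin


end JK2
export JK2 (odd_exact)
end ZA
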