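import Pool.Agent.Helper470.ZA.DefsC
import Pool.Agent.Helper470.ZA.B1
import Pool.Agent.Helper470.ZA.B2
import Pool.Agent.Helper470.ZA.E6
import Pool.Agent.Helper470.ZA.H10
import Pool.Agent.Helper470.ZA.H12
import Pool.Agent.Helper470.ZA.H17
import Pool.Agent.Helper470.ZA.H8
import Pool.Agent.Helper470.ZA.H9
set_option autoImplicit false
open Finset
open scoped Classical

namespace ZA
namespace JM1

theorem card_sdiff_inst {ι : Type} (I1 I2 : DecidableEq ι) (s S : Finset ι) :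
    (@SDiff.sdiff (Finset ι) (@Finset.instSDiff ι I1) s S).card =
      (@SDiff.sdiff (Finset ι) (@Finset.instSDiff ι I2) s S).card := by
  rw [Subsingleton.elim I1 I2]





















theorem ss_sq1 (a b A B : ℝ) (ha : 0 ≤ a) (hb : 0 ≤ b) (hA : 0 < A) (hB : 0 < B)
    (h : a * √(2 / (Real.pi * A)) ≤ b * √(2 / (Real.pi * B))) : a ^ 2 * B ≤ b ^ 2 * A := by
  have hpi := Real.pi_pos
  have h1 : (a * √(2 / (Real.pi * A))) ^ 2 ≤ (b * √(2 / (Real.pi * B))) ^ 2 :=
    pow_le_pow_left₀ (by positivity) h 2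
  rw [mul_pow, mul_pow, Real.sq_sqrt (by positivity), Real.sq_sqrt (by positivity)] at h1
  have h2 : (a ^ 2 * (2 / (Real.pi * A))) * (Real.pi * A * B / 2) ≤
      (b ^ 2 * (2 / (Real.pi * B))) * (Real.pi * A * B / 2) :=
    mul_le_mul_of_nonneg_right h1 (by positivity)
  have e1 : (a ^ 2 * (2 / (Real.pi * A))) * (Real.pi * A * B / 2) = a ^ 2 * B := by
    field_simp
  have e2 : (b ^ 2 * (2 / (Real.pi * B))) * (Real.pi * A * B / 2) = b ^ 2 * A := by
    field_simp
  rw [e1, e2] at h2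
  exact h2

theorem ss_sq2 (a A B : ℝ) (ha : 0 ≤ a) (hA : 0 < A) (hB : 0 < B)
    (h : a * √(2 / (Real.pi * A)) ≤ 1 / √B) : a ^ 2 * (2 * B) ≤ Real.pi * A := by
  have hpi := Real.pi_pos
  have h1 : (a * √(2 / (Real.pi * A))) ^ 2 ≤ (1 / √B) ^ 2 :=
    pow_le_pow_left₀ (by positivity) h 2
  rw [mul_pow, div_pow, Real.sq_sqrt (by positivity), Real.sq_sqrt (by positivity), one_pow] at h1
  have h2 : (a ^ 2 * (2 / (Real.pi * A))) * (Real.pi * A * B) ≤ (1 / B) * (Real.pi * A * B) :=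
    mul_le_mul_of_nonneg_right h1 (by positivity)
  have e1 : (a ^ 2 * (2 / (Real.pi * A))) * (Real.pi * A * B) = a ^ 2 * (2 * B) := by
    field_simp
  have e2 : (1 / B) * (Real.pi * A * B) = Real.pi * A := by
    field_simp
  rw [e1, e2] at h2
  exact h2

/-- the main estimate `√(2/(πV)) + (h/4)/√N ≤ (1+3h) √(2/(π (D-1) N))` -/
theorem ss_est (h N D V : ℝ) (hh : 0 < h) (hh1 : h ≤ 1 / 100) (hN : 0 < N) (hD : 1 ≤ D) (hD4 : D ≤ 4)
    (hV : D * (1 - 3 * h) * N ≤ V) :
    √(2 / (Real.pi * V)) + (h / 4) / √N ≤ (1 + 3 * h) * √(2 / (Real.pi * (D * N))) := by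
  have hpi := Real.pi_pos
  have h3 : 0 < 1 - 3 * h := by linarith
  have hD0 : 0 < D := by linarith
  have hW : 0 < D * (1 - 3 * h) * N := by positivity
  have hV0 : 0 < V := lt_of_lt_of_le hW hV
  have h1 : √(2 / (Real.pi * V)) ≤ (1 + 2 * h) * √(2 / (Real.pi * (D * N))) := by
    have e1 : (1 + 2 * h) * √(2 / (Real.pi * (D * N))) =
        √((1 + 2 * h) ^ 2 * (2 / (Real.pi * (D * N)))) := by
      rw [Real.sqrt_mul (by positivity), Real.sqrt_sq (by positivity)]
    rw [e1]
    apply Real.sqrt_le_sqrt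
    have h4 : 2 / (Real.pi * V) ≤ 2 / (Real.pi * (D * (1 - 3 * h) * N)) := by
      apply div_le_div_of_nonneg_left (by norm_num) (by positivity)
      exact mul_le_mul_of_nonneg_left hV hpi.le
    refine le_trans h4 ?_
    have e2 : 2 / (Real.pi * (D * (1 - 3 * h) * N)) = (1 / (1 - 3 * h)) * (2 / (Real.pi * (D * N))) := by
      field_simp
    rw [e2]
    apply mul_le_mul_of_nonneg_right _ (by positivity)
    rw [div_le_iff₀ h3]
    nlinarith [mul_pos hh hh, mul_pos (mul_pos hh hh) hh]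
  have h2 : (h / 4) / √N ≤ h * √(2 / (Real.pi * (D * N))) := by
    have h5 := c39 N hN
    have e1 : √(2 / (Real.pi * N)) = √D * √(2 / (Real.pi * (D * N))) := by
      rw [← Real.sqrt_mul hD0.le]
      congr 1
      field_simp
    have h6 : √D ≤ 2 := by
      have h7 : √D ≤ √(2 ^ 2) := Real.sqrt_le_sqrt (by linarith)
      rwa [Real.sqrt_sq (by norm_num)] at h7
    have h8 : (h / 4) / √N = (h / 4) * (1 / √N) := by ring
    rw [h8]
    have h9 : √D * √(2 / (Real.pi * (D * N))) ≤ 2 * √(2 / (Real.pi * (D * N))) :=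
      mul_le_mul_of_nonneg_right h6 (Real.sqrt_nonneg _)
    have h10 : (h / 4) * (1 / √N) ≤ (h / 4) * ((4 / 3) * √(2 / (Real.pi * N))) :=
      mul_le_mul_of_nonneg_left h5 (by positivity)
    rw [e1] at h10
    have h11 : (h / 4) * ((4 / 3) * (√D * √(2 / (Real.pi * (D * N))))) ≤
        (h / 4) * ((4 / 3) * (2 * √(2 / (Real.pi * (D * N))))) := by
      apply mul_le_mul_of_nonneg_left _ (by positivity)
      exact mul_le_mul_of_nonneg_left h9 (by norm_num)
    have h12 : 0 ≤ h * √(2 / (Real.pi * (D * N))) := by positivity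
    have h13 : (h / 4) * ((4 / 3) * (2 * √(2 / (Real.pi * (D * N))))) = (2 / 3) * (h * √(2 / (Real.pi * (D * N)))) := by
      ring
    linarith
  calc √(2 / (Real.pi * V)) + (h / 4) / √N
      ≤ (1 + 2 * h) * √(2 / (Real.pi * (D * N))) + h * √(2 / (Real.pi * (D * N))) := add_le_add h1 h2
    _ = (1 + 3 * h) * √(2 / (Real.pi * (D * N))) := by ring

/-- the support of an admissible vector -/
theorem ss_zeros {n : ℕ} (r : ℕ) (x : Fin n → ℝ) (hx : Admissible r x) (B : Finset (Fin n))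
    (hB : B ⊆ univ.filter (fun i => x i ≠ 0)) (h0 : ∑ i ∈ B, x i = 0) :
    r < B.card ∨ B.card + (n - (univ.filter (fun i => x i ≠ 0)).card) < r := by
  by_contra hcon
  push Not at hcon
  obtain ⟨h1, h2⟩ := hcon
  have hc : (univ.filter (fun i => x i = 0)).card = n - (univ.filter (fun i => x i ≠ 0)).card := by
    have h3 := Finset.card_filter_add_card_filter_not (s := (univ : Finset (Fin n))) (fun i => x i = 0)
    rw [Finset.card_univ, Fintype.card_fin] at h3
    have h4 : (univ.filter (fun i => ¬ x i = 0)).card = (univ.filter (fun i => x i ≠ 0)).card := rfl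
    omega
  obtain ⟨C, hC, hCc⟩ := Finset.exists_subset_card_eq (s := univ.filter (fun i => x i = 0))
    (n := r - B.card) (by omega)
  have hdisj : Disjoint B C := by
    rw [Finset.disjoint_left]
    intro i hi hi'
    have h5 := (Finset.mem_filter.1 (hB hi)).2
    have h6 := (Finset.mem_filter.1 (hC hi')).2
    exact h5 h6
  have hcard : (B ∪ C).card = r := by
    rw [Finset.card_union_of_disjoint hdisj]
    omega
  apply hx (B ∪ C) hcard
  rw [Finset.sum_union hdisj, h0, zero_add]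
  apply Finset.sum_eq_zero
  intro i hi
  exact (Finset.mem_filter.1 (hC hi)).2

-- TARGET (prove this)
theorem small_support (δ : ℝ) (hδ : 0 < δ) : ∃ k0 : ℕ, ∀ k n : ℕ, k0 ≤ k → (3 : ℝ) * k ≤ n →
    (8 + δ) * k ≤ ((dd (n - k) : ℝ) - 1) * n → ∀ x : Fin n → ℝ, Admissible (n - k) x →
    (∀ x' : Fin n → ℝ, Admissible (n - k) x' → Z x' ≤ Z x) →
    ((univ.filter (fun i => x i ≠ 0)).card : ℝ) ≤ (2 + δ) * k := by
  set h : ℝ := min δ 1 / 100 with hdef
  have hm0 : 0 < min δ 1 := lt_min hδ one_pos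
  have hh : 0 < h := by positivity
  have hh1 : h ≤ 1 / 100 := by
    rw [hdef]
    have := min_le_right δ 1
    linarith
  have hhd : h ≤ δ / 100 := by
    rw [hdef]
    have := min_le_left δ 1
    linarith
  obtain ⟨K, δ', N1, hK, hδ', hstruct⟩ := struct h hh (by linarith)
  obtain ⟨N2, hlin⟩ := lin2 (1 / 2) (by norm_num) K hK δ' hδ'
  obtain ⟨k1, hlow⟩ := low_all h hh
  refine ⟨N1 + N2 + k1 + 1 + ⌈2 * (K : ℝ) / h⌉₊, ?_⟩
  intro k n hk h3 hdd x hx hmax
  have hpi := Real.pi_pos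
  have hn3 : 3 * k ≤ n := by exact_mod_cast h3
  have hk1 : 1 ≤ k := by omega
  have hkR : (1 : ℝ) ≤ k := by exact_mod_cast hk1
  have hk0R : (0 : ℝ) < k := by linarith
  obtain ⟨r, hr⟩ : ∃ r, r = n - k := ⟨_, rfl⟩
  rw [← hr] at hdd hx hmax
  have hrk : r + k = n := by omega
  have hr1 : 1 ≤ r := by omega
  have hnr : n - r = k := by omega
  obtain ⟨hdd2, hddnd, hddall⟩ := dd_facts r hr1
  -- lower bound
  obtain ⟨x0, hx0, hx0low⟩ := hlow n r hr1 (by omega)
  have hVV : VV n r = 8 * k := by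
    have hNs : Ns n r = 2 * k := by
      unfold Ns
      rw [hnr]
      omega
    have h8 : 8 * k ≤ (dd r - 1) * n := by
      have h9 : ((8 * k : ℕ) : ℝ) ≤ (((dd r - 1) * n : ℕ) : ℝ) := by
        push_cast [Nat.cast_sub (show 1 ≤ dd r by omega)]
        nlinarith
      exact_mod_cast h9
    unfold VV
    rw [hNs]
    omega
  have hZ : (1 - h) * (2 ^ n * √(2 / (Real.pi * (8 * k)))) ≤ (Z x : ℝ) := by
    have h9 : (Z x0 : ℝ) ≤ (Z x : ℝ) := by exact_mod_cast hmax x0 hx0
    rw [hVV] at hx0low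
    push_cast at hx0low
    linarith
  set s : Finset (Fin n) := univ.filter (fun i => x i ≠ 0) with hs
  have hpr : pr univ x 0 = (Z x : ℝ) / 2 ^ n := by
    unfold pr cnt Z
    rw [Finset.powerset_univ, Finset.card_univ, Fintype.card_fin]
  have hprs : pr univ x 0 = pr s x 0 := by
    apply pr_zeros s univ (Finset.subset_univ _)
    intro i _ hi
    by_contra hne
    exact hi (Finset.mem_filter.2 ⟨Finset.mem_univ i, hne⟩)
  have hp : (1 - h) * √(2 / (Real.pi * (8 * k))) ≤ pr s x 0 := by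
    rw [← hprs, hpr, le_div_iff₀ (by positivity)]
    calc (1 - h) * √(2 / (Real.pi * (8 * k))) * 2 ^ n
        = (1 - h) * (2 ^ n * √(2 / (Real.pi * (8 * k)))) := by ring
      _ ≤ _ := hZ
  have hadm : ∀ B ⊆ s, ∑ i ∈ B, x i = 0 → r < B.card ∨ B.card + (n - s.card) < r :=
    fun B hB h0 => ss_zeros r x hx B hB h0
  have hsn : s.card ≤ n := by
    have := Finset.card_le_univ s
    rwa [Fintype.card_fin] at this
  have hkN : k < s.card := by
    have h9 := hadm ∅ (Finset.empty_subset _) (by simp)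
    rw [Finset.card_empty] at h9
    omega
  have hN0 : (0 : ℝ) < (s.card : ℝ) := by
    have : 0 < s.card := by omega
    exact_mod_cast this
  have hsne : s.Nonempty := Finset.card_pos.1 (by omega)
  have hxs : ∀ i ∈ s, x i ≠ 0 := fun i hi => (Finset.mem_filter.1 hi).2
  have h1h : 0 ≤ 1 - h := by linarith
  have h8k : (0 : ℝ) < 8 * (k : ℝ) := by linarith
  -- claim
  have hclaim : pr s x 0 ≤ (1 / 2 + h) * √(2 / (Real.pi * s.card)) := by
    by_contra hcon
    push Not at hcon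
    have hN13 : (s.card : ℝ) ≤ 13 * (k : ℝ) := by
      have h9 := ss_sq2 (1 - h) (8 * k) s.card h1h h8k hN0 (le_trans hp (pr_le_LO s hsne x hxs 0))
      have h10 : Real.pi < 3.1416 := Real.pi_lt_d4
      have h11 : (0.9801 : ℝ) ≤ (1 - h) ^ 2 := by nlinarith
      have h12 : (0.9801 : ℝ) * (2 * s.card) ≤ (1 - h) ^ 2 * (2 * s.card) :=
        mul_le_mul_of_nonneg_right h11 (by positivity)
      have h13 : Real.pi * (8 * k) ≤ 3.1416 * (8 * (k : ℝ)) :=
        mul_le_mul_of_nonneg_right h10.le h8k.le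
      linarith
    obtain ⟨S, z, v, hv, hSs, hyz, hz0, hzK, hzm, hzg, hSc, hSz, hpz⟩ :=
      hstruct s x (by omega) hxs hcon
    have hsd : ((s \ S).card : ℝ) + (S.card : ℝ) = (s.card : ℝ) := by
      have := Finset.card_sdiff_add_card_eq_card hSs
      exact_mod_cast this
    have hSc' : ((s \ S).card : ℝ) ≤ (h / 16) ^ 2 * s.card := by
      refine le_trans (le_of_eq ?_) hSc
      exact_mod_cast card_sdiff_inst _ _ s S
    obtain ⟨hnK, d, hd2, hddiff, hdr⟩ := hlin s S z n r (by omega) hr1 (by omega) hsn (by omega)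
      (by
        have h9 : ((r + k : ℕ) : ℝ) = (n : ℝ) := by rw [hrk]
        push_cast at h9
        linarith)
      (by rw [hnr]; exact hN13)
      (by
        intro B hB hBz
        apply hadm B hB
        have h9 : ∑ i ∈ B, x i = ∑ i ∈ B, (z i : ℝ) * v :=
          Finset.sum_congr rfl (fun i hi => hyz i (hB hi))
        rw [h9, ← Finset.sum_mul]
        have h10 : ∑ i ∈ B, (z i : ℝ) = 0 := by exact_mod_cast hBz
        rw [h10, zero_mul])
      hSs (fun i hi => ⟨hz0 i (hSs hi), hzK i hi⟩) hzm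
      (by
        refine le_trans hSc (mul_le_mul_of_nonneg_right ?_ hN0.le)
        nlinarith)
      (by
        refine le_trans hSz (mul_le_mul_of_nonneg_right ?_ hN0.le)
        linarith)
    obtain ⟨D, hD⟩ : ∃ D, D = min (dd r) 5 := ⟨_, rfl⟩
    have hD2 : 2 ≤ D := by omega
    have hD5 : D ≤ 5 := by omega
    have hDd : D ≤ d := by
      have := dd_le r d (by omega) hdr
      omega
    have hcore := core_alg2 S z d D hd2 hddiff hzg hD2 hD5 hDd
    have hcoreR : ((D : ℝ) - 1) * S.card - 8 * |∑ i ∈ S, (z i : ℝ)| ≤ ∑ i ∈ S, (z i : ℝ) ^ 2 := by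
      exact_mod_cast hcore
    have hD1R : (1 : ℝ) ≤ (D : ℝ) - 1 := by
      have : (2 : ℝ) ≤ (D : ℝ) := by exact_mod_cast hD2
      linarith
    have hD4R : (D : ℝ) - 1 ≤ 4 := by
      have : (D : ℝ) ≤ 5 := by exact_mod_cast hD5
      linarith
    have hV : ((D : ℝ) - 1) * (1 - 3 * h) * s.card ≤ ∑ i ∈ S, (z i : ℝ) ^ 2 := by
      refine le_trans ?_ hcoreR
      have h9 : (s.card : ℝ) * (1 - h) ≤ (S.card : ℝ) := by
        have h10 : (h / 16) ^ 2 * (s.card : ℝ) ≤ h * s.card := by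
          apply mul_le_mul_of_nonneg_right _ hN0.le
          nlinarith
        nlinarith
      have h11 : ((D : ℝ) - 1) * ((s.card : ℝ) * (1 - h)) ≤ ((D : ℝ) - 1) * S.card :=
        mul_le_mul_of_nonneg_left h9 (by linarith)
      have h12 : 8 * |∑ i ∈ S, (z i : ℝ)| ≤ 2 * h * s.card := by linarith
      have h13 : 2 * h * s.card ≤ ((D : ℝ) - 1) * (2 * h * s.card) := by
        have h14 : 0 ≤ 2 * h * (s.card : ℝ) := by positivity
        nlinarith
      nlinarith
    have hest := ss_est h s.card ((D : ℝ) - 1) _ hh hh1 hN0 hD1R hD4R hV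
    have hDN : 0 < ((D : ℝ) - 1) * s.card := by
      apply mul_pos _ hN0
      linarith
    have hfin := ss_sq1 (1 - h) (1 + 3 * h) (8 * k) (((D : ℝ) - 1) * s.card) h1h (by linarith) h8k hDN
      (le_trans hp (le_trans hpz hest))
    have hKh : 2 * (K : ℝ) ≤ h * n := by
      have h9 : 2 * (K : ℝ) / h ≤ (k : ℝ) := by
        refine le_trans (Nat.le_ceil _) ?_
        have : ⌈2 * (K : ℝ) / h⌉₊ ≤ k := by omega
        exact_mod_cast this
      have h10 : (k : ℝ) ≤ n := by linarith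
      rw [div_le_iff₀ hh] at h9
      nlinarith
    have hNn : (1 - h) * (n : ℝ) ≤ s.card := by
      have h9 : (n : ℝ) ≤ s.card + 2 * K := by exact_mod_cast hnK
      linarith
    have hn0 : (0 : ℝ) < n := by linarith
    have hmain : (1 - h) ^ 3 * (((D : ℝ) - 1) * n) ≤ (1 + 3 * h) ^ 2 * (8 * k) := by
      refine le_trans ?_ hfin
      have h9 : (1 - h) ^ 3 * (((D : ℝ) - 1) * n) = (1 - h) ^ 2 * (((D : ℝ) - 1) * ((1 - h) * n)) := by ring
      rw [h9]
      apply mul_le_mul_of_nonneg_left _ (by positivity)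
      exact mul_le_mul_of_nonneg_left hNn (by linarith)
    have hpoly : (1 + 3 * h) ^ 2 ≤ (1 - h) ^ 3 * (1 + 12 * h) := by
      have h9 : (1 - h) ^ 3 * (1 + 12 * h) - (1 + 3 * h) ^ 2 = h * (3 - 42 * h + 35 * h ^ 2 - 12 * h ^ 3) := by
        ring
      have h10 : 0 ≤ 3 - 42 * h + 35 * h ^ 2 - 12 * h ^ 3 := by
        have h11 : h ^ 3 ≤ 1 := pow_le_one₀ hh.le (by linarith)
        have h12 : h ^ 3 ≤ h := by
          have : h ^ 3 = h * h ^ 2 := by ring
          have h13 : h ^ 2 ≤ 1 := pow_le_one₀ hh.le (by linarith)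
          nlinarith
        nlinarith [sq_nonneg h]
      have h11 : 0 ≤ h * (3 - 42 * h + 35 * h ^ 2 - 12 * h ^ 3) := mul_nonneg hh.le h10
      linarith
    have h1h3 : 0 < (1 - h) ^ 3 := by
      apply pow_pos
      linarith
    have hfin2 : ((D : ℝ) - 1) * n ≤ (1 + 12 * h) * (8 * k) := by
      have h9 : (1 - h) ^ 3 * (((D : ℝ) - 1) * n) ≤ (1 - h) ^ 3 * ((1 + 12 * h) * (8 * k)) := by
        refine le_trans hmain ?_
        have h10 := mul_le_mul_of_nonneg_right hpoly h8k.le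
        linarith
      exact le_of_mul_le_mul_left h9 h1h3
    have hhk : h * k ≤ δ / 100 * k := mul_le_mul_of_nonneg_right hhd hk0R.le
    have hhk2 : h * k ≤ 1 / 100 * k := mul_le_mul_of_nonneg_right hh1 hk0R.le
    have hδk : 0 < δ * k := mul_pos hδ hk0R
    rcases Nat.lt_or_ge (dd r) 6 with h5 | h5
    · have hDr : D = dd r := by omega
      rw [hDr] at hfin2
      nlinarith
    · have hDr : D = 5 := by omega
      rw [hDr] at hfin2
      push_cast at hfin2
      nlinarith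
  have hfin := ss_sq1 (1 - h) (1 / 2 + h) (8 * k) s.card h1h (by linarith) h8k hN0
    (le_trans hp hclaim)
  have hpoly : (1 / 2 + h) ^ 2 * 8 ≤ (1 - h) ^ 2 * (2 + δ) := by
    have h9 : (1 / 2 + h) ^ 2 * 8 ≤ (1 - h) ^ 2 * (2 + 14 * h) := by
      have h10 : (1 - h) ^ 2 * (2 + 14 * h) - (1 / 2 + h) ^ 2 * 8 = h * (2 - 34 * h + 14 * h ^ 2) := by ring
      have h11 : 0 ≤ 2 - 34 * h + 14 * h ^ 2 := by nlinarith [sq_nonneg h]
      have h12 := mul_nonneg hh.le h11
      linarith
    refine le_trans h9 (mul_le_mul_of_nonneg_left (by linarith) (by positivity))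
  have h1h2 : 0 < (1 - h) ^ 2 := by
    apply pow_pos
    linarith
  have h9 : (1 - h) ^ 2 * (s.card : ℝ) ≤ (1 - h) ^ 2 * ((2 + δ) * k) := by
    refine le_trans hfin ?_
    have h10 := mul_le_mul_of_nonneg_right hpoly hk0R.le
    linarith
  exact le_of_mul_le_mul_left h9 h1h2


end JM1
export JM1 (small_support)
end ZA
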