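import Pool.Agent.Helper470.ZA.DefsC
set_option autoImplicit false
open Finset
open scoped Classical

namespace ZA
namespace JM2


theorem compress_map {N n : ℕ} (e : Fin N ↪ Fin n) (B : Finset (Fin n)) :
    (univ.filter (fun j => e j ∈ B)).map e = B.filter (fun i => ∃ j, e j = i) := by
  ext i
  simp only [Finset.mem_map, Finset.mem_filter, Finset.mem_univ, true_and]
  constructor
  · rintro ⟨j, hj, rfl⟩
    exact ⟨hj, j, rfl⟩
  · rintro ⟨hi, j, rfl⟩
    exact ⟨j, hi, rfl⟩

theorem compress_sum {N n : ℕ} (e : Fin N ↪ Fin n) (x : Fin n → ℝ)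
    (hx : ∀ i, (∀ j, e j ≠ i) → x i = 0) (B : Finset (Fin n)) :
    ∑ i ∈ B, x i = ∑ j ∈ univ.filter (fun j => e j ∈ B), x (e j) := by
  rw [← Finset.sum_map (univ.filter (fun j => e j ∈ B)) e x, compress_map]
  symm
  apply Finset.sum_filter_of_ne
  intro i _ hi
  by_contra hcon
  push Not at hcon
  exact hi (hx i hcon)

theorem compress_compl {N n : ℕ} (e : Fin N ↪ Fin n) :
    (univ.filter (fun i => ∀ j, e j ≠ i)).card = n - N := by
  have h1 : (univ.filter (fun i => ∀ j, e j ≠ i)) = (univ.map e)ᶜ := by
    ext i
    simp only [Finset.mem_filter, Finset.mem_univ, true_and, Finset.mem_compl, Finset.mem_map]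
    push Not
    rfl
  rw [h1, Finset.card_compl]
  simp

theorem compress_count {N n : ℕ} (e : Fin N ↪ Fin n) (x : Fin n → ℝ)
    (hx : ∀ i, (∀ j, e j ≠ i) → x i = 0) :
    Z x = 2 ^ (n - N) * Z (fun j => x (e j)) := by
  have key : (univ.filter (fun B : Finset (Fin n) => ∑ i ∈ B, x i = 0)).card =
      ((univ.filter (fun A : Finset (Fin N) => ∑ j ∈ A, x (e j) = 0)) ×ˢ
        (univ.filter (fun i => ∀ j, e j ≠ i)).powerset).card := by
    apply Finset.card_bij' (fun B _ => (univ.filter (fun j => e j ∈ B),
        B.filter (fun i => ∀ j, e j ≠ i)))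
      (fun p _ => p.1.map e ∪ p.2)
    · intro B hB
      rw [Finset.mem_filter] at hB
      rw [Finset.mem_product, Finset.mem_filter, Finset.mem_powerset]
      refine ⟨⟨Finset.mem_univ _, ?_⟩, ?_⟩
      · rw [← compress_sum e x hx B]
        exact hB.2
      · intro i hi
        rw [Finset.mem_filter] at hi ⊢
        exact ⟨Finset.mem_univ _, hi.2⟩
    · rintro ⟨A, D⟩ hp
      rw [Finset.mem_product, Finset.mem_filter, Finset.mem_powerset] at hp
      obtain ⟨⟨_, h1⟩, h2⟩ := hp
      rw [Finset.mem_filter]
      refine ⟨Finset.mem_univ _, ?_⟩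
      rw [compress_sum e x hx]
      have h3 : univ.filter (fun j => e j ∈ A.map e ∪ D) = A := by
        ext j
        simp only [Finset.mem_filter, Finset.mem_univ, true_and, Finset.mem_union]
        constructor
        · rintro (h | h)
          · simpa using h
          · have := h2 h
            simp only [Finset.mem_filter, Finset.mem_univ, true_and] at this
            exact absurd rfl (this j)
        · intro h
          left
          simpa using h
      show ∑ j ∈ univ.filter (fun j => e j ∈ A.map e ∪ D), x (e j) = 0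
      rw [h3]
      exact h1
    · intro B hB
      show (univ.filter (fun j => e j ∈ B)).map e ∪ B.filter (fun i => ∀ j, e j ≠ i) = B
      rw [compress_map]
      ext i
      simp only [Finset.mem_union, Finset.mem_filter]
      constructor
      · rintro (h | h)
        · exact h.1
        · exact h.1
      · intro h
        by_cases h1 : ∃ j, e j = i
        · exact Or.inl ⟨h, h1⟩
        · push Not at h1
          exact Or.inr ⟨h, h1⟩
    · rintro ⟨A, D⟩ hp
      rw [Finset.mem_product, Finset.mem_filter, Finset.mem_powerset] at hp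
      obtain ⟨⟨_, h1⟩, h2⟩ := hp
      show (univ.filter (fun j => e j ∈ A.map e ∪ D),
        (A.map e ∪ D).filter (fun i => ∀ j, e j ≠ i)) = (A, D)
      congr 1
      · ext j
        simp only [Finset.mem_filter, Finset.mem_univ, true_and, Finset.mem_union]
        constructor
        · rintro (h | h)
          · simpa using h
          · have := h2 h
            simp only [Finset.mem_filter, Finset.mem_univ, true_and] at this
            exact absurd rfl (this j)
        · intro h
          left
          simpa using h
      · ext i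
        simp only [Finset.mem_filter, Finset.mem_union, Finset.mem_map]
        constructor
        · rintro ⟨h | h, h'⟩
          · obtain ⟨j, _, hj⟩ := h
            exact absurd hj (h' j)
          · exact h
        · intro h
          have := h2 h
          simp only [Finset.mem_filter, Finset.mem_univ, true_and] at this
          exact ⟨Or.inr h, this⟩
  unfold Z
  rw [key, Finset.card_product, Finset.card_powerset, compress_compl, mul_comm]

-- TARGET (prove this)
theorem compress (n k : ℕ) (x : Fin n → ℝ) (hx : Admissible (n - k) x)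
    (hN : (univ.filter (fun i => x i ≠ 0)).card ≤ n - k) :
    ∃ y : Fin (univ.filter (fun i => x i ≠ 0)).card → ℝ, NoBig k y ∧
      Z x = 2 ^ (n - (univ.filter (fun i => x i ≠ 0)).card) * Z y := by
  obtain ⟨s, hs⟩ : ∃ s, s = univ.filter (fun i => x i ≠ 0) := ⟨_, rfl⟩
  rw [← hs] at hN ⊢
  obtain ⟨e, he⟩ : ∃ e : Fin s.card ↪ Fin n, ∀ i, i ∈ s ↔ ∃ j, e j = i := by
    refine ⟨(s.orderEmbOfFin rfl).toEmbedding, fun i => ?_⟩
    have h1 := Finset.range_orderEmbOfFin s rfl
    have h2 : i ∈ (s : Set (Fin n)) ↔ i ∈ Set.range (s.orderEmbOfFin rfl) := by rw [h1]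
    rw [Finset.mem_coe] at h2
    exact h2
  have hx0 : ∀ i, (∀ j, e j ≠ i) → x i = 0 := by
    intro i hi
    by_contra hne
    have : i ∈ s := by
      rw [hs, Finset.mem_filter]
      exact ⟨Finset.mem_univ _, hne⟩
    obtain ⟨j, hj⟩ := (he i).1 this
    exact hi j hj
  refine ⟨fun j => x (e j), ?_, compress_count e x hx0⟩
  intro B hB hsum
  have hBs : B.map e ⊆ s := by
    intro i hi
    rw [Finset.mem_map] at hi
    obtain ⟨j, _, hj⟩ := hi
    exact (he i).2 ⟨j, hj⟩
  have hBc : B.card ≤ s.card := by
    have := Finset.card_le_univ B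
    simpa using this
  have hsn : s.card ≤ n := by
    have := Finset.card_le_univ s
    simpa using this
  have hdisj : Disjoint (B.map e) sᶜ := by
    rw [Finset.disjoint_left]
    intro i hi hi'
    exact (Finset.mem_compl.1 hi') (hBs hi)
  have hcard : (B.map e ∪ sᶜ).card = B.card + (n - s.card) := by
    rw [Finset.card_union_of_disjoint hdisj, Finset.card_map, Finset.card_compl, Fintype.card_fin]
  obtain ⟨u, hu1, hu2, hu3⟩ := Finset.exists_subsuperset_card_eq
    (s := B.map e) (t := B.map e ∪ sᶜ) (n := n - k) Finset.subset_union_left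
    (by rw [Finset.card_map]; omega) (by rw [hcard]; omega)
  apply hx u hu3
  have hs1 : ∑ i ∈ B.map e, x i = ∑ i ∈ u, x i := by
    apply Finset.sum_subset hu1
    intro i hi hi'
    have h1 := hu2 hi
    rw [Finset.mem_union] at h1
    rcases h1 with h1 | h1
    · exact absurd h1 hi'
    · apply hx0
      intro j hj
      exact (Finset.mem_compl.1 h1) ((he i).2 ⟨j, hj⟩)
  rw [← hs1, Finset.sum_map]
  exact hsum

-- TARGET (prove this)
theorem pad (N n k : ℕ) (hNn : N ≤ n) (y : Fin N → ℝ) (hy : NoBig k y) :
    ∃ x : Fin n → ℝ, Admissible (n - k) x ∧ Z x = 2 ^ (n - N) * Z y := by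
  obtain ⟨e, he⟩ : ∃ e : Fin N ↪ Fin n, e = Fin.castLEEmb hNn := ⟨_, rfl⟩
  obtain ⟨x, hxd⟩ : ∃ x : Fin n → ℝ, x = fun i => if h : i.val < N then y ⟨i.val, h⟩ else 0 :=
    ⟨_, rfl⟩
  have hxe : ∀ j, x (e j) = y j := by
    intro j
    rw [hxd, he]
    have : ((Fin.castLEEmb hNn) j).val < N := j.isLt
    simp
  have hx0 : ∀ i, (∀ j, e j ≠ i) → x i = 0 := by
    intro i hi
    rw [hxd]
    have : ¬ i.val < N := by
      intro h
      apply hi ⟨i.val, h⟩
      rw [he]
      ext
      simp
    simp only [dif_neg this]
  have hfun : (fun j => x (e j)) = y := by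
    funext j
    exact hxe j
  refine ⟨x, ?_, ?_⟩
  · intro S hS hsum
    rw [compress_sum e x hx0 S] at hsum
    refine hy (univ.filter (fun j => e j ∈ S)) ?_ ?_
    · have h1 : (univ.filter (fun j => e j ∈ S)).card = (S.filter (fun i => ∃ j, e j = i)).card := by
        rw [← compress_map, Finset.card_map]
      have h2 : (S.filter (fun i => ∃ j, e j = i)).card +
          (S.filter (fun i => ¬ ∃ j, e j = i)).card = S.card :=
        Finset.card_filter_add_card_filter_not _
      have h3 : (S.filter (fun i => ¬ ∃ j, e j = i)).card ≤ n - N := by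
        rw [← compress_compl e]
        apply Finset.card_le_card
        intro i hi
        rw [Finset.mem_filter] at hi ⊢
        refine ⟨Finset.mem_univ _, ?_⟩
        have := hi.2
        push Not at this
        exact this
      omega
    · rw [← hsum]
      exact Finset.sum_congr rfl fun j _ => (hxe j).symm
  · rw [compress_count e x hx0, hfun]


end JM2
export JM2 (compress pad)
end ZA
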