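import Pool.Agent.Helper470.ZA.DefsC
import Pool.Agent.Helper470.ZA.B1
import Pool.Agent.Helper470.ZA.B2
import Pool.Agent.Helper470.ZA.G3
import Pool.Agent.Helper470.ZA.M2
set_option autoImplicit false
open Finset
open scoped Classical

namespace ZA
namespace JM3












-- TARGET (prove this)
theorem intr_vec (n k : ℕ) (h : k + 1 < n) :
    ∃ v : Fin n → ℝ, Admissible (n - k) v ∧ 2 ^ (n - k - 1) ≤ Z v := by
  let a : Fin n := ⟨k + 1, h⟩
  let v : Fin n → ℝ := fun i => if (i : ℕ) < k + 1 then 1 else 0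
  have hT : (Finset.Ici a).card = n - (k + 1) := Fin.card_Ici a
  have hv0 : ∀ i ∈ Finset.Ici a, v i = 0 := by
    intro i hi
    have h1 : a ≤ i := Finset.mem_Ici.mp hi
    have h2 : k + 1 ≤ (i : ℕ) := h1
    simp only [v]
    rw [if_neg (by omega)]
  refine ⟨v, ?_, ?_⟩
  · intro S hS
    have hne : ∃ i ∈ S, (i : ℕ) < k + 1 := by
      by_contra hc
      push Not at hc
      have hsub : S ⊆ Finset.Ici a := by
        intro i hi
        rw [Finset.mem_Ici]
        exact hc i hi
      have := Finset.card_le_card hsub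
      omega
    obtain ⟨i, hi, hik⟩ := hne
    have hnn : ∀ j ∈ S, 0 ≤ v j := by
      intro j _
      simp only [v]
      split_ifs <;> norm_num
    have h1 : v i ≤ ∑ j ∈ S, v j := Finset.single_le_sum hnn hi
    have h2 : v i = 1 := by
      simp only [v]
      rw [if_pos hik]
    intro h0
    linarith
  · have hsub : (Finset.Ici a).powerset ⊆
        univ.filter (fun B : Finset (Fin n) => ∑ i ∈ B, v i = 0) := by
      intro B hB
      rw [Finset.mem_powerset] at hB
      rw [Finset.mem_filter]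
      exact ⟨Finset.mem_univ _, Finset.sum_eq_zero (fun i hi => hv0 i (hB hi))⟩
    have h1 := Finset.card_le_card hsub
    rw [Finset.card_powerset, hT] at h1
    have h2 : n - (k + 1) = n - k - 1 := by omega
    rw [h2] at h1
    exact h1

theorem intrinsic (α : ℕ → ℝ)
    (hα : ∀ k n : ℕ, 4 ^ (k + 1) + k ≤ n →
      ∃ M : ℕ, IsGreatest {m : ℕ | ∃ x : Fin n → ℝ, Admissible (n - k) x ∧ Z x = m} M ∧ (M : ℝ) = α k * 2 ^ n) (k : ℕ) :
    IsGreatest {q : ℝ | ∃ (N : ℕ) (y : Fin N → ℝ), NoBig k y ∧ q = (Z y : ℝ) / 2 ^ N} (α k) := by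
  constructor
  · -- attained
    have h4 : 4 ≤ 4 ^ (k + 1) := by
      calc 4 = 4 ^ 1 := by norm_num
        _ ≤ 4 ^ (k + 1) := Nat.pow_le_pow_right (by norm_num) (by omega)
    obtain ⟨M, hM, hMα⟩ := hα k (4 ^ (k + 1) + k) le_rfl
    set n := 4 ^ (k + 1) + k with hn
    obtain ⟨⟨x, hx, hZx⟩, hMub⟩ := hM
    obtain ⟨v, hv, hZv⟩ := intr_vec n k (by omega)
    have hMge : 2 ^ (n - k - 1) ≤ M := hZv.trans (hMub ⟨v, hv, rfl⟩)
    have hN : (univ.filter (fun i => x i ≠ 0)).card ≤ n - k := by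
      by_contra hc
      push Not at hc
      set s := univ.filter (fun i => x i ≠ 0) with hs
      have hnk : n - k = 4 ^ (k + 1) := by omega
      rw [hnk] at hc
      have hspos : 0 < s.card := by omega
      have hsne : s.Nonempty := Finset.card_pos.mp hspos
      have h1 : pr (univ : Finset (Fin n)) x 0 = pr s x 0 := by
        refine pr_zeros s univ (Finset.subset_univ _) x ?_ 0
        intro i _ hi
        by_contra h0
        exact hi (by rw [hs, Finset.mem_filter]; exact ⟨Finset.mem_univ _, h0⟩)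
      have h2 : pr s x 0 ≤ 1 / √(s.card : ℝ) := by
        refine pr_le_LO s hsne x ?_ 0
        intro i hi
        rw [hs, Finset.mem_filter] at hi
        exact hi.2
      have h3 : pr (univ : Finset (Fin n)) x 0 = (M : ℝ) / 2 ^ n := by
        unfold pr cnt
        rw [Finset.powerset_univ, Finset.card_univ, Fintype.card_fin, ← hZx]
        rfl
      have h5 : (2 : ℝ) ^ (n - k - 1) ≤ M := by exact_mod_cast hMge
      have h6 : (2 : ℝ) ^ n = 2 ^ (n - k - 1) * 2 ^ (k + 1) := by
        rw [← pow_add]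
        congr 1
        omega
      have h7 : 1 / (2 : ℝ) ^ (k + 1) ≤ (M : ℝ) / 2 ^ n := by
        rw [h6, div_le_div_iff₀ (by positivity) (by positivity), one_mul]
        exact mul_le_mul_of_nonneg_right h5 (by positivity)
      have h8 : 1 / (2 : ℝ) ^ (k + 1) ≤ 1 / √(s.card : ℝ) := by
        calc _ ≤ (M : ℝ) / 2 ^ n := h7
          _ = pr (univ : Finset (Fin n)) x 0 := h3.symm
          _ = pr s x 0 := h1
          _ ≤ _ := h2
      have hsq : 0 < √(s.card : ℝ) := Real.sqrt_pos.mpr (by exact_mod_cast hspos)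
      have h9 : √(s.card : ℝ) ≤ 2 ^ (k + 1) := by
        rwa [one_div_le_one_div (by positivity) hsq] at h8
      have h10 : (s.card : ℝ) ≤ 4 ^ (k + 1) := by
        have h11 : √(s.card : ℝ) ^ 2 ≤ (2 ^ (k + 1)) ^ 2 := by
          apply pow_le_pow_left₀ hsq.le h9
        rw [Real.sq_sqrt (by positivity)] at h11
        calc _ ≤ ((2 : ℝ) ^ (k + 1)) ^ 2 := h11
          _ = 4 ^ (k + 1) := by
            rw [← pow_mul, mul_comm, pow_mul]
            norm_num
      have h12 : s.card ≤ 4 ^ (k + 1) := by exact_mod_cast h10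
      omega
    obtain ⟨N, y, hNn, hy, hZy⟩ : ∃ (N : ℕ) (y : Fin N → ℝ), N ≤ n ∧ NoBig k y ∧
        Z x = 2 ^ (n - N) * Z y := by
      obtain ⟨y, hy, hZy⟩ := compress n k x hx hN
      exact ⟨_, y, by omega, hy, hZy⟩
    refine ⟨N, y, hy, ?_⟩
    have h1 : (M : ℝ) = 2 ^ (n - N) * (Z y : ℝ) := by
      rw [← hZx, hZy]
      push_cast
      ring
    have h2 : (2 : ℝ) ^ n = 2 ^ (n - N) * 2 ^ N := by
      rw [← pow_add]
      congr 1
      omega
    rw [h1, h2] at hMα
    have hp : (0 : ℝ) < 2 ^ (n - N) := by positivity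
    have h3 : (Z y : ℝ) = α k * 2 ^ N := by
      have : (2 : ℝ) ^ (n - N) * (Z y : ℝ) = 2 ^ (n - N) * (α k * 2 ^ N) := by
        rw [hMα]; ring
      exact mul_left_cancel₀ hp.ne' this
    rw [h3, mul_div_assoc, div_self (by positivity), mul_one]
  · -- upper bound
    rintro q ⟨N, y, hy, rfl⟩
    set n := max (4 ^ (k + 1) + k) N with hn
    have hNn : N ≤ n := le_max_right _ _
    obtain ⟨x, hx, hZx⟩ := pad N n k hNn y hy
    obtain ⟨M, hM, hMα⟩ := hα k n (le_max_left _ _)
    have h1 : Z x ≤ M := hM.2 ⟨x, hx, rfl⟩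
    have h2 : (2 : ℝ) ^ (n - N) * (Z y : ℝ) ≤ α k * 2 ^ n := by
      rw [← hMα]
      rw [hZx] at h1
      exact_mod_cast h1
    have h3 : (2 : ℝ) ^ n = 2 ^ (n - N) * 2 ^ N := by
      rw [← pow_add]
      congr 1
      omega
    rw [div_le_iff₀ (by positivity)]
    have hp : (0 : ℝ) < 2 ^ (n - N) := by positivity
    have h4 : (2 : ℝ) ^ (n - N) * (Z y : ℝ) ≤ 2 ^ (n - N) * (α k * 2 ^ N) := by
      calc _ ≤ α k * 2 ^ n := h2
        _ = _ := by rw [h3]; ring
    exact le_of_mul_le_mul_left h4 hp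


end JM3
export JM3 (intrinsic)
end ZA
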