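import Pool.Agent.Helper470.ZA.DefsC
import Pool.Agent.Helper470.ZA.G3
import Pool.Agent.Helper470.ZA.H10
import Pool.Agent.Helper470.ZA.M1
import Pool.Agent.Helper470.ZA.M2
import Pool.Agent.Helper470.ZA.M3
set_option autoImplicit false
open Finset
open scoped Classical

namespace ZA
namespace JM4














theorem cast_pow_aux_753 (n N z : ℕ) (h : N ≤ n) :
    ((2 ^ (n - N) * z : ℕ) : ℝ) = ((z : ℝ) / 2 ^ N) * 2 ^ n := by
  have h1 : (2 : ℝ) ^ n = 2 ^ (n - N) * 2 ^ N := by rw [← pow_add, Nat.sub_add_cancel h]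
  rw [h1]
  push_cast
  field_simp

-- TARGET (prove this)
theorem ext_range (α : ℕ → ℝ)
    (hα : ∀ k n : ℕ, 4 ^ (k + 1) + k ≤ n →
      ∃ M : ℕ, IsGreatest {m : ℕ | ∃ x : Fin n → ℝ, Admissible (n - k) x ∧ Z x = m} M ∧ (M : ℝ) = α k * 2 ^ n)
    (δ : ℝ) (hδ : 0 < δ) : ∃ k0 : ℕ, ∀ k n : ℕ, k0 ≤ k → (3 + δ) * k ≤ n →
    (8 + δ) * k ≤ ((dd (n - k) : ℝ) - 1) * n →
      ∃ M : ℕ, IsGreatest {m : ℕ | ∃ x : Fin n → ℝ, Admissible (n - k) x ∧ Z x = m} M ∧ (M : ℝ) = α k * 2 ^ n := by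
  have hδ' : 0 < min δ 1 := lt_min hδ one_pos
  obtain ⟨k1, hk1⟩ := small_support (min δ 1) hδ'
  have hδ1 : min δ 1 ≤ δ := min_le_left _ _
  have hδ2 : min δ 1 ≤ 1 := min_le_right _ _
  refine ⟨max k1 1, fun k n hk hn hd => ?_⟩
  have hkk1 : k1 ≤ k := le_trans (le_max_left _ _) hk
  have hk1' : 1 ≤ k := le_trans (le_max_right _ _) hk
  have hkr : (1 : ℝ) ≤ k := by exact_mod_cast hk1'
  have hδk : 0 < δ * k := by positivity
  have hδ1k : min δ 1 * k ≤ δ * k := mul_le_mul_of_nonneg_right hδ1 (by positivity)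
  have hδ2k : min δ 1 * k ≤ 1 * k := mul_le_mul_of_nonneg_right hδ2 (by positivity)
  have h3 : (3 : ℝ) * k ≤ n := by nlinarith
  have h3' : 3 * k ≤ n := by exact_mod_cast h3
  have hr : 1 ≤ n - k := by omega
  obtain ⟨M, ⟨x, hx, hZx⟩, hMub⟩ := max_exists n (n - k) hr
  have hxmax : ∀ x' : Fin n → ℝ, Admissible (n - k) x' → Z x' ≤ Z x := by
    intro x' hx'
    rw [hZx]
    exact hMub ⟨x', hx', rfl⟩
  have hN := hk1 k n hkk1 h3 (by nlinarith) x hx hxmax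
  have hNk : (univ.filter (fun i => x i ≠ 0)).card + k ≤ n := by
    have : (((univ.filter (fun i => x i ≠ 0)).card + k : ℕ) : ℝ) ≤ n := by
      push_cast
      nlinarith
    exact_mod_cast this
  obtain ⟨y, hy, hZy⟩ := compress n k x hx (by omega)
  have hint := intrinsic α hα k
  have hup : (M : ℝ) ≤ α k * 2 ^ n := by
    rw [← hZx, hZy, cast_pow_aux_753 n _ (Z y) (by omega)]
    exact mul_le_mul_of_nonneg_right (hint.2 ⟨_, y, hy, rfl⟩) (by positivity)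
  -- converse
  obtain ⟨n', hn'⟩ : ∃ n', n' = max (4 ^ (k + 1) + k) (max n (9 * k + 9)) := ⟨_, rfl⟩
  have hn1 : 4 ^ (k + 1) + k ≤ n' := hn' ▸ le_max_left _ _
  have hn2 : 9 * k + 9 ≤ n' := hn' ▸ le_trans (le_max_right _ _) (le_max_right _ _)
  obtain ⟨M', ⟨⟨x', hx', hZx'⟩, hM'ub⟩, eM'⟩ := hα k n' hn1
  have hx'max : ∀ x'' : Fin n' → ℝ, Admissible (n' - k) x'' → Z x'' ≤ Z x' := by
    intro x'' hx''
    rw [hZx']
    exact hM'ub ⟨x'', hx'', rfl⟩
  have hdd := (dd_facts (n' - k) (by omega)).1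
  have hdd' : (2 : ℝ) ≤ (dd (n' - k) : ℝ) := by exact_mod_cast hdd
  have hn2' : (9 : ℝ) * k + 9 ≤ n' := by exact_mod_cast hn2
  have hN' := hk1 k n' hkk1 (by linarith) (by nlinarith) x' hx' hx'max
  have hN'k : (univ.filter (fun i => x' i ≠ 0)).card + k ≤ n := by
    have : (((univ.filter (fun i => x' i ≠ 0)).card + k : ℕ) : ℝ) ≤ n := by
      push_cast
      nlinarith
    exact_mod_cast this
  have hN'k' : (univ.filter (fun i => x' i ≠ 0)).card + k ≤ n' := by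
    have : (((univ.filter (fun i => x' i ≠ 0)).card + k : ℕ) : ℝ) ≤ n' := by
      push_cast
      nlinarith
    exact_mod_cast this
  obtain ⟨y', hy', hZy'⟩ := compress n' k x' hx' (by omega)
  have hα' : α k = (Z y' : ℝ) / 2 ^ (univ.filter (fun i => x' i ≠ 0)).card := by
    have h1 := eM'
    rw [← hZx', hZy', cast_pow_aux_753 n' _ (Z y') (by omega)] at h1
    exact (mul_right_cancel₀ (by positivity) h1).symm
  obtain ⟨x'', hx'', hZx''⟩ := pad _ n k (by omega : (univ.filter (fun i => x' i ≠ 0)).card ≤ n) y' hy'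
  have hlow : α k * 2 ^ n ≤ (M : ℝ) := by
    have h1 : Z x'' ≤ M := hMub ⟨x'', hx'', rfl⟩
    have h2 : ((Z x'' : ℕ) : ℝ) = α k * 2 ^ n := by
      rw [hZx'', cast_pow_aux_753 n _ (Z y') (by omega), hα']
    rw [← h2]
    exact_mod_cast h1
  exact ⟨M, ⟨⟨x, hx, hZx⟩, hMub⟩, le_antisymm hup hlow⟩


end JM4
export JM4 (ext_range)
end ZA
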