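import Pool.Agent.Helper470.ZA.DefsC
import Pool.Agent.Helper470.ZA.B1
import Pool.Agent.Helper470.ZA.B2
import Pool.Agent.Helper470.ZA.E6
import Pool.Agent.Helper470.ZA.H10
import Pool.Agent.Helper470.ZA.H12
import Pool.Agent.Helper470.ZA.H17
import Pool.Agent.Helper470.ZA.H8
import Pool.Agent.Helper470.ZA.H9
set_option autoImplicit false
open Finset
open scoped Classical

namespace ZA
namespace JN1

theorem card_sdiff_inst {ι : Type} (I1 I2 : DecidableEq ι) (s S : Finset ι) :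
    (@SDiff.sdiff (Finset ι) (@Finset.instSDiff ι I1) s S).card =
      (@SDiff.sdiff (Finset ι) (@Finset.instSDiff ι I2) s S).card := by
  rw [Subsingleton.elim I1 I2]



















-- TARGET (prove this)
theorem odd_support_A1 (a b M M' : ℝ) (ha : 0 ≤ a) (hM : 0 < M) (hM' : 0 < M')
    (h : a * √(2 / (Real.pi * M)) ≤ b * √(2 / (Real.pi * M'))) : a ^ 2 * M' ≤ b ^ 2 * M := by
  have hpi := Real.pi_pos
  have hX : 0 ≤ 2 / (Real.pi * M) := by positivity
  have hY : 0 ≤ 2 / (Real.pi * M') := by positivity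
  have h2 := pow_le_pow_left₀ (by positivity) h 2
  rw [mul_pow, mul_pow, Real.sq_sqrt hX, Real.sq_sqrt hY] at h2
  have h3 := mul_le_mul_of_nonneg_right h2 (by positivity : 0 ≤ Real.pi * M * M' / 2)
  have e1 : a ^ 2 * (2 / (Real.pi * M)) * (Real.pi * M * M' / 2) = a ^ 2 * M' := by
    field_simp
  have e2 : b ^ 2 * (2 / (Real.pi * M')) * (Real.pi * M * M' / 2) = b ^ 2 * M := by
    field_simp
  rw [e1, e2] at h3
  exact h3

theorem odd_support_A2 (b M M' : ℝ) (hb : 0 ≤ b) (hM : 0 < M) (hM' : 0 < M')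
    (h : M' ≤ b ^ 2 * M) : √(2 / (Real.pi * M)) ≤ b * √(2 / (Real.pi * M')) := by
  have hpi := Real.pi_pos
  have hY : 0 ≤ 2 / (Real.pi * M') := by positivity
  rw [Real.sqrt_le_iff]
  refine ⟨by positivity, ?_⟩
  rw [mul_pow, Real.sq_sqrt hY, ← mul_div_assoc, div_le_div_iff₀ (by positivity) (by positivity)]
  have := mul_le_mul_of_nonneg_left h (by positivity : 0 ≤ 2 * Real.pi)
  linarith

theorem odd_support_comb {n r : ℕ} (x : Fin n → ℝ) (hadm : Admissible r x)
    (s : Finset (Fin n)) (hs : ∀ i, i ∉ s → x i = 0) :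
    ∀ B ⊆ s, ∑ i ∈ B, x i = 0 → r < B.card ∨ B.card + (n - s.card) < r := by
  intro B hB hsum
  by_contra hcon
  push Not at hcon
  obtain ⟨h1, h2⟩ := hcon
  have hc : (univ \ s).card = n - s.card := by
    rw [card_univ_sdiff, Fintype.card_fin]
  have hle : r - B.card ≤ (univ \ s).card := by omega
  obtain ⟨W, hW, hWc⟩ := Finset.exists_subset_card_eq hle
  have hd : Disjoint B W := by
    rw [Finset.disjoint_left]
    intro i hi hi'
    exact (mem_sdiff.1 (hW hi')).2 (hB hi)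
  apply hadm (B ∪ W)
  · rw [card_union_of_disjoint hd, hWc]
    omega
  · rw [sum_union hd, hsum, zero_add]
    apply sum_eq_zero
    intro i hi
    exact hs i (mem_sdiff.1 (hW hi)).2

theorem odd_support_VV (n k : ℕ) (hk : 1 ≤ k) (hn : 4 * k ≤ n) (hodd : Odd (n - k)) :
    VV n (n - k) = min n (8 * k) := by
  have hd : dd (n - k) = 2 := by
    obtain ⟨h1, h2, h3⟩ := dd_facts (n - k) (by omega)
    by_contra hne
    have h4 := h3 2 (by norm_num) (by omega)
    exact (Nat.not_even_iff_odd.2 hodd) (even_iff_two_dvd.2 h4)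
  unfold VV Ns
  rw [hd]
  have e1 : n - (n - k) = k := by omega
  rw [e1]
  have e2 : min (n - k) k = k := by omega
  rw [e2]
  have e3 : max k (2 * k) = 2 * k := by omega
  rw [e3]
  congr 1
  · omega
  · omega

theorem odd_support : ∃ k0 : ℕ, ∀ k n : ℕ, k0 ≤ k → 4 * k ≤ n → Odd (n - k) →
    ∀ x : Fin n → ℝ, Admissible (n - k) x → (∀ x' : Fin n → ℝ, Admissible (n - k) x' → Z x' ≤ Z x) →
    (∃ i, x i = 0) → ((univ.filter (fun i => x i ≠ 0)).card : ℝ) ≤ (5 / 2 : ℝ) * k := by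
  obtain ⟨K, δ, N1, hK, hδ, hstruct⟩ := struct (1 / 100) (by norm_num) (by norm_num)
  obtain ⟨N2, hlin⟩ := lin2 (1 / 2) (by norm_num) K hK δ hδ
  obtain ⟨k1, hlow⟩ := low_all (1 / 100) (by norm_num)
  refine ⟨N1 + N2 + k1 + 100 * (2 * K + 1), ?_⟩
  intro k n hk hn hodd x hadm hmax hzero
  obtain ⟨i0, hi0⟩ := hzero
  have hk1 : 1 ≤ k := by omega
  obtain ⟨r, hr⟩ : ∃ r, r = n - k := ⟨_, rfl⟩
  have hVV := odd_support_VV n k hk1 hn hodd
  rw [← hr] at hadm hmax hodd hVV
  obtain ⟨x', hx', hx'2⟩ := hlow n r (by omega) (by omega)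
  have hZ : (Z x' : ℝ) ≤ Z x := by exact_mod_cast hmax x' hx'
  set s : Finset (Fin n) := univ.filter (fun i => x i ≠ 0) with hs
  have hs0 : ∀ i, i ∉ s → x i = 0 := by
    intro i hi
    by_contra h
    exact hi (mem_filter.2 ⟨mem_univ _, h⟩)
  have hs1 : ∀ i ∈ s, x i ≠ 0 := fun i hi => (mem_filter.1 hi).2
  have hNn : s.card < n := by
    have hi : i0 ∉ s := fun h => hs1 i0 h hi0
    have := Finset.card_lt_univ_of_notMem hi
    rwa [Fintype.card_fin] at this
  have hcomb := odd_support_comb x hadm s hs0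
  have hNk : k < s.card := by
    rcases hcomb ∅ (empty_subset _) (by simp) with h | h
    · simp at h
    · simp at h
      omega
  have hp : pr s x 0 = (Z x : ℝ) / 2 ^ n := by
    rw [← pr_zeros s univ (subset_univ _) x (fun i _ hi => hs0 i hi) 0]
    unfold pr cnt Z
    rw [powerset_univ, card_univ, Fintype.card_fin]
  obtain ⟨p, hpdef⟩ : ∃ p, p = pr s x 0 := ⟨_, rfl⟩
  obtain ⟨N, hN⟩ : ∃ N : ℝ, N = (s.card : ℝ) := ⟨_, rfl⟩
  have hkR : (1 : ℝ) ≤ k := by exact_mod_cast hk1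
  have hk0R : (0 : ℝ) < k := by linarith
  have hNkR : (k : ℝ) < N := by rw [hN]; exact_mod_cast hNk
  have hN0 : 0 < N := by linarith
  have hnR : (4 : ℝ) * k ≤ n := by exact_mod_cast hn
  have hn0R : (0 : ℝ) < n := by linarith
  have hVn : ((VV n r : ℕ) : ℝ) ≤ n := by
    rw [hVV]; exact_mod_cast min_le_left _ _
  have hV8 : ((VV n r : ℕ) : ℝ) ≤ 8 * k := by
    rw [hVV]; exact_mod_cast min_le_right _ _
  have hV0 : (0 : ℝ) < ((VV n r : ℕ) : ℝ) := by
    rw [hVV]
    have : 0 < min n (8 * k) := by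
      rw [lt_min_iff]; omega
    exact_mod_cast this
  -- lower bounds for p
  have hpV : (1 - 1 / 100) * √(2 / (Real.pi * ((VV n r : ℕ) : ℝ))) ≤ p := by
    rw [hpdef, hp, le_div_iff₀ (by positivity)]
    calc _ = (1 - 1 / 100) * (2 ^ n * √(2 / (Real.pi * ((VV n r : ℕ) : ℝ)))) := by ring
      _ ≤ _ := hx'2
      _ ≤ _ := hZ
  have hpn : (1 - 1 / 100) * √(2 / (Real.pi * (n : ℝ))) ≤ p := by
    refine le_trans ?_ hpV
    have := odd_support_A2 1 n ((VV n r : ℕ) : ℝ) (by norm_num) hn0R hV0 (by linarith)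
    rw [one_mul] at this
    exact mul_le_mul_of_nonneg_left this (by norm_num)
  have hp8 : (1 - 1 / 100) * √(2 / (Real.pi * (8 * (k : ℝ)))) ≤ p := by
    refine le_trans ?_ hpV
    have := odd_support_A2 1 (8 * (k : ℝ)) ((VV n r : ℕ) : ℝ) (by norm_num) (by linarith) hV0
      (by linarith)
    rw [one_mul] at this
    exact mul_le_mul_of_nonneg_left this (by norm_num)
  -- the claim
  have hclaim : p ≤ (1 / 2 + 1 / 100) * √(2 / (Real.pi * N)) := by
    by_contra hcon
    push Not at hcon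
    have hLO : p ≤ 1 / √N := by
      rw [hpdef, hN]
      exact pr_le_LO s (card_pos.1 (by omega)) x hs1 0
    have h13 : N ≤ 13 * k := by
      have h1 := hp8.trans hLO
      have h2 := pow_le_pow_left₀ (by positivity) h1 2
      rw [mul_pow, Real.sq_sqrt (by positivity), div_pow, Real.sq_sqrt hN0.le, one_pow] at h2
      rw [← mul_div_assoc, div_le_div_iff₀ (by positivity) hN0] at h2
      have hpi2 : Real.pi < 3.1416 := Real.pi_lt_d4
      have hpik : Real.pi * k ≤ 3.1416 * k := mul_le_mul_of_nonneg_right hpi2.le hk0R.le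
      norm_num at h2 hpik
      linarith
    obtain ⟨S, z, v, hv, hSs, hxz, hz0, hzK, hSδ, hgcd, hsS, hsum, hpS⟩ :=
      hstruct s x (by omega) hs1 (by rw [← hpdef, ← hN]; exact hcon)
    rw [← hN] at hsS hsum hpS
    rw [← hpdef] at hpS
    have hcomb' : ∀ B ⊆ s, ∑ i ∈ B, z i = 0 →
        r - 1 < B.card ∨ B.card + ((n - 1) - s.card) < r - 1 := by
      intro B hB hz
      have hx0 : ∑ i ∈ B, x i = 0 := by
        rw [sum_congr rfl (fun i hi => hxz i (hB hi)), ← sum_mul, ← Int.cast_sum, hz]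
        simp
      rcases hcomb B hB hx0 with h | h
      · left; omega
      · right; omega
    have hSnR : ((S.card : ℕ) : ℝ) = N - ((s \ S).card : ℝ) := by
      rw [card_sdiff_of_subset hSs, Nat.cast_sub (card_le_card hSs), hN]
      ring
    obtain ⟨hnN, d, hd2, hdiff, hdr⟩ := hlin s S z (n - 1) (r - 1) (by omega) (by omega) (by omega)
      (by omega) (by omega) (by
        have h1 : n - 1 ≤ 2 * (r - 1) := by omega
        have h2 : ((n - 1 : ℕ) : ℝ) ≤ 2 * ((r - 1 : ℕ) : ℝ) := by exact_mod_cast h1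
        linarith) (by
        have h1 : (n - 1) - (r - 1) = k := by omega
        rw [h1, ← hN]
        exact h13) hcomb' hSs (fun i hi => ⟨hz0 i (hSs hi), hzK i hi⟩) hSδ (by
        rw [← hN]
        refine hsS.trans ?_
        apply mul_le_mul_of_nonneg_right _ hN0.le
        norm_num) (by
        rw [← hN]
        refine hsum.trans ?_
        apply mul_le_mul_of_nonneg_right _ hN0.le
        norm_num)
    have hd3 : 3 ≤ d := by
      by_contra h
      have h2 : d = 2 := by omega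
      apply hdr
      rw [h2]
      obtain ⟨m, hm⟩ := hodd
      exact ⟨m, by omega⟩
    have hcore := core_alg2 S z d 3 hd2 hdiff hgcd (by norm_num) (by norm_num) hd3
    have hcoreR : (2 : ℝ) * S.card - 8 * |∑ i ∈ S, (z i : ℝ)| ≤ ∑ i ∈ S, (z i : ℝ) ^ 2 := by
      have h1 : (((3 : ℕ) : ℤ) - 1) * (S.card : ℤ) - 8 * |∑ i ∈ S, z i| ≤ ∑ i ∈ S, (z i) ^ 2 :=
        hcore
      have h2 : (((((3 : ℕ) : ℤ) - 1) * (S.card : ℤ) - 8 * |∑ i ∈ S, z i| : ℤ) : ℝ) ≤
          ((∑ i ∈ S, (z i) ^ 2 : ℤ) : ℝ) := by exact_mod_cast h1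
      push_cast at h2
      linarith
    have hsS' : ((s \ S).card : ℝ) ≤ (1 / 100 / 16) ^ 2 * N := by
      refine le_trans (le_of_eq ?_) hsS
      exact_mod_cast card_sdiff_inst _ _ s S
    have hV : (197 / 100 : ℝ) * N ≤ ∑ i ∈ S, (z i : ℝ) ^ 2 := by
      rw [hSnR] at hcoreR
      norm_num at hsS' hsum
      linarith
    have hA : √(2 / (Real.pi * ∑ i ∈ S, (z i : ℝ) ^ 2)) ≤ (72 / 100) * √(2 / (Real.pi * N)) := by
      apply odd_support_A2 _ _ _ (by norm_num) (by linarith) hN0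
      norm_num
      linarith
    have hc := c39 N hN0
    have hn1 : ((n - 1 : ℕ) : ℝ) ≤ N + 2 * K := by
      rw [hN]
      exact_mod_cast hnN
    have hn2 : ((n - 1 : ℕ) : ℝ) = n - 1 := by
      rw [Nat.cast_sub (by omega)]
      simp
    rw [hn2] at hn1
    have hKk : (100 : ℝ) * (2 * K + 1) ≤ k := by
      have : 100 * (2 * K + 1) ≤ k := by omega
      exact_mod_cast this
    have hB : √(2 / (Real.pi * N)) ≤ (101 / 100) * √(2 / (Real.pi * (n : ℝ))) := by
      apply odd_support_A2 _ _ _ (by norm_num) hN0 hn0R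
      norm_num
      linarith
    have hn3 : 0 < √(2 / (Real.pi * (n : ℝ))) := by positivity
    have e : (1 / 100 / 4 : ℝ) / √N = (1 / 400) * (1 / √N) := by ring
    rw [e] at hpS
    linarith
  have hfin := odd_support_A1 (1 - 1 / 100) (1 / 2 + 1 / 100) (8 * (k : ℝ)) N (by norm_num)
    (by linarith) hN0 (hp8.trans hclaim)
  rw [← hN]
  norm_num at hfin
  linarith


end JN1
export JN1 (odd_support)
end ZA
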