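import Pool.Agent.Helper470.ZA.DefsC
import Pool.Agent.Helper470.ZA.H10
import Pool.Agent.Helper470.ZA.M1
import Pool.Agent.Helper470.ZA.M2
set_option autoImplicit false
open Finset
open scoped Classical

namespace ZA
namespace JN2










-- TARGET (prove this)
theorem attain_alpha (α : ℕ → ℝ)
    (hα : ∀ k n : ℕ, 4 ^ (k + 1) + k ≤ n →
      ∃ M : ℕ, IsGreatest {m : ℕ | ∃ x : Fin n → ℝ, Admissible (n - k) x ∧ Z x = m} M ∧ (M : ℝ) = α k * 2 ^ n) :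
    ∃ k0 : ℕ, ∀ k n : ℕ, k0 ≤ k → 3 * k ≤ n → ∃ x : Fin n → ℝ, Admissible (n - k) x ∧ (Z x : ℝ) = α k * 2 ^ n := by
  obtain ⟨k1, hk1⟩ := small_support (1/2) (by norm_num)
  refine ⟨max k1 1, ?_⟩
  intro k n hk hn
  have hkk1 : k1 ≤ k := le_trans (le_max_left _ _) hk
  have hk1' : 1 ≤ k := le_trans (le_max_right _ _) hk
  obtain ⟨n', hn'⟩ : ∃ n', n' = max (4^(k+1)+k) (max n (9*k+9)) := ⟨_, rfl⟩
  have h1 : 4^(k+1)+k ≤ n' := hn' ▸ le_max_left _ _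
  have h2 : n ≤ n' := hn' ▸ le_trans (le_max_left _ _) (le_max_right _ _)
  have h3 : 9*k+9 ≤ n' := hn' ▸ le_trans (le_max_right _ _) (le_max_right _ _)
  obtain ⟨M, ⟨⟨x', hx'adm, hx'Z⟩, hMub⟩, hM⟩ := hα k n' h1
  have hmax : ∀ x'' : Fin n' → ℝ, Admissible (n' - k) x'' → Z x'' ≤ Z x' := by
    intro x'' hx''
    rw [hx'Z]
    exact hMub ⟨x'', hx'', rfl⟩
  have hdd := (dd_facts (n' - k) (by omega)).1
  have hsmall := hk1 k n' hkk1 (by
      have : 3 * k ≤ n' := by omega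
      exact_mod_cast this) (by
      have ha : ((9*k+9 : ℕ) : ℝ) ≤ (n' : ℝ) := by exact_mod_cast h3
      push_cast at ha
      have hb : (2 : ℝ) ≤ (dd (n' - k) : ℝ) := by exact_mod_cast hdd
      have hk0 : (0 : ℝ) ≤ (k : ℝ) := Nat.cast_nonneg _
      have hn0 : (0 : ℝ) ≤ (n' : ℝ) := Nat.cast_nonneg _
      nlinarith [mul_nonneg (sub_nonneg.mpr hb) hn0]) x' hx'adm hmax
  have hN3 : (univ.filter (fun i => x' i ≠ 0)).card ≤ 3 * k := by
    have hk0 : (0 : ℝ) ≤ (k : ℝ) := Nat.cast_nonneg _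
    have : (((univ.filter (fun i => x' i ≠ 0)).card : ℕ) : ℝ) ≤ ((3 * k : ℕ) : ℝ) := by
      push_cast
      linarith
    exact_mod_cast this
  have key : ∀ (N : ℕ) (y : Fin N → ℝ), N ≤ n → NoBig k y → Z x' = 2 ^ (n' - N) * Z y →
      ∃ x : Fin n → ℝ, Admissible (n - k) x ∧ (Z x : ℝ) = α k * 2 ^ n := by
    intro N y hNn hy hZy
    obtain ⟨x, hxadm, hxZ⟩ := pad N n k hNn y hy
    refine ⟨x, hxadm, ?_⟩
    have hNn' : N ≤ n' := le_trans hNn h2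
    have e1 : ((2:ℝ) ^ (n' - N)) * (Z y : ℝ) = α k * 2 ^ n' := by
      rw [← hM, ← hx'Z, hZy]
      push_cast
      ring
    have e2 : (2:ℝ) ^ n' = 2 ^ (n' - N) * 2 ^ N := by
      rw [← pow_add]; congr 1; omega
    have e3 : (2:ℝ) ^ n = 2 ^ (n - N) * 2 ^ N := by
      rw [← pow_add]; congr 1; omega
    have hpos : (0:ℝ) < 2 ^ (n' - N) := by positivity
    have e4 : (Z y : ℝ) = α k * 2 ^ N := by
      have : (2:ℝ) ^ (n' - N) * (Z y : ℝ) = (2:ℝ) ^ (n' - N) * (α k * 2 ^ N) := by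
        rw [e1, e2]; ring
      exact mul_left_cancel₀ hpos.ne' this
    rw [hxZ]
    push_cast
    rw [e4, e3]
    ring
  obtain ⟨y, hy, hZy⟩ := compress n' k x' hx'adm (by omega)
  exact key _ y (le_trans hN3 hn) hy hZy


end JN2
export JN2 (attain_alpha)
end ZA
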