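import Pool.Agent.Helper470.ZA.DefsC
import Pool.Agent.Helper470.ZA.E19
import Pool.Agent.Helper470.ZA.G3
import Pool.Agent.Helper470.ZA.K1
import Pool.Agent.Helper470.ZA.K2
import Pool.Agent.Helper470.ZA.M2
import Pool.Agent.Helper470.ZA.M3
import Pool.Agent.Helper470.ZA.N1
import Pool.Agent.Helper470.ZA.N2
import Pool.Agent.Helper470.ZA.OddUp
set_option autoImplicit false
open Finset
open scoped Classical

namespace ZA
namespace JN3






















-- TARGET (prove this)
theorem odd_all (α : ℕ → ℝ)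
    (hα : ∀ k n : ℕ, 4 ^ (k + 1) + k ≤ n →
      ∃ M : ℕ, IsGreatest {m : ℕ | ∃ x : Fin n → ℝ, Admissible (n - k) x ∧ Z x = m} M ∧ (M : ℝ) = α k * 2 ^ n)
    (hlim : Filter.Tendsto (fun k : ℕ => α k * (2 * √(Real.pi * k))) Filter.atTop (nhds 1)) :
    ∃ n0 : ℕ, ∀ n : ℕ, n0 ≤ n → ∀ r : ℕ, Odd r → r ≤ n →
      ∃ M : ℕ, IsGreatest {m : ℕ | ∃ x : Fin n → ℝ, Admissible r x ∧ Z x = m} M ∧
        (M : ℝ) = max (n.choose (n / 2) : ℝ) (α (n - r) * 2 ^ n) := by
  obtain ⟨k1, hk1⟩ := odd_support
  obtain ⟨k2, hk2⟩ := attain_alpha α hα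
  have hev : ∀ᶠ k : ℕ in Filter.atTop, α k * (2 * √(Real.pi * k)) < 1 + 1 / 1000 :=
    hlim.eventually (gt_mem_nhds (by norm_num))
  obtain ⟨k3, hk3⟩ := Filter.eventually_atTop.mp hev
  obtain ⟨n1, hn1⟩ := odd_exact (1 / 100) (by norm_num)
  obtain ⟨n2, hn2⟩ := cb (1 / 1000) (by norm_num)
  obtain ⟨k0, hk0⟩ : ∃ k0 : ℕ, k0 = max k1 (max k2 (max k3 1)) := ⟨_, rfl⟩
  have hk01 : k1 ≤ k0 := by omega
  have hk02 : k2 ≤ k0 := by omega
  have hk03 : k3 ≤ k0 := by omega
  have hk04 : 1 ≤ k0 := by omega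
  obtain ⟨P, hP⟩ : ∃ P : ℕ, P = 4 ^ (k0 + 1) + k0 := ⟨_, rfl⟩
  refine ⟨n1 + n2 + P + (8 * k0 + 8), ?_⟩
  intro n hn r hodd hrn
  obtain ⟨k, hk⟩ : ∃ k, k = n - r := ⟨_, rfl⟩
  have hnk : n - k = r := by omega
  rw [← hk]
  have h2n : (0 : ℝ) < 2 ^ n := by positivity
  have hn1' : n1 ≤ n := by omega
  have hn2' : n2 ≤ n := by omega
  have hn8 : 8 * k0 + 8 ≤ n := by omega
  have hn4 : 4 ^ (k0 + 1) + k0 ≤ n := by
    rw [← hP]
    omega
  have hkr : (k : ℝ) + r = n := by
    have : k + r = n := by omega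
    exact_mod_cast this
  obtain ⟨xl, hxl, hZl⟩ := odd_low n r hodd
  by_cases hA : (r : ℝ) ≤ (7 / 8 - 1 / 100) * n
  · have hG := hn1 n hn1' r hodd hA
    refine ⟨n.choose (n / 2), hG, ?_⟩
    symm
    apply max_eq_left
    have hnpos : (0 : ℝ) < n := by
      have : 0 < n := by omega
      exact_mod_cast this
    have hkn : (27 / 200 : ℝ) * n ≤ k := by linarith
    have hkk3 : k3 ≤ k := by
      have h1 : (8 * (k0 : ℝ) + 8) ≤ n := by exact_mod_cast hn8
      have h2 : (k0 : ℝ) ≤ k := by
        have h3 : (0 : ℝ) ≤ k0 := Nat.cast_nonneg _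
        linarith
      have h3 : k0 ≤ k := by exact_mod_cast h2
      omega
    have h1 := hk3 k hkk3
    have hkpos : (0 : ℝ) < k := by
      have : (0 : ℝ) < (27 / 200 : ℝ) * n := by positivity
      linarith
    have hpi := Real.pi_pos
    set A := √(Real.pi * k) with hAdef
    set B := √(2 / (Real.pi * n)) with hBdef
    have hApos : 0 < A := Real.sqrt_pos.mpr (by positivity)
    have hBpos : 0 < B := Real.sqrt_pos.mpr (by positivity)
    have hAB : (51 / 100 : ℝ) ≤ A * B := by
      have h2 : A * B = √(Real.pi * k * (2 / (Real.pi * n))) :=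
        (Real.sqrt_mul (by positivity) _).symm
      rw [h2]
      apply Real.le_sqrt_of_sq_le
      have h3 : Real.pi * k * (2 / (Real.pi * n)) = 2 * k / n := by
        field_simp
      rw [h3, le_div_iff₀ hnpos]
      nlinarith
    have h3 : α k ≤ (1 - 1 / 1000) * B := by
      have h4 : α k * (2 * A) ≤ ((1 - 1 / 1000) * B) * (2 * A) := by
        nlinarith
      exact le_of_mul_le_mul_right h4 (by positivity)
    have h4 := h3.trans (hn2 n hn2').1
    rwa [le_div_iff₀ h2n] at h4
  · push Not at hA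
    by_cases hC : k < k0
    · have h4k : 4 ^ (k + 1) + k ≤ n := by
        have : 4 ^ (k + 1) ≤ 4 ^ (k0 + 1) := Nat.pow_le_pow_right (by norm_num) (by omega)
        omega
      obtain ⟨M, hM, hMα⟩ := hα k n h4k
      rw [hnk] at hM
      refine ⟨M, hM, ?_⟩
      rw [← hMα]
      symm
      apply max_eq_right
      have h1 : n.choose (n / 2) ≤ M := hM.2 ⟨xl, hxl, hZl⟩
      exact_mod_cast h1
    · push Not at hC
      have h4k : 4 * k ≤ n := by
        have h1 : (4 * (k : ℝ)) ≤ n := by
          have : (0 : ℝ) ≤ n := Nat.cast_nonneg _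
          linarith
        exact_mod_cast h1
      have hr1 : 1 ≤ r := hodd.pos
      obtain ⟨M, hM⟩ := max_exists n r hr1
      refine ⟨M, hM, ?_⟩
      have hM2 : n.choose (n / 2) ≤ M := hM.2 ⟨xl, hxl, hZl⟩
      have hMα : α k * 2 ^ n ≤ (M : ℝ) := by
        obtain ⟨x', hx', hZx'⟩ := hk2 k n (by omega) (by omega)
        rw [hnk] at hx'
        rw [← hZx']
        have : Z x' ≤ M := hM.2 ⟨x', hx', rfl⟩
        exact_mod_cast this
      obtain ⟨x, hx, hZ⟩ := hM.1
      by_cases hall : ∀ i, x i ≠ 0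
      · have h1 : Z x ≤ n.choose (n / 2) := LO_exact x hall
        have h2 : M = n.choose (n / 2) := by omega
        rw [← h2]
        exact (max_eq_left hMα).symm
      · push Not at hall
        have hx2 := hx
        rw [← hnk] at hx2
        have hmax : ∀ x' : Fin n → ℝ, Admissible (n - k) x' → Z x' ≤ Z x := by
          intro x' hx'
          rw [hnk] at hx'
          rw [hZ]
          exact hM.2 ⟨x', hx', rfl⟩
        have hodd' : Odd (n - k) := by
          rw [hnk]
          exact hodd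
        have hN := hk1 k n (by omega) h4k hodd' x hx2 hmax hall
        have hN' : (univ.filter (fun i => x i ≠ 0)).card ≤ n - k := by
          have h1 : ((univ.filter (fun i => x i ≠ 0)).card : ℝ) ≤ ((3 * k : ℕ) : ℝ) := by
            push_cast
            have : (0 : ℝ) ≤ k := Nat.cast_nonneg _
            linarith
          have h2 : (univ.filter (fun i => x i ≠ 0)).card ≤ 3 * k := by exact_mod_cast h1
          omega
        obtain ⟨y, hy, hZy⟩ := compress n k x hx2 hN'
        have h1 := (intrinsic α hα k).2 ⟨_, y, hy, rfl⟩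
        have h2 : (M : ℝ) ≤ α k * 2 ^ n := by
          rw [← hZ, hZy]
          push_cast
          have hNn : (univ.filter (fun i => x i ≠ 0)).card ≤ n := by omega
          have h3 : (2 : ℝ) ^ n = 2 ^ (n - (univ.filter (fun i => x i ≠ 0)).card) *
              2 ^ (univ.filter (fun i => x i ≠ 0)).card := by
            rw [← pow_add]
            congr 1
            omega
          have h4 : (Z y : ℝ) ≤ α k * 2 ^ (univ.filter (fun i => x i ≠ 0)).card := by
            rwa [div_le_iff₀ (by positivity)] at h1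
          rw [h3]
          calc _ ≤ (2 : ℝ) ^ (n - (univ.filter (fun i => x i ≠ 0)).card) *
                (α k * 2 ^ (univ.filter (fun i => x i ≠ 0)).card) :=
                mul_le_mul_of_nonneg_left h4 (by positivity)
            _ = _ := by ring
        have h3 : (M : ℝ) = α k * 2 ^ n := le_antisymm h2 hMα
        rw [← h3]
        symm
        apply max_eq_right
        exact_mod_cast hM2


end JN3
export JN3 (odd_all)
end ZA
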